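import Pool.Agent.Lib.MP_570070_gt.Ex.XMain
import Pool.Agent.Lib.MP_570070_gt.An.Main

/-! The cores of the three-dimensional example are relatively compact. -/

open MeasureTheory Filter Topology Set
open scoped ContDiff InnerProductSpace

namespace Pool.Agent.Lib.MP_570070_gt.Ex

open Pool.Agent.Lib.MP_570070_gt.An

variable {c : Par} {P : Type} [Nonempty P] {Γ : Gl c P}

theorem core_compact {S : Set P} (hS : S.Finite) : ∃ K, IsCompact K ∧ core Γ S ⊆ K := by
  refine ⟨_, hS.isCompact_biUnion fun p _ => isCompact_q (Γ := Γ) p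
    (isCompact_core (c := c) (a := 0) (by norm_num) 0 (2 * Real.pi)) fun _ h => h.1, fun x hx => ?_⟩
  obtain ⟨p, y, hy, h1, h2, rfl⟩ := exists_home x
  have h3 : 1 / 2 ≤ eta c y := not_lt.1 fun h => by
    obtain ⟨e, he⟩ := (eta_lt_half hy).1 h
    exact he.not_ge (h1 e)
  exact mem_iUnion₂.2 ⟨p, ((core_home hy h3).1 hx).2, y, ⟨hy, h1, h2⟩, rfl⟩

theorem compactSpace_mfd [Finite P] [Countable P] : CompactSpace (mfd Γ).M := by
  refine ⟨(finite_univ.isCompact_biUnion fun p _ => isCompact_q (Γ := Γ) p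
    (isCompact_core (c := c) (a := 0) (by norm_num) 0 (2 * Real.pi)) fun _ h => h.1).of_isClosed_subset
      isClosed_univ fun x _ => ?_⟩
  obtain ⟨p, y, hy, h1, h2, rfl⟩ := exists_home x
  exact mem_iUnion₂.2 ⟨p, trivial, y, ⟨hy, h1, h2⟩, rfl⟩

theorem base_finite (Q : Type) [Group Q] : (base Q).Finite :=
  (finite_range fun b : Bool => ((1 : Q), b)).subset fun p hp => ⟨p.2, Prod.ext hp.symm rfl⟩

end Pool.Agent.Lib.MP_570070_gt.Ex
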