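import Pool.Agent.Lib.MP_570070_gt.Ex.XDefs
import Pool.Agent.Lib.MP_570070_gt.An.AOn

/-! Abstract lemmas: Duhamel, weak limits, Hilbert-Schmidt norms. -/

open MeasureTheory Filter Topology Set
open scoped ContDiff InnerProductSpace

namespace Pool.Agent.Lib.MP_570070_gt.Ex

open Pool.Agent.Lib.MP_570070_gt.An

variable {H K : Type} [NormedAddCommGroup H] [InnerProductSpace ℝ H] [NormedAddCommGroup K]
  [InnerProductSpace ℝ K] {Γ : Submodule ℝ (H × K)} {P : ℝ → H →L[ℝ] H}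

/-- For a vector `w` the function `s ↦ ⟪P (t - s) w, z s⟫` is continuous on `[a, b]` and has the
derivative `⟪P (t - s) w, d + h⟫` for `s < t` (`IsHeat₂.back`, `Lp.symm`); `IsHeat₂.symm`,
`IsHeat₂.norm_le`, `le_of_deriv_two` or a mean value inequality. -/
theorem duhamel (hP : IsHeat₂ Γ P) {z : ℝ → H} {a b t M : ℝ} (hab : a ≤ b) (hb : b ≤ t)
    (hz : ∀ s ∈ Icc a b, ∃ ξ h d, Lp Γ (z s) ξ h ∧ HasDerivAt z d s ∧ ‖d + h‖ ≤ M) :
    ‖P (t - b) (z b) - P (t - a) (z a)‖ ≤ M * (b - a) := by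
  obtain ⟨w, hw⟩ : ∃ w, w = P (t - b) (z b) - P (t - a) (z a) := ⟨_, rfl⟩
  have hM : 0 ≤ M := by
    obtain ⟨_, _, _, -, -, h⟩ := hz a ⟨le_rfl, hab⟩
    exact (norm_nonneg _).trans h
  have hd : ∀ s ∈ interior (Icc a b), ∃ d,
      HasDerivAt (fun s => ⟪P (t - s) w, z s⟫_ℝ - M * ‖w‖ * s) d s ∧ d ≤ 0 := by
    intro s hs
    rw [interior_Icc] at hs
    have hst : s < t := hs.2.trans_le hb
    obtain ⟨ξ, h, d, a1, a2, a3⟩ := hz s (Ioo_subset_Icc_self hs)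
    obtain ⟨ξ', h', b1, b2⟩ := hP.back w hst
    refine ⟨_, (b2.inner ℝ a2).sub ((hasDerivAt_id s).const_mul (M * ‖w‖)), ?_⟩
    rw [b1.symm a1, ← inner_add_right, mul_one, sub_nonpos, mul_comm]
    exact (real_inner_le_norm _ _).trans
      (mul_le_mul (hP.norm_le (sub_nonneg.2 hst.le) w) a3 (norm_nonneg _) (norm_nonneg _))
  have hc : ContinuousOn (fun s => ⟪P (t - s) w, z s⟫_ℝ - M * ‖w‖ * s) (Icc a b) := by
    refine (ContinuousOn.inner ?_ fun s hs => ?_).sub (by fun_prop)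
    · exact (hP w).2.1.comp (g := fun r => P r w) (by fun_prop)
        fun s hs => sub_nonneg.2 (hs.2.trans hb)
    · obtain ⟨_, _, _, -, h, -⟩ := hz s hs
      exact h.continuousAt.continuousWithinAt
  have hanti := antitoneOn_of_deriv_nonpos (convex_Icc a b) hc
    (fun s hs => (hd s hs).choose_spec.1.differentiableAt.differentiableWithinAt)
    (fun s hs => (hd s hs).choose_spec.1.deriv.le.trans (hd s hs).choose_spec.2)
    ⟨le_rfl, hab⟩ ⟨hab, le_rfl⟩ hab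
  simp only [hP.symm (sub_nonneg.2 hb), hP.symm (sub_nonneg.2 (hab.trans hb))] at hanti
  have h1 : ‖w‖ * ‖w‖ ≤ M * (b - a) * ‖w‖ := by
    have h2 : ⟪w, w⟫_ℝ = ⟪w, P (t - b) (z b)⟫_ℝ - ⟪w, P (t - a) (z a)⟫_ℝ := by
      rw [← inner_sub_right, ← hw]
    rw [← real_inner_self_eq_norm_mul_norm, h2]
    linarith
  rw [← hw]
  rcases (norm_nonneg w).eq_or_lt with h | h
  · rw [← h]
    exact mul_nonneg hM (sub_nonneg.2 hab)
  · exact le_of_mul_le_mul_right h1 h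

/-- The vectors lie in the closure `Dᗮᗮ` of `D`, so `‖z ε‖ ≤ C`; approximate the projection of `w₀`
to the closure by an element of `D`. -/
theorem weak_lim [CompleteSpace H] {α : Type} {l : Filter α} {D : Submodule ℝ H} {z w : α → H}
    {z₀ w₀ : H} {C : ℝ} (h0 : z₀ ∈ D) (h1 : ∀ᶠ ε in l, ∀ v ∈ Dᗮ, ⟪z ε, v⟫_ℝ = 0)
    (hb : ∀ᶠ ε in l, ∀ d ∈ D, |⟪z ε, d⟫_ℝ| ≤ C * ‖d‖)
    (hl : ∀ d ∈ D, Tendsto (fun ε => ⟪z ε, d⟫_ℝ) l (𝓝 ⟪z₀, d⟫_ℝ)) (hw : Tendsto w l (𝓝 w₀)) :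
    Tendsto (fun ε => ⟪z ε, w ε⟫_ℝ) l (𝓝 ⟪z₀, w₀⟫_ℝ) := by
  have hn : ∀ᶠ ε in l, ‖z ε‖ ≤ |C| := by
    filter_upwards [h1, hb] with ε a1 a2
    have b1 : z ε ∈ closure (D : Set H) := by
      rw [← Submodule.topologicalClosure_coe, ← Submodule.orthogonal_orthogonal_eq_closure]
      exact (Submodule.mem_orthogonal' _ _).2 a1
    have b2 : closure (D : Set H) ⊆ {x | |⟪z ε, x⟫_ℝ| ≤ C * ‖x‖} :=
      closure_minimal a2 (isClosed_le (by fun_prop) (by fun_prop))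
    have b3 : |⟪z ε, z ε⟫_ℝ| ≤ C * ‖z ε‖ := b2 b1
    rw [real_inner_self_eq_norm_mul_norm] at b3
    rcases (norm_nonneg (z ε)).eq_or_lt with h | h
    · rw [← h]
      exact abs_nonneg C
    · exact (le_of_mul_le_mul_right ((le_abs_self _).trans b3) h).trans (le_abs_self C)
  have hq : Dᗮ.starProjection w₀ ∈ Dᗮ := Submodule.starProjection_apply_mem _ _
  have hp : w₀ - Dᗮ.starProjection w₀ ∈ closure (D : Set H) := by
    rw [← Submodule.topologicalClosure_coe, ← Submodule.orthogonal_orthogonal_eq_closure]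
    exact Submodule.sub_starProjection_mem_orthogonal _
  generalize Dᗮ.starProjection w₀ = q at hq hp
  refine Metric.tendsto_nhds.2 fun η hη => ?_
  have hL : 0 < 2 * |C| + ‖z₀‖ + 1 := by positivity
  obtain ⟨δ, hδ, hδη⟩ : ∃ δ, 0 < δ ∧ δ * (2 * |C| + ‖z₀‖ + 1) = η :=
    ⟨η / _, div_pos hη hL, div_mul_cancel₀ _ hL.ne'⟩
  obtain ⟨d, hd, hdq⟩ := Metric.mem_closure_iff.1 hp δ hδ
  rw [dist_eq_norm] at hdq
  filter_upwards [h1, hn, Metric.tendsto_nhds.1 (hl d hd) δ hδ, Metric.tendsto_nhds.1 hw δ hδ]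
    with ε a1 a2 a3 a4
  rw [dist_eq_norm] at a4
  rw [Real.dist_eq, abs_lt] at a3 ⊢
  have e : ⟪z ε, w ε⟫_ℝ - ⟪z₀, w₀⟫_ℝ = ⟪z ε, w ε - w₀⟫_ℝ + ⟪z ε, w₀ - q - d⟫_ℝ +
      (⟪z ε, d⟫_ℝ - ⟪z₀, d⟫_ℝ) - ⟪z₀, w₀ - q - d⟫_ℝ := by
    simp only [inner_sub_right, a1 q hq, Submodule.inner_right_of_mem_orthogonal h0 hq]
    ring
  have c1 := abs_le.1 ((abs_real_inner_le_norm (z ε) (w ε - w₀)).trans
    (mul_le_mul a2 a4.le (norm_nonneg _) (abs_nonneg _)))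
  have c2 := abs_le.1 ((abs_real_inner_le_norm (z ε) (w₀ - q - d)).trans
    (mul_le_mul a2 hdq.le (norm_nonneg _) (abs_nonneg _)))
  have c3 := abs_le.1 ((abs_real_inner_le_norm z₀ (w₀ - q - d)).trans
    (mul_le_mul_of_nonneg_left hdq.le (norm_nonneg _)))
  rw [e, ← hδη]
  constructor <;> linarith [a3.1, a3.2, c1.1, c1.2, c2.1, c2.2, c3.1, c3.2]

open scoped MatrixOrder in
theorem abs_root {ι : Type} [Fintype ι] {M : Matrix ι ι ℝ} (hM : M.PosSemidef) :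
    ∃ B : Matrix ι ι ℝ, ∀ a a', M a a' = ∑ r, B r a * B r a' := by
  classical
  obtain ⟨B, rfl⟩ := CStarAlgebra.nonneg_iff_eq_star_mul_self.mp hM.nonneg
  exact ⟨B, fun a a' => by simp [Matrix.mul_apply]⟩

/-- Write `M = Bᵀ * B` (`Matrix.posSemidef_iff_eq_conjTranspose_mul_self` or the square root);
with `p' r = ∑ a, B r a • p a` this is `bessel`. -/
theorem quad_le {ι κ : Type} [Fintype ι] [Fintype κ] {M : Matrix ι ι ℝ} (hM : M.PosSemidef)
    (p : ι → H) {u : κ → H} (hu : Orthonormal ℝ u) :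
    ∑ l, ∑ a, ∑ a', M a a' * (⟪p a, u l⟫_ℝ * ⟪p a', u l⟫_ℝ) ≤
      ∑ a, ∑ a', M a a' * ⟪p a, p a'⟫_ℝ := by
  obtain ⟨B, hB⟩ := abs_root hM
  have e1 : ∀ f : ι → ι → ℝ, ∑ a, ∑ a', M a a' * f a a' =
      ∑ r, ∑ a, ∑ a', B r a * (B r a' * f a a') := fun f => by
    simp only [hB, Finset.sum_mul, mul_assoc]
    exact (Finset.sum_congr rfl fun a _ => Finset.sum_comm).trans Finset.sum_comm
  simp only [e1]
  rw [Finset.sum_comm]
  refine Finset.sum_le_sum fun r _ => ?_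
  have h := bessel hu (∑ a, B r a • p a)
  rw [← real_inner_self_eq_norm_sq, sum_inner] at h
  refine le_trans (le_of_eq ?_) (h.trans (le_of_eq ?_))
  · refine Finset.sum_congr rfl fun l _ => ?_
    rw [sq, real_inner_comm, sum_inner, Finset.sum_mul_sum]
    refine Finset.sum_congr rfl fun a _ => Finset.sum_congr rfl fun a' _ => ?_
    rw [real_inner_smul_left, real_inner_smul_left]
    ring
  · refine Finset.sum_congr rfl fun a _ => ?_
    rw [inner_sum]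
    refine Finset.sum_congr rfl fun a' _ => ?_
    rw [real_inner_smul_left, real_inner_smul_right]

/-- A finite net of the compact set spans a finite dimensional space with orthonormal basis `u`
(`exists_onb`); `∑ l, ⟪x, u l⟫ * ⟪x', u l⟫` is the scalar product of the projections. -/
theorem exists_net {Z : Set H} (hZ : IsCompact Z) {ε : ℝ} (hε : 0 < ε) :
    ∃ (m : ℕ) (u : Fin m → H), Orthonormal ℝ u ∧
      ∀ x ∈ Z, ∀ x' ∈ Z, |⟪x, x'⟫_ℝ - ∑ l, ⟪x, u l⟫_ℝ * ⟪x', u l⟫_ℝ| ≤ ε := by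
  obtain ⟨R, hR0, hR⟩ := hZ.isBounded.exists_pos_norm_le
  obtain ⟨δ, hδ, hδε⟩ : ∃ δ, 0 < δ ∧ δ * R + δ * R = ε :=
    ⟨ε / (2 * R), by positivity, by field_simp; ring⟩
  obtain ⟨t, ht, hZt⟩ := Metric.totallyBounded_iff.1 hZ.totallyBounded δ hδ
  have := FiniteDimensional.span_of_finite ℝ ht
  obtain ⟨u, hu, -, hV⟩ := exists_onb (Submodule.span ℝ t)
  refine ⟨_, u, hu, fun x hx x' hx' => ?_⟩
  obtain ⟨y, hy, hxy⟩ := mem_iUnion₂.1 (hZt hx)
  rw [mem_ball_iff_norm] at hxy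
  have e1 : ∀ v, ∑ l, ⟪v, u l⟫_ℝ * ⟪x', u l⟫_ℝ = ⟪v, ∑ l, ⟪u l, x'⟫_ℝ • u l⟫_ℝ := fun v => by
    rw [inner_sum]
    exact Finset.sum_congr rfl fun l _ => by
      rw [real_inner_smul_right, mul_comm, real_inner_comm x']
  have e2 : ⟪y, x'⟫_ℝ = ⟪y, ∑ l, ⟪u l, x'⟫_ℝ • u l⟫_ℝ := by
    rw [← e1]
    refine (congrArg (fun v => ⟪v, x'⟫_ℝ) (hV y (Submodule.subset_span hy)).1).trans ?_
    simp only [sum_inner, real_inner_smul_left]
    exact Finset.sum_congr rfl fun l _ => by rw [real_inner_comm y, real_inner_comm x']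
  have e3 : ‖∑ l, ⟪u l, x'⟫_ℝ • u l‖ ≤ R := by
    refine le_trans (le_of_sq_le_sq ?_ (norm_nonneg _)) (hR x' hx')
    rw [norm_sq_sum_smul hu]
    exact bessel hu x'
  rw [e1]
  generalize ∑ l, ⟪u l, x'⟫_ℝ • u l = q at e2 e3
  have e4 : ⟪x, x'⟫_ℝ - ⟪x, q⟫_ℝ = ⟪x - y, x'⟫_ℝ - ⟪x - y, q⟫_ℝ := by
    rw [inner_sub_left, inner_sub_left, e2]
    ring
  rw [e4, ← hδε]
  exact (abs_sub _ _).trans (add_le_add
    ((abs_real_inner_le_norm _ _).trans (mul_le_mul hxy.le (hR x' hx') (norm_nonneg _) hδ.le))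
    ((abs_real_inner_le_norm _ _).trans (mul_le_mul hxy.le e3 (norm_nonneg _) hδ.le)))

/-- Duality of Hilbert-Schmidt norms. For an orthonormal family `e` in `S` let `u` be an orthonormal
basis of the span of the `T (e i)`: `∑ i, ‖T (e i)‖ ^ 2 = ∑ l, ∑ i, ⟪e i, T (u l)⟫ ^ 2`, and
`⟪e i, x⟫ = ⟪e i, proj x⟫`; `bessel`. Conversely let `e` be an orthonormal basis of the span of the
projections of the `T (u l)`. -/
theorem trOn_eq [CompleteSpace H] {S : Submodule ℝ H} [S.HasOrthogonalProjection]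
    {T R : H →L[ℝ] H} (hT : ∀ u v, ⟪T u, v⟫_ℝ = ⟪u, T v⟫_ℝ) (hR : ∀ z, ⟪R z, z⟫_ℝ = ‖T z‖ ^ 2)
    {θ : ℝ} (h1 : ∀ (m : ℕ) (u : Fin m → H), Orthonormal ℝ u →
      ∑ l, ‖S.starProjection (T (u l))‖ ^ 2 ≤ θ)
    (h2 : ∀ ε, 0 < ε → ∃ (m : ℕ) (u : Fin m → H), Orthonormal ℝ u ∧
      θ - ε ≤ ∑ l, ‖S.starProjection (T (u l))‖ ^ 2) :
    trOn (S : Set H) R = ENNReal.ofReal θ := by
  have hp : ∀ e ∈ S, ∀ x, ⟪e, S.starProjection (T x)⟫_ℝ = ⟪x, T e⟫_ℝ := fun e he x => by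
    rw [← Submodule.inner_starProjection_left_eq_right,
      Submodule.starProjection_eq_self_iff.2 he, ← hT, real_inner_comm]
  refine le_antisymm (iSup_le fun m => iSup_le fun e => iSup_le fun he => iSup_le fun hS =>
    ENNReal.ofReal_le_ofReal ?_) (ENNReal.le_of_forall_pos_le_add fun ε hε _ => ?_)
  · have := FiniteDimensional.span_of_finite ℝ (finite_range fun i => T (e i))
    obtain ⟨u, hu, -, hV⟩ := exists_onb (Submodule.span ℝ (range fun i => T (e i)))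
    refine le_trans ?_ (h1 _ u hu)
    rw [Finset.sum_congr rfl fun i _ =>
      (hR (e i)).trans (hV _ (Submodule.subset_span ⟨i, rfl⟩)).2, Finset.sum_comm]
    refine Finset.sum_le_sum fun l _ => le_trans (le_of_eq ?_) (bessel he _)
    exact Finset.sum_congr rfl fun i _ => by rw [hp _ (hS i)]
  · obtain ⟨m, u, hu, h⟩ := h2 ε (by exact_mod_cast hε)
    have := FiniteDimensional.span_of_finite ℝ (finite_range fun l => S.starProjection (T (u l)))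
    obtain ⟨e, he, heV, hV⟩ :=
      exists_onb (Submodule.span ℝ (range fun l => S.starProjection (T (u l))))
    have hS : ∀ i, e i ∈ S := fun i => Submodule.span_le.2 (by
      rintro _ ⟨l, rfl⟩
      exact Submodule.starProjection_apply_mem _ _) (heV i)
    have h3 : θ ≤ ∑ i, ⟪R (e i), e i⟫_ℝ + ε := by
      rw [← sub_le_iff_le_add]
      refine h.trans ?_
      rw [Finset.sum_congr rfl fun l _ => (hV _ (Submodule.subset_span ⟨l, rfl⟩)).2,
        Finset.sum_comm]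
      refine Finset.sum_le_sum fun i _ => le_trans (le_of_eq ?_) ((bessel hu _).trans (hR _).ge)
      exact Finset.sum_congr rfl fun l _ => by rw [hp _ (hS i)]
    refine ((ENNReal.ofReal_le_ofReal h3).trans ENNReal.ofReal_add_le).trans ?_
    rw [ENNReal.ofReal_coe_nnreal]
    exact add_le_add (sum_le_trOn R he hS) le_rfl

/-- With `x` the projection of `v`: `2 ⟪v, a⟫ - ‖a‖ ^ 2 = ‖x‖ ^ 2 - ‖x - a‖ ^ 2` for `a ∈ D`. -/
theorem norm_proj_eq [CompleteSpace H] {D : Submodule ℝ H} {v : H} {θ : ℝ}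
    (h1 : ∀ a ∈ D, 2 * ⟪v, a⟫_ℝ - ‖a‖ ^ 2 ≤ θ)
    (h2 : ∀ ε, 0 < ε → ∃ a ∈ D, θ - ε ≤ 2 * ⟪v, a⟫_ℝ - ‖a‖ ^ 2) :
    ‖D.topologicalClosure.starProjection v‖ ^ 2 = θ := by
  have hx : D.topologicalClosure.starProjection v ∈ D.topologicalClosure :=
    Submodule.starProjection_apply_mem _ _
  have hi : ∀ a ∈ D.topologicalClosure,
      ⟪v, a⟫_ℝ = ⟪D.topologicalClosure.starProjection v, a⟫_ℝ := fun a ha => by
    rw [Submodule.inner_starProjection_left_eq_right, Submodule.starProjection_eq_self_iff.2 ha]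
  generalize D.topologicalClosure.starProjection v = x at hx hi
  refine le_antisymm ?_ (le_of_forall_pos_le_add fun ε hε => ?_)
  · have b2 : closure (D : Set H) ⊆ {a | 2 * ⟪v, a⟫_ℝ - ‖a‖ ^ 2 ≤ θ} :=
      closure_minimal h1 (isClosed_le (by fun_prop) (by fun_prop))
    have b3 : 2 * ⟪v, x⟫_ℝ - ‖x‖ ^ 2 ≤ θ := b2 hx
    rw [hi x hx, real_inner_self_eq_norm_sq] at b3
    linarith
  · obtain ⟨a, ha, h⟩ := h2 ε hε
    rw [hi a (D.le_topologicalClosure ha)] at h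
    linarith [norm_sub_sq_real x a, sq_nonneg ‖x - a‖]

end Pool.Agent.Lib.MP_570070_gt.Ex
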