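import Pool.Agent.Lib.MP_570070_gt.Ex.AlgA

/-! Algebra of alternating forms. -/

open MeasureTheory Filter Topology Set
open scoped ContDiff InnerProductSpace

set_option maxSynthPendingDepth 3

namespace Pool.Agent.Lib.MP_570070_gt.Ex

open Pool.Agent.Lib.MP_570070_gt.An

open Matrix

variable {n k : ℕ} {A S T : Matrix (Fin n) (Fin n) ℝ}

theorem ipAlt_eq (α β : Alt n k) : ipAlt A α β = ip1 (cm A⁻¹ α) β := by
  rw [ip1_apply, ipAlt, Finset.sum_comm]
  simp only [cf_cm, Finset.sum_mul, ← cf_apply]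

theorem qq_apply (α β : Alt n k) : qq A α β = √A.det * ipAlt A α β := by
  rw [ipAlt_eq]
  rfl

theorem qq_comm (hA : A.PosDef) (α β : Alt n k) : qq A α β = qq A β α := by
  rw [qq_apply, qq_apply, ipAlt_eq, ipAlt_eq, ip1_cm, ip1_comm,
    ← conjTranspose_eq_transpose_of_trivial, hA.inv.isHermitian.eq]

open scoped MatrixOrder in
theorem alg_root (hA : A.PosDef) : ∃ B : Matrix (Fin n) (Fin n) ℝ, A = Bᵀ * B :=
  CStarAlgebra.nonneg_iff_eq_star_mul_self.1 hA.posSemidef.nonneg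

/-- `A⁻¹ = Bᵀ * B` with `B` invertible. -/
theorem qq_pos (hA : A.PosDef) {α : Alt n k} (h : α ≠ 0) : 0 < qq A α α := by
  rw [qq_apply, ipAlt_eq]
  refine mul_pos (Real.sqrt_pos.2 hA.det_pos) ?_
  obtain ⟨B, hB⟩ := alg_root hA.inv
  rw [hB, cm_mul, ip1_cm]
  refine ip1_pos fun h0 => h ?_
  rw [← cm_one α, ← nonsing_inv_mul A hA.det_pos.ne'.isUnit, cm_mul, hB, cm_mul, h0, map_zero,
    map_zero]

theorem ipAlt_conj (hT : T.det ≠ 0) (α β : Alt n k) :
    ipAlt (Tᵀ * A * T) (cm T α) (cm T β) = ipAlt A α β := by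
  rw [ipAlt_eq, ipAlt_eq, Matrix.mul_inv_rev, Matrix.mul_inv_rev, ← cm_mul,
    mul_nonsing_inv_cancel_left _ _ hT.isUnit, cm_mul, ip1_cm, ← cm_mul, ← transpose_nonsing_inv,
    transpose_transpose, mul_nonsing_inv _ hT.isUnit, cm_one]

theorem alg_cm (L : Eu n →L[ℝ] Eu n) (α : Alt n k) :
    α.compContinuousLinearMap L = cm (LinearMap.toMatrix' (L : Eu n →ₗ[ℝ] Eu n)) α := by
  ext v
  simp only [cm_apply, LinearMap.toMatrix'_mulVec]
  rfl

theorem alg_ev (g : Bil n) (L : Eu n →L[ℝ] Eu n) (v w : Eu n) :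
    v ⬝ᵥ gram g L *ᵥ w = ev g (L v) (L w) := by
  conv_rhs => rw [pi_eq_sum_univ' v, pi_eq_sum_univ' w]
  simp only [ev, map_sum, map_smul, _root_.sum_apply, _root_.smul_apply, smul_eq_mul, dotProduct,
    mulVec, An.gram, of_apply, bas, Finset.mul_sum]
  rw [Finset.sum_comm]
  exact Finset.sum_congr rfl fun i _ => Finset.sum_congr rfl fun j _ => by ring

/-- With `T = LinearMap.toMatrix' L`: `gram g L = Tᵀ * gram g id * T` and `L = ml T`. -/
theorem ipAlt_gram (g : Bil n) {L L' : Eu n →L[ℝ] Eu n} (hL : ∀ v, L (L' v) = v) (α β : Alt n k) :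
    ipAlt (gram g L) (α.compContinuousLinearMap L) (β.compContinuousLinearMap L) =
      ipAlt (gram g id) α β := by
  have h1 : LinearMap.toMatrix' (L : Eu n →ₗ[ℝ] Eu n) * LinearMap.toMatrix' (L' : Eu n →ₗ[ℝ] Eu n) =
      1 := by
    rw [← LinearMap.toMatrix'_comp, ← LinearMap.toMatrix'_id]
    exact congrArg _ (LinearMap.ext hL)
  rw [alg_cm, alg_cm, ← ipAlt_conj (A := An.gram g id) (isUnit_det_of_right_inverse h1).ne_zero]
  congr 1
  ext i j
  rw [mul_assoc]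
  exact (alg_ev g (.id ℝ _) _ _).symm

theorem gram_posDef {g : Bil n} (hs : ∀ v w, ev g v w = ev g w v) (hp : ∀ v, v ≠ 0 → 0 < ev g v v)
    {L : Eu n →L[ℝ] Eu n} (hL : Function.Injective L) : (gram g L).PosDef := by
  refine .of_dotProduct_mulVec_pos (IsHermitian.ext fun i j => hs _ _) fun x hx => ?_
  exact (hp _ ((map_ne_zero_iff L hL).2 hx)).trans_eq (alg_ev g L x x).symm

/-- `contDiffOn_clm_apply`, `contDiffOn_alt`, `cf_cm`. -/
theorem contDiffOn_cm {E : Type} [NormedAddCommGroup E] [NormedSpace ℝ E]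
    {B : E → Matrix (Fin n) (Fin n) ℝ} {U : Set E}
    (h : ∀ i j, ContDiffOn ℝ ∞ (fun y => B y i j) U) :
    ContDiffOn ℝ ∞ (fun y => (cm (B y) : Alt n k →L[ℝ] Alt n k)) U := by
  refine contDiffOn_clm_apply.2 fun α => contDiffOn_alt fun I => ?_
  simp only [cf_cm]
  exact ContDiffOn.sum fun J _ => (contDiffOn_prod fun l _ => h _ _).mul contDiffOn_const

theorem contDiffOn_pull {E : Type} [NormedAddCommGroup E] [NormedSpace ℝ E] {f : E → Alt n k}
    {L : E → Eu n →L[ℝ] Eu n} {U : Set E} (hf : ContDiffOn ℝ ∞ f U) (hL : ContDiffOn ℝ ∞ L U) :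
    ContDiffOn ℝ ∞ (fun y => (f y).compContinuousLinearMap (L y)) U := by
  simp only [alg_cm]
  exact (contDiffOn_cm fun i j => contDiffOn_pi.1 (hL.clm_apply contDiffOn_const) i).clm_apply hf

theorem Met.contDiffOn_sqrt {A : Eu n → Matrix (Fin n) (Fin n) ℝ} {U : Set (Eu n)} (h : Met A U) :
    ContDiffOn ℝ ∞ (fun y => √(A y).det) U := by
  exact (contDiffOn_det h.sm).sqrt fun y hy => (h.pos y hy).det_pos.ne'

theorem Met.contDiffOn_qq {A : Eu n → Matrix (Fin n) (Fin n) ℝ} {U : Set (Eu n)} (h : Met A U) :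
    ContDiffOn ℝ ∞ (fun y => (qq (A y) : Alt n k →L[ℝ] Alt n k →L[ℝ] ℝ)) U := by
  exact h.contDiffOn_sqrt.smul (contDiffOn_const.clm_comp
    (contDiffOn_cm (contDiffOn_inv h.sm fun y hy => (h.pos y hy).det_pos.ne')))

end Pool.Agent.Lib.MP_570070_gt.Ex
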