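import Pool.Agent.Lib.MP_570070_gt.Ex.XDefs

/-! Smooth families of matrices. -/

open MeasureTheory Filter Topology Set
open scoped ContDiff InnerProductSpace

namespace Pool.Agent.Lib.MP_570070_gt.Ex

open Pool.Agent.Lib.MP_570070_gt.An

variable {E ι : Type} [NormedAddCommGroup E] [NormedSpace ℝ E] [Fintype ι] [DecidableEq ι]
  {A : E → Matrix ι ι ℝ} {U : Set E}

theorem contDiffOn_det (h : ∀ i j, ContDiffOn ℝ ∞ (fun y => A y i j) U) :
    ContDiffOn ℝ ∞ (fun y => (A y).det) U := by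
  simp only [Matrix.det_apply']
  exact ContDiffOn.sum fun σ _ => contDiffOn_const.mul (contDiffOn_prod fun i _ => h _ _)

theorem contDiffOn_inv (h : ∀ i j, ContDiffOn ℝ ∞ (fun y => A y i j) U)
    (hd : ∀ y ∈ U, (A y).det ≠ 0) (i j : ι) : ContDiffOn ℝ ∞ (fun y => (A y)⁻¹ i j) U := by
  simp only [Matrix.inv_def, Ring.inverse_eq_inv', Matrix.smul_apply, smul_eq_mul,
    Matrix.adjugate_apply]
  refine ((contDiffOn_det h).inv hd).mul (contDiffOn_det fun a b => ?_)
  simp only [Matrix.updateRow_apply]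
  split_ifs
  exacts [contDiffOn_const, h _ _]

theorem continuousOn_inv (h : ∀ i j, ContinuousOn (fun y => A y i j) U)
    (hd : ∀ y ∈ U, (A y).det ≠ 0) (i j : ι) : ContinuousOn (fun y => (A y)⁻¹ i j) U := by
  have h1 : ContinuousOn A U := continuousOn_pi.2 fun i => continuousOn_pi.2 (h i)
  have h2 : ContinuousOn (fun y => (A y)⁻¹) U := fun y hy =>
    (continuousAt_matrix_inv (A y) (by
      rw [Ring.inverse_eq_inv']
      exact continuousAt_inv₀ (hd y hy))).comp_continuousWithinAt (h1 y hy)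
  exact continuousOn_pi.1 (continuousOn_pi.1 h2 i) j

variable {n : ℕ} {V : Type} [NormedAddCommGroup V] [NormedSpace ℝ V] {c : Co n V}

theorem Co.Sm.contDiff_A (hc : c.Sm univ) (i j : Fin n) : ContDiff ℝ ∞ fun y => c.A y i j :=
  contDiffOn_univ.1 (hc.A i j)

theorem Co.Sm.contDiff_inv (hc : c.Sm univ) (i j : Fin n) : ContDiff ℝ ∞ fun y => (c.A y)⁻¹ i j :=
  contDiffOn_univ.1 (contDiffOn_inv hc.A (fun y hy => (hc.pos y hy).det_pos.ne') i j)

end Pool.Agent.Lib.MP_570070_gt.Ex
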