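import Pool.Agent.Lib.MP_570070_gt.Ex.GDefs
import Pool.Agent.Lib.MP_570070_gt.Ex.Mx

/-! Algebra of alternating forms. -/

open MeasureTheory Filter Topology Set
open scoped ContDiff InnerProductSpace

set_option maxSynthPendingDepth 3

namespace Pool.Agent.Lib.MP_570070_gt.Ex

open Pool.Agent.Lib.MP_570070_gt.An

open Matrix

variable {n k : ℕ} {A S T : Matrix (Fin n) (Fin n) ℝ}

theorem cf_apply (I : Fin k → Fin n) (α : Alt n k) : cf I α = α fun l => bas (I l) := by
  rfl

/-- `Module.Basis.ext_alternating`, as `comp_ext` in the file An/Comp. -/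
theorem cf_ext {α β : Alt n k} (h : ∀ I, cf I α = cf I β) : α = β := by
  refine ContinuousAlternatingMap.toAlternatingMap_injective
    ((Pi.basisFun ℝ (Fin n)).ext_alternating fun I _ => ?_)
  simp only [Pi.basisFun_apply]
  exact h I

theorem alga_inj : Function.Injective
    (LinearMap.pi fun I : Fin k → Fin n => (cf I : Alt n k →ₗ[ℝ] ℝ)) :=
  fun _ _ h => cf_ext fun I => congrFun h I

instance finiteDimensional_alt : FiniteDimensional ℝ (Alt n k) := by
  exact FiniteDimensional.of_injective _ alga_inj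

/-- The injective linear map `α ↦ (cf I α)` has a continuous linear left inverse. -/
theorem contDiffOn_alt {E : Type} [NormedAddCommGroup E] [NormedSpace ℝ E] {f : E → Alt n k}
    {U : Set E} (h : ∀ I, ContDiffOn ℝ ∞ (fun y => cf I (f y)) U) : ContDiffOn ℝ ∞ f U := by
  obtain ⟨g, hg⟩ := LinearMap.exists_leftInverse_of_injective _
    (LinearMap.ker_eq_bot.2 (alga_inj (n := n) (k := k)))
  exact ((LinearMap.toContinuousLinearMap g).contDiff.comp_contDiffOn (contDiffOn_pi.2 h)).congr
    fun y _ => (LinearMap.congr_fun hg (f y)).symm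

theorem wd_apply (i : Fin n) (α : Alt n k) (v : Fin (k + 1) → Eu n) :
    wd i α v = ∑ l : Fin (k + 1), (-1) ^ (l : ℕ) * (v l i * α (l.removeNth v)) := by
  refine (ContinuousAlternatingMap.alternatizeUncurryFin_apply _ v).trans
    (Finset.sum_congr rfl fun l _ => ?_)
  rw [zsmul_eq_mul, Int.cast_pow, Int.cast_neg, Int.cast_one]
  rfl

theorem cn_apply (i : Fin n) (φ : Alt n (k + 1)) (v : Fin k → Eu n) :
    cn i φ v = φ (Matrix.vecCons (bas i) v) := by
  rfl

theorem cm_apply (α : Alt n k) (v : Fin k → Eu n) : cm T α v = α fun l => T *ᵥ v l := by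
  rfl

theorem alga_sum (v : Eu n) : v = ∑ i, v i • bas i := pi_eq_sum_univ' v

theorem alga_col (i : Fin n) : T *ᵥ bas i = ∑ j, T j i • bas j := by
  rw [bas, Matrix.mulVec_single_one]
  exact alga_sum _

theorem alga_bas (i j : Fin n) : bas j i = if i = j then 1 else 0 := Pi.single_apply j 1 i

theorem cf_cm (α : Alt n k) (I : Fin k → Fin n) :
    cf I (cm T α) = ∑ J : Fin k → Fin n, (∏ l, T (J l) (I l)) * cf J α := by
  rw [cf_apply, cm_apply]
  simp only [alga_col]
  rw [α.map_sum fun l j => T j (I l) • bas j]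
  exact Finset.sum_congr rfl fun J _ => α.map_smul_univ _ _

theorem cm_mul (α : Alt n k) : cm (S * T) α = cm T (cm S α) := by
  ext v
  simp only [cm_apply, Matrix.mulVec_mulVec]

theorem cm_one (α : Alt n k) : cm 1 α = α := by
  ext v
  simp only [cm_apply, Matrix.one_mulVec]

theorem extDeriv_eq (f : Eu n → Alt n k) (y : Eu n) : extDeriv f y = ∑ i, wd i (pv i f y) := by
  have h : fderiv ℝ f y = ∑ i, ContinuousLinearMap.smulRightL ℝ (Eu n) (Alt n k)
      (ContinuousLinearMap.proj i) (pv i f y) := by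
    refine ContinuousLinearMap.ext fun v => ?_
    rw [_root_.sum_apply]
    conv_lhs => rw [alga_sum v, map_sum]
    exact Finset.sum_congr rfl fun i _ => map_smul _ _ _
  rw [extDeriv, h, ← ContinuousAlternatingMap.alternatizeUncurryFinCLM_apply, map_sum]
  rfl

theorem cn_wd_zero (i j : Fin n) (α : Alt n 0) : cn j (wd i α) = if i = j then α else 0 := by
  ext v
  rw [cn_apply, wd_apply, Fin.sum_univ_succ, Fin.sum_univ_zero, add_zero, Fin.val_zero, pow_zero,
    one_mul, Matrix.cons_val_zero, alga_bas, Subsingleton.elim (Fin.removeNth _ _) v]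
  split_ifs
  · exact one_mul _
  · exact zero_mul _

theorem cn_wd (i j : Fin n) (α : Alt n (k + 1)) :
    cn j (wd i α) + wd i (cn j α) = if i = j then α else 0 := by
  ext v
  have h : ∀ m : Fin (k + 1), m.succ.removeNth (Matrix.vecCons (bas j) v) =
      Matrix.vecCons (bas j) (m.removeNth v) := fun m => Fin.cons_comp_succ_succAbove _ v m
  have h0 : (0 : Fin (k + 2)).removeNth (Matrix.vecCons (bas j) v) = v := rfl
  rw [ContinuousAlternatingMap.add_apply, cn_apply, wd_apply, wd_apply, Fin.sum_univ_succ,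
    add_assoc, ← Finset.sum_add_distrib, Finset.sum_eq_zero fun m _ => ?_, add_zero, Fin.val_zero,
    pow_zero, one_mul, Matrix.cons_val_zero, alga_bas, h0]
  · split_ifs
    · exact one_mul _
    · exact zero_mul _
  · rw [h, cn_apply, Fin.val_succ, Matrix.cons_val_succ]
    ring

theorem cn_cm (i : Fin n) (φ : Alt n (k + 1)) : cn i (cm T φ) = cm T (∑ j, T j i • cn j φ) := by
  refine (φ.curryLeft_compContinuousLinearMap (ml T) (bas i)).trans (congrArg (cm T) ?_)
  change φ.curryLeft (T *ᵥ bas i) = _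
  rw [alga_col, map_sum]
  exact Finset.sum_congr rfl fun j _ => map_smul _ _ _

theorem ip1_apply (α β : Alt n k) :
    ip1 α β = ((k.factorial : ℝ))⁻¹ * ∑ I : Fin k → Fin n, cf I α * cf I β := by
  simp only [ip1, _root_.smul_apply, _root_.sum_apply,
    ContinuousLinearMap.smulRight_apply, smul_eq_mul]

theorem ip1_comm (α β : Alt n k) : ip1 α β = ip1 β α := by
  simp only [ip1_apply, mul_comm (cf _ α)]

theorem ip1_pos {α : Alt n k} (h : α ≠ 0) : 0 < ip1 α α := by
  obtain ⟨I, hI⟩ : ∃ I, cf I α ≠ 0 := by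
    by_contra hn
    exact h (cf_ext fun I => (not_not.1 fun e => hn ⟨I, e⟩).trans (map_zero _).symm)
  rw [ip1_apply]
  exact mul_pos (inv_pos.2 (Nat.cast_pos.2 k.factorial_pos)) (Finset.sum_pos'
    (fun J _ => mul_self_nonneg _) ⟨I, Finset.mem_univ _, mul_self_pos.2 hI⟩)

theorem ip1_cm (α β : Alt n k) : ip1 (cm T α) β = ip1 α (cm Tᵀ β) := by
  rw [ip1_apply, ip1_apply]
  congr 1
  simp only [cf_cm, Finset.sum_mul, Finset.mul_sum, Matrix.transpose_apply]
  rw [Finset.sum_comm]
  exact Finset.sum_congr rfl fun J _ => Finset.sum_congr rfl fun I _ => by ring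

theorem alga_term (i : Fin n) (α : Alt n k) (φ : Alt n (k + 1)) (l : Fin (k + 1)) :
    ∑ I : Fin (k + 1) → Fin n, (-1) ^ (l : ℕ) *
      (bas (I l) i * α (l.removeNth fun m => bas (I m))) * cf I φ =
      ∑ J : Fin k → Fin n, cf J α * cf J (cn i φ) := by
  rw [← (Fin.insertNthEquiv (fun _ => Fin n) l).sum_comp, Fintype.sum_prod_type_right]
  refine Finset.sum_congr rfl fun J _ => ?_
  have h : ∀ a : Fin n, (fun m => bas (Fin.insertNthEquiv (fun _ => Fin n) l (a, J) m)) =
      l.insertNth (bas a) fun m => bas (J m) := fun a =>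
    Fin.eq_insertNth_iff.2 ⟨congrArg bas (Fin.insertNth_apply_same (α := fun _ => Fin n) l a J),
      funext fun m => congrArg bas (Fin.insertNth_apply_succAbove (α := fun _ => Fin n) l a J m)⟩
  have h1 : ∀ a : Fin n, Fin.insertNthEquiv (fun _ => Fin n) l (a, J) l = a := fun a =>
    Fin.insertNth_apply_same (α := fun _ => Fin n) l a J
  simp only [cf_apply, h, h1, Fin.removeNth_insertNth, ContinuousAlternatingMap.map_insertNth,
    alga_bas, ite_mul, mul_ite, zero_mul, mul_zero, Finset.sum_ite_eq, Finset.mem_univ, if_true,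
    cn_apply, zsmul_eq_mul, Int.cast_pow, Int.cast_neg, Int.cast_one, one_mul]
  rw [mul_mul_mul_comm, ← mul_pow, neg_mul_neg, one_mul, one_pow, one_mul]

/-- Each of the `k + 1` terms of `wd_apply` gives the same sum: reindex with `Fin.insertNthEquiv`
and use `ContinuousAlternatingMap.map_insertNth`. -/
theorem ip1_wd (i : Fin n) (α : Alt n k) (φ : Alt n (k + 1)) :
    ip1 (wd i α) φ = ip1 α (cn i φ) := by
  rw [ip1_apply, ip1_apply]
  simp only [cf_apply _ (wd i α), wd_apply, Finset.sum_mul]
  rw [Finset.sum_comm]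
  simp only [alga_term]
  rw [Finset.sum_const, Finset.card_univ, Fintype.card_fin, nsmul_eq_mul, Nat.factorial_succ,
    Nat.cast_mul, mul_inv, mul_mul_mul_comm, inv_mul_cancel₀ (Nat.cast_ne_zero.2 k.succ_ne_zero),
    one_mul]

end Pool.Agent.Lib.MP_570070_gt.Ex
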