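import Pool.Agent.Lib.MP_570070_gt.Ex.JCal

/-! Approximation by test functions; dual vectors. -/

open MeasureTheory Filter Topology Set
open scoped ContDiff InnerProductSpace

namespace Pool.Agent.Lib.MP_570070_gt.Ex

open Pool.Agent.Lib.MP_570070_gt.An

variable {n : ℕ} {V H ι β : Type} [NormedAddCommGroup V] [NormedSpace ℝ V]
  [NormedAddCommGroup H] [InnerProductSpace ℝ H] [Fintype ι] [DecidableEq ι] [Fintype β]

/-- Take a compact `L ⊆ G` with `volume (G \ L)` small (`IsOpen.exists_lt_isCompact` or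
`MeasurableSet.exists_isCompact_diff_lt`), a smooth `ψ` with values in `[0, 1]`, compact support in
`G`, one on `L`; `ψ • f` is continuous; `Continuous.exists_contDiff_approx`. -/
theorem exists_approx {G K : Set (Eu n)} (hG : IsOpen G) (hK : IsCompact K) (hGK : G ⊆ K)
    {f : Eu n → V} (hf : ContinuousOn f K) {ε : ℝ} (hε : 0 < ε) :
    ∃ g, Tst G g ∧ ∫ y in G, ‖g y - f y‖ ^ 2 ≤ ε := by
  obtain ⟨M, hM⟩ := hK.exists_bound_of_continuousOn hf
  have hfin : volume G ≠ ⊤ := ((measure_mono hGK).trans_lt hK.measure_lt_top).ne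
  have hm : 0 ≤ volume.real G := measureReal_nonneg
  obtain ⟨δ, hδ, hδ1, hδ2⟩ : ∃ δ : ℝ, 0 < δ ∧ δ ≤ 1 ∧ volume.real G * δ ≤ ε / 2 := by
    refine ⟨min 1 (ε / 2 / (volume.real G + 1)), by positivity, min_le_left _ _, ?_⟩
    refine (mul_le_mul (le_add_of_nonneg_right zero_le_one) (min_le_right _ _) (by positivity)
      (by positivity)).trans (le_of_eq ?_)
    field_simp
  obtain ⟨L, hLG, hL, hμ⟩ := hG.measurableSet.exists_isCompact_sdiff_lt hfin
    (ε := ENNReal.ofReal (ε / 2 / ((M + 1) ^ 2 + 1))) (ENNReal.ofReal_pos.2 (by positivity)).ne'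
  have hμ' : volume.real (G \ L) * (M + 1) ^ 2 ≤ ε / 2 := by
    have h1 : volume.real (G \ L) ≤ ε / 2 / ((M + 1) ^ 2 + 1) :=
      ENNReal.toReal_le_of_le_ofReal (by positivity) hμ.le
    refine (mul_le_mul h1 (le_add_of_nonneg_right zero_le_one) (by positivity)
      (by positivity)).trans (le_of_eq ?_)
    field_simp
  obtain ⟨ψ, h1, h2, h3, h4⟩ := exists_continuousMap_one_of_isCompact_subset_isOpen hL hG hLG
  have hF : Continuous fun y => ψ y • f y := continuous_of_tsupport fun x hx =>
    ψ.continuous.continuousAt.smul (hf.continuousAt (mem_of_superset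
      (hG.mem_nhds (h3 (tsupport_smul_subset_left _ _ hx))) hGK))
  obtain ⟨g, g1, g2, g3⟩ := hF.exists_contDiff_approx ⊤ (ε := fun _ => δ) continuous_const
    fun _ => hδ
  have g4 : tsupport g ⊆ tsupport ψ := (closure_mono g3).trans (tsupport_smul_subset_left _ _)
  refine ⟨g, ⟨g1, h2.of_isClosed_subset (isClosed_tsupport g) g4, g4.trans h3⟩, ?_⟩
  have hmeas : MeasurableSet (G \ L) := hG.measurableSet.diff hL.measurableSet
  have i1 : IntegrableOn (fun _ : Eu n => δ) G := integrableOn_const hfin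
  have i2 : IntegrableOn ((G \ L).indicator fun _ : Eu n => (M + 1) ^ 2) G :=
    (integrableOn_const hfin).indicator hmeas
  refine (integral_mono_of_nonneg (Eventually.of_forall fun _ => by positivity) (i1.add i2)
    (ae_restrict_of_forall_mem hG.measurableSet fun y hy => ?_)).trans ?_
  · have g5 := (g2 y).le
    rw [dist_eq_norm] at g5
    by_cases hyL : y ∈ L
    · rw [h1 hyL, Pi.one_apply, one_smul] at g5
      rw [Pi.add_apply, indicator_of_notMem fun h => h.2 hyL, add_zero]
      nlinarith [norm_nonneg (g y - f y)]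
    · rw [Pi.add_apply, indicator_of_mem (show y ∈ G \ L from ⟨hy, hyL⟩)]
      have g6 : ‖ψ y • f y - f y‖ ≤ M := by
        rw [show ψ y • f y - f y = (ψ y - 1) • f y by rw [sub_smul, one_smul], norm_smul]
        refine (mul_le_of_le_one_left (norm_nonneg _) ?_).trans (hM y (hGK hy))
        rw [Real.norm_eq_abs, abs_le]
        constructor <;> linarith [(h4 y).1, (h4 y).2]
      have g7 := norm_sub_le_norm_sub_add_norm_sub (g y) (ψ y • f y) (f y)
      have g8 : ‖g y - f y‖ ^ 2 ≤ (M + 1) ^ 2 :=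
        pow_le_pow_left₀ (norm_nonneg _) (by linarith) 2
      linarith
  · simp only [Pi.add_apply]
    rw [integral_add i1 i2, setIntegral_indicator hmeas, inter_eq_self_of_subset_right sdiff_subset,
      setIntegral_const, setIntegral_const, smul_eq_mul, smul_eq_mul]
    linarith

section

variable {c : Co n V} {O : Set (Eu n)} {j : (Eu n → V) → H}

omit [DecidableEq ι] in
theorem apx_q (c : Co n V) (b : ι → V) (y : Eu n) (x z : ι → ℝ) :
    c.q y (∑ a, x a • b a) (∑ a, z a • b a) = x ⬝ᵥ (c.gm b y).mulVec z := by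
  simp only [map_sum, map_smul, _root_.sum_apply, _root_.smul_apply,
    smul_eq_mul, dotProduct, Matrix.mulVec, Co.gm, Matrix.of_apply, Finset.mul_sum]
  rw [Finset.sum_comm]
  exact Finset.sum_congr rfl fun _ _ => Finset.sum_congr rfl fun _ _ => by ring

theorem Emb.gm_pos (h : Emb c O j) (b : Module.Basis ι ℝ V) {y : Eu n} (hy : y ∈ O) :
    (c.gm b y).PosDef := by
  refine Matrix.PosDef.of_dotProduct_mulVec_pos ?_ fun x hx => ?_
  · ext a a'
    exact h.sym y hy _ _
  · rw [star_trivial, ← apx_q]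
    refine h.pos y hy _ fun h0 => hx ?_
    exact funext (Fintype.linearIndependent_iff.1 b.linearIndependent x h0)

theorem Emb.gm_cont (h : Emb c O j) (b : Module.Basis ι ℝ V) (a a' : ι) :
    ContinuousOn (fun y => (c.gm b y)⁻¹ a a') O := by
  refine continuousOn_inv (fun i k => ?_) (fun y hy => (h.gm_pos b hy).det_pos.ne') a a'
  exact (h.cont.clm_apply continuousOn_const).clm_apply continuousOn_const

/-- The vector that represents the functional with the values `r a` on the basis. -/
noncomputable def Co.dual (c : Co n V) (b : ι → V) (y : Eu n) (r : ι → ℝ) : V :=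
  ∑ a, (∑ a', (c.gm b y)⁻¹ a a' * r a') • b a

theorem Emb.q_dual (h : Emb c O j) (b : Module.Basis ι ℝ V) {y : Eu n} (hy : y ∈ O) (r : ι → ℝ)
    (v : V) : c.q y v (c.dual b y r) = ∑ a, b.repr v a * r a := by
  have h1 := apx_q c b y (b.repr v) ((c.gm b y)⁻¹.mulVec r)
  rw [b.sum_repr, Matrix.mulVec_mulVec,
    Matrix.mul_nonsing_inv _ (h.gm_pos b hy).det_pos.ne'.isUnit, Matrix.one_mulVec] at h1
  exact h1

theorem Emb.q_dual_dual (h : Emb c O j) (b : Module.Basis ι ℝ V) {y : Eu n} (hy : y ∈ O)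
    (r : ι → ℝ) :
    c.q y (c.dual b y r) (c.dual b y r) = ∑ a, ∑ a', (c.gm b y)⁻¹ a a' * (r a * r a') := by
  rw [h.q_dual b hy, Co.dual]
  refine Finset.sum_congr rfl fun a _ => ?_
  rw [b.repr_sum_self, Finset.sum_mul]
  exact Finset.sum_congr rfl fun _ _ => by ring

end

end Pool.Agent.Lib.MP_570070_gt.Ex
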