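import Pool.Agent.Lib.MP_570070_gt.Ex.ChtA

/-! Forms in a chart. -/

open MeasureTheory Filter Topology Set
open scoped Manifold ContDiff InnerProductSpace

set_option maxSynthPendingDepth 3

namespace Pool.Agent.Lib.MP_570070_gt.Ex

open Pool.Agent.Lib.MP_570070_gt.An

variable {n k : ℕ} {X : RMfd n} {e e' : OpenPartialHomeomorph X.M (Eu n)}

/-- `inChart_trans` for `e` and the preferred chart at `e.symm y`, `extDeriv_pullback`,
`tang_chartAt`. -/
theorem inChart_extD (he : e ∈ atlas (Eu n) X.M) {α : Form X k} (hα : IsTest α) {y : Eu n}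
    (hy : y ∈ e.target) : inChart (extD α) e y = extDeriv (inChart α e) y := by
  have he' := chart_mem_atlas (Eu n) (e.symm y)
  have hy' := mem_chart_source (Eu n) (e.symm y)
  have hO := e.isOpen_inter_preimage_symm (chartAt (Eu n) (e.symm y)).open_source
  have h1 : inChart α e =ᶠ[𝓝 y] fun z => (inChart α (chartAt (Eu n) (e.symm y))
      ((chartAt (Eu n) (e.symm y) ∘ e.symm) z)).compContinuousLinearMap
        (fderiv ℝ (chartAt (Eu n) (e.symm y) ∘ e.symm) z) := by
    filter_upwards [hO.mem_nhds ⟨hy, hy'⟩] with z hz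
    exact inChart_trans he he' α hz.1 hz.2
  rw [h1.extDeriv_eq, extDeriv_pullback (r := ∞) (f := chartAt (Eu n) (e.symm y) ∘ e.symm)
    (((hα.1 _ he').contDiffAt
    ((chartAt (Eu n) (e.symm y)).open_target.mem_nhds (mem_chart_target _ _))).differentiableAt
      (by simp)) ((contDiffOn_trans he he').contDiffAt (hO.mem_nhds ⟨hy, hy'⟩))
      (by rw [minSmoothness_of_isRCLikeNormedField]; exact ENat.LEInfty.out)]
  ext v
  simp only [inChart, ContinuousAlternatingMap.compContinuousLinearMap_apply,
    (tang_trans he he' hy hy').2]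
  congr 1
  funext l
  exact tang_chartAt _ _

theorem tsupport_extD (α : Form X k) : tsupport (extD α) ⊆ tsupport α := by
  refine closure_minimal (fun x hx => by_contra fun h => hx ?_) (isClosed_tsupport α)
  have h1 : inChart α (chartAt (Eu n) x) =ᶠ[𝓝 (chartAt (Eu n) x x)] fun _ => 0 := by
    have h2 := (chartAt (Eu n) x).continuousAt_symm (mem_chart_target (Eu n) x)
    rw [ContinuousAt, (chartAt (Eu n) x).left_inv (mem_chart_source _ x)] at h2
    filter_upwards [h2.eventually (notMem_tsupport_iff_eventuallyEq.1 h)] with z hz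
    ext v
    simp only [inChart, hz, Pi.zero_apply, ContinuousAlternatingMap.compContinuousLinearMap_apply,
      ContinuousAlternatingMap.coe_zero]
  rw [extD, h1.extDeriv_eq, extDeriv_eq]
  simp [pv]

theorem isTest_extD {α : Form X k} (hα : IsTest α) : IsTest (extD α) := by
  refine ⟨fun e he => ContDiffOn.congr ?_ fun y hy => inChart_extD he hα hy,
    hα.2.of_isClosed_subset (isClosed_tsupport _) (tsupport_extD α)⟩
  exact (ContinuousAlternatingMap.alternatizeUncurryFinCLM ℝ (Eu n) ℝ).contDiff.comp_contDiffOn
    ((hα.1 e he).fderiv_of_isOpen e.open_target (by simp))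

theorem extD_ext (he : e ∈ atlas (Eu n) X.M) {f : Eu n → Alt n k} (hf : Tst e.target f) :
    extD (ext e f) = ext e (extDeriv f) := by
  funext x
  by_cases hx : x ∈ e.source
  · have hy := e.map_source hx
    have h1 : inChart (ext e f) e =ᶠ[𝓝 (e x)] f := by
      filter_upwards [e.open_target.mem_nhds hy] with z hz using inChart_ext he f hz
    have h2 := inChart_extD he (isTest_ext he hf) hy
    rw [h1.extDeriv_eq] at h2
    rw [ext, if_pos hx, ← h2]
    ext v
    simp only [inChart, ContinuousAlternatingMap.compContinuousLinearMap_apply, e.left_inv hx,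
      Function.comp_def, tang_cot he hx]
  · rw [ext, if_neg hx]
    refine image_eq_zero_of_notMem_tsupport fun h => hx ?_
    obtain ⟨y, hy, rfl⟩ := (tsupport_ext hf).2 (tsupport_extD _ h)
    exact e.map_target (hf.2.2 hy)

/-- `ipAlt_gram`. -/
theorem ipAt_chart (he : e ∈ atlas (Eu n) X.M) (α β : Form X k) {y : Eu n} (hy : y ∈ e.target) :
    ipAt α β (e.symm y) = ipAlt (gr e y) (inChart α e y) (inChart β e y) := by
  refine (ipAlt_gram _ (L' := cot e (e.symm y)) (fun v => ?_) _ _).symm
  have h := tang_cot he (e.map_target hy) v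
  rwa [e.right_inv hy] at h

/-- `μ.restrict e.source` is the image under `e.symm` of the Lebesgue measure on the target with
density `√det` (as `VolN.restrict`, `VolN.setIntegral` in An/CInt.lean; `nvvol_meas`). -/
theorem integral_chart (he : e ∈ atlas (Eu n) X.M) {μ : Measure X.M} (hμ : IsVolume X μ)
    {F : X.M → ℝ} (hF : ContinuousOn F e.source) (h0 : ∀ x, x ∉ e.source → F x = 0) :
    ∫ x, F x ∂μ = ∫ y in e.target, √(gr e y).det * F (e.symm y) := by
  have ht := e.open_target.measurableSet
  have hs := e.open_source.measurableSet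
  have h1 := e.continuousOn_symm.aemeasurable (μ := volume) ht
  have h2 : AEMeasurable (fun y => √(gr e y).det) (volume.restrict e.target) :=
    (met_gr he).contDiffOn_sqrt.continuousOn.aemeasurable ht
  have h3 : μ.restrict e.source = Measure.map e.symm
      ((volume.restrict e.target).withDensity fun y => ENNReal.ofReal √(gr e y).det) := by
    ext A hA
    rw [Measure.restrict_apply hA, hμ e he _ (hA.inter hs) inter_subset_right,
      Measure.map_apply_of_aemeasurable (h1.mono_ac (withDensity_absolutelyContinuous _ _)) hA,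
      withDensity_apply', Measure.restrict_restrict' ht,
      e.image_eq_target_inter_inv_preimage inter_subset_right]
    congr 2
    ext y
    exact ⟨fun h => ⟨h.2.1, h.1⟩, fun h => ⟨h.2, h.1, e.map_target h.2⟩⟩
  have h4 := hF.aestronglyMeasurable (μ := μ) hs
  rw [← setIntegral_eq_integral_of_forall_compl_eq_zero h0]
  rw [h3] at h4 ⊢
  rw [integral_map (h1.mono_ac (withDensity_absolutelyContinuous _ _)) h4,
    integral_withDensity_eq_integral_toReal_smul₀ h2.ennreal_ofReal
    (Eventually.of_forall fun _ => ENNReal.ofReal_lt_top)]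
  refine integral_congr_ae (Eventually.of_forall fun y => ?_)
  simp only [ENNReal.toReal_ofReal (Real.sqrt_nonneg _), smul_eq_mul]

theorem integral_ext (he : e ∈ atlas (Eu n) X.M) {μ : Measure X.M} (hμ : IsVolume X μ)
    {f : Eu n → Alt n k} (hf : Tst e.target f) {α : Form X k} (hα : IsTest α) :
    ∫ x, ipAt (ext e f) α x ∂μ = ∫ y, qq (gr e y) (f y) (inChart α e y) := by
  have hA := met_gr he
  have h1 : ∀ y ∈ e.target, √(gr e y).det * ipAt (ext e f) α (e.symm y) =
      qq (gr e y) (f y) (inChart α e y) := fun y hy => by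
    rw [ipAt_chart he _ _ hy, inChart_ext he f hy, qq_apply]
  have h2 : ContinuousOn (fun y => (√(gr e y).det)⁻¹ * qq (gr e y) (f y) (inChart α e y))
      e.target :=
    (hA.contDiffOn_sqrt.continuousOn.inv₀ fun y hy =>
      (Real.sqrt_pos.2 (hA.pos y hy).det_pos).ne').mul ((hA.contDiffOn_qq.continuousOn.clm_apply
        hf.1.continuous.continuousOn).clm_apply (hα.1 e he).continuousOn)
  rw [integral_chart he hμ ((h2.comp e.continuousOn e.mapsTo).congr fun x hx => ?_)
    fun x hx => by simp [ipAt, ext, hx, ipAlt], setIntegral_congr_fun e.open_target.measurableSet h1,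
    setIntegral_eq_integral_of_forall_compl_eq_zero fun y hy => by
      rw [image_eq_zero_of_notMem_tsupport fun h => hy (hf.2.2 h), map_zero]
      rfl]
  rw [Function.comp_apply, ← h1 _ (e.map_source hx), e.left_inv hx, inv_mul_cancel_left₀
    (Real.sqrt_pos.2 (hA.pos _ (e.map_source hx)).det_pos).ne']

end Pool.Agent.Lib.MP_570070_gt.Ex
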