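import Pool.Agent.Lib.MP_570070_gt.Ex.Mx

/-! Calculus for test functions embedded in a Hilbert space. -/

open MeasureTheory Filter Topology Set
open scoped ContDiff InnerProductSpace

namespace Pool.Agent.Lib.MP_570070_gt.Ex

open Pool.Agent.Lib.MP_570070_gt.An

variable {n : ℕ} {V H K : Type} [NormedAddCommGroup V] [NormedSpace ℝ V] [NormedAddCommGroup H]
  [InnerProductSpace ℝ H] [NormedAddCommGroup K] [InnerProductSpace ℝ K] {c : Co n V}
  {O O' K' : Set (Eu n)} {j : (Eu n → V) → H} {f g : Eu n → V}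

theorem Tst.mono (h : Tst O f) (hO : tsupport f ⊆ O') : Tst O' f := ⟨h.1, h.2.1, hO⟩

theorem tst_of_compact (hf : ContDiff ℝ ∞ f) (hK : IsCompact K') (hO : K' ⊆ O)
    (h : ∀ x, x ∉ K' → f x = 0) : Tst O f ∧ tsupport f ⊆ K' := by
  have h1 : tsupport f ⊆ K' :=
    closure_minimal (fun x hx => by_contra fun hn => hx (h x hn)) hK.isClosed
  exact ⟨⟨hf, HasCompactSupport.intro hK h, h1.trans hO⟩, h1⟩

theorem jcal_of_on (hO : IsOpen O) (hf : ContDiffOn ℝ ∞ f O) (hK : IsCompact K') (hs : K' ⊆ O)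
    (h : ∀ x, x ∉ K' → f x = 0) : Tst O f ∧ tsupport f ⊆ K' := by
  refine tst_of_compact (contDiff_iff_contDiffAt.2 fun x => ?_) hK hs h
  by_cases hx : x ∈ O
  · exact hf.contDiffAt (hO.mem_nhds hx)
  · refine (contDiffAt_const (c := (0 : V))).congr_of_eventuallyEq ?_
    filter_upwards [hK.isClosed.isOpen_compl.mem_nhds fun h' => hx (hs h')] with y hy
    exact h y hy

theorem tst_zero : Tst O (0 : Eu n → V) :=
  (tst_of_compact contDiff_const isCompact_empty (empty_subset _) fun _ _ => rfl).1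

theorem Tst.add (h : Tst O f) (h' : Tst O g) : Tst O (f + g) := by
  refine (tst_of_compact (h.1.add h'.1) (h.2.1.isCompact.union h'.2.1.isCompact)
    (union_subset h.2.2 h'.2.2) fun x hx => ?_).1
  simp only [mem_union, not_or] at hx
  simp [image_eq_zero_of_notMem_tsupport hx.1, image_eq_zero_of_notMem_tsupport hx.2]

theorem Tst.smul (a : ℝ) (h : Tst O f) : Tst O (a • f) := by
  refine (tst_of_compact (h.1.const_smul a) h.2.1.isCompact h.2.2 fun x hx => ?_).1
  simp [image_eq_zero_of_notMem_tsupport hx]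

theorem Tst.sub (h : Tst O f) (h' : Tst O g) : Tst O (f - g) := by
  have := h.add (h'.smul (-1))
  rwa [neg_one_smul, ← sub_eq_add_neg] at this

/-- The product of a test function and a function that is smooth on the open set `O`. -/
theorem Tst.smul_on (hO : IsOpen O) {φ : Eu n → ℝ} (h : Tst O φ) (hg : ContDiffOn ℝ ∞ g O) :
    Tst O (fun y => φ y • g y) ∧ tsupport (fun y => φ y • g y) ⊆ tsupport φ := by
  refine jcal_of_on hO (h.1.contDiffOn.smul hg) h.2.1.isCompact h.2.2 fun x hx => ?_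
  simp [image_eq_zero_of_notMem_tsupport hx]

theorem Tst.pv (i : Fin n) (h : Tst O f) : Tst O (pv i f) ∧ tsupport (pv i f) ⊆ tsupport f := by
  refine tst_of_compact ((h.1.fderiv_right (m := ∞) le_rfl).clm_apply contDiff_const)
    h.2.1.isCompact h.2.2 fun x hx => ?_
  have : fderiv ℝ f x = 0 :=
    image_eq_zero_of_notMem_tsupport fun h' => hx (tsupport_fderiv_subset ℝ h')
  simp [Ex.pv, this]

theorem Tst.lam (hO : IsOpen O) (hc : c.Sm O) (h : Tst O f) :
    Tst O (c.lam f) ∧ tsupport (c.lam f) ⊆ tsupport f := by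
  refine jcal_of_on hO ?_ h.2.1.isCompact h.2.2 fun x hx => ?_
  · refine ((ContDiffOn.sum fun i _ => ContDiffOn.sum fun k _ => ?_).neg.add
      (ContDiffOn.sum fun i _ => ?_)).add (hc.C.clm_apply h.1.contDiffOn)
    · exact (contDiffOn_inv hc.A (fun y hy => (hc.pos y hy).det_pos.ne') i k).smul
        ((h.pv k).1.pv i).1.1.contDiffOn
    · exact (hc.B i).clm_apply (h.pv i).1.1.contDiffOn
  · have h1 : ∀ i, Ex.pv i f x = 0 := fun i =>
      image_eq_zero_of_notMem_tsupport fun h' => hx ((h.pv i).2 h')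
    have h2 : ∀ i k, Ex.pv i (Ex.pv k f) x = 0 := fun i k =>
      image_eq_zero_of_notMem_tsupport fun h' => hx ((h.pv k).2 (((h.pv k).1.pv i).2 h'))
    simp [Co.lam, h1, h2, image_eq_zero_of_notMem_tsupport hx]

theorem Co.Sm.mono (hc : c.Sm O) (h : O' ⊆ O) : c.Sm O' :=
  ⟨fun i j => (hc.A i j).mono h, fun y hy => hc.pos y (h hy), fun i => (hc.B i).mono h,
    hc.C.mono h, hc.q.mono h⟩

/-- The integrand is continuous with compact support. -/
theorem Emb.integrable (h : Emb c O j) (hf : Continuous f) (hs : HasCompactSupport f)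
    (hO : tsupport f ⊆ O) (hg : ContinuousOn g O) : Integrable fun y => c.q y (f y) (g y) := by
  have h0 : ∀ x, x ∉ tsupport f → c.q x (f x) (g x) = 0 := fun x hx => by
    simp [image_eq_zero_of_notMem_tsupport hx]
  have h1 : ContinuousOn (fun y => c.q y (f y) (g y)) O :=
    (h.cont.clm_apply hf.continuousOn).clm_apply hg
  refine (integrableOn_iff_integrable_of_support_subset (s := tsupport f)
    fun x hx => by_contra fun hn => hx (h0 x hn)).1 ?_
  exact (h1.mono hO).integrableOn_compact hs.isCompact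

theorem jcal_int (h : Emb c O j) (hf : Tst O f) (hg : Tst O g) :
    Integrable fun y => c.q y (f y) (g y) :=
  h.integrable hf.1.continuous hf.2.1 hf.2.2 hg.1.continuous.continuousOn

theorem jcal_add_left (h : Emb c O j) (hf : Tst O f) (hg : Tst O g) {u : Eu n → V}
    (hu : Tst O u) : ⟪j (f + g) - (j f + j g), j u⟫_ℝ = 0 := by
  rw [inner_sub_left, inner_add_left, h.inner _ _ (hf.add hg) hu, h.inner _ _ hf hu,
    h.inner _ _ hg hu, ← integral_add (jcal_int h hf hu) (jcal_int h hg hu)]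
  simp

theorem jcal_smul_left (h : Emb c O j) (a : ℝ) (hf : Tst O f) {u : Eu n → V}
    (hu : Tst O u) : ⟪j (a • f) - a • j f, j u⟫_ℝ = 0 := by
  rw [inner_sub_left, real_inner_smul_left, h.inner _ _ (hf.smul a) hu, h.inner _ _ hf hu,
    ← integral_const_mul]
  simp

/-- Expand the square of the norm of the difference. -/
theorem Emb.add (h : Emb c O j) (hf : Tst O f) (hg : Tst O g) : j (f + g) = j f + j g := by
  rw [← sub_eq_zero, ← inner_self_eq_zero (𝕜 := ℝ), inner_sub_right, inner_add_right,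
    jcal_add_left h hf hg (hf.add hg), jcal_add_left h hf hg hf, jcal_add_left h hf hg hg]
  simp

theorem Emb.smul (h : Emb c O j) (a : ℝ) (hf : Tst O f) : j (a • f) = a • j f := by
  rw [← sub_eq_zero, ← inner_self_eq_zero (𝕜 := ℝ), inner_sub_right, real_inner_smul_right,
    jcal_smul_left h a hf (hf.smul a), jcal_smul_left h a hf hf]
  simp

theorem Emb.sub (h : Emb c O j) (hf : Tst O f) (hg : Tst O g) : j (f - g) = j f - j g := by
  have h1 := h.add hf (hg.smul (-1))
  rwa [h.smul _ hg, neg_one_smul, neg_one_smul, ← sub_eq_add_neg, ← sub_eq_add_neg] at h1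

theorem Emb.bound (h : Emb c O j) (hK : IsCompact K') (hO : K' ⊆ O) : ∃ C, 0 ≤ C ∧
    ∀ f, Tst O f → tsupport f ⊆ K' → ∀ ε, (∀ x, ‖f x‖ ≤ ε) → ‖j f‖ ≤ C * ε := by
  obtain ⟨M, hM⟩ := hK.exists_bound_of_continuousOn (f := c.q) (h.cont.mono hO)
  refine ⟨√(|M| * volume.real K'), Real.sqrt_nonneg _, fun f hf hs ε hε => ?_⟩
  have hε0 : 0 ≤ ε := (norm_nonneg _).trans (hε 0)
  have h0 : 0 ≤ |M| * volume.real K' := by positivity
  refine abs_le_of_sq_le_sq' ?_ (by positivity) |>.2
  rw [mul_pow, Real.sq_sqrt h0, ← real_inner_self_eq_norm_sq, h.inner _ _ hf hf,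
    ← setIntegral_eq_integral_of_forall_compl_eq_zero (s := K') fun x hx => by
      simp [image_eq_zero_of_notMem_tsupport fun h' => hx (hs h')]]
  rw [mul_right_comm]
  refine (Real.le_norm_self _).trans (norm_setIntegral_le_of_norm_le_const (C := |M| * ε ^ 2)
    hK.measure_lt_top fun x hx => ?_)
  calc ‖c.q x (f x) (f x)‖ ≤ ‖c.q x‖ * ‖f x‖ * ‖f x‖ := (c.q x).le_opNorm₂ _ _
    _ ≤ |M| * ε * ε := by
      gcongr
      exacts [(hM x hx).trans (le_abs_self M), hε x, hε x]
    _ = |M| * ε ^ 2 := by ring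

end Pool.Agent.Lib.MP_570070_gt.Ex
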