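import Pool.Agent.Lib.MP_570070_gt.Ex.Alg
import Pool.Agent.Lib.MP_570070_gt.Ex.JCal
import Pool.Agent.Lib.MP_570070_gt.An.NvVol
import Pool.Agent.Lib.MP_570070_gt.An.NvL2

/-! Forms in a chart. -/

open MeasureTheory Filter Topology Set
open scoped Manifold ContDiff InnerProductSpace

set_option maxSynthPendingDepth 3

namespace Pool.Agent.Lib.MP_570070_gt.Ex

open Pool.Agent.Lib.MP_570070_gt.An

variable {n k : ℕ} {X : RMfd n} {e e' : OpenPartialHomeomorph X.M (Eu n)}

/-- Chain rule for `e ∘ e.symm = id` near `y` (or `OpenPartialHomeomorph.MDifferentiable`). -/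
theorem cot_tang (he : e ∈ atlas (Eu n) X.M) {y : Eu n} (hy : y ∈ e.target) (v : Eu n) :
    cot e (e.symm y) (tang e y v) = v := by
  exact DFunLike.congr_fun
    ((mdifferentiable_of_mem_atlas (I := 𝓘(ℝ, Eu n)) he).comp_symm_deriv hy) v

theorem tang_cot (he : e ∈ atlas (Eu n) X.M) {x : X.M} (hx : x ∈ e.source) (v : Eu n) :
    tang e (e x) (cot e x v) = v := by
  exact DFunLike.congr_fun
    ((mdifferentiable_of_mem_atlas (I := 𝓘(ℝ, Eu n)) he).symm_comp_deriv hx) v

theorem tang_chartAt (x : X.M) (v : Eu n) :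
    tang (chartAt (Eu n) x) (chartAt (Eu n) x x) v = v := by
  have h1 : cot (chartAt (Eu n) x) x v = v :=
    DFunLike.congr_fun (mfderiv_extChartAt_self (I := 𝓘(ℝ, Eu n)) (x := x)) v
  have h2 := tang_cot (chart_mem_atlas (Eu n) x) (mem_chart_source (Eu n) x) v
  rwa [h1] at h2

theorem met_gr (he : e ∈ atlas (Eu n) X.M) : Met (gr e) e.target := by
  exact ⟨e.open_target, X.smooth e he, fun y hy => gram_posDef (X.symm _) (X.pos _)
    (Function.LeftInverse.injective (cot_tang he hy))⟩

theorem contDiffOn_trans (he : e ∈ atlas (Eu n) X.M) (he' : e' ∈ atlas (Eu n) X.M) :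
    ContDiffOn ℝ ∞ (e' ∘ e.symm) (e.target ∩ e.symm ⁻¹' e'.source) := by
  exact contMDiffOn_iff_contDiffOn.1
    ((contMDiffOn_of_mem_maximalAtlas (IsManifold.subset_maximalAtlas he')).comp
      ((contMDiffOn_symm_of_mem_maximalAtlas (IsManifold.subset_maximalAtlas he)).mono
        inter_subset_left) fun y hy => hy.2)

/-- `tang_trans`. -/
theorem inChart_trans (he : e ∈ atlas (Eu n) X.M) (he' : e' ∈ atlas (Eu n) X.M) (α : Form X k)
    {y : Eu n} (hy : y ∈ e.target) (hy' : e.symm y ∈ e'.source) : inChart α e y =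
      (inChart α e' (e' (e.symm y))).compContinuousLinearMap (fderiv ℝ (e' ∘ e.symm) y) := by
  rw [inChart, inChart, (tang_trans he he' hy hy').2, e'.left_inv hy']
  rfl

theorem inChart_ext (he : e ∈ atlas (Eu n) X.M) (f : Eu n → Alt n k) {y : Eu n}
    (hy : y ∈ e.target) : inChart (ext e f) e y = f y := by
  ext v
  simp only [inChart, ext, if_pos (e.map_target hy), e.right_inv hy,
    ContinuousAlternatingMap.compContinuousLinearMap_apply, Function.comp_def, cot_tang he hy]

theorem ext_smul_inChart (he : e ∈ atlas (Eu n) X.M) (φ : Eu n → ℝ) (α : Form X k) {x : X.M}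
    (hx : x ∈ e.source) : ext e (fun y => φ y • inChart α e y) x = φ (e x) • α x := by
  ext v
  simp only [inChart, ext, if_pos hx, e.left_inv hx, ContinuousAlternatingMap.smul_apply,
    ContinuousAlternatingMap.compContinuousLinearMap_apply, Function.comp_def, tang_cot he hx]

theorem ext_add (f g : Eu n → Alt n k) : ext e (f + g) = ext e f + ext e g := by
  funext x
  simp only [ext, Pi.add_apply]
  split_ifs
  · ext v
    rfl
  · exact (add_zero _).symm

theorem tsupport_ext {f : Eu n → Alt n k} (hf : Tst e.target f) :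
    IsCompact (e.symm '' tsupport f) ∧ tsupport (ext e f) ⊆ e.symm '' tsupport f := by
  have h1 := hf.2.1.isCompact.image_of_continuousOn (e.continuousOn_symm.mono hf.2.2)
  refine ⟨h1, closure_minimal (fun x hx => ?_) h1.isClosed⟩
  by_cases h2 : x ∈ e.source
  · refine ⟨e x, subset_tsupport _ fun h3 => hx ?_, e.left_inv h2⟩
    ext v
    simp [ext, h2, h3]
  · exact absurd (if_neg h2) hx

/-- In a chart `e'`: near points that come from `e.source` use `inChart_trans`, `inChart_ext`,
`contDiffOn_pull`; near the other points the form vanishes (`tsupport_ext`). -/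
theorem isTest_ext (he : e ∈ atlas (Eu n) X.M) {f : Eu n → Alt n k} (hf : Tst e.target f) :
    IsTest (ext e f) := by
  obtain ⟨h1, h2⟩ := tsupport_ext hf
  refine ⟨fun e' he' y hy => ContDiffAt.contDiffWithinAt ?_,
    h1.of_isClosed_subset (isClosed_tsupport _) h2⟩
  by_cases h3 : e'.symm y ∈ e.source
  · have h4 : IsOpen (e'.target ∩ e'.symm ⁻¹' e.source) :=
      e'.continuousOn_symm.isOpen_inter_preimage e'.open_target e.open_source
    have h5 := contDiffOn_trans he' he
    refine ((contDiffOn_pull (hf.1.comp_contDiffOn h5)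
      (h5.fderiv_of_isOpen h4 (by simp))).congr fun z hz => ?_).contDiffAt (h4.mem_nhds ⟨hy, h3⟩)
    rw [inChart_trans he' he _ hz.1 hz.2, inChart_ext he _ (e.map_source hz.2)]
    rfl
  · have h4 : ext e f =ᶠ[𝓝 (e'.symm y)] 0 := notMem_tsupport_iff_eventuallyEq.1 fun h5 => by
      obtain ⟨z, hz, h6⟩ := h2 h5
      exact h3 (h6 ▸ e.map_target (hf.2.2 hz))
    refine (contDiffAt_const (c := (0 : Alt n k))).congr_of_eventuallyEq ?_
    filter_upwards [(e'.continuousAt_symm hy).eventually h4] with z hz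
    ext v
    simp [inChart, hz]

end Pool.Agent.Lib.MP_570070_gt.Ex
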