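import Pool.Agent.Lib.MP_570070_gt.Ex.CodA

/-! The codifferential and the Laplacian in coordinates. -/

open MeasureTheory Filter Topology Set
open scoped ContDiff InnerProductSpace

set_option maxSynthPendingDepth 3

namespace Pool.Agent.Lib.MP_570070_gt.Ex

open Pool.Agent.Lib.MP_570070_gt.An

variable {n k : ℕ} {A : Eu n → Matrix (Fin n) (Fin n) ℝ} {U : Set (Eu n)}

theorem cod_pv_on {V : Type} [NormedAddCommGroup V] [NormedSpace ℝ V] (hU : IsOpen U)
    {f : Eu n → V} (hf : ContDiffOn ℝ ∞ f U) (i : Fin n) : ContDiffOn ℝ ∞ (pv i f) U :=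
  (hf.fderiv_of_isOpen hU (by simp)).clm_apply contDiffOn_const

theorem cod_pv_app {V V' : Type} [NormedAddCommGroup V] [NormedSpace ℝ V] [NormedAddCommGroup V']
    [NormedSpace ℝ V'] {a : Eu n → V →L[ℝ] V'} {f : Eu n → V} {y : Eu n}
    (ha : DifferentiableAt ℝ a y) (hf : DifferentiableAt ℝ f y) (l : Fin n) :
    fderiv ℝ (fun z => a z (f z)) y (bas l) = pv l a y (f y) + a y (pv l f y) := by
  rw [fderiv_clm_apply ha hf, add_comm]
  rfl

theorem cod_out {V : Type} [NormedAddCommGroup V] [NormedSpace ℝ V] {f : Eu n → V} (h : Tst U f)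
    {y : Eu n} (hy : y ∉ U) : f y = 0 :=
  image_eq_zero_of_notMem_tsupport fun h1 => hy (h.2.2 h1)

theorem cod_sm (hA : Met A U) (k : ℕ) (i : Fin n) : ContDiffOn ℝ ∞
    (fun y => -∑ j, (A y)⁻¹ i j • (cn j : Alt n (k + 1) →L[ℝ] Alt n k)) U :=
  (ContDiffOn.sum fun j _ => (contDiffOn_inv hA.sm (fun y hy => (hA.pos y hy).det_pos.ne') i j).smul
    contDiffOn_const).neg

/-- The composition of two operators of first order. -/
theorem first_comp {V V' V'' : Type} [NormedAddCommGroup V] [NormedSpace ℝ V]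
    [NormedAddCommGroup V'] [NormedSpace ℝ V'] [NormedAddCommGroup V''] [NormedSpace ℝ V'']
    (hU : IsOpen U) {a : Fin n → Eu n → V →L[ℝ] V'} {b : Eu n → V →L[ℝ] V'}
    {a' : Fin n → Eu n → V' →L[ℝ] V''} {b' : Eu n → V' →L[ℝ] V''}
    (ha : ∀ i, ContDiffOn ℝ ∞ (a i) U) (hb : ContDiffOn ℝ ∞ b U)
    (ha' : ∀ i, ContDiffOn ℝ ∞ (a' i) U) (hb' : ContDiffOn ℝ ∞ b' U) :
    ∃ (B : Fin n → Eu n → V →L[ℝ] V'') (C : Eu n → V →L[ℝ] V''), (∀ i, ContDiffOn ℝ ∞ (B i) U) ∧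
      ContDiffOn ℝ ∞ C U ∧ ∀ (f : Eu n → V) (g : Eu n → V'), ContDiff ℝ ∞ f →
        (∀ y ∈ U, g y = ∑ i, a i y (pv i f y) + b y (f y)) → ∀ y ∈ U,
          ∑ l, a' l y (pv l g y) + b' y (g y) =
            ∑ l, ∑ i, a' l y (a i y (pv l (pv i f) y)) + ∑ i, B i y (pv i f y) + C y (f y) := by
  refine ⟨fun i y => ∑ l, (a' l y).comp (pv l (a i) y) + (a' i y).comp (b y) + (b' y).comp (a i y),
    fun y => ∑ l, (a' l y).comp (pv l b y) + (b' y).comp (b y), fun i => ?_, ?_,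
    fun f g hf hg y hy => ?_⟩
  · exact ((ContDiffOn.sum fun l _ => (ha' l).clm_comp (cod_pv_on hU (ha i) l)).add
      ((ha' i).clm_comp hb)).add (hb'.clm_comp (ha i))
  · exact (ContDiffOn.sum fun l _ => (ha' l).clm_comp (cod_pv_on hU hb l)).add (hb'.clm_comp hb)
  have hn := hU.mem_nhds hy
  have d1 : DifferentiableAt ℝ f y := hf.differentiable (by simp) y
  have d2 : ∀ i, DifferentiableAt ℝ (pv i f) y := fun i =>
    ((cod_pv_on hU hf.contDiffOn i).contDiffAt hn).differentiableAt (by simp)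
  have d3 : ∀ i, DifferentiableAt ℝ (a i) y := fun i =>
    ((ha i).contDiffAt hn).differentiableAt (by simp)
  have d4 : DifferentiableAt ℝ b y := (hb.contDiffAt hn).differentiableAt (by simp)
  have h1 : ∀ l, pv l g y = ∑ i, (pv l (a i) y (pv i f y) + a i y (pv l (pv i f) y)) +
      (pv l b y (f y) + b y (pv l f y)) := fun l => by
    have h2 : g =ᶠ[𝓝 y] fun z => ∑ i, a i z (pv i f z) + b z (f z) := mem_of_superset hn hg
    rw [pv, h2.fderiv_eq, fderiv_fun_add (.fun_sum fun i _ => (d3 i).clm_apply (d2 i))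
      (d4.clm_apply d1), fderiv_fun_sum fun i _ => (d3 i).clm_apply (d2 i), add_apply, sum_apply,
      ← cod_pv_app d4 d1]
    simp only [← cod_pv_app (d3 _) (d2 _)]
  simp only [h1, hg y hy, map_add, map_sum, add_apply, sum_apply, ContinuousLinearMap.comp_apply,
    Finset.sum_add_distrib]
  rw [Finset.sum_comm (f := fun i l => a' l y (pv l (a i) y (pv i f y)))]
  abel

/-- Symmetry of second derivatives (`ContDiffAt.isSymmSndFDerivAt`). -/
theorem pv_comm {V : Type} [NormedAddCommGroup V] [NormedSpace ℝ V] {f : Eu n → V}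
    (hf : ContDiff ℝ ∞ f) (i j : Fin n) : pv i (pv j f) = pv j (pv i f) := by
  funext y
  have h1 : DifferentiableAt ℝ (fderiv ℝ f) y :=
    (hf.contDiffAt.fderiv_right (m := 1) (by norm_cast)).differentiableAt (by simp)
  have h2 : ∀ i j : Fin n, pv i (pv j f) y = fderiv ℝ (fderiv ℝ f) y (bas i) (bas j) := by
    intro i j
    change fderiv ℝ (fun z => fderiv ℝ f z (bas j)) y (bas i) = _
    rw [fderiv_clm_apply h1 (differentiableAt_const _)]
    simp
  rw [h2, h2]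
  exact (hf.contDiffAt.isSymmSndFDerivAt (by simpa using by norm_cast)).eq _ _

theorem cod_one (hA : Met A U) (k : ℕ) :
    ∃ (B : Fin n → Eu n → Alt n k →L[ℝ] Alt n k) (C : Eu n → Alt n k →L[ℝ] Alt n k),
      (∀ i, ContDiffOn ℝ ∞ (B i) U) ∧ ContDiffOn ℝ ∞ C U ∧ ∀ f, Tst U f → ∀ y ∈ U,
        cod A (extDeriv f) y = -∑ l, ∑ i, ∑ j, (A y)⁻¹ l j • cn j (wd i (pv l (pv i f) y)) +
          ∑ i, B i y (pv i f y) + C y (f y) := by
  obtain ⟨Z, hZ, h1⟩ := exists_cod hA k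
  obtain ⟨B, C, hB, hC, h⟩ := first_comp hA.isOpen (a := fun i _ => wd i) (b := fun _ => 0)
    (fun _ => contDiffOn_const) contDiffOn_const (cod_sm hA k) hZ
  refine ⟨B, C, hB, hC, fun f hf y hy => ?_⟩
  have h2 := h f (extDeriv f) hf.1 (fun z _ => by simp [extDeriv_eq]) y hy
  rw [h1 _ hf.extDeriv.1.1 y hy]
  simpa only [neg_apply, sum_apply, smul_apply, Finset.sum_neg_distrib] using h2

/-- `first_comp`, `cn_wd_zero`; outside `U` both sides vanish (`Tst.lam`, `Tst.cod`). -/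
theorem exists_co_zero (hA : Met A U) : ∃ c : Co n (Alt n 0), c.Sm U ∧
    (c.q = fun y => qq (A y)) ∧ ∀ f, Tst U f → c.lam f = cod A (extDeriv f) := by
  obtain ⟨B, C, hB, hC, h⟩ := cod_one hA 0
  refine ⟨⟨A, B, C, fun y => qq (A y)⟩, ⟨hA.sm, hA.pos, hB, hC, hA.contDiffOn_qq⟩, rfl,
    fun f hf => funext fun y => ?_⟩
  by_cases hy : y ∈ U
  · rw [h f hf y hy]
    simp [Co.lam, cn_wd_zero]
  · rw [cod_out (hf.lam hA.isOpen ⟨hA.sm, hA.pos, hB, hC, hA.contDiffOn_qq⟩).1 hy,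
      cod_out (hf.extDeriv.1.cod hA).1 hy]

/-- `first_comp` twice, `cn_wd`, `pv_comm`. -/
theorem exists_co_succ (hA : Met A U) (k : ℕ) : ∃ c : Co n (Alt n (k + 1)), c.Sm U ∧
    (c.q = fun y => qq (A y)) ∧
      ∀ f, Tst U f → c.lam f = cod A (extDeriv f) + extDeriv (cod A f) := by
  obtain ⟨B, C, hB, hC, h⟩ := cod_one hA (k + 1)
  obtain ⟨Z, hZ, h1⟩ := exists_cod hA k
  obtain ⟨B', C', hB', hC', h'⟩ := first_comp hA.isOpen (cod_sm hA k) hZ
    (a' := fun i _ => wd i) (b' := fun _ => 0) (fun _ => contDiffOn_const) contDiffOn_const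
  have hs : Co.Sm ⟨A, fun i y => B i y + B' i y, fun y => C y + C' y, fun y => qq (A y)⟩ U :=
    ⟨hA.sm, hA.pos, fun i => (hB i).add (hB' i), hC.add hC', hA.contDiffOn_qq⟩
  refine ⟨_, hs, rfl, fun f hf => funext fun y => ?_⟩
  by_cases hy : y ∈ U
  · have h2 := h' f (cod A f) hf.1 (fun z hz => by simp [h1 f hf.1 z hz]) y hy
    rw [zero_apply, add_zero, ← extDeriv_eq, Finset.sum_comm] at h2
    have h3 : ∀ l i, (A y)⁻¹ l i • pv l (pv i f) y =
        ∑ j, (A y)⁻¹ l j • cn j (wd i (pv l (pv i f) y)) +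
          ∑ j, (A y)⁻¹ l j • wd i (cn j (pv i (pv l f) y)) := fun l i => by
      simp only [pv_comm hf.1 i l, ← Finset.sum_add_distrib, ← smul_add, cn_wd]
      simp
    rw [Pi.add_apply, h f hf y hy, h2]
    simp only [Co.lam, h3, Finset.sum_add_distrib, add_apply, neg_apply, sum_apply, smul_apply,
      map_neg, map_sum, map_smul, Finset.sum_neg_distrib]
    abel
  · rw [Pi.add_apply, cod_out (hf.lam hA.isOpen hs).1 hy, cod_out (hf.extDeriv.1.cod hA).1 hy,
      cod_out (hf.cod hA).1.extDeriv.1 hy, add_zero]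

end Pool.Agent.Lib.MP_570070_gt.Ex
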