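import Pool.Agent.Lib.MP_570070_gt.Ex.Alg
import Pool.Agent.Lib.MP_570070_gt.Ex.JCal

/-! The codifferential and the Laplacian in coordinates. -/

open MeasureTheory Filter Topology Set
open scoped ContDiff InnerProductSpace

set_option maxSynthPendingDepth 3

namespace Pool.Agent.Lib.MP_570070_gt.Ex

open Pool.Agent.Lib.MP_570070_gt.An

variable {n k : ℕ} {A : Eu n → Matrix (Fin n) (Fin n) ℝ} {U : Set (Eu n)}

theorem coda_of_on {V : Type} [NormedAddCommGroup V] [NormedSpace ℝ V] {f : Eu n → V}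
    {K : Set (Eu n)} (hO : IsOpen U) (hf : ContDiffOn ℝ ∞ f U) (hK : IsCompact K) (hs : K ⊆ U)
    (h : ∀ x, x ∉ K → f x = 0) : Tst U f ∧ tsupport f ⊆ K := by
  refine tst_of_compact (contDiff_iff_contDiffAt.2 fun x => ?_) hK hs h
  by_cases hx : x ∈ U
  · exact hf.contDiffAt (hO.mem_nhds hx)
  · refine (contDiffAt_const (c := (0 : V))).congr_of_eventuallyEq ?_
    filter_upwards [hK.isClosed.isOpen_compl.mem_nhds fun h' => hx (hs h')] with y hy using h y hy

theorem coda_pv {V : Type} [NormedAddCommGroup V] [NormedSpace ℝ V] {g : Eu n → V}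
    (hO : IsOpen U) (hg : ContDiffOn ℝ ∞ g U) (i : Fin n) : ContDiffOn ℝ ∞ (pv i g) U :=
  (hg.fderiv_of_isOpen (m := ∞) hO le_rfl).clm_apply contDiffOn_const

theorem coda_int {V W : Type} [NormedAddCommGroup V] [NormedSpace ℝ V] [NormedAddCommGroup W]
    [NormedSpace ℝ W] (B : V →L[ℝ] W →L[ℝ] ℝ) (hO : IsOpen U) {u : Eu n → V} (hu : Tst U u)
    {v : Eu n → W} (hv : ContDiffOn ℝ ∞ v U) : Integrable fun y => B (u y) (v y) := by
  have h := (coda_of_on (f := fun y => B (u y) (v y)) hO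
    ((B.contDiff.comp_contDiffOn hu.1.contDiffOn).clm_apply hv) hu.2.1.isCompact hu.2.2
    fun x hx => by simp [image_eq_zero_of_notMem_tsupport hx]).1
  exact h.1.continuous.integrable_of_hasCompactSupport h.2.1

theorem coda_parts {V W : Type} [NormedAddCommGroup V] [NormedSpace ℝ V] [NormedAddCommGroup W]
    [NormedSpace ℝ W] (B : V →L[ℝ] W →L[ℝ] ℝ) (hO : IsOpen U) {u : Eu n → V} (hu : Tst U u)
    {v : Eu n → W} (hv : ContDiffOn ℝ ∞ v U) (i : Fin n) :
    ∫ y, B (u y) (pv i v y) = -∫ y, B (pv i u y) (v y) :=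
  integral_bilinear_fderiv_right_eq_neg_left_of_integrable (coda_int B hO (hu.pv i).1 hv)
    (coda_int B hO hu (coda_pv hO hv i)) (coda_int B hO hu hv)
    (fun x _ => hu.1.differentiable (by simp) x)
    fun _ hx => (hv.contDiffAt (hO.mem_nhds (hu.2.2 hx))).differentiableAt (by simp)

theorem coda_sqrt (hA : Met A U) {y : Eu n} (hy : y ∈ U) : √(A y).det ≠ 0 :=
  (Real.sqrt_pos.2 (hA.pos y hy).det_pos).ne'

theorem coda_unit (hA : Met A U) {y : Eu n} (hy : y ∈ U) : IsUnit (A y).det :=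
  (hA.pos y hy).det_pos.ne'.isUnit

theorem coda_op (hA : Met A U) (k : ℕ) : ContDiffOn ℝ ∞
    (fun z => √(A z).det • (cm (A z)⁻¹ : Alt n k →L[ℝ] Alt n k)) U :=
  hA.contDiffOn_sqrt.smul
    (contDiffOn_cm (contDiffOn_inv hA.sm fun y hy => (hA.pos y hy).det_pos.ne'))

theorem coda_w (hA : Met A U) {f : Eu n → Alt n k} (h : Tst U f) :
    Tst U (fun z => √(A z).det • cm (A z)⁻¹ (f z)) ∧
      tsupport (fun z => √(A z).det • cm (A z)⁻¹ (f z)) ⊆ tsupport f :=
  coda_of_on hA.isOpen ((coda_op hA k).clm_apply h.1.contDiffOn) h.2.1.isCompact h.2.2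
    fun x hx => by simp [image_eq_zero_of_notMem_tsupport hx]

theorem coda_pv_zero (hA : Met A U) {f : Eu n → Alt n k} (h : Tst U f) {x : Eu n}
    (hx : x ∉ tsupport f) (i : Fin n) : pv i (fun z => √(A z).det • cm (A z)⁻¹ (f z)) x = 0 :=
  image_eq_zero_of_notMem_tsupport fun h' => hx ((coda_w hA h).2 (((coda_w hA h).1.pv i).2 h'))

theorem Tst.extDeriv {f : Eu n → Alt n k} (h : Tst U f) :
    Tst U (extDeriv f) ∧ tsupport (extDeriv f) ⊆ tsupport f := by
  have e : _root_.extDeriv f = fun y => ∑ i, wd i (Ex.pv i f y) := funext (extDeriv_eq f)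
  rw [e]
  refine tst_of_compact (ContDiff.sum fun i _ => (wd i).contDiff.comp (h.pv i).1.1)
    h.2.1.isCompact h.2.2 fun x hx => Finset.sum_eq_zero fun i _ => ?_
  rw [image_eq_zero_of_notMem_tsupport fun h' => hx ((h.pv i).2 h'), map_zero]

theorem Tst.cod (hA : Met A U) {f : Eu n → Alt n (k + 1)} (h : Tst U f) :
    Tst U (cod A f) ∧ tsupport (cod A f) ⊆ tsupport f := by
  refine coda_of_on hA.isOpen ?_ h.2.1.isCompact h.2.2 fun x hx => ?_
  · refine (hA.contDiffOn_sqrt.inv fun y hy => coda_sqrt hA hy).neg.smul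
      ((contDiffOn_cm hA.sm).clm_apply (ContDiffOn.sum fun i _ => ?_))
    exact ((cn i).contDiff.comp ((coda_w hA h).1.pv i).1.1).contDiffOn
  · simp [Ex.cod, coda_pv_zero hA h hx]

/-- Let `w z = √(A z).det • cm (A z)⁻¹ (f z)`, a test function. The left integrand is
`∑ i, ip1 (cn i (w y)) (pv i g y)` (`extDeriv_eq`, `ip1_wd`), the right one is
`-∑ i, ip1 (cn i (pv i w y)) (g y)` (`cm_mul`). The integral of the derivative `pv i` of the test
function `y ↦ ip1 (cn i (w y)) (g y)` vanishes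
(`integral_mul_fderiv_eq_neg_fderiv_mul_of_integrable` or `integral_fderiv_eq_zero`-like). -/
theorem integral_cod (hA : Met A U) {f : Eu n → Alt n (k + 1)} (hf : Tst U f) {g : Eu n → Alt n k}
    (hg : ContDiffOn ℝ ∞ g U) :
    ∫ y, qq (A y) (f y) (extDeriv g y) = ∫ y, qq (A y) (cod A f y) (g y) := by
  have hw := (coda_w hA hf).1
  set w : Eu n → Alt n (k + 1) := fun z => √(A z).det • cm (A z)⁻¹ (f z) with hwd
  have h1 : ∀ y, qq (A y) (f y) (extDeriv g y) = ∑ i, (ip1.comp (cn i)) (w y) (pv i g y) := by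
    intro y
    have e : qq (A y) (f y) = ip1 (w y) := by simp [qq, hwd]
    rw [e, extDeriv_eq, map_sum]
    refine Finset.sum_congr rfl fun i _ => ?_
    rw [ip1_comm, ip1_wd, ip1_comm, ContinuousLinearMap.comp_apply]
  have h2 : ∀ y, qq (A y) (cod A f y) (g y) = -∑ i, (ip1.comp (cn i)) (pv i w y) (g y) := by
    intro y
    by_cases hy : y ∈ U
    · have e : qq (A y) (cod A f y) = -ip1 (∑ i, cn i (pv i w y)) := by
        rw [qq, smul_apply, ContinuousLinearMap.comp_apply, cod, map_smul,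
          ← cm_mul, Matrix.mul_nonsing_inv _ (coda_unit hA hy), cm_one, map_smul, smul_smul,
          mul_neg, mul_inv_cancel₀ (coda_sqrt hA hy), neg_one_smul]
      rw [e, map_sum, neg_apply, sum_apply]
      rfl
    · have e : ∀ i, pv i w y = 0 := coda_pv_zero hA hf fun h' => hy (hf.2.2 h')
      simp [cod, ← hwd, e]
  simp only [h1, h2]
  rw [integral_neg, integral_finsetSum _ fun i _ =>
      coda_int _ hA.isOpen hw (coda_pv hA.isOpen hg i),
    integral_finsetSum _ fun i _ => coda_int _ hA.isOpen (hw.pv i).1 hg, ← Finset.sum_neg_distrib]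
  exact Finset.sum_congr rfl fun i _ => coda_parts _ hA.isOpen hw hg i

/-- Product rule; `cn_cm`, `cm_mul`, and `A⁻¹` is symmetric. `Z y` is the composition of
`-(√det)⁻¹ • cm (A y)`, `cn i` and `pv i (fun z => √(A z).det • cm (A z)⁻¹) y`. -/
theorem exists_cod (hA : Met A U) (k : ℕ) : ∃ Z : Eu n → Alt n (k + 1) →L[ℝ] Alt n k,
    ContDiffOn ℝ ∞ Z U ∧ ∀ f : Eu n → Alt n (k + 1), ContDiff ℝ ∞ f → ∀ y ∈ U,
      cod A f y = -∑ i, ∑ j, (A y)⁻¹ i j • cn j (pv i f y) + Z y (f y) := by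
  have hP := coda_op hA (k + 1)
  set P : Eu n → Alt n (k + 1) →L[ℝ] Alt n (k + 1) := fun z => √(A z).det • cm (A z)⁻¹ with hPd
  refine ⟨fun y => -(√(A y).det)⁻¹ • (cm (A y)).comp (∑ i, (cn i).comp (pv i P y)), ?_,
    fun f hf y hy => ?_⟩
  · refine (hA.contDiffOn_sqrt.inv fun y hy => coda_sqrt hA hy).neg.smul
      ((contDiffOn_cm hA.sm).clm_comp (ContDiffOn.sum fun i _ => ?_))
    exact contDiffOn_const.clm_comp (coda_pv hA.isOpen hP i)
  · have h1 : ∀ i, pv i (fun z => √(A z).det • cm (A z)⁻¹ (f z)) y =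
        √(A y).det • cm (A y)⁻¹ (pv i f y) + pv i P y (f y) := by
      intro i
      have h2 := fderiv_clm_apply (c := P) (u := f) (x := y)
        ((hP.contDiffAt (hA.isOpen.mem_nhds hy)).differentiableAt (by simp))
        (hf.differentiable (by simp) y)
      exact congrArg (fun L => L (bas i)) h2
    have hs : ∀ i j, (A y)⁻¹ j i = (A y)⁻¹ i j := fun i j =>
      (hA.pos y hy).isHermitian.inv.apply i j
    have h3 : ∀ i, cm (A y) (cn i (√(A y).det • cm (A y)⁻¹ (pv i f y))) =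
        √(A y).det • ∑ j, (A y)⁻¹ i j • cn j (pv i f y) := by
      intro i
      rw [map_smul, map_smul, cn_cm, ← cm_mul, Matrix.nonsing_inv_mul _ (coda_unit hA hy), cm_one]
      simp only [hs i]
    simp only [cod, h1, map_add, map_sum, h3, Finset.sum_add_distrib, smul_add,
      smul_apply, ContinuousLinearMap.comp_apply,
      sum_apply]
    rw [← Finset.smul_sum, smul_smul, neg_mul, inv_mul_cancel₀ (coda_sqrt hA hy), neg_one_smul]

end Pool.Agent.Lib.MP_570070_gt.Ex
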