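import Pool.Agent.Lib.MP_570070_gt.Ex.Par

/-! Conjugation by the Gaussian; the parametrix with cut-off. -/

open MeasureTheory Filter Topology Set
open scoped ContDiff InnerProductSpace

namespace Pool.Agent.Lib.MP_570070_gt.Ex

open Pool.Agent.Lib.MP_570070_gt.An

variable {n : ℕ} {V : Type} [NormedAddCommGroup V] [NormedSpace ℝ V] {c : Co n V}
  {w : ℤ} {u : ℝ → E2 n → V}

theorem gs_pos (t : ℝ) (p : E2 n) : 0 < c.gs t p := Real.exp_pos _

theorem gs_eq {t : ℝ} (ht : 0 < t) (p : E2 n) :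
    c.gs t p = (√t)⁻¹ ^ n * Real.exp (-(c.sq p / (4 * t))) := by
  rw [Real.sqrt_eq_rpow, Real.rpow_def_of_pos ht, ← Real.exp_neg, ← Real.exp_nat_mul,
    ← Real.exp_add, Co.gs]
  congr 1
  ring

theorem smooth_ker (hc : c.Sm univ) (hu : Tm w u) :
    ContDiffOn ℝ ∞ (fun z : ℝ × E2 n => c.gs z.1 z.2 • u z.1 z.2) (Ioi 0 ×ˢ univ) := by
  refine ContDiffOn.smul (ContDiffOn.exp ?_) hu.smooth
  exact (contDiffOn_const.mul (contDiffOn_fst.log fun z hz => ne_of_gt hz.1)).neg.sub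
    (((van_sq hc).contDiff.comp contDiff_snd).contDiffOn.div (contDiffOn_const.mul contDiffOn_fst)
      fun z hz => mul_ne_zero four_ne_zero (ne_of_gt hz.1))

theorem conj_gs (hc : c.Sm univ) (t : ℝ) : ContDiff ℝ ∞ (c.gs t) :=
  (contDiff_const.sub ((van_sq hc).contDiff.div_const _)).exp

theorem contDiff_ker (hc : c.Sm univ) (hu : Tm w u) {t : ℝ} (ht : 0 < t) (y : Eu n) :
    ContDiff ℝ ∞ (c.ker u t y) := by
  exact ((conj_gs hc t).smul (hu.contDiff ht)).comp (contDiff_id.prodMk contDiff_const)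

theorem conj_symm (hc : c.Sm univ) (y : Eu n) (i j : Fin n) : c.A y j i = c.A y i j :=
  (hc.pos y trivial).isHermitian.apply i j

theorem conj_dx_ell (hc : c.Sm univ) (i j : Fin n) : dx i (c.ell j) = fun p => c.A p.2 j i := by
  have h := fun k => (hc.contDiff_A j k).comp (contDiff_snd (E := Eu n) (F := Eu n))
  refine (dx_sum i _ fun k => (h k).mul (contDiff_ze k)).trans (funext fun p => ?_)
  refine (Finset.sum_congr rfl fun k _ => congrFun (dx_smul i (h k) (contDiff_ze k)) p).trans ?_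
  simp [Function.comp_def, dx_ze, dx_snd i (hc.contDiff_A j _)]

theorem conj_dx_sq (hc : c.Sm univ) (i : Fin n) : dx i c.sq = fun p => 2 * c.ell i p := by
  have h := fun k => (van_ell hc k).contDiff
  refine (dx_sum i _ fun k => (contDiff_ze k).mul (h k)).trans (funext fun p => ?_)
  refine (Finset.sum_congr rfl fun k _ => congrFun (dx_smul i (contDiff_ze k) (h k)) p).trans ?_
  simp [dx_ze, conj_dx_ell hc, Finset.sum_add_distrib, two_mul, conj_symm hc _ i, Co.ell,
    mul_comm (ze _ p)]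

theorem conj_dx_gs (hc : c.Sm univ) (i : Fin n) (t : ℝ) (p : E2 n) :
    dx i (c.gs t) p = -(c.gs t p * ((2 * t)⁻¹ * c.ell i p)) := by
  have h1 := ((van_sq hc).contDiff.differentiable (by simp) p).hasFDerivAt
  have h2 := ((h1.mul_const (4 * t)⁻¹).const_sub (-((n : ℝ) / 2 * Real.log t))).exp.fderiv
  have h3 := congrFun (conj_dx_sq hc i) p
  simp only [← div_eq_mul_inv] at h2
  rw [dx] at h3 ⊢
  rw [show c.gs t = fun p => Real.exp (-((n : ℝ) / 2 * Real.log t) - c.sq p / (4 * t)) from rfl, h2]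
  simp only [smul_apply, neg_apply, h3, smul_eq_mul]
  ring

/-- `dx i (ell j) p = A p.2 j i`, and `dx i sq = 2 * ell i` because `A` is symmetric. -/
theorem pv_ker (hc : c.Sm univ) (hu : Tm w u) {t : ℝ} (ht : 0 < t) (y : Eu n) (i : Fin n) :
    pv i (c.ker u t y) = c.ker (c.nab i u) t y := by
  refine (pv_eq_dx i ((conj_gs hc t).smul (hu.contDiff ht)) y).trans (funext fun x => ?_)
  refine (congrFun (dx_smul i (conj_gs hc t) (hu.contDiff ht)) _).trans ?_
  rw [conj_dx_gs hc, Co.ker, Co.nab]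
  module

theorem conj_alg {A B : Fin n → Fin n → ℝ} {l z : Fin n → ℝ} (h1 : ∀ i, ∑ j, B i j * l j = z i)
    (h2 : ∀ j, ∑ i, B i j * l i = z j) (h3 : ∀ i, ∑ j, B i j * A j i = 1) (a : ℝ) (v : V)
    (D : Fin n → V) (F : Fin n → Fin n → V) :
    ∑ i, ∑ j, B i j • (F i j - ((a * l j) • D i + (a * A j i) • v) -
      (a * l i) • (D j - (a * l j) • v)) = ∑ i, ∑ j, B i j • F i j - (2 * a) • ∑ i, z i • D i +
        (a ^ 2 * ∑ i, z i * l i - n * a) • v := by
  have e1 : ∑ i, ∑ j, B i j • (a * l j) • D i = a • ∑ i, z i • D i := by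
    simp only [smul_smul, ← Finset.sum_smul, mul_left_comm (B _ _) a, ← Finset.mul_sum, h1,
      Finset.smul_sum]
  have e2 : ∑ i, ∑ j, B i j • (a * l i) • D j = a • ∑ i, z i • D i := by
    rw [Finset.sum_comm]
    simp only [smul_smul, ← Finset.sum_smul, mul_left_comm (B _ _) a, ← Finset.mul_sum, h2,
      Finset.smul_sum]
  have e3 : ∑ i, ∑ j, B i j • (a * A j i) • v = (n * a) • v := by
    simp only [smul_smul, ← Finset.sum_smul, mul_left_comm (B _ _) a, ← Finset.mul_sum, h3]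
    simp [mul_comm]
  have e4 : ∑ i, ∑ j, B i j • (a * l i) • (a * l j) • v = (a ^ 2 * ∑ i, z i * l i) • v := by
    simp only [smul_smul, ← Finset.sum_smul, ← h1, Finset.sum_mul, Finset.mul_sum]
    congr 1
    exact Finset.sum_congr rfl fun i _ => Finset.sum_congr rfl fun j _ => by ring
  simp only [smul_sub, smul_add, Finset.sum_sub_distrib, Finset.sum_add_distrib, e1, e2, e3, e4]
  module

/-- `nab i (nab j u) = dx i (dx j u) - ell j / (2 t) • dx i u - ell i / (2 t) • dx j u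
  - A j i / (2 t) • u + ell i * ell j / (4 t ^ 2) • u`; sum against the symmetric matrix `A⁻¹`:
`∑ i, A⁻¹ i j * ell i = ze j`. -/
theorem sum_nab (hc : c.Sm univ) (hu : Tm w u) {t : ℝ} (ht : 0 < t) (p : E2 n) :
    ∑ i, ∑ j, (c.A p.2)⁻¹ i j • c.nab i (c.nab j u) t p =
      ∑ i, ∑ j, (c.A p.2)⁻¹ i j • dx i (dx j (u t)) p - t⁻¹ • eul (u t) p +
        (c.sq p / (4 * t ^ 2) - n / (2 * t)) • u t p := by
  have hd := (Matrix.isUnit_iff_isUnit_det _).1 (hc.pos p.2 trivial).isUnit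
  have h1 : ∀ i, ∑ j, (c.A p.2)⁻¹ i j * c.ell j p = ze i p := fun i =>
    congrFun ((Matrix.mulVec_mulVec (fun j => ze j p) (c.A p.2)⁻¹ (c.A p.2)).trans
      (by rw [Matrix.nonsing_inv_mul _ hd, Matrix.one_mulVec] : _ = fun j => ze j p)) i
  have h2 : ∀ j, ∑ i, (c.A p.2)⁻¹ i j * c.ell i p = ze j p := fun j => by
    rw [← h1]
    exact Finset.sum_congr rfl fun i _ => by
      rw [← (hc.pos p.2 trivial).inv.isHermitian.apply i j, star_trivial]
  have h3 : ∀ i, ∑ j, (c.A p.2)⁻¹ i j * c.A p.2 j i = 1 := fun i => by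
    rw [← Matrix.mul_apply, Matrix.nonsing_inv_mul _ hd, Matrix.one_apply_eq]
  have h4 : ∀ i j, dx i (c.nab j u t) p = dx i (dx j (u t)) p -
      (((2 * t)⁻¹ * c.ell j p) • dx i (u t) p + ((2 * t)⁻¹ * c.A p.2 j i) • u t p) := fun i j => by
    have h5 := (van_ell hc j).contDiff
    have h6 := hu.contDiff ht
    refine (congrFun (dx_sub i (contDiff_dx j h6) ((contDiff_const.mul h5).smul h6)) p).trans ?_
    have h7 := congrFun (dx_const_smul i (2 * t)⁻¹ h5) p
    simp only [smul_eq_mul, conj_dx_ell hc] at h7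
    rw [← h7]
    exact congrArg _ (congrFun (dx_smul i (contDiff_const.mul h5) h6) p)
  refine ((Finset.sum_congr rfl fun i _ => Finset.sum_congr rfl fun j _ => by
    rw [Co.nab, h4, Co.nab]).trans (conj_alg h1 h2 h3 _ _ _ _)).trans ?_
  rw [eul, Co.sq]
  congr 2
  · congr 1
    field_simp
  · field_simp
    ring

/-- The time derivative of `gs` is `gs * (sq / (4 t ^ 2) - n / (2 t))`; `pv_ker` twice,
`sum_nab`. -/
theorem conj (hc : c.Sm univ) (hu : Tm w u) {t : ℝ} (ht : 0 < t) (y x : Eu n) :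
    deriv (fun s => c.ker u s y x) t + c.lam (c.ker u t y) x =
      c.gs t (x, y) • c.opH u t (x, y) := by
  have h1 := (((((Real.hasDerivAt_log ht.ne').const_mul ((n : ℝ) / 2)).neg.sub
    ((hasDerivAt_const t (c.sq (x, y))).div ((hasDerivAt_id t).const_mul 4)
      (mul_ne_zero four_ne_zero ht.ne'))).exp).smul (hu.hasDerivAt ht (x, y))).deriv
  have h2 : deriv (fun s => c.ker u s y x) t = c.gs t (x, y) • dt u t (x, y) +
      (c.gs t (x, y) * (c.sq (x, y) / (4 * t ^ 2) - n / (2 * t))) • u t (x, y) := by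
    refine h1.trans ?_
    congr 3
    simp only [id]
    field_simp
    ring
  rw [h2]
  simp only [Co.lam, pv_ker hc hu ht, pv_ker hc (Tm.nab hc _ hu) ht, Co.ker, map_smul,
    smul_comm _ (c.gs t (x, y)), ← Finset.smul_sum, Co.opH, Co.opL, Co.opR, sub_smul,
    Finset.sum_sub_distrib, sum_nab hc hu ht (x, y)]
  module

/-- Minimum on the product of `K` and the unit sphere, homogeneity. -/
theorem sq_lower (hc : c.Sm univ) {K : Set (Eu n)} (hK : IsCompact K) :
    ∃ c₀, 0 < c₀ ∧ ∀ y ∈ K, ∀ x, c₀ * ‖x - y‖ ^ 2 ≤ c.sq (x, y) := by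
  obtain ⟨c₀, h0, h1⟩ := (hK.prod (isCompact_sphere (0 : Eu n) 1)).exists_forall_le'
    (f := fun z => ∑ i, z.2 i * ∑ j, c.A z.1 i j * z.2 j) (a := 0)
    (Continuous.continuousOn (by
      have := fun i j => (hc.contDiff_A i j).continuous
      fun_prop)) fun z hz => by
      exact (hc.pos z.1 trivial).dotProduct_mulVec_pos (Metric.ne_of_mem_sphere hz.2 one_ne_zero)
  refine ⟨c₀, h0, fun y hy x => ?_⟩
  rcases eq_or_ne x y with rfl | h
  · simp [Co.sq, ze]
  have h2 := norm_pos_iff.2 (sub_ne_zero.2 h)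
  have h3 := h1 (y, ‖x - y‖⁻¹ • (x - y)) ⟨hy, by simp [norm_smul, h2.ne']⟩
  rw [← le_div_iff₀ (pow_pos h2 2)]
  refine h3.trans (le_of_eq ?_)
  simp only [Co.sq, Co.ell, ze, Finset.sum_div, Finset.mul_sum, Pi.smul_apply, Pi.sub_apply,
    smul_eq_mul]
  exact Finset.sum_congr rfl fun i _ => Finset.sum_congr rfl fun j _ => by ring

/-- `gs_eq`, `sq_lower`, `Tm.bound` on `K' ×ˢ K` with half of the exponent. -/
theorem gs_bound (hc : c.Sm univ) (hu : Tm w u) {K K' : Set (Eu n)} (hK : IsCompact K)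
    (hK' : IsCompact K') : ∃ c₀ C, 0 < c₀ ∧ 0 ≤ C ∧ ∀ t ∈ Ioc (0 : ℝ) 1, ∀ y ∈ K, ∀ x ∈ K',
      c.gs t (x, y) * ‖u t (x, y)‖ ≤
        C * √t ^ w * ((√t)⁻¹ ^ n * Real.exp (-(c₀ * ‖x - y‖ ^ 2 / t))) := by
  obtain ⟨c₁, h0, h1⟩ := sq_lower hc hK
  obtain ⟨C, h2, h3⟩ := hu.bound (hK'.prod hK) (c₀ := c₁ / 8) (by positivity)
  refine ⟨c₁ / 8, C, by positivity, h2, fun t ht y hy x hx => ?_⟩
  have h4 : Real.exp (-(c.sq (x, y) / (4 * t))) ≤ Real.exp (-(c₁ / 8 * ‖x - y‖ ^ 2 / t)) *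
      Real.exp (-(c₁ / 8 * ‖x - y‖ ^ 2 / t)) := by
    rw [← Real.exp_add, Real.exp_le_exp]
    refine (neg_le_neg (div_le_div_of_nonneg_right (h1 y hy x)
      (mul_pos four_pos ht.1).le)).trans (le_of_eq ?_)
    ring
  rw [gs_eq ht.1, mul_comm (C * _), mul_assoc, mul_assoc]
  refine mul_le_mul_of_nonneg_left ((mul_le_mul_of_nonneg_right h4 (norm_nonneg _)).trans ?_)
    (by positivity)
  rw [mul_assoc]
  exact mul_le_mul_of_nonneg_left (h3 t ht (x, y) ⟨hx, hy⟩) (Real.exp_pos _).le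

theorem conj_zero (t : ℝ) (p : E2 n) : c.opH (fun _ _ => 0) t p = 0 := by
  have h1 : ∀ i, dx i (fun _ : E2 n => (0 : V)) = fun _ => 0 := fun i => funext fun p => by
    simp [dx]
  have h2 : ∀ i, c.nab i (fun _ _ => 0) = fun _ _ => 0 := fun i => funext₂ fun t p => by
    simp [Co.nab, h1]
  simp [Co.opH, Co.opL, Co.opR, dt, eul, h1, h2]

/-- Take `δ > 0` with `cthickening δ K ⊆ O` compact, `χ` smooth with compact support in `O` and
equal to one on that set (`exists_contMDiff_support_eq`-like lemmas, or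
`exists_contDiff_tsupport_subset`, `exists_smooth_zero_one_of_isClosed`), `u₀` from `exists_par`
with `N = M + n + 1` and `u t p = χ p.1 • u₀ t p`. For `‖x - y‖ < δ` the operators of `u` and `u₀`
agree (`opH_congr`, `gs_bound`); for `‖x - y‖ ≥ δ` and `x` in the support use `Tm.opH`,
`gs_bound`, `exp_far`; off the support `opH u = opH 0 = 0`. -/
theorem exists_good (hc : c.Sm univ) {O K : Set (Eu n)} (hO : IsOpen O) (hK : IsCompact K)
    (hKO : K ⊆ O) (M : ℕ) (v : V) : ∃ u, Good c O K M v u := by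
  obtain ⟨δ, hδ, hO'⟩ := hK.exists_cthickening_subset_open hO hKO
  have hK' := hK.cthickening (r := δ)
  obtain ⟨χ, h0, h1, -⟩ := exists_contMDiffMap_zero_one_of_isClosed (n := ⊤)
    (modelWithCornersSelf ℝ (Eu n)) (Metric.isOpen_thickening (δ := δ) (E := K)).isClosed_compl
    (Metric.isClosed_cthickening (δ := δ / 2) (E := K)) (disjoint_compl_left_iff_subset.2
      (Metric.cthickening_subset_thickening' hδ (half_lt_self hδ) K))
  have hχ : ContDiff ℝ ∞ χ := χ.contMDiff.contDiff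
  have h2 : ∀ x, x ∉ Metric.cthickening δ K → χ x = 0 := fun x hx =>
    h0 fun h => hx (Metric.thickening_subset_cthickening δ K h)
  have h3 : ∀ y ∈ K, ∀ x, ‖x - y‖ < δ / 2 → χ x = 1 := fun y hy x hx =>
    h1 (Metric.mem_cthickening_of_dist_le x y _ K hy (by rw [dist_eq_norm]; exact hx.le))
  generalize (χ : Eu n → ℝ) = φ at hχ h2 h3
  obtain ⟨u, hu, hu1, hu2⟩ := exists_par hc (M + n + 1) v
  have hv : Van 0 fun p : E2 n => φ p.1 := hχ.comp contDiff_fst
  have hw : Tm 0 fun t p => φ p.1 • u t p := (hu.van_smul hv).of_le (by simp)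
  obtain ⟨c₁, C₁, a1, b1, e1⟩ := gs_bound hc hu2 hK hK'
  obtain ⟨c₂, C₂, a2, b2, e2⟩ := gs_bound hc (hw.opH hc) hK hK'
  obtain ⟨C₃, b3, e3⟩ := exp_far a2 (half_pos hδ) (M + n + 2)
  refine ⟨_, hw, ⟨_, hK', hO', fun t x y hx => by simp [h2 x hx]⟩, ⟨φ, hχ,
    HasCompactSupport.intro hK' h2, fun y hy => h3 y hy y (by simpa using hδ),
    ((hu1.van_smul hv).of_le (by simp)).congr fun t _ => funext fun p => (smul_sub _ _ _).symm⟩,
    C₁ + C₂ * C₃, fun t ht y hy x => ?_⟩
  have hs : 0 < √t := Real.sqrt_pos.2 ht.1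
  rw [add_mul]
  by_cases hx : x ∈ Metric.cthickening δ K
  · rcases lt_or_ge ‖x - y‖ (δ / 2) with h | h
    · rw [opH_congr (u' := u) fun s => ((isOpen_lt (f := fun p : E2 n => ‖p.1 - y‖) (by fun_prop)
        continuous_const).eventually_mem h).mono fun p hp => by simp [h3 y hy _ hp]]
      refine (e1 t ht y hy x hx).trans (le_add_of_le_of_nonneg ?_ (by positivity))
      refine (mul_le_mul_of_nonneg_left (mul_le_of_le_one_right (by positivity)
        (Real.exp_le_one_iff.2 (neg_nonpos.2 (div_nonneg (by positivity) ht.1.le))))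
        (by positivity)).trans (le_of_eq ?_)
      rw [Nat.cast_succ, add_sub_cancel_right, zpow_natCast, inv_pow, pow_add]
      field_simp
    · refine (e2 t ht y hy x hx).trans (le_add_of_nonneg_of_le (by positivity) ?_)
      refine (mul_le_mul_of_nonneg_left (mul_le_mul_of_nonneg_left (e3 t ht _ h) (by positivity))
        (by positivity)).trans (le_of_eq ?_)
      rw [zero_sub, zpow_neg, zpow_ofNat, inv_pow, pow_add, pow_add]
      field_simp
  · rw [opH_congr (u' := fun _ _ => 0) fun s => ((hK'.isClosed.isOpen_compl.preimage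
      (continuous_fst (Y := Eu n))).eventually_mem (x := (x, y)) hx).mono fun p hp => by
        simp [h2 _ hp], conj_zero, norm_zero, mul_zero]
    positivity

end Pool.Agent.Lib.MP_570070_gt.Ex
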