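import Pool.Agent.Lib.MP_570070_gt.Ex.EigA

/-! Heat flows of trace class. -/

open MeasureTheory Filter Topology Set
open scoped ContDiff InnerProductSpace

namespace Pool.Agent.Lib.MP_570070_gt.Ex

open Pool.Agent.Lib.MP_570070_gt.An

open Pool.Agent.Lib.MP_75c153_gt.Ft

variable {H K : Type} [NormedAddCommGroup H] [InnerProductSpace ℝ H] [CompleteSpace H]
  [NormedAddCommGroup K] [InnerProductSpace ℝ K] {Γ : Submodule ℝ (H × K)} {P : ℝ → H →L[ℝ] H}

/-- `eigen_nonneg`, `heat_eigen`, `sum_le_tr`, `summable_of_sum_le`, `trOn_univ_basis`. -/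
theorem exists_basis (hP : IsHeat₂ Γ P) (hf : ∀ t, 0 < t → trOn univ (P t) ≠ ⊤) :
    ∃ (ι : Type) (e : HilbertBasis ι ℝ H) (l : ι → ℝ), (∀ j, ∃ ξ, Lp Γ (e j) ξ (l j • e j)) ∧
      (∀ j, 0 ≤ l j) ∧
      ∀ t, 0 < t → HasSum (fun j => Real.exp (-(l j * t))) (trOn univ (P t)).toReal := by
  obtain ⟨ι, e, μ, he⟩ := exists_eigenbasis (T := P 1) (isCompactOperator_of_tr (R := P 2)
    (fun z => by rw [hP.inner_self zero_le_two, div_self two_ne_zero]) (hf 2 two_pos))
    (hP.symm zero_le_one)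
  choose l ξ hl using fun j => lap_of_eigen hP (he j) (e.orthonormal.ne_zero j)
  refine ⟨ι, e, l, fun j => ⟨ξ j, hl j⟩, fun j => eigen_nonneg (hl j) (e.orthonormal.ne_zero j),
    fun t ht => ?_⟩
  have h1 : ∀ j, P t (e j) = Real.exp (-(l j * t)) • e j := fun j => heat_eigen hP (hl j) ht
  have hs : Summable fun j => Real.exp (-(l j * t)) := by
    refine summable_of_sum_le (c := (trOn univ (P t)).toReal) (fun j => (Real.exp_pos _).le)
      fun F => ?_
    refine le_trans (le_of_eq ?_) (sum_le_tr (hf t ht)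
      (e.orthonormal.comp (fun j : F => j.1) Subtype.val_injective) fun _ => trivial)
    rw [← Finset.sum_coe_sort]
    refine Finset.sum_congr rfl fun j _ => ?_
    rw [Function.comp_apply, h1, real_inner_smul_left, real_inner_self_eq_norm_sq,
      e.orthonormal.1, one_pow, mul_one]
  rw [(trOn_univ_basis e h1 (fun j => (Real.exp_pos _).le) hs.hasSum).2]
  exact hs.hasSum

/-- The terms tend to zero along the cofinite filter, so `{j | l j ≤ 1}` is finite. -/
theorem gap_of_summable {ι : Type} {l : ι → ℝ} (h0 : ∀ j, 0 ≤ l j)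
    (hs : Summable fun j => Real.exp (-(l j * 1))) :
    {j | l j = 0}.Finite ∧ ∃ δ, 0 < δ ∧ ∀ j, l j ≠ 0 → δ ≤ l j := by
  have h1 : {j | l j ≤ 1}.Finite := by
    refine (eventually_cofinite.1 (hs.tendsto_cofinite_zero.eventually
      (gt_mem_nhds (Real.exp_pos (-1))))).subset fun j hj => ?_
    have hj' : l j ≤ 1 := hj
    exact not_lt.2 (Real.exp_le_exp.2 (by linarith))
  refine ⟨h1.subset fun j hj => ?_, ?_⟩
  · have hj' : l j = 0 := hj
    exact hj'.trans_le zero_le_one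
  have h2 : ∀ᶠ δ in 𝓝[>] (0 : ℝ), ∀ j ∈ {j | l j ≤ 1}, l j ≠ 0 → δ ≤ l j := by
    refine (eventually_all_finite h1).2 fun j _ => ?_
    by_cases hj : l j = 0
    · exact Eventually.of_forall fun δ h => absurd hj h
    · filter_upwards [Ioo_mem_nhdsGT (lt_of_le_of_ne (h0 j) (Ne.symm hj))] with δ hδ _
      exact hδ.2.le
  obtain ⟨δ, h3, h4⟩ := (h2.and (Ioo_mem_nhdsGT (zero_lt_one' ℝ))).exists
  refine ⟨δ, h4.1, fun j hj => ?_⟩
  by_cases h : l j ≤ 1
  · exact h3 j h hj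
  · exact h4.2.le.trans (not_le.1 h).le

omit [CompleteSpace H] in
/-- `heat_tr_antitone`; a non-negative antitone function has a limit. -/
theorem exists_limit (hP : IsHeat₂ Γ P) {S : Set H} (hf : ∀ t, 0 < t → trOn S (P t) ≠ ⊤) :
    ∃ b, Tendsto (fun t => (trOn S (P t)).toReal) atTop (𝓝 b) := by
  have h1 : Antitone fun t : ℝ => (trOn S (P (max t 1))).toReal := fun s t hst =>
    heat_tr_antitone hP S hf (mem_Ioi.2 (lt_max_of_lt_right one_pos))
      (mem_Ioi.2 (lt_max_of_lt_right one_pos)) (max_le_max_right 1 hst)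
  refine ⟨_, (tendsto_atTop_ciInf h1 ⟨0, ?_⟩).congr' ?_⟩
  · rintro _ ⟨t, rfl⟩
    exact ENNReal.toReal_nonneg
  · filter_upwards [eventually_ge_atTop 1] with t ht
    rw [max_eq_left ht]

omit [CompleteSpace H] in
theorem eig_form {ι : Type} (e : HilbertBasis ι ℝ H) {T : H →L[ℝ] H} {μ : ι → ℝ}
    (hT : ∀ j, T (e j) = μ j • e j) (f : H) :
    HasSum (fun j => μ j * ⟪f, e j⟫_ℝ ^ 2) ⟪T f, f⟫_ℝ := by
  have h2 := ((innerSL ℝ f).comp T).hasSum (e.hasSum_repr f)
  have h3 : ∀ j, ((innerSL ℝ f).comp T) (e.repr f j • e j) = μ j * ⟪f, e j⟫_ℝ ^ 2 := fun j => by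
    rw [e.repr_apply_apply, map_smul, ContinuousLinearMap.comp_apply, hT, innerSL_apply_apply,
      real_inner_smul_right, real_inner_comm f, smul_eq_mul]
    ring
  simp only [h3] at h2
  rw [real_inner_comm]
  exact h2

/-- For `1 ≤ t ≤ s`: `⟪P t x, x⟫ - ⟪P s x, x⟫ ≤ exp (-δ (t - 1)) * ⟪P 1 x, x⟫` term by term in the
eigenbasis; sum over an orthonormal family in `S` (`tr_le`, `sum_le_tr`) and let `s → ∞`. -/
theorem tail_of_tr (hP : IsHeat₂ Γ P) (hf : ∀ t, 0 < t → trOn univ (P t) ≠ ⊤) (S : Set H) {b : ℝ}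
    (hb : Tendsto (fun t => (trOn S (P t)).toReal) atTop (𝓝 b)) :
    IntegrableOn (fun t => t⁻¹ * ((trOn S (P t)).toReal - b)) (Ioi 1) := by
  obtain ⟨ι, e, l, hl, h0, hs⟩ := exists_basis hP hf
  obtain ⟨-, δ, hδ, hg⟩ := gap_of_summable h0 (hs 1 one_pos).summable
  have hS : ∀ t, 0 < t → trOn S (P t) ≠ ⊤ := fun t ht =>
    ne_top_of_le_ne_top (hf t ht) (trOn_mono (subset_univ S) _)
  have h1 : ∀ t, 0 < t → ∀ x, HasSum (fun j => Real.exp (-(l j * t)) * ⟪x, e j⟫_ℝ ^ 2)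
      ⟪P t x, x⟫_ℝ := fun t ht => eig_form e fun j => (hl j).elim fun ξ h => heat_eigen hP h ht
  have h2 : ∀ t, 1 ≤ t → ∀ s, 0 < s → ∀ x,
      ⟪P t x, x⟫_ℝ ≤ ⟪P s x, x⟫_ℝ + Real.exp (-(δ * (t - 1))) * ⟪P 1 x, x⟫_ℝ :=
    fun t ht s hs x => by
      refine hasSum_le (fun j => ?_) (h1 t (by linarith) x)
        ((h1 s hs x).add ((h1 1 one_pos x).mul_left _))
      rw [← mul_assoc, ← add_mul]
      refine mul_le_mul_of_nonneg_right ?_ (sq_nonneg _)
      rw [← Real.exp_add]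
      by_cases hj : l j = 0
      · rw [hj, zero_mul, zero_mul]
        exact le_add_of_nonneg_right (Real.exp_pos _).le
      · refine le_add_of_nonneg_of_le (Real.exp_pos _).le (Real.exp_le_exp.2 ?_)
        nlinarith [mul_le_mul_of_nonneg_right (hg j hj) (sub_nonneg.2 ht)]
  have h3 : ∀ t, 1 ≤ t → (trOn S (P t)).toReal ≤
      b + Real.exp (-(δ * (t - 1))) * (trOn S (P 1)).toReal := fun t ht => by
    refine ge_of_tendsto (hb.add_const _) ?_
    filter_upwards [eventually_gt_atTop 0] with s hs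
    refine tr_le fun m f hf' hfS => (Finset.sum_le_sum fun j _ => h2 t ht s hs (f j)).trans ?_
    rw [Finset.sum_add_distrib, ← Finset.mul_sum]
    exact add_le_add (sum_le_tr (hS s hs) hf' hfS)
      (mul_le_mul_of_nonneg_left (sum_le_tr (hS 1 one_pos) hf' hfS) (Real.exp_pos _).le)
  have h4 : ∀ t, 0 < t → b ≤ (trOn S (P t)).toReal := fun t ht => by
    refine le_of_tendsto hb ?_
    filter_upwards [eventually_ge_atTop t] with s hs
    exact heat_tr_antitone hP S hS ht (ht.trans_le hs) hs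
  have h5 : AEMeasurable (fun t => (trOn S (P t)).toReal) (volume.restrict (Ioi (1 : ℝ))) :=
    aemeasurable_restrict_of_antitoneOn measurableSet_Ioi
      ((heat_tr_antitone hP S hS).mono (Ioi_subset_Ioi zero_le_one))
  refine Integrable.mono' ((exp_neg_integrableOn_Ioi 1 hδ).mul_const
    (Real.exp δ * (trOn S (P 1)).toReal))
    (measurable_inv.aemeasurable.mul (h5.sub_const b)).aestronglyMeasurable ?_
  filter_upwards [ae_restrict_mem measurableSet_Ioi] with t ht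
  have ht1 : 1 < t := ht
  have h6 := h3 t ht1.le
  have h7 := h4 t (by linarith)
  have h8 : t⁻¹ ≤ 1 := inv_le_one_of_one_le₀ ht1.le
  have h9 : 0 ≤ t⁻¹ := by positivity
  rw [Real.norm_of_nonneg (mul_nonneg h9 (sub_nonneg.2 h7)), ← mul_assoc, ← Real.exp_add,
    show -δ * t + δ = -(δ * (t - 1)) by ring]
  nlinarith [mul_le_mul_of_nonneg_right h8 (sub_nonneg.2 h7)]

end Pool.Agent.Lib.MP_570070_gt.Ex
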