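import Pool.Agent.Lib.MP_570070_gt.Ex.XDefs
import Pool.Agent.Lib.MP_75c153_gt.Ft.ZA

/-! Heat flows of trace class. -/

open MeasureTheory Filter Topology Set
open scoped ContDiff InnerProductSpace

namespace Pool.Agent.Lib.MP_570070_gt.Ex

open Pool.Agent.Lib.MP_570070_gt.An

open Pool.Agent.Lib.MP_75c153_gt.Ft

variable {H K : Type} [NormedAddCommGroup H] [InnerProductSpace ℝ H] [CompleteSpace H]
  [NormedAddCommGroup K] [InnerProductSpace ℝ K] {Γ : Submodule ℝ (H × K)} {P : ℝ → H →L[ℝ] H}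

/-- Choose an orthonormal family `e` with `∑ ‖T (e i)‖ ^ 2 > tr - ε ^ 2`; then `‖T x‖ ≤ ε ‖x‖` on the
orthogonal complement (add `x / ‖x‖` to the family). So `T` is a limit of operators of finite
rank (`isClosed_setOf_isCompactOperator`). -/
theorem isCompactOperator_of_tr {T R : H →L[ℝ] H} (hR : ∀ z, ⟪R z, z⟫_ℝ = ‖T z‖ ^ 2)
    (hf : trOn univ R ≠ ⊤) : IsCompactOperator T := by
  refine isClosed_setOfPred_isCompactOperator.closure_subset
    (Metric.mem_closure_iff.2 fun ε hε => ?_)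
  obtain ⟨m, e, he, h1⟩ : ∃ (m : ℕ) (e : Fin m → H), Orthonormal ℝ e ∧
      (trOn univ R).toReal - (ε / 2) ^ 2 < ∑ j, ⟪R (e j), e j⟫_ℝ := by
    by_contra hc
    have := tr_le (S := univ) (T := R) (c := (trOn univ R).toReal - (ε / 2) ^ 2)
      fun m e he _ => not_lt.1 fun t => hc ⟨m, e, he, t⟩
    nlinarith
  have : FiniteDimensional ℝ (Submodule.span ℝ (range e)) :=
    FiniteDimensional.span_of_finite ℝ (finite_range _)
  have h2 : ∀ y ∈ (Submodule.span ℝ (range e))ᗮ, ‖T y‖ ≤ ε / 2 * ‖y‖ := by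
    intro y hy
    rcases eq_or_ne y 0 with rfl | h0
    · simp
    have h3 := norm_pos_iff.2 h0
    have h4 := sum_le_tr hf (e := Matrix.vecCons (‖y‖⁻¹ • y) e)
      (orthonormal_vecCons_iff.2 ⟨norm_smul_inv_norm h0, fun i => by
        rw [real_inner_smul_left, Submodule.inner_left_of_mem_orthogonal
          (Submodule.subset_span (mem_range_self i)) hy, mul_zero], he⟩) fun _ => trivial
    rw [Fin.sum_univ_succ] at h4
    simp only [Matrix.cons_val_zero, Matrix.cons_val_succ] at h4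
    rw [hR, map_smul, norm_smul, norm_inv, norm_norm] at h4
    have h5 : ‖y‖⁻¹ * ‖T y‖ ≤ ε / 2 := le_of_sq_le_sq (by linarith) (by linarith)
    rwa [inv_mul_le_iff₀ h3, mul_comm] at h5
  refine ⟨(T ∘L (Submodule.span ℝ (range e)).subtypeL) ∘L
    (Submodule.span ℝ (range e)).orthogonalProjectionOnto,
    (isCompactOperator_of_locallyCompactSpace_dom
      (Submodule.span ℝ (range e)).orthogonalProjectionOnto).clm_comp
      (T ∘L (Submodule.span ℝ (range e)).subtypeL), ?_⟩
  rw [dist_eq_norm]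
  refine lt_of_le_of_lt (ContinuousLinearMap.opNorm_le_bound _ (M := ε / 2) (by linarith)
    fun x => ?_) (by linarith)
  have h3 := h2 _ (Submodule.sub_starProjection_mem_orthogonal x)
  have h4 := (Submodule.span ℝ (range e))ᗮ.norm_starProjection_apply_le x
  rw [Submodule.starProjection_orthogonal_val] at h4
  rw [map_sub] at h3
  exact h3.trans (mul_le_mul_of_nonneg_left h4 (by linarith))

/-- `ContinuousLinearMap.orthogonalComplement_iSup_eigenspaces_eq_bot`; Hilbert bases of the closed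
eigenspaces (`exists_hilbertBasis`), `OrthogonalFamily.orthonormal_sigma_orthonormal` or a direct
proof, `HilbertBasis.mkOfOrthogonalEqBot`. -/
theorem exists_eigenbasis {T : H →L[ℝ] H} (hc : IsCompactOperator T)
    (hT : ∀ u v, ⟪T u, v⟫_ℝ = ⟪u, T v⟫_ℝ) :
    ∃ (ι : Type) (e : HilbertBasis ι ℝ H) (μ : ι → ℝ), ∀ j, T (e j) = μ j • e j := by
  have hs : (T : H →ₗ[ℝ] H).IsSymmetric := hT
  have hcl : ∀ μ : ℝ, CompleteSpace (Module.End.eigenspace (T : H →ₗ[ℝ] H) μ) := fun μ => by
    refine IsClosed.completeSpace_coe (hs := ?_)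
    have : (Module.End.eigenspace (T : H →ₗ[ℝ] H) μ : Set H) = {x | T x = μ • x} :=
      Set.ext fun x => Module.End.mem_eigenspace_iff
    rw [this]
    exact isClosed_eq T.continuous (continuous_const_smul μ)
  choose w b _ using fun μ : ℝ =>
    exists_hilbertBasis ℝ (Module.End.eigenspace (T : H →ₗ[ℝ] H) μ)
  have ho := hs.orthogonalFamily_eigenspaces.orthonormal_sigma_orthonormal
    fun μ => (b μ).orthonormal
  refine ⟨_, HilbertBasis.mkOfOrthogonalEqBot ho ?_, fun j => j.1, fun j => ?_⟩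
  · rw [eq_bot_iff, ← ContinuousLinearMap.orthogonalComplement_iSup_eigenspaces_eq_bot hc hs,
      ← Submodule.iInf_orthogonal]
    refine le_iInf fun μ x hx v hv => ?_
    have h1 := ((b μ).hasSum_repr ⟨v, hv⟩).mapL
      (innerSL ℝ x ∘L (Module.End.eigenspace (T : H →ₗ[ℝ] H) μ).subtypeL)
    have h2 : ∀ i, ⟪x, (b μ i : H)⟫_ℝ = 0 := fun i =>
      Submodule.inner_left_of_mem_orthogonal
        (Submodule.subset_span (by exact ⟨⟨μ, i⟩, rfl⟩)) hx
    simp only [map_smul, ContinuousLinearMap.comp_apply, Submodule.subtypeL_apply,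
      innerSL_apply_apply, h2, smul_zero] at h1
    rw [real_inner_comm]
    exact h1.unique hasSum_zero
  · rw [HilbertBasis.coe_mkOfOrthogonalEqBot]
    exact Module.End.mem_eigenspace_iff.1 (b j.1 j.2).2

omit [CompleteSpace H] in
theorem eiga_half (hP : IsHeat₂ Γ P) {u : H} {s a : ℝ} (hs : 0 ≤ s) (h : P s u = a • u)
    (hu : u ≠ 0) : P (s / 2) u = √a • u := by
  have h1 := hP.inner_self hs u
  rw [h, real_inner_smul_left, real_inner_self_eq_norm_sq] at h1
  have h2 : 0 < ‖u‖ ^ 2 := by positivity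
  have ha : 0 ≤ a := by
    by_contra t
    nlinarith [sq_nonneg ‖P (s / 2) u‖]
  rcases ha.eq_or_lt with rfl | ha'
  · rw [zero_mul] at h1
    rw [Real.sqrt_zero, zero_smul]
    exact norm_eq_zero.1 (pow_eq_zero_iff two_ne_zero |>.1 h1.symm)
  have h3 : P (s / 2) (P (s / 2) u - √a • u) = -√a • (P (s / 2) u - √a • u) := by
    rw [map_sub, ← hP.add (by linarith) (by linarith), add_halves, h, map_smul, smul_sub, smul_smul,
      neg_mul, Real.mul_self_sqrt ha]
    module
  have h4 := hP.inner_self (t := s / 2) (by linarith) (P (s / 2) u - √a • u)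
  rw [h3, real_inner_smul_left, real_inner_self_eq_norm_sq] at h4
  have h5 := Real.sqrt_pos.2 ha'
  by_contra t
  have h6 : 0 < ‖P (s / 2) u - √a • u‖ ^ 2 := pow_pos (norm_pos_iff.2 (sub_ne_zero.2 t)) 2
  nlinarith [sq_nonneg ‖P (s / 2 / 2) (P (s / 2) u - √a • u)‖]

/-- If `P s u = a • u` then `0 ≤ a` and `P (s / 2) u = √a • u`: the vector `x = P (s / 2) u - √a • u`
satisfies `P (s / 2) x = -√a • x`, and `P (s / 2)` is non-negative (for `a = 0` use
`IsHeat₂.inner_self`). So `P (2⁻¹ ^ k) u = a k • u` with `a k ^ (2 ^ k) = μ`; `μ ≠ 0` by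
`IsHeat₂.init`. The derivative `-h` of `s ↦ P s u` at `1` is the limit of difference quotients
`P (1 + 2⁻¹ ^ k) u - P 1 u`, which are multiples of `u`; the span of `u` is closed. -/
theorem lap_of_eigen (hP : IsHeat₂ Γ P) {u : H} {μ : ℝ} (h : P 1 u = μ • u) (hu : u ≠ 0) :
    ∃ (l : ℝ) (ξ : K), Lp Γ u ξ (l • u) := by
  have h1 : ∀ k : ℕ, ∃ a : ℝ, P (2⁻¹ ^ k) u = a • u ∧ (μ = 0 → a = 0) := by
    intro k
    induction k with
    | zero => exact ⟨μ, by rwa [pow_zero], id⟩
    | succ k ih =>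
      obtain ⟨a, h1, h2⟩ := ih
      exact ⟨√a, by rw [pow_succ, ← div_eq_mul_inv]; exact eiga_half hP (by positivity) h1 hu,
        fun t => by rw [h2 t, Real.sqrt_zero]⟩
  choose a h1 h2 using h1
  have h3 : Tendsto (fun k : ℕ => (2⁻¹ : ℝ) ^ k) atTop (𝓝[>] 0) :=
    tendsto_pow_atTop_nhdsWithin_zero_of_lt_one (by norm_num) (by norm_num)
  have hμ : μ ≠ 0 := fun t => by
    have h4 := (hP.init u).comp h3
    simp only [Function.comp_def, h1, h2 _ t, zero_smul] at h4
    exact hu (tendsto_nhds_unique h4 tendsto_const_nhds)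
  obtain ⟨ξ, f, h4, h5⟩ := hP.flow u one_pos
  have h6 := h5.tendsto_slope_zero_right.comp h3
  have h7 := (Submodule.span ℝ {u}).closed_of_finiteDimensional.mem_of_tendsto h6
    (Eventually.of_forall fun k => by
      simp only [Function.comp_apply]
      rw [hP.add zero_le_one (by positivity), h1, map_smul, h, smul_smul, ← sub_smul, smul_smul]
      exact Submodule.smul_mem _ _ (Submodule.mem_span_singleton_self u))
  obtain ⟨c, hc⟩ := Submodule.mem_span_singleton.1 h7
  rw [h, ← neg_neg f, ← hc] at h4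
  refine ⟨-(μ⁻¹ * c), μ⁻¹ • ξ, ?_, fun w ξ' hw => ?_⟩
  · simpa [smul_smul, hμ] using Γ.smul_mem μ⁻¹ h4.1
  · rw [real_inner_smul_left, h4.2 w ξ' hw, inner_neg_left, real_inner_smul_left,
      real_inner_smul_left]
    ring

end Pool.Agent.Lib.MP_570070_gt.Ex
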