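import Pool.Agent.Lib.MP_570070_gt.Ex.XDefs

/-! Expansions at zero. -/

open MeasureTheory Filter Topology Set
open scoped ContDiff InnerProductSpace

namespace Pool.Agent.Lib.MP_570070_gt.Ex

open Pool.Agent.Lib.MP_570070_gt.An

variable {n N : ℕ} {K : Set (Eu n)}

theorem PEU.add {g g' : ℝ → Eu n → ℝ} (h : PEU K N g) (h' : PEU K N g') :
    PEU K N fun τ y => g τ y + g' τ y := by
  obtain ⟨b, C, hb, e⟩ := h
  obtain ⟨b', C', hb', e'⟩ := h'
  refine ⟨fun j y => b j y + b' j y, C + C', fun j => (hb j).add (hb' j), fun τ hτ y hy => ?_⟩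
  have h1 := e τ hτ y hy
  have h2 := e' τ hτ y hy
  simp only [add_mul, Finset.sum_add_distrib]
  rw [abs_le] at h1 h2 ⊢
  constructor <;> linarith [h1.1, h1.2, h2.1, h2.2]

theorem PEU.sum {ι : Type} (s : Finset ι) {g : ι → ℝ → Eu n → ℝ} (h : ∀ i ∈ s, PEU K N (g i)) :
    PEU K N fun τ y => ∑ i ∈ s, g i τ y := by
  classical
  induction s using Finset.induction_on with
  | empty =>
    exact ⟨fun _ _ => 0, 0, fun _ => integrableOn_zero, fun τ _ y _ => by simp⟩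
  | insert a s ha ih =>
    simp only [Finset.sum_insert ha]
    exact (h a (Finset.mem_insert_self _ _)).add
      (ih fun i hi => h i (Finset.mem_insert_of_mem hi))

theorem PEU.mul (hK : IsCompact K) {a : Eu n → ℝ} (ha : ContinuousOn a K) {g : ℝ → Eu n → ℝ}
    (h : PEU K N g) : PEU K N fun τ y => a y * g τ y := by
  obtain ⟨b, C, hb, e⟩ := h
  obtain ⟨M, hM⟩ := hK.exists_bound_of_continuousOn ha
  refine ⟨fun j y => a y * b j y, M * C, fun j => (hb j).continuousOn_mul ha hK,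
    fun τ hτ y hy => ?_⟩
  have h1 := e τ hτ y hy
  have h2 : |a y| ≤ M := hM y hy
  have h3 : a y * g τ y - ∑ j ∈ Finset.range N, a y * b j y * τ ^ j =
      a y * (g τ y - ∑ j ∈ Finset.range N, b j y * τ ^ j) := by
    rw [mul_sub, Finset.mul_sum]
    simp only [mul_assoc]
  rw [h3, abs_mul, mul_assoc]
  exact mul_le_mul h2 h1 (abs_nonneg _) ((abs_nonneg _).trans h2)

theorem PEU.of_close {g g' : ℝ → Eu n → ℝ} (h : PEU K N g) {C : ℝ}
    (e : ∀ τ ∈ Ioc (0 : ℝ) 1, ∀ y ∈ K, |g' τ y - g τ y| ≤ C * τ ^ N) : PEU K N g' := by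
  obtain ⟨b, C', hb, e'⟩ := h
  refine ⟨b, C + C', hb, fun τ hτ y hy => ?_⟩
  have h1 := e τ hτ y hy
  have h2 := e' τ hτ y hy
  rw [add_mul]
  rw [abs_le] at h1 h2 ⊢
  constructor <;> linarith [h1.1, h1.2, h2.1, h2.2]

theorem peu_small {g : ℝ → Eu n → ℝ} {C : ℝ}
    (e : ∀ τ ∈ Ioc (0 : ℝ) 1, ∀ y ∈ K, |g τ y| ≤ C * τ ^ N) : PEU K N g := by
  refine ⟨fun _ _ => 0, C, fun _ => integrableOn_zero, fun τ hτ y hy => ?_⟩
  simpa using e τ hτ y hy

theorem peu_mono {b : Eu n → ℝ} (hb : IntegrableOn b K) {w : ℕ} (hw : w < N) :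
    PEU K N fun τ y => b y * τ ^ w := by
  refine ⟨fun j y => if j = w then b y else 0, 0, fun j => ?_, fun τ _ y _ => ?_⟩
  · by_cases hj : j = w
    · simpa [hj] using hb
    · simp [hj]
  · simp [Finset.sum_ite_eq', hw]

theorem PEU.integral (hK : IsCompact K) {F : Set (Eu n)} (hF : MeasurableSet F) (hFK : F ⊆ K)
    {g : ℝ → Eu n → ℝ} (h : PEU K N g) (hi : ∀ τ ∈ Ioc (0 : ℝ) 1, IntegrableOn (g τ) F) :
    PEn N fun τ => ∫ y in F, g τ y := by
  obtain ⟨b, C, hb, e⟩ := h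
  have hfin : volume F < ⊤ := (measure_mono hFK).trans_lt hK.measure_lt_top
  refine ⟨fun j => ∫ y in F, b j y, C * volume.real F, fun τ hτ => ?_⟩
  have hb' : ∀ j, IntegrableOn (fun y => b j y * τ ^ j) F := fun j =>
    Integrable.mul_const ((hb j).mono_set hFK) _
  have h1 : (∫ y in F, g τ y) - ∑ j ∈ Finset.range N, (∫ y in F, b j y) * τ ^ j =
      ∫ y in F, (g τ y - ∑ j ∈ Finset.range N, b j y * τ ^ j) := by
    rw [integral_sub (hi τ hτ) (integrable_finsetSum _ fun j _ => hb' j),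
      integral_finsetSum _ fun j _ => hb' j]
    simp only [integral_mul_const]
  have h2 := norm_setIntegral_le_of_norm_le_const (μ := volume) (s := F)
    (f := fun y => g τ y - ∑ j ∈ Finset.range N, b j y * τ ^ j) (C := C * τ ^ N) hfin
    fun y hy => e τ hτ y (hFK hy)
  rw [h1]
  calc _ ≤ C * τ ^ N * volume.real F := h2
    _ = _ := by ring

theorem PEn.sum {ι : Type} (s : Finset ι) {g : ι → ℝ → ℝ} (h : ∀ i ∈ s, PEn N (g i)) :
    PEn N fun τ => ∑ i ∈ s, g i τ := by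
  classical
  induction s using Finset.induction_on with
  | empty => exact ⟨fun _ => 0, 0, fun τ _ => by simp⟩
  | insert a s ha ih =>
    simp only [Finset.sum_insert ha]
    obtain ⟨b, C, e⟩ := h a (Finset.mem_insert_self _ _)
    obtain ⟨b', C', e'⟩ := ih fun i hi => h i (Finset.mem_insert_of_mem hi)
    refine ⟨fun j => b j + b' j, C + C', fun τ hτ => ?_⟩
    have h1 := e τ hτ
    have h2 := e' τ hτ
    simp only [add_mul, Finset.sum_add_distrib]
    rw [abs_le] at h1 h2 ⊢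
    constructor <;> linarith [h1.1, h1.2, h2.1, h2.2]

theorem PEn.congr {g g' : ℝ → ℝ} (h : PEn N g) (e : ∀ τ ∈ Ioc (0 : ℝ) 1, g' τ = g τ) :
    PEn N g' := by
  obtain ⟨b, C, e'⟩ := h
  exact ⟨b, C, fun τ hτ => by rw [e τ hτ]; exact e' τ hτ⟩

theorem PEn.scale {g : ℝ → ℝ} (h : PEn N g) (a : ℝ) {s : ℝ} (h0 : 0 < s) (h1 : s ≤ 1) :
    PEn N fun τ => a * g (s * τ) := by
  obtain ⟨b, C, e⟩ := h
  refine ⟨fun j => a * b j * s ^ j, |a| * (C * s ^ N), fun τ hτ => ?_⟩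
  have h2 := e (s * τ) ⟨mul_pos h0 hτ.1, mul_le_one₀ h1 hτ.1.le hτ.2⟩
  have h3 : a * g (s * τ) - ∑ j ∈ Finset.range N, a * b j * s ^ j * τ ^ j =
      a * (g (s * τ) - ∑ j ∈ Finset.range N, b j * (s * τ) ^ j) := by
    rw [mul_sub, Finset.mul_sum]
    simp only [mul_pow, mul_assoc]
  rw [h3, abs_mul]
  calc _ ≤ |a| * (C * (s * τ) ^ N) := mul_le_mul_of_nonneg_left h2 (abs_nonneg _)
    _ = _ := by rw [mul_pow]; ring

theorem pe_zero (N : ℕ) : ∀ (d : ℕ → ℝ) (C : ℝ), (∀ τ ∈ Ioc (0 : ℝ) 1,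
    |∑ j ∈ Finset.range N, d j * τ ^ j| ≤ C * τ ^ N) → ∀ j < N, d j = 0 := by
  induction N with
  | zero => intro d C _ j hj; omega
  | succ N ih =>
    intro d C e
    have h0 : d 0 = 0 := by
      have t1 : Tendsto (fun τ : ℝ => |∑ j ∈ Finset.range (N + 1), d j * τ ^ j|) (𝓝[>] 0)
          (𝓝 |∑ j ∈ Finset.range (N + 1), d j * 0 ^ j|) :=
        (Continuous.tendsto (by fun_prop) 0).mono_left nhdsWithin_le_nhds
      have t2 : Tendsto (fun τ : ℝ => C * τ ^ (N + 1)) (𝓝[>] 0) (𝓝 (C * 0 ^ (N + 1))) :=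
        (Continuous.tendsto (by fun_prop) 0).mono_left nhdsWithin_le_nhds
      have h1 := le_of_tendsto_of_tendsto t1 t2
        (Filter.mem_of_superset (Ioc_mem_nhdsGT zero_lt_one) fun τ hτ => e τ hτ)
      simpa [Finset.sum_range_succ'] using h1
    have h1 := ih (fun j => d (j + 1)) C fun τ hτ => by
      have h2 := e τ hτ
      have h3 : ∑ j ∈ Finset.range (N + 1), d j * τ ^ j =
          (∑ j ∈ Finset.range N, d (j + 1) * τ ^ j) * τ := by
        rw [Finset.sum_range_succ', h0, Finset.sum_mul]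
        simp only [pow_succ, mul_assoc, zero_mul, add_zero]
      rw [h3, abs_mul, abs_of_pos hτ.1, pow_succ, ← mul_assoc] at h2
      exact le_of_mul_le_mul_right h2 hτ.1
    intro j hj
    cases j with
    | zero => exact h0
    | succ j => exact h1 j (by omega)

theorem pe_unique {g : ℝ → ℝ} {b b' : ℕ → ℝ} {C C' : ℝ}
    (e : ∀ τ ∈ Ioc (0 : ℝ) 1, |g τ - ∑ j ∈ Finset.range N, b j * τ ^ j| ≤ C * τ ^ N)
    (e' : ∀ τ ∈ Ioc (0 : ℝ) 1, |g τ - ∑ j ∈ Finset.range N, b' j * τ ^ j| ≤ C' * τ ^ N) :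
    ∀ j < N, b j = b' j := by
  intro j hj
  have h := pe_zero N (fun j => b j - b' j) (C + C') (fun τ hτ => by
    have h1 := e τ hτ
    have h2 := e' τ hτ
    simp only [sub_mul, add_mul, Finset.sum_sub_distrib]
    rw [abs_le] at h1 h2 ⊢
    constructor <;> linarith [h1.1, h1.2, h2.1, h2.2]) j hj
  exact sub_eq_zero.1 h

theorem pe_trunc {g : ℝ → ℝ} {b : ℕ → ℝ} {M : ℕ} (hM : M ≤ N) {C : ℝ}
    (e : ∀ τ ∈ Ioc (0 : ℝ) 1, |g τ - ∑ j ∈ Finset.range N, b j * τ ^ j| ≤ C * τ ^ N) :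
    ∃ C', ∀ τ ∈ Ioc (0 : ℝ) 1, |g τ - ∑ j ∈ Finset.range M, b j * τ ^ j| ≤ C' * τ ^ M := by
  induction N, hM using Nat.le_induction generalizing C with
  | base => exact ⟨C, e⟩
  | succ N _ ih =>
    refine ih (C := |C| + |b N|) fun τ hτ => ?_
    have h1 := e τ hτ
    have hp : 0 < τ ^ N := pow_pos hτ.1 N
    have h2 : C * τ ^ (N + 1) ≤ |C| * τ ^ N := by
      rw [pow_succ]
      calc C * (τ ^ N * τ) ≤ |C| * (τ ^ N * τ) :=
            mul_le_mul_of_nonneg_right (le_abs_self C) (mul_pos hp hτ.1).le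
        _ ≤ |C| * τ ^ N :=
            mul_le_mul_of_nonneg_left (mul_le_of_le_one_right hp.le hτ.2) (abs_nonneg C)
    have h3 : |b N * τ ^ N| = |b N| * τ ^ N := by rw [abs_mul, abs_of_pos hp]
    have h4 := abs_le.1 h3.le
    rw [Finset.sum_range_succ] at h1
    rw [add_mul]
    rw [abs_le] at h1 ⊢
    constructor <;> linarith [h1.1, h1.2, h4.1, h4.2]

/-- The coefficients are unique: if `|∑ j ∈ range N, d j * τ ^ j| ≤ C * τ ^ N` on `(0, 1]` then
`d j = 0` for `j < N` (induction, let `τ` tend to zero). Take for `b j` the coefficient `j` of the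
expansion of order `j + 1`. -/
theorem exists_coef {g : ℝ → ℝ} (h : ∀ N, PEn N g) : ∃ b : ℕ → ℝ, ∀ N : ℕ, ∃ C : ℝ,
    ∀ τ ∈ Ioc (0 : ℝ) 1, |g τ - ∑ j ∈ Finset.range N, b j * τ ^ j| ≤ C * τ ^ N := by
  choose c C e using h
  refine ⟨fun j => c (j + 1) j, fun N => ⟨C N, fun τ hτ => ?_⟩⟩
  have key : ∀ j ∈ Finset.range N, c (j + 1) j * τ ^ j = c N j * τ ^ j := by
    intro j hj
    obtain ⟨C', e'⟩ := pe_trunc (Nat.succ_le_of_lt (Finset.mem_range.1 hj)) (e N)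
    rw [pe_unique (e (j + 1)) e' j (Nat.lt_succ_self j)]
  rw [Finset.sum_congr rfl key]
  exact e N τ hτ

end Pool.Agent.Lib.MP_570070_gt.Ex
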