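import Pool.Agent.Lib.MP_570070_gt.Ex.Gau
import Pool.Agent.Lib.MP_570070_gt.Ex.Pe

/-! Expansion of Gaussian integrals. -/

open MeasureTheory Filter Topology Set
open scoped ContDiff InnerProductSpace

namespace Pool.Agent.Lib.MP_570070_gt.Ex

open Pool.Agent.Lib.MP_570070_gt.An

variable {n N : ℕ} {V : Type} [NormedAddCommGroup V] [NormedSpace ℝ V] {c : Co n V}
  {K : Set (Eu n)}

/-- The Gaussian integral over a ball. -/
noncomputable def Co.gi (c : Co n V) (R : ℝ) (f : ℝ → E2 n → ℝ) (τ : ℝ) (y : Eu n) : ℝ :=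
  τ⁻¹ ^ n * ∫ x in Metric.closedBall y R,
    Real.exp (-(c.sq (x, y) / (2 * τ ^ 2))) * f (τ ^ 2) (x, y)

theorem exp_le {s : Set (Eu n)} (hs : MeasurableSet s) {f g : Eu n → ℝ} (hg : Integrable g)
    (h0 : ∀ x, 0 ≤ g x) (h : ∀ x ∈ s, |f x| ≤ g x) : |∫ x in s, f x| ≤ ∫ x, g x :=
  (norm_integral_le_of_norm_le (f := f) hg.integrableOn ((ae_restrict_mem hs).mono h)).trans
    (setIntegral_le_integral hg (ae_of_all _ h0))

/-- `sq_lower`, `Tm.bound` on the compact set of all `(x, y)` with `y ∈ K`, `‖x - y‖ ≤ R`, with half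
of the exponent, `gauss_int`. -/
theorem gi_bound (hc : c.Sm univ) (hK : IsCompact K) (R : ℝ) {w : ℕ} {f : ℝ → E2 n → ℝ}
    (hf : Tm w f) : ∃ C, ∀ τ ∈ Ioc (0 : ℝ) 1, ∀ y ∈ K, |c.gi R f τ y| ≤ C * τ ^ w := by
  obtain ⟨c₀, h0, h1⟩ := sq_lower hc hK
  obtain ⟨C, hC, h2⟩ := hf.bound ((hK.cthickening (r := R)).prod hK) (c₀ := c₀ / 4) (by positivity)
  obtain ⟨C', -, h3⟩ := gauss_int (n := n) (c₀ := c₀ / 4) (by positivity)
  refine ⟨C * C', fun τ hτ y hy => ?_⟩
  have := hτ.1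
  obtain ⟨h4, h5⟩ := h3 (τ ^ 2) (by positivity) y
  have h6 := h2 (τ ^ 2) ⟨by positivity, pow_le_one₀ hτ.1.le hτ.2⟩
  rw [Real.sqrt_sq hτ.1.le] at h4 h5 h6
  rw [Co.gi, ← integral_const_mul, mul_right_comm, ← h5, ← integral_const_mul]
  refine exp_le measurableSet_closedBall (h4.const_mul _) (fun x => by positivity) fun x hx => ?_
  have h7 := h6 (x, y) ⟨Metric.closedBall_subset_cthickening hy R hx, hy⟩
  have h8 : Real.exp (-(c.sq (x, y) / (2 * τ ^ 2))) ≤ Real.exp (-(c₀ / 4 * ‖x - y‖ ^ 2 / τ ^ 2)) *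
      Real.exp (-(c₀ / 4 * ‖x - y‖ ^ 2 / τ ^ 2)) := by
    rw [← Real.exp_add]
    refine Real.exp_le_exp.2 ((neg_le_neg (div_le_div_of_nonneg_right (h1 y hy x)
      (by positivity))).trans_eq ?_)
    ring
  rw [zpow_natCast] at h7
  rw [abs_mul, abs_mul, abs_of_pos (by positivity), abs_of_pos (Real.exp_pos _), mul_left_comm _ (τ⁻¹ ^ n)]
  refine mul_le_mul_of_nonneg_left ((mul_le_mul_of_nonneg_right h8 (abs_nonneg _)).trans ?_)
    (by positivity)
  rw [mul_right_comm]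
  exact mul_le_mul_of_nonneg_right h7 (Real.exp_pos _).le

/-- Let `b y = ∫ ξ, exp (-sq (y + ξ, y) / 2) * h (y + ξ, y)`; `|h (y + ξ, y)| ≤ C ‖ξ‖ ^ r` for
`y ∈ K` and all `ξ` (`Van.bound` and homogeneity), so `b` is bounded on `K`, and it is measurable
(`StronglyMeasurable.integral_prod_right`). By `integral_scale` (for an indicator) the integral is
`τ ^ w` times the same integral over the ball of radius `R / τ`; off that ball
`1 ≤ (τ ‖ξ‖ / R) ^ N`, `integrable_gauss`. -/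
theorem peu_homog (hc : c.Sm univ) (hK : IsCompact K) {R : ℝ} (hR : 0 < R) {w r : ℕ} {m : ℤ}
    {h : E2 n → ℝ} (hw : (w : ℤ) = 2 * m + r) (hN : w < N) (hh : Van r h)
    (hs : ∀ (τ : ℝ) (ξ y : Eu n), h (y + τ • ξ, y) = τ ^ r * h (y + ξ, y)) :
    PEU K N (c.gi R fun t p => t ^ m * h p) := by
  obtain ⟨c₀, h0, h1⟩ := sq_lower hc hK
  have hcont := hh.contDiff.continuous
  have hsq := (van_sq hc).contDiff.continuous
  obtain ⟨C, hC⟩ := ((hK.cthickening (r := 1)).prod hK).exists_bound_of_continuousOn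
    hcont.continuousOn
  obtain ⟨G, hG⟩ : ∃ G : Eu n → Eu n → ℝ,
      G = fun y ξ => Real.exp (-(c.sq (y + ξ, y) / 2)) * h (y + ξ, y) := ⟨_, rfl⟩
  have g1 : Continuous G.uncurry := by
    rw [hG]
    fun_prop
  have g2 : ∀ y ∈ K, ∀ ξ, |G y ξ| ≤ |C| * (‖ξ‖ ^ r * Real.exp (-(c₀ / 2 * ‖ξ‖ ^ 2))) := by
    intro y hy ξ
    have a1 : ξ = ‖ξ‖ • ‖ξ‖⁻¹ • ξ := by
      rcases eq_or_ne ξ 0 with rfl | e
      · simp
      · rw [smul_inv_smul₀ (norm_ne_zero_iff.2 e)]
    have a2 := hC (y + ‖ξ‖⁻¹ • ξ, y) ⟨Metric.closedBall_subset_cthickening hy 1 (by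
      rw [mem_closedBall_iff_norm, add_sub_cancel_left, norm_smul, norm_inv, norm_norm]
      exact inv_mul_le_one_of_le₀ le_rfl (norm_nonneg _)), hy⟩
    have a3 := h1 y hy (y + ξ)
    have a4 := hs ‖ξ‖ (‖ξ‖⁻¹ • ξ) y
    rw [← a1] at a4
    rw [add_sub_cancel_left] at a3
    rw [hG, abs_mul, a4, abs_mul, abs_of_pos (Real.exp_pos _), abs_pow, abs_norm,
      mul_comm, mul_comm (‖ξ‖ ^ r), mul_assoc]
    exact mul_le_mul (a2.trans (le_abs_self C)) (mul_le_mul_of_nonneg_left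
      (Real.exp_le_exp.2 (by linarith)) (by positivity)) (by positivity) (abs_nonneg _)
  have g3 := fun k => (integrable_gauss (n := n) (half_pos h0) k).const_mul
  have g4 : ∀ y ∈ K, Integrable (G y) := fun y hy => (g3 r |C|).mono'
    (g1.comp (Continuous.prodMk_right y)).aestronglyMeasurable (ae_of_all _ (g2 y hy))
  refine (peu_mono (b := fun y => ∫ ξ, G y ξ) (Measure.integrableOn_of_bounded hK.measure_lt_top.ne
    g1.stronglyMeasurable.integral_prod_right.aestronglyMeasurable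
    ((ae_restrict_mem hK.measurableSet).mono fun y hy =>
      norm_integral_le_of_norm_le (g3 r |C|) (ae_of_all _ (g2 y hy)))) hN).of_close
    (C := ∫ ξ : Eu n, |C| / R ^ N * (‖ξ‖ ^ (r + N) * Real.exp (-(c₀ / 2 * ‖ξ‖ ^ 2))))
    fun τ hτ y hy => ?_
  have hτ0 := hτ.1
  have b1 : MeasurableSet {ξ : Eu n | τ * ‖ξ‖ ≤ R} :=
    (isClosed_le (by fun_prop) continuous_const).measurableSet
  have b2 : c.gi R (fun t p => t ^ m * h p) τ y = (∫ ξ in {ξ | τ * ‖ξ‖ ≤ R}, G y ξ) * τ ^ w := by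
    rw [Co.gi, ← integral_indicator measurableSet_closedBall, integral_scale _ y hτ0, ← mul_assoc,
      ← mul_pow, inv_mul_cancel₀ hτ0.ne', one_pow, one_mul, ← integral_mul_const,
      ← integral_indicator b1]
    refine integral_congr_ae (ae_of_all _ fun ξ => ?_)
    have e : y + τ • ξ ∈ Metric.closedBall y R ↔ ξ ∈ {ξ : Eu n | τ * ‖ξ‖ ≤ R} := by
      rw [mem_closedBall_iff_norm, add_sub_cancel_left, norm_smul, Real.norm_of_nonneg hτ0.le]
      rfl
    simp only [indicator, e]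
    split_ifs
    · rw [sq_scale, hs, hG, ← zpow_natCast τ w, hw, zpow_add₀ hτ0.ne', zpow_mul, zpow_natCast,
        zpow_ofNat, mul_comm 2, mul_div_mul_left _ _ (by positivity)]
      ring
    · rfl
  rw [b2, ← sub_mul, ← integral_add_compl b1 (g4 y hy), sub_add_cancel_left, abs_mul, abs_neg,
    ← integral_mul_const]
  refine (mul_le_of_le_one_right (abs_nonneg _)
    ((abs_of_pos (pow_pos hτ0 w)).trans_le (pow_le_one₀ hτ0.le hτ.2))).trans
    (exp_le b1.compl ((g3 _ _).mul_const _) (fun ξ => by positivity) fun ξ hξ => ?_)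
  refine (g2 y hy ξ).trans ((le_mul_of_one_le_right (by positivity) (one_le_pow₀ (n := N)
    ((one_le_div hR).2 (lt_of_not_ge (b := τ * ‖ξ‖) hξ).le))).trans_eq ?_)
  ring

/-- Downward induction on the weight `w` from `N` (`gi_bound`, `peu_small`) to zero with
`Tm.split`; the integrands are continuous on the ball (`Tm.contDiff`). -/
theorem peu_tm (hc : c.Sm univ) (hK : IsCompact K) {R : ℝ} (hR : 0 < R) {f : ℝ → E2 n → ℝ}
    (hf : Tm 0 f) : PEU K N (c.gi R f) := by
  have key : ∀ d w : ℕ, w + d = N → ∀ f, Tm w f → PEU K N (c.gi R f) := fun d => by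
    induction d with
    | zero =>
      rintro w rfl f hf
      obtain ⟨C, h⟩ := gi_bound hc hK R hf
      exact peu_small h
    | succ d ih =>
      intro w hw f hf
      refine Tm.split (q := fun g => PEU K N (c.gi R g)) (fun g => ih (w + 1) (by omega) g)
        (fun m r h e => peu_homog hc hK hR e (by omega)) (fun g g' hg hg' h h' => ?_)
        (fun g g' h e => ?_) hf
      · refine (h.add h').of_close (C := 0) fun τ hτ y _ => ?_
        have hsq := (van_sq hc).contDiff.continuous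
        have hi : ∀ g : ℝ → E2 n → ℝ, Tm w g → IntegrableOn (fun x =>
            Real.exp (-(c.sq (x, y) / (2 * τ ^ 2))) * g (τ ^ 2) (x, y)) (Metric.closedBall y R) :=
          fun g hg => by
            have := (hg.contDiff (pow_pos hτ.1 2)).continuous
            exact ContinuousOn.integrableOn_compact (isCompact_closedBall y R) (by fun_prop)
        simp only [Co.gi, mul_add, integral_add (hi g hg) (hi g' hg'), sub_self, abs_zero,
          zero_mul, le_refl]
      · refine h.of_close (C := 0) fun τ hτ y _ => ?_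
        simp only [Co.gi, e _ (pow_pos hτ.1 2), sub_self, abs_zero, zero_mul, le_refl]
  exact key N 0 (zero_add N) f hf

end Pool.Agent.Lib.MP_570070_gt.Ex
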