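import Pool.Agent.Lib.MP_570070_gt.Ex.JCal

/-! Extension of the coefficients to the whole space. -/

open MeasureTheory Filter Topology Set
open scoped ContDiff InnerProductSpace

namespace Pool.Agent.Lib.MP_570070_gt.Ex

open Pool.Agent.Lib.MP_570070_gt.An

variable {n : ℕ} {V H K : Type} [NormedAddCommGroup V] [NormedSpace ℝ V] [NormedAddCommGroup H]
  [InnerProductSpace ℝ H] [NormedAddCommGroup K] [InnerProductSpace ℝ K] {c : Co n V}
  {O O' K' : Set (Eu n)} {j : (Eu n → V) → H} {f g : Eu n → V}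

theorem glob_cut (hO : IsOpen O) (hK : IsCompact K') (hs : K' ⊆ O) :
    ∃ (χ : Eu n → ℝ) (O' : Set (Eu n)), Tst O χ ∧ IsOpen O' ∧ K' ⊆ O' ∧ O' ⊆ O ∧
      (∀ y ∈ O', χ y = 1) ∧ ∀ y, χ y ∈ Icc (0 : ℝ) 1 := by
  obtain ⟨L, hL, hKL, hLO⟩ := exists_compact_between hK hO hs
  obtain ⟨χ, h1, h0, h01⟩ := exists_contMDiffMap_one_nhds_of_subset_interior
    (modelWithCornersSelf ℝ (Eu n)) (n := ⊤) hK.isClosed hKL
  obtain ⟨U, hU, hKU, hU1⟩ := mem_nhdsSet_iff_exists.1 h1
  exact ⟨χ, U ∩ O, (tst_of_compact χ.contMDiff.contDiff hL hLO h0).1, hU.inter hO,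
    subset_inter hKU hs, inter_subset_right, fun y hy => hU1 hy.1, h01⟩

theorem glob_lam_zero (c : Co n V) (hf : Tst O f) {y : Eu n} (hy : y ∉ O) : c.lam f y = 0 := by
  have h0 : f y = 0 := image_eq_zero_of_notMem_tsupport fun h => hy (hf.2.2 h)
  have h1 : ∀ i, pv i f y = 0 := fun i =>
    image_eq_zero_of_notMem_tsupport fun h => hy ((hf.pv i).1.2.2 h)
  have h2 : ∀ i k, pv i (pv k f) y = 0 := fun i k =>
    image_eq_zero_of_notMem_tsupport fun h => hy (((hf.pv k).1.pv i).1.2.2 h)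
  simp [Co.lam, h0, h1, h2]

/-- Multiply the coefficients by a cut-off `χ` that is one on a neighbourhood `O'` of `K'` and has
compact support in `O`; `A' = χ • A + (1 - χ) • 1` is positive definite. -/
theorem Dat.glob {Γ : Submodule ℝ (H × K)} (h : Dat c Γ O j) (hc : c.Sm O) (hK : IsCompact K')
    (hO : K' ⊆ O) : ∃ (c' : Co n V) (O' : Set (Eu n)), c'.Sm univ ∧ Dat c' Γ O' j ∧ K' ⊆ O' ∧
      O' ⊆ O ∧ ∀ y ∈ O', c'.q y = c.q y := by
  obtain ⟨χ, O', hχ, hO', hKO', hO'O, h1, h01⟩ := glob_cut h.isOpen hK hO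
  let c' : Co n V :=
    { A := fun y => χ y • c.A y + (1 - χ y) • (1 : Matrix (Fin n) (Fin n) ℝ)
      B := fun i y => χ y • c.B i y
      C := fun y => χ y • c.C y
      q := fun y => χ y • c.q y }
  have hq : ∀ y ∈ O', c'.q y = c.q y := fun y hy => by simp [c', h1 y hy]
  have hA : ∀ y ∈ O', c'.A y = c.A y := fun y hy => by simp [c', h1 y hy]
  have hB : ∀ i, ∀ y ∈ O', c'.B i y = c.B i y := fun i y hy => by simp [c', h1 y hy]
  have hC : ∀ y ∈ O', c'.C y = c.C y := fun y hy => by simp [c', h1 y hy]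
  have hm : ∀ f : Eu n → V, Tst O' f → Tst O f := fun f hf => hf.mono (hf.2.2.trans hO'O)
  refine ⟨c', O', ⟨fun i k => ?_, fun y _ => ?_, fun i => ?_, ?_, ?_⟩,
    ⟨⟨hO', ?_, fun y hy v w => ?_, fun y hy v hv => ?_, fun f g hf hg => ?_⟩, fun f hf => ?_⟩,
    hKO', hO'O, hq⟩
  · have h2 := (Tst.smul_on h.isOpen hχ (hc.A i k)).1.1
    have h3 : ContDiff ℝ ∞ fun y => (1 - χ y) * (1 : Matrix (Fin n) (Fin n) ℝ) i k :=
      (contDiff_const.sub hχ.1).mul contDiff_const
    exact (h2.add h3).contDiffOn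
  · change (χ y • c.A y + (1 - χ y) • (1 : Matrix (Fin n) (Fin n) ℝ)).PosDef
    rcases (h01 y).1.eq_or_lt with h0 | h0
    · rw [← h0, zero_smul, zero_add, sub_zero, one_smul]
      exact Matrix.PosDef.one
    · have hy : y ∈ O := hχ.2.2 (subset_tsupport _ h0.ne')
      exact ((hc.pos y hy).smul h0).add_posSemidef
        (Matrix.PosSemidef.one.smul (sub_nonneg.2 (h01 y).2))
  · exact (Tst.smul_on h.isOpen hχ (hc.B i)).1.1.contDiffOn
  · exact (Tst.smul_on h.isOpen hχ hc.C).1.1.contDiffOn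
  · exact (Tst.smul_on h.isOpen hχ hc.q).1.1.contDiffOn
  · exact (h.cont.mono hO'O).congr hq
  · rw [hq y hy]
    exact h.sym y (hO'O hy) v w
  · rw [hq y hy]
    exact h.pos y (hO'O hy) v hv
  · rw [h.inner f g (hm f hf) (hm g hg)]
    refine integral_congr_ae (Eventually.of_forall fun y => ?_)
    by_cases hy : y ∈ O'
    · simp only [hq y hy]
    · have h0 : f y = 0 := image_eq_zero_of_notMem_tsupport fun h => hy (hf.2.2 h)
      simp [h0]
  · have he : c'.lam f = c.lam f := by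
      funext y
      by_cases hy : y ∈ O'
      · simp only [Co.lam, hA y hy, hB _ y hy, hC y hy]
      · rw [glob_lam_zero c' hf hy, glob_lam_zero c hf hy]
    rw [he]
    exact h.lap f (hm f hf)

end Pool.Agent.Lib.MP_570070_gt.Ex
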