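import Pool.Agent.Lib.MP_570070_gt.Ex.GDat
import Pool.Agent.Lib.MP_570070_gt.Ex.Glob

/-! A finite family of charts for a relatively compact open set. -/

open MeasureTheory Filter Topology Set
open scoped Manifold ContDiff InnerProductSpace

set_option maxSynthPendingDepth 3

namespace Pool.Agent.Lib.MP_570070_gt.Ex

open Pool.Agent.Lib.MP_570070_gt.An

variable {n : ℕ} {X : RMfd n}

theorem gcov_one (x : X.M) {N : Set X.M} (hN : IsCompact N) (hs : N ⊆ (chartAt (Eu n) x).source)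
    {ψ : X.M → ℝ} (hψ : ContMDiff 𝓘(ℝ, Eu n) 𝓘(ℝ) ∞ ψ) (h0 : tsupport ψ ⊆ interior N) :
    ContDiff ℝ ∞ ((chartAt (Eu n) x).target.indicator (ψ ∘ (chartAt (Eu n) x).symm)) ∧
      tsupport ((chartAt (Eu n) x).target.indicator (ψ ∘ (chartAt (Eu n) x).symm)) ⊆
        interior (chartAt (Eu n) x '' N) := by
  set e := chartAt (Eu n) x
  have h1 : tsupport (e.target.indicator (ψ ∘ e.symm)) ⊆ e '' tsupport ψ := by
    refine closure_minimal (fun y hy => ?_) (((hN.of_isClosed_subset (isClosed_tsupport ψ)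
      (h0.trans interior_subset)).image_of_continuousOn
        (e.continuousOn.mono ((h0.trans interior_subset).trans hs))).isClosed)
    rw [support_indicator] at hy
    exact ⟨_, subset_tsupport _ hy.2, e.right_inv hy.1⟩
  refine ⟨contMDiff_iff_contDiff.1 (contMDiff_of_tsupport fun y hy => ?_),
    h1.trans ((image_mono h0).trans (interior_maximal (image_mono interior_subset)
      (e.isOpen_image_of_subset_source isOpen_interior (interior_subset.trans hs))))⟩
  obtain ⟨z, hz, rfl⟩ := h1 hy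
  have h2 := e.open_target.mem_nhds (e.map_source (hs (interior_subset (h0 hz))))
  exact (hψ.contMDiffAt.comp _ (contMDiffOn_chart_symm.contMDiffAt h2)).congr_of_eventuallyEq
    (mem_of_superset h2 fun y hy => indicator_of_mem hy _)

/-- For `x ∈ K₀` take a compact neighbourhood `N x` in the source of the chart at `x`; finitely many
interiors cover `K₀`. `SmoothPartitionOfUnity.exists_isSubordinate` gives functions `ψ i`; let
`φ i = indicator (e i).target (ψ i ∘ (e i).symm)` and `K i = e i '' N i`. -/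
theorem exists_partition {K₀ : Set X.M} (hK : IsCompact K₀) :
    ∃ (β : Type) (_ : Fintype β) (e : β → OpenPartialHomeomorph X.M (Eu n)) (K : β → Set (Eu n))
      (φ : β → Eu n → ℝ), (∀ i, e i ∈ atlas (Eu n) X.M ∧ IsCompact (K i) ∧ K i ⊆ (e i).target ∧
        ContDiff ℝ ∞ (φ i) ∧ (∀ y, 0 ≤ φ i y) ∧ tsupport (φ i) ⊆ interior (K i)) ∧
      ∀ x ∈ K₀, ∑ i, (e i).source.indicator (fun x => φ i (e i x)) x = 1 := by
  have : LocallyCompactSpace X.M := ChartedSpace.locallyCompactSpace (Eu n) X.M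
  choose N hN h1 h2 using fun x : X.M =>
    exists_compact_subset (chartAt (Eu n) x).open_source (mem_chart_source (Eu n) x)
  obtain ⟨t, ht⟩ := hK.elim_finite_subcover (fun x => interior (N x)) (fun _ => isOpen_interior)
    fun x _ => mem_iUnion.2 ⟨x, h1 x⟩
  obtain ⟨ψ, hψ⟩ := SmoothPartitionOfUnity.exists_isSubordinate 𝓘(ℝ, Eu n) hK.isClosed
    (fun i : t => interior (N i)) (fun _ => isOpen_interior) (by rwa [iUnion_subtype])
  refine ⟨t, inferInstance, fun i => chartAt (Eu n) i.1, fun i => chartAt (Eu n) i.1 '' N i,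
    fun i => (chartAt (Eu n) i.1).target.indicator (ψ i ∘ (chartAt (Eu n) i.1).symm),
    fun i => ?_, fun x hx => ?_⟩
  · have h3 := gcov_one i.1 (hN i) (h2 i) (ψ i).contMDiff (hψ i)
    exact ⟨chart_mem_atlas _ _, (hN i).image_of_continuousOn
      ((chartAt (Eu n) i.1).continuousOn.mono (h2 i)),
      (image_mono (h2 i)).trans (chartAt (Eu n) i.1).image_source_subset, h3.1,
      fun y => indicator_nonneg (fun _ _ => ψ.nonneg i _) y, h3.2⟩
  · rw [← ψ.sum_eq_one hx, finsum_eq_sum_of_fintype]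
    refine Finset.sum_congr rfl fun i _ => ?_
    beta_reduce
    by_cases h : x ∈ (chartAt (Eu n) i.1).source
    · rw [indicator_of_mem h, indicator_of_mem ((chartAt (Eu n) i.1).map_source h),
        Function.comp_apply, (chartAt (Eu n) i.1).left_inv h]
    · rw [indicator_of_notMem h, image_eq_zero_of_notMem_tsupport
        fun h' => h (h2 i (interior_subset (hψ i h')))]

/-- `exists_partition`, `exists_dat`, `Dat.glob`; `F' i = (e i).target ∩ (e i).symm ⁻¹' F`, and `𝒟` is
the set of all `(ι α, fun i => inChart α (e i))` with `α` a test form supported in `F`. The closure of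
a submodule is `Submodule.topologicalClosure_coe`. -/
theorem exists_cov (L : L2 X) (k : ℕ) {F K₀ : Set X.M} (hF : IsOpen F) (hK : IsCompact K₀)
    (hFK : F ⊆ K₀) : ∃ (β : Type) (_ : Fintype β) (c : β → Co n (Alt n k))
      (O K F' : β → Set (Eu n)) (j : β → (Eu n → Alt n k) → L.H k) (φ : β → Eu n → ℝ)
      (𝒟 : Submodule ℝ (L.H k × (β → Eu n → Alt n k))), Cov c O K F' j φ 𝒟 ∧
      (∀ i, (c i).Sm univ) ∧ (∀ i, Dat (c i) (domS L.D k) (O i) (j i)) ∧
      L.on k F = (𝒟.map (LinearMap.fst ℝ _ _)).topologicalClosure := by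
  obtain ⟨β, _, e, K, φ, h, hs⟩ := exists_partition hK
  choose c₀ h1 h2 h3 using fun i => exists_dat L (h i).1 k
  choose c O h4 h5 h6 h7 h8 using fun i => (h3 i).glob (h1 i) (h i).2.1 (h i).2.2.1
  have h0 : L.ι k 0 = 0 := by simpa using iota_smul L 0 (isTest_zero (X := X) (k := k))
  refine ⟨β, inferInstance, c, O, K, fun i => (e i).target ∩ (e i).symm ⁻¹' F,
    fun i f => L.ι k (ext (e i) f), φ,
    ⟨⟨⟨{z | ∃ α, (IsTest α ∧ tsupport α ⊆ F) ∧ (L.ι k α, fun i => inChart α (e i)) = z}, ?_⟩,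
      ?_⟩, ?_⟩, ⟨fun i => (h5 i).toEmb, fun i => (h i).2.1, h6,
      fun i => (e i).isOpen_inter_preimage_symm hF, fun i => (h i).2.2.2.1,
      fun i => (h i).2.2.2.2.1, fun i => (h i).2.2.2.2.2, ?_, ?_, ?_, ?_, fun i g hg => ?_⟩,
    h4, h5, ?_⟩
  · rintro _ _ ⟨α, hα, rfl⟩ ⟨α', hα', rfl⟩
    exact ⟨α + α', ⟨hα.1.add hα'.1, (tsupport_add _ _).trans (union_subset hα.2 hα'.2)⟩,
      Prod.ext (iota_add L hα.1 hα'.1) (by ext i y v; rfl)⟩
  · exact ⟨0, ⟨isTest_zero, by simp⟩, Prod.ext h0 (by ext i y v; rfl)⟩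
  · rintro a _ ⟨α, hα, rfl⟩
    exact ⟨a • α, ⟨hα.1.smul a, (tsupport_smul_subset_right (fun _ => a) α).trans hα.2⟩,
      Prod.ext (iota_smul L a hα.1) (by ext i y v; rfl)⟩
  · rintro _ ⟨α, hα, rfl⟩ i
    exact (hα.1.1 _ (h i).1).mono (h7 i)
  · rintro _ ⟨α, hα, rfl⟩ i y hy hy'
    change (α ((e i).symm y)).compContinuousLinearMap _ = 0
    rw [image_eq_zero_of_notMem_tsupport fun h' => hy' ⟨h7 i hy, hα.2 h'⟩]
    ext v
    rfl
  · rintro _ ⟨α, hα, rfl⟩
    have h9 := fun i => (h i).2.2.2.2.2.trans interior_subset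
    refine Eq.trans (congrArg (L.ι k) (funext fun x => ?_)) (iota_sum L Finset.univ fun i =>
      isTest_ext (h i).1 (Tst.smul_on (e i).open_target ⟨(h i).2.2.2.1,
        (h i).2.1.of_isClosed_subset (isClosed_tsupport _) (h9 i), (h9 i).trans (h i).2.2.1⟩
        (hα.1.1 _ (h i).1)).1).2
    have h10 : ∀ i, ext (e i) (fun y => φ i y • inChart α (e i) y) x =
        (e i).source.indicator (fun x => φ i (e i x)) x • α x := fun i => by
      by_cases hx : x ∈ (e i).source
      · rw [ext_smul_inChart (h i).1 _ _ hx, indicator_of_mem hx]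
      · rw [ext, if_neg hx, indicator_of_notMem hx, zero_smul]
    rw [Finset.sum_apply, Finset.sum_congr rfl fun i _ => h10 i, ← Finset.sum_smul]
    by_cases hx : x ∈ K₀
    · rw [hs x hx, one_smul]
    · rw [image_eq_zero_of_notMem_tsupport fun h' => hx (hFK (hα.2 h')), smul_zero]
  · rintro _ ⟨α, hα, rfl⟩ i g hg
    refine (inner_ext L (h i).1 (hg.mono (hg.2.2.trans (h7 i))) hα.1).trans
      (integral_congr_ae (Eventually.of_forall fun y => ?_))
    by_cases hy : y ∈ O i
    · simp only [h8 i y hy, h2 i]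
    · simp only [image_eq_zero_of_notMem_tsupport fun h' => hy (hg.2.2 h'), map_zero, zero_apply]
  · have h9 := hg.mono (hg.2.2.trans (inter_subset_left.trans (h7 i)))
    refine ⟨_, _, ⟨isTest_ext (h i).1 h9, (tsupport_ext h9).2.trans ?_⟩, rfl⟩
    rintro _ ⟨y, hy, rfl⟩
    exact (hg.2.2 hy).2.2
  · rw [Submodule.topologicalClosure_coe, L2.on]
    refine congrArg closure (Set.ext fun v => ⟨?_, ?_⟩)
    · rintro ⟨α, hα, rfl⟩
      exact ⟨_, ⟨α, hα, rfl⟩, rfl⟩
    · rintro ⟨_, ⟨α, hα, rfl⟩, rfl⟩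
      exact ⟨α, hα, rfl⟩

end Pool.Agent.Lib.MP_570070_gt.Ex
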