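import Pool.Agent.Lib.MP_570070_gt.Ex.Cod
import Pool.Agent.Lib.MP_570070_gt.Ex.Cht
import Pool.Agent.Lib.MP_570070_gt.An.AWeak

/-! The Hodge Laplacian in a chart. -/

open MeasureTheory Filter Topology Set
open scoped Manifold ContDiff InnerProductSpace

set_option maxSynthPendingDepth 3

namespace Pool.Agent.Lib.MP_570070_gt.Ex

open Pool.Agent.Lib.MP_570070_gt.An

variable {n k : ℕ} {X : RMfd n} (L : L2 X) {e : OpenPartialHomeomorph X.M (Eu n)}

/-- Every point has a chart in which the function is continuous (`ipAt_chart`, `qq_apply`,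
`Met.contDiffOn_qq`), and `μ` is finite on a neighbourhood of every point (`IsVolume` for the
preimage of a compact neighbourhood in the chart). -/
theorem integrable_ipAt {μ : Measure X.M} (hμ : IsVolume X μ) {α β : Form X k} (hα : IsTest α)
    (hβ : IsTest β) : Integrable (ipAt α β) μ := by
  have hl : IsLocallyFiniteMeasure μ := ⟨fun x => by
    have he := chart_mem_atlas (Eu n) x
    set e := chartAt (Eu n) x
    have hx : x ∈ e.source := mem_chart_source (Eu n) x
    obtain ⟨K, hK, h1, h2⟩ := local_compact_nhds (e.open_target.mem_nhds (e.map_source hx))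
    have h3 := e.symm.image_mem_nhds (e.map_source hx) hK
    rw [e.left_inv hx] at h3
    refine ⟨_, h3, ?_⟩
    rw [hμ e he _ (h2.image_of_continuousOn (e.continuousOn_symm.mono h1)).measurableSet
      (image_subset_iff.2 fun y hy => e.map_target (h1 hy)),
      show e '' (e.symm '' K) = K from e.toPartialEquiv.image_symm_image_of_subset_target h1]
    exact Integrable.lintegral_lt_top
      (((met_gr he).contDiffOn_sqrt.continuousOn.mono h1).integrableOn_compact h2)⟩
  refine Continuous.integrable_of_hasCompactSupport (continuous_iff_continuousAt.2 fun x => ?_)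
    (hα.2.mono fun x hx h => hx (by simp [ipAt, ipAlt, h]))
  have he := chart_mem_atlas (Eu n) x
  set e := chartAt (Eu n) x
  have hx : x ∈ e.source := mem_chart_source (Eu n) x
  have hm := met_gr he
  have h0 : ∀ y ∈ e.target, √(gr e y).det ≠ 0 := fun y hy =>
    (Real.sqrt_pos.2 (hm.pos y hy).det_pos).ne'
  have h1 := ((hm.contDiffOn_sqrt.continuousOn.inv₀ h0).mul ((hm.contDiffOn_qq.continuousOn.clm_apply
    (hα.1 e he).continuousOn).clm_apply (hβ.1 e he).continuousOn)).comp e.continuousOn e.mapsTo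
  refine ContinuousOn.continuousAt (h1.congr fun z hz => ?_) (e.open_source.mem_nhds hx)
  have h2 := ipAt_chart he α β (e.map_source hz)
  rw [e.left_inv hz] at h2
  simp only [Function.comp_apply, Pi.mul_apply, Pi.inv_apply]
  rw [h2, qq_apply, inv_mul_cancel_left₀ (h0 _ (e.map_source hz))]

theorem gdat_ext {x y : L.H k} (h : ∀ γ, IsTest γ → ⟪x, L.ι k γ⟫_ℝ = ⟪y, L.ι k γ⟫_ℝ) :
    x = y := by
  refine ext_inner_right ℝ (congrFun (Continuous.ext_on (L.dense k) (f := fun v => ⟪x, v⟫_ℝ)
    (g := fun v => ⟪y, v⟫_ℝ) (by fun_prop) (by fun_prop) ?_))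
  rintro _ ⟨γ, hγ, rfl⟩
  exact h γ hγ

/-- Expand the square of the norm of the difference (`nvl2_add`). -/
theorem iota_add {α β : Form X k} (hα : IsTest α) (hβ : IsTest β) :
    L.ι k (α + β) = L.ι k α + L.ι k β := by
  refine gdat_ext L fun γ hγ => ?_
  rw [inner_add_left, L.inner_eq _ _ _ (hα.add hβ) hγ, L.inner_eq _ _ _ hα hγ,
    L.inner_eq _ _ _ hβ hγ,
    ← integral_add (integrable_ipAt L.vol hα hγ) (integrable_ipAt L.vol hβ hγ)]
  exact integral_congr_ae (Eventually.of_forall (nvl2_add _ _ _))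

theorem iota_smul (a : ℝ) {α : Form X k} (hα : IsTest α) : L.ι k (a • α) = a • L.ι k α := by
  refine gdat_ext L fun γ hγ => ?_
  rw [real_inner_smul_left, L.inner_eq _ _ _ (hα.smul a) hγ, L.inner_eq _ _ _ hα hγ,
    ← integral_const_mul]
  exact integral_congr_ae (Eventually.of_forall (nvl2_smul _ _ a))

theorem iota_sum {β : Type} (s : Finset β) {α : β → Form X k} (hα : ∀ i, IsTest (α i)) :
    IsTest (∑ i ∈ s, α i) ∧ L.ι k (∑ i ∈ s, α i) = ∑ i ∈ s, L.ι k (α i) := by
  classical
  induction s using Finset.induction_on with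
  | empty =>
    have h := iota_smul L 0 (isTest_zero (X := X) (k := k))
    rw [zero_smul, zero_smul] at h
    exact ⟨isTest_zero, h⟩
  | insert i s hi ih =>
    rw [Finset.sum_insert hi, Finset.sum_insert hi, iota_add L (hα i) ih.1, ih.2]
    exact ⟨(hα i).add ih.1, rfl⟩

theorem inner_ext (he : e ∈ atlas (Eu n) X.M) {f : Eu n → Alt n k} (hf : Tst e.target f)
    {α : Form X k} (hα : IsTest α) :
    ⟪L.ι k (ext e f), L.ι k α⟫_ℝ = ∫ y, qq (gr e y) (f y) (inChart α e y) := by
  rw [L.inner_eq _ _ _ (isTest_ext he hf) hα, integral_ext he L.vol hf hα]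

theorem gdat_congr {f g g' : Eu n → Alt n k} (hf : Tst e.target f)
    (h : ∀ y ∈ e.target, g y = g' y) :
    ∫ y, qq (gr e y) (f y) (g y) = ∫ y, qq (gr e y) (f y) (g' y) := by
  refine integral_congr_ae (Eventually.of_forall fun y => ?_)
  by_cases hy : y ∈ e.target
  · simp only [h y hy]
  · simp [image_eq_zero_of_notMem_tsupport fun h' => hy (hf.2.2 h')]

/-- `inner_ext` twice, `inChart_extD`, `integral_cod`. -/
theorem wcod_ext (he : e ∈ atlas (Eu n) X.M) {f : Eu n → Alt n (k + 1)} (hf : Tst e.target f) :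
    WCod L.D k (L.ι (k + 1) (ext e f)) (L.ι k (ext e (cod (gr e) f))) := by
  rintro _ _ ⟨α, hα, rfl, rfl⟩
  rw [real_inner_comm, inner_ext L he hf (isTest_extD hα), real_inner_comm (L.ι k (ext e _)),
    inner_ext L he (hf.cod (met_gr he)).1 hα, ← integral_cod (met_gr he) hf (hα.1 e he)]
  exact gdat_congr hf fun y hy => inChart_extD he hα hy

theorem d_ext (he : e ∈ atlas (Eu n) X.M) {f : Eu n → Alt n k} (hf : Tst e.target f) :
    L.D k (L.ι k (ext e f)) (L.ι (k + 1) (ext e (extDeriv f))) := by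
  exact ⟨ext e f, isTest_ext he hf, rfl, by rw [extD_ext he hf]⟩

theorem gdat_emb (he : e ∈ atlas (Eu n) X.M) {c : Co n (Alt n k)}
    (h : c.q = fun y => qq (gr e y)) : Emb c e.target fun f => L.ι k (ext e f) := by
  have hm := met_gr he
  refine ⟨e.open_target, ?_, fun y hy v w => ?_, fun y hy v hv => ?_, fun f g hf hg => ?_⟩ <;>
    rw [h]
  · exact hm.contDiffOn_qq.continuousOn
  · exact qq_comm (hm.pos y hy) v w
  · exact qq_pos (hm.pos y hy) hv
  · exact (inner_ext L he hf (isTest_ext he hg)).trans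
      (gdat_congr hf fun y hy => inChart_ext he g hy)

theorem gdat_wd (he : e ∈ atlas (Eu n) X.M) {f : Eu n → Alt n k} (hf : Tst e.target f)
    {w : L.H k} {η : L.H (k + 1)} (h : WD L.D k w η) :
    ⟪L.ι (k + 1) (ext e (extDeriv f)), η⟫_ℝ =
      ⟪L.ι k (ext e (cod (gr e) (extDeriv f))), w⟫_ℝ := by
  rw [real_inner_comm, ← h _ _ ⟨_, d_ext L he hf.extDeriv.1⟩ (wcod_ext L he hf.extDeriv.1),
    real_inner_comm]

/-- Cases on `k`; `exists_co_zero`, `exists_co_succ`. For `u = ι (ext f)` take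
`ξ = (ι (ext (d f)), ι (ext (cod f)))` (second component zero for `k = 0`). For `(w, ξ')` in the domain,
`WD` tested with `ext (d f)` gives `⟪w, ι (ext (cod (d f)))⟫ = ⟪ξ'.fst, ι (ext (d f))⟫`, and `WCod`
tested with `d_ext` for `cod f` gives the other half. -/
theorem exists_dat (he : e ∈ atlas (Eu n) X.M) (k : ℕ) : ∃ c : Co n (Alt n k), c.Sm e.target ∧
    (c.q = fun y => qq (gr e y)) ∧
      Dat c (domS L.D k) e.target fun f => L.ι k (ext e f) := by
  have hm := met_gr he
  cases k with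
  | zero =>
    obtain ⟨c, h1, h2, h3⟩ := exists_co_zero hm
    refine ⟨c, h1, h2, gdat_emb L he h2, fun f hf =>
      ⟨WithLp.toLp 2 (L.ι 1 (ext e (extDeriv f)), 0),
        ⟨fun φ ψ _ hψ => (hψ _ _ (d_ext L he hf)).symm, rfl⟩, fun w ξ hw => ?_⟩⟩
    rw [WithLp.prod_inner_apply, h3 f hf, ← gdat_wd L he hf hw.1]
    exact (congrArg _ (inner_zero_left _)).trans (add_zero _)
  | succ k =>
    obtain ⟨c, h1, h2, h3⟩ := exists_co_succ hm k
    refine ⟨c, h1, h2, gdat_emb L he h2, fun f hf =>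
      ⟨WithLp.toLp 2 (L.ι (k + 2) (ext e (extDeriv f)), L.ι k (ext e (cod (gr e) f))),
        ⟨fun φ ψ _ hψ => (hψ _ _ (d_ext L he hf)).symm, wcod_ext L he hf⟩, fun w ξ hw => ?_⟩⟩
    have h4 := (hf.cod hm).1
    rw [WithLp.prod_inner_apply, h3 f hf, ext_add, iota_add L
      (isTest_ext he (hf.extDeriv.1.cod hm).1) (isTest_ext he h4.extDeriv.1), inner_add_left,
      ← gdat_wd L he hf hw.1, hw.2 _ _ (d_ext L he h4)]
    rfl

end Pool.Agent.Lib.MP_570070_gt.Ex
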