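import Pool.Agent.Lib.MP_570070_gt.Ex.XDefs

/-! Definitions for forms in a chart. -/

open MeasureTheory Filter Topology Set
open scoped Manifold ContDiff InnerProductSpace

set_option maxSynthPendingDepth 3

namespace Pool.Agent.Lib.MP_570070_gt.Ex

open Pool.Agent.Lib.MP_570070_gt.An

noncomputable section

variable {n k : ℕ}

/-- Exterior multiplication by `dx i`. -/
def wd (i : Fin n) : Alt n k →L[ℝ] Alt n (k + 1) :=
  (ContinuousAlternatingMap.alternatizeUncurryFinCLM ℝ (Eu n) ℝ).comp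
    (ContinuousLinearMap.smulRightL ℝ (Eu n) (Alt n k) (ContinuousLinearMap.proj i))

/-- Interior multiplication by `bas i`. -/
def cn (i : Fin n) : Alt n (k + 1) →L[ℝ] Alt n k :=
  (ContinuousLinearMap.apply ℝ (Alt n k) (bas i)).comp
    ContinuousAlternatingMap.curryLeftLI.toContinuousLinearMap

/-- The linear map of a matrix. -/
def ml (T : Matrix (Fin n) (Fin n) ℝ) : Eu n →L[ℝ] Eu n :=
  LinearMap.toContinuousLinearMap (Matrix.toLin' T)

/-- The pull-back by a matrix. -/
def cm (T : Matrix (Fin n) (Fin n) ℝ) : Alt n k →L[ℝ] Alt n k :=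
  ContinuousAlternatingMap.compContinuousLinearMapCLM (ml T)

/-- A coefficient of a form. -/
def cf (I : Fin k → Fin n) : Alt n k →L[ℝ] ℝ :=
  ContinuousAlternatingMap.apply ℝ (Eu n) ℝ fun l => bas (I l)

/-- The Euclidean scalar product. -/
def ip1 : Alt n k →L[ℝ] Alt n k →L[ℝ] ℝ :=
  ((k.factorial : ℝ))⁻¹ • ∑ I : Fin k → Fin n, (cf I).smulRight (cf I)

/-- The scalar product for the metric `A` times the density of the volume. -/
def qq (A : Matrix (Fin n) (Fin n) ℝ) : Alt n k →L[ℝ] Alt n k →L[ℝ] ℝ :=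
  √A.det • ip1.comp (cm A⁻¹)

/-- The codifferential for the metric `A`. -/
def cod (A : Eu n → Matrix (Fin n) (Fin n) ℝ) (f : Eu n → Alt n (k + 1)) : Eu n → Alt n k :=
  fun y => -(√(A y).det)⁻¹ •
    cm (A y) (∑ i, cn i (pv i (fun z => √(A z).det • cm (A z)⁻¹ (f z)) y))

/-- A smooth metric on `U`. -/
structure Met (A : Eu n → Matrix (Fin n) (Fin n) ℝ) (U : Set (Eu n)) : Prop where
  isOpen : IsOpen U
  sm : ∀ i j, ContDiffOn ℝ ∞ (fun y => A y i j) U
  pos : ∀ y ∈ U, (A y).PosDef

variable {X : RMfd n}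

/-- The metric in a chart. -/
def gr (e : OpenPartialHomeomorph X.M (Eu n)) (y : Eu n) : Matrix (Fin n) (Fin n) ℝ :=
  gram (X.g (e.symm y)) (tang e y)

/-- The differential of a chart. -/
def cot (e : OpenPartialHomeomorph X.M (Eu n)) (x : X.M) : Eu n →L[ℝ] Eu n :=
  mfderiv 𝓘(ℝ, Eu n) 𝓘(ℝ, Eu n) e x

open Classical in
/-- The extension by zero of a form given in a chart. -/
def ext (e : OpenPartialHomeomorph X.M (Eu n)) (f : Eu n → Alt n k) : Form X k := fun x =>
  if x ∈ e.source then (f (e x)).compContinuousLinearMap (cot e x) else 0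

end

end Pool.Agent.Lib.MP_570070_gt.Ex
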