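import Pool.Agent.Lib.MP_570070_gt.Ex.Conj

/-! Gaussian integrals. -/

open MeasureTheory Filter Topology Set
open scoped ContDiff InnerProductSpace

namespace Pool.Agent.Lib.MP_570070_gt.Ex

open Pool.Agent.Lib.MP_570070_gt.An

variable {n : ℕ} {V : Type} [NormedAddCommGroup V] [NormedSpace ℝ V] {c : Co n V}

/-- For example `‖ξ‖ ^ r * exp (-c₀ ‖ξ‖ ^ 2) ≤ C * (1 + ‖ξ‖) ^ (-(n + 1))` and
`integrable_one_add_norm`; or `integrable_fun_norm_addHaar`. -/
theorem integrable_gauss {c₀ : ℝ} (hc : 0 < c₀) (r : ℕ) :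
    Integrable fun ξ : Eu n => ‖ξ‖ ^ r * Real.exp (-(c₀ * ‖ξ‖ ^ 2)) := by
  rcases subsingleton_or_nontrivial (Eu n) with h | h
  · exact Continuous.integrable_of_hasCompactSupport (by fun_prop) (.of_compactSpace _)
  refine (integrable_fun_norm_addHaar volume
    (f := fun y => y ^ r * Real.exp (-(c₀ * y ^ 2)))).2 ?_
  simpa only [Real.rpow_natCast, pow_add, mul_assoc, neg_mul, smul_eq_mul] using
    integrableOn_rpow_mul_exp_neg_mul_sq hc (s := (Module.finrank ℝ (Eu n) - 1 + r : ℕ))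
      (neg_one_lt_zero.trans_le (Nat.cast_nonneg _))

theorem sq_scale (τ : ℝ) (ξ y : Eu n) : c.sq (y + τ • ξ, y) = τ ^ 2 * c.sq (y + ξ, y) := by
  simp only [Co.sq, Co.ell, ze, Finset.mul_sum, Pi.add_apply, Pi.smul_apply, smul_eq_mul,
    add_sub_cancel_left]
  exact Finset.sum_congr rfl fun i _ => Finset.sum_congr rfl fun j _ => by ring

/-- `integral_add_left_eq_self`, `Measure.integral_comp_smul`. -/
theorem integral_scale (f : Eu n → ℝ) (y : Eu n) {τ : ℝ} (hτ : 0 < τ) :
    ∫ x, f x = τ ^ n * ∫ ξ, f (y + τ • ξ) := by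
  rw [Measure.integral_comp_smul volume (fun ξ => f (y + ξ)) τ, integral_add_left_eq_self,
    Module.finrank_fin_fun, abs_of_pos (by positivity), smul_eq_mul,
    mul_inv_cancel_left₀ (by positivity)]

theorem gau_le {c₀ : ℝ} {y : Eu n} (h : ∀ x, c₀ * ‖x - y‖ ^ 2 ≤ c.sq (x, y)) (ξ : Eu n) :
    ‖Real.exp (-(c.sq (y + ξ, y) / 4))‖ ≤ ‖ξ‖ ^ 0 * Real.exp (-(c₀ / 4 * ‖ξ‖ ^ 2)) := by
  have h1 := h (y + ξ)
  rw [add_sub_cancel_left] at h1
  rw [pow_zero, one_mul, Real.norm_of_nonneg (Real.exp_pos _).le, Real.exp_le_exp]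
  linarith

theorem gam_pos (hc : c.Sm univ) (y : Eu n) : 0 < c.gam y := by
  obtain ⟨c₀, h0, h1⟩ := sq_lower hc (isCompact_singleton (x := y))
  have := (van_sq hc).contDiff.continuous
  exact integral_exp_pos ((integrable_gauss (div_pos h0 four_pos) 0).mono'
    (Continuous.aestronglyMeasurable (by fun_prop)) (.of_forall (gau_le (h1 y rfl))))

/-- Dominated convergence, `sq_lower` on a closed ball. -/
theorem continuous_gam (hc : c.Sm univ) : Continuous c.gam := by
  refine continuous_iff_continuousAt.2 fun y => ?_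
  obtain ⟨c₀, h0, h1⟩ := sq_lower hc (isCompact_closedBall y 1)
  have := (van_sq hc).contDiff.continuous
  exact continuousAt_of_dominated (.of_forall fun _ => Continuous.aestronglyMeasurable (by fun_prop))
    ((eventually_mem_set.2 (Metric.closedBall_mem_nhds y one_pos)).mono fun z hz =>
      .of_forall (gau_le (h1 z hz))) (integrable_gauss (div_pos h0 four_pos) 0)
    (.of_forall fun _ => Continuous.continuousAt (by fun_prop))

theorem gauss_int {c₀ : ℝ} (hc : 0 < c₀) : ∃ C, 0 ≤ C ∧ ∀ t, 0 < t → ∀ y : Eu n,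
    Integrable (fun x : Eu n => (√t)⁻¹ ^ n * Real.exp (-(c₀ * ‖x - y‖ ^ 2 / t))) ∧
      ∫ x : Eu n, (√t)⁻¹ ^ n * Real.exp (-(c₀ * ‖x - y‖ ^ 2 / t)) = C := by
  refine ⟨∫ ξ : Eu n, Real.exp (-(c₀ * ‖ξ‖ ^ 2)), integral_nonneg fun _ => (Real.exp_pos _).le,
    fun t ht y => ⟨?_, ?_⟩⟩
  · simpa only [pow_zero, one_mul, div_mul_eq_mul_div] using
      ((integrable_gauss (div_pos hc ht) 0).comp_sub_right y).const_mul ((√t)⁻¹ ^ n)
  · have hs := Real.sqrt_pos.2 ht
    rw [integral_scale _ y hs, integral_const_mul, inv_pow, mul_inv_cancel_left₀ (by positivity)]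
    refine integral_congr_ae (.of_forall fun ξ => ?_)
    simp only [add_sub_cancel_left, norm_smul, Real.norm_of_nonneg hs.le, mul_pow,
      Real.sq_sqrt ht.le]
    rw [mul_left_comm, mul_div_cancel_left₀ _ ht.ne']

/-- `integral_scale` with `τ = √t` turns the integral into
`∫ ξ, exp (-sq (y + ξ, y) / 4) * h (y + √t • ξ)`; dominated convergence. -/
theorem gauss_lim (hc : c.Sm univ) {h : Eu n → ℝ} (hh : Continuous h) (hs : HasCompactSupport h)
    (y : Eu n) : Tendsto (fun t => ∫ x, c.gs t (x, y) * h x) (𝓝[>] 0) (𝓝 (c.gam y * h y)) := by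
  obtain ⟨c₀, h0, h1⟩ := sq_lower hc (isCompact_singleton (x := y))
  obtain ⟨B, hB⟩ := hh.bounded_above_of_compact_support hs
  have := (van_sq hc).contDiff.continuous
  have h2 := tendsto_integral_filter_of_dominated_convergence (l := 𝓝[>] (0 : ℝ))
    (F := fun t ξ => Real.exp (-(c.sq (y + ξ, y) / 4)) * h (y + √t • ξ))
    (f := fun ξ => Real.exp (-(c.sq (y + ξ, y) / 4)) * h y) _
    (.of_forall fun _ => Continuous.aestronglyMeasurable (by fun_prop))
    (.of_forall fun t => .of_forall fun ξ => (norm_mul_le _ _).trans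
      (mul_le_mul (gau_le (h1 y rfl) ξ) (hB _) (norm_nonneg _) (by positivity)))
    ((integrable_gauss (div_pos h0 four_pos) 0).mul_const B) (.of_forall fun ξ =>
      (Continuous.tendsto' (by fun_prop) 0 _ (by simp)).mono_left nhdsWithin_le_nhds)
  rw [integral_mul_const] at h2
  refine h2.congr' (eventually_mem_nhdsWithin.mono fun t (ht : 0 < t) => ?_)
  have hs := Real.sqrt_pos.2 ht
  refine .trans ?_ (integral_scale (fun x => c.gs t (x, y) * h x) y hs).symm
  rw [← integral_const_mul]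
  refine integral_congr_ae (.of_forall fun ξ => ?_)
  simp only [gs_eq ht, sq_scale, Real.sq_sqrt ht.le]
  rw [mul_assoc, inv_pow, mul_inv_cancel_left₀ (by positivity), mul_comm 4,
    mul_div_mul_left _ _ ht.ne']

end Pool.Agent.Lib.MP_570070_gt.Ex
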