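import Pool.Agent.Lib.MP_570070_gt.Ex.Ker

/-! The initial values of the parametrix. -/

open MeasureTheory Filter Topology Set
open scoped ContDiff InnerProductSpace

namespace Pool.Agent.Lib.MP_570070_gt.Ex

open Pool.Agent.Lib.MP_570070_gt.An

variable {n N M : ℕ} {V H K₀ : Type} [NormedAddCommGroup V] [NormedSpace ℝ V]
  [NormedAddCommGroup H] [InnerProductSpace ℝ H] [NormedAddCommGroup K₀] [InnerProductSpace ℝ K₀]
  {c : Co n V} {O K : Set (Eu n)} {j : (Eu n → V) → H} {Γ : Submodule ℝ (H × K₀)}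
  {u u' : ℝ → E2 n → V} {v : V} {w : ℤ}

theorem ini_key (hc : c.Sm univ) (hK : IsCompact K) {K' : Set (Eu n)} (hK' : IsCompact K')
    (hu : Tm w u) : ∃ c₀ C, 0 < c₀ ∧ 0 ≤ C ∧ ∀ t ∈ Ioc (0 : ℝ) 1, ∀ y ∈ K, ∀ x ∈ K', ∀ a : V,
      ‖c.q x (c.ker u t y x) a‖ ≤
        C * √t ^ w * ((√t)⁻¹ ^ n * Real.exp (-(c₀ * ‖x - y‖ ^ 2 / t)) * ‖a‖) := by
  obtain ⟨c₀, C, h0, hC, hb⟩ := gs_bound hc hu hK hK'
  have hq' : Continuous fun x => ‖c.q x‖ :=
    (continuous_norm (E := V →L[ℝ] V →L[ℝ] ℝ)).comp (continuousOn_univ.1 hc.q.continuousOn)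
  obtain ⟨Q, hQ⟩ := hK'.exists_bound_of_continuousOn hq'.continuousOn
  refine ⟨c₀, max Q 0 * C, h0, by positivity, fun t ht y hy x hx a => ?_⟩
  have h1 : ‖c.ker u t y x‖ = c.gs t (x, y) * ‖u t (x, y)‖ := by
    rw [Co.ker, norm_smul, Real.norm_of_nonneg (gs_pos _ _).le]
  calc _ ≤ ‖c.q x‖ * ‖c.ker u t y x‖ * ‖a‖ := (c.q x).le_opNorm₂ _ _
    _ ≤ max Q 0 * (C * √t ^ w * ((√t)⁻¹ ^ n * Real.exp (-(c₀ * ‖x - y‖ ^ 2 / t)))) * ‖a‖ := by
      exact mul_le_mul_of_nonneg_right (mul_le_mul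
        (((le_abs_self _).trans (hQ x hx)).trans (le_max_left _ _))
        (h1.trans_le (hb t ht y hy x hx)) (norm_nonneg _) (le_max_right _ _)) (norm_nonneg _)
    _ = _ := by ring

theorem ini_sup (hc : c.Sm univ) (hK : IsCompact K) (hu : Tm w u) {g : Eu n → V} (hg : Tst O g) :
    ∃ C, ∀ t ∈ Ioc (0 : ℝ) 1, ∀ y ∈ K, |∫ x, c.q x (c.ker u t y x) (g x)| ≤ C * √t ^ w := by
  obtain ⟨c₀, C, h0, hC, hb⟩ := ini_key hc hK hg.2.1.isCompact hu
  obtain ⟨G, -, hG⟩ := gauss_int (n := n) h0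
  obtain ⟨B, hB⟩ := hg.1.continuous.bounded_above_of_compact_support hg.2.1
  have hB0 : 0 ≤ B := (norm_nonneg _).trans (hB 0)
  refine ⟨C * (G * B), fun t ht y hy => ?_⟩
  obtain ⟨h1, h2⟩ := hG t ht.1 y
  have h3 := norm_integral_le_of_norm_le (μ := volume)
    (f := fun x => c.q x (c.ker u t y x) (g x)) ((h1.mul_const B).const_mul (C * √t ^ w))
    (Eventually.of_forall fun x => by
      by_cases hx : x ∈ tsupport g
      · refine (hb t ht y hy x hx _).trans ?_
        gcongr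
        exact hB x
      · rw [image_eq_zero_of_notMem_tsupport hx, map_zero, norm_zero]
        positivity)
  rw [integral_const_mul, integral_mul_const, h2] at h3
  exact h3.trans_eq (by ring)

theorem ini_int (hc : c.Sm univ) {f g : Eu n → V} (hf : Continuous f) (hg : Tst O g) :
    Integrable fun x => c.q x (f x) (g x) := by
  refine Continuous.integrable_of_hasCompactSupport
    (((continuousOn_univ.1 hc.q.continuousOn).clm_apply hf).clm_apply hg.1.continuous) ?_
  refine hg.2.1.mono fun x hx h0 => hx ?_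
  simp only [h0, map_zero]

/-- `|⟪j (ker u t y), j g⟫| ≤ C ∫ x in K', G t (x - y) * ‖g x‖` with the Gaussian majorant of
`gs_bound`; integrate over `y ∈ K`, exchange the integrals (continuous integrand on `K ×ˢ K'`),
`gauss_int`, `Emb.l1`. -/
theorem ker_l1 [FiniteDimensional ℝ V] (hc : c.Sm univ) (h : Emb c O j) (hK : IsCompact K)
    (hu : Tm 0 u) (hs : Cut O u) : ∃ C, 0 ≤ C ∧ ∀ t ∈ Ioc (0 : ℝ) 1, ∀ g, Tst O g →
      ∫ y in K, |⟪j (c.ker u t y), j g⟫_ℝ| ≤ C * ‖j g‖ := by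
  obtain ⟨K', hK', hO, hz⟩ := id hs
  obtain ⟨c₀, C, h0, hC, hb⟩ := ini_key hc hK hK' hu
  obtain ⟨G, hG0, hG⟩ := gauss_int (n := n) h0
  obtain ⟨D, hD, hl⟩ := h.l1 hK' hO
  refine ⟨C * (G * D), by positivity, fun t ht g hg => ?_⟩
  have hgc := hg.1.continuous
  set F : Eu n → Eu n → ℝ := fun y x =>
    (√t)⁻¹ ^ n * Real.exp (-(c₀ * ‖x - y‖ ^ 2 / t)) * ‖g x‖ with hF
  have hFc : Continuous (Function.uncurry F) := by
    simp only [hF, Function.uncurry_def]
    fun_prop
  have hint : Integrable (Function.uncurry F) ((volume.restrict K).prod (volume.restrict K')) := by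
    rw [Measure.prod_restrict]
    exact hFc.continuousOn.integrableOn_compact (hK.prod hK')
  have h1 : ∀ y ∈ K, |⟪j (c.ker u t y), j g⟫_ℝ| ≤ C * ∫ x in K', F y x := fun y hy => by
    rw [h.inner _ _ (tst_ker hc hu hs ht.1 y) hg, ← integral_const_mul,
      ← setIntegral_eq_integral_of_forall_compl_eq_zero (s := K') fun x hx => by
        simp only [Co.ker, hz t x y hx, smul_zero, map_zero, _root_.zero_apply]]
    rw [← Real.norm_eq_abs]
    refine norm_integral_le_of_norm_le (Integrable.const_mul ?_ C)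
      (ae_restrict_of_forall_mem hK'.measurableSet fun x hx => ?_)
    · exact (hFc.comp (Continuous.prodMk_right y)).continuousOn.integrableOn_compact hK'
    · simpa only [zpow_zero, mul_one] using hb t ht y hy x hx (g x)
  have h2 : ∀ x, ∫ y in K, F y x ≤ G * ‖g x‖ := fun x => by
    obtain ⟨a1, a2⟩ := hG t ht.1 x
    simp only [hF, norm_sub_rev x]
    rw [integral_mul_const, ← a2]
    exact mul_le_mul_of_nonneg_right
      (setIntegral_le_integral a1 (Eventually.of_forall fun y => by positivity)) (norm_nonneg _)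
  calc _ ≤ ∫ y in K, C * ∫ x in K', F y x :=
        integral_mono_of_nonneg (Eventually.of_forall fun y => abs_nonneg _)
          (hint.integral_prod_left.const_mul C) (ae_restrict_of_forall_mem hK.measurableSet h1)
    _ = C * ∫ x in K', ∫ y in K, F y x := by rw [integral_const_mul, integral_integral_swap hint]
    _ ≤ C * ∫ x in K', G * ‖g x‖ := by
      refine mul_le_mul_of_nonneg_left (integral_mono hint.integral_prod_right ?_ h2) hC
      exact (hgc.norm.continuousOn.integrableOn_compact hK').const_mul G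
    _ ≤ C * (G * (D * ‖j g‖)) := by
      rw [integral_const_mul]
      gcongr
      exact hl g hg
    _ = _ := by ring

/-- `gs_bound`, `gauss_int`. -/
theorem ker_sup (hc : c.Sm univ) (h : Emb c O j) (hK : IsCompact K) (hu : Tm 0 u) (hs : Cut O u)
    {g : Eu n → V} (hg : Tst O g) :
    ∃ C, ∀ t ∈ Ioc (0 : ℝ) 1, ∀ y ∈ K, |⟪j (c.ker u t y), j g⟫_ℝ| ≤ C := by
  obtain ⟨C, hC⟩ := ini_sup hc hK hu hg
  refine ⟨C, fun t ht y hy => ?_⟩
  rw [h.inner _ _ (tst_ker hc hu hs ht.1 y) hg]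
  simpa only [zpow_zero, mul_one] using hC t ht y hy

/-- `u = χ • v + u₁` with `u₁` of weight one: `gauss_lim` for `x ↦ χ x * q x v (g x)`, and the part of
`u₁` is at most `C √t` (`gs_bound` on the support of `g`, `gauss_int`). -/
theorem ker_lim (hc : c.Sm univ) (h : Emb c O j) (hK : IsCompact K) (hu : Good c O K M v u)
    {g : Eu n → V} (hg : Tst O g) {y : Eu n} (hy : y ∈ K) :
    Tendsto (fun t => ⟪j (c.ker u t y), j g⟫_ℝ) (𝓝[>] 0) (𝓝 (c.gam y * c.q y v (g y))) := by
  obtain ⟨χ, hχ, -, hχ1, h1⟩ := hu.lead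
  obtain ⟨C, hC⟩ := ini_sup hc hK h1 hg
  have hq := continuousOn_univ.1 hc.q.continuousOn
  have h0 : Tm ((0 : ℕ) : ℤ) fun (_ : ℝ) (p : E2 n) => χ p.1 • v :=
    tm_van (r := 0) ((hχ.comp contDiff_fst).smul contDiff_const)
  have l1 := gauss_lim hc (h := fun x => χ x * c.q x v (g x))
    (hχ.continuous.mul ((hq.clm_apply continuous_const).clm_apply hg.1.continuous))
    (hg.2.1.mono fun x hx h0 => hx (by simp only [h0, map_zero, mul_zero])) y
  have l2 : Tendsto (fun t => ∫ x, c.q x (c.ker (fun t p => u t p - χ p.1 • v) t y x) (g x))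
      (𝓝[>] 0) (𝓝 0) := by
    have l3 : Tendsto (fun t : ℝ => C * √t) (𝓝[>] 0) (𝓝 0) := by
      have : Tendsto (fun t : ℝ => C * √t) (𝓝 0) (𝓝 (C * √0)) :=
        (continuous_const.mul Real.continuous_sqrt).tendsto 0
      rw [Real.sqrt_zero, mul_zero] at this
      exact this.mono_left nhdsWithin_le_nhds
    refine squeeze_zero_norm' ?_ l3
    filter_upwards [Ioc_mem_nhdsGT one_pos] with t ht
    simpa only [zpow_one, Real.norm_eq_abs] using hC t ht y hy
  have l4 := l1.add l2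
  rw [hχ1 y hy, one_mul, add_zero] at l4
  refine l4.congr' ?_
  filter_upwards [self_mem_nhdsWithin] with t ht
  have e1 : (fun x => c.gs t (x, y) * (χ x * c.q x v (g x))) =
      fun x => c.q x (c.ker (fun _ p => χ p.1 • v) t y x) (g x) := by
    funext x
    simp only [Co.ker, map_smul, _root_.smul_apply, smul_eq_mul]
  rw [h.inner _ _ (tst_ker hc hu.tm hu.cut ht y) hg, e1,
    ← integral_add (ini_int hc (contDiff_ker hc h0 ht y).continuous hg)
      (ini_int hc (contDiff_ker hc h1 ht y).continuous hg)]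
  refine integral_congr_ae (Eventually.of_forall fun x => ?_)
  simp only [Co.ker, smul_sub, map_sub, _root_.sub_apply, add_sub_cancel]

end Pool.Agent.Lib.MP_570070_gt.Ex
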