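import Pool.Agent.Lib.MP_570070_gt.Ex.JCal

/-! Families of test functions. -/

open MeasureTheory Filter Topology Set
open scoped ContDiff InnerProductSpace

namespace Pool.Agent.Lib.MP_570070_gt.Ex

open Pool.Agent.Lib.MP_570070_gt.An

variable {n : ℕ} {V H K : Type} [NormedAddCommGroup V] [NormedSpace ℝ V] [NormedAddCommGroup H]
  [InnerProductSpace ℝ H] [NormedAddCommGroup K] [InnerProductSpace ℝ K] {c : Co n V}
  {O O' K' : Set (Eu n)} {j : (Eu n → V) → H} {f g : Eu n → V}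

theorem jder_low [FiniteDimensional ℝ V] (h : Emb c O j) (hK : IsCompact K') (hO : K' ⊆ O) :
    ∃ a, 0 < a ∧ ∀ y ∈ K', ∀ v, a * ‖v‖ ^ 2 ≤ c.q y v v := by
  have := FiniteDimensional.proper_real V
  have h1 : ContinuousOn (fun z : Eu n × V => c.q z.1 z.2 z.2) (K' ×ˢ Metric.sphere 0 1) :=
    ((h.cont.comp continuousOn_fst fun z hz => hO hz.1).clm_apply continuousOn_snd).clm_apply
      continuousOn_snd
  obtain ⟨a, ha, h2⟩ := (hK.prod (isCompact_sphere (0 : V) 1)).exists_forall_le' h1 (a := 0)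
    fun z hz => h.pos _ (hO hz.1) _ (ne_zero_of_mem_sphere one_ne_zero ⟨z.2, hz.2⟩)
  refine ⟨a, ha, fun y hy v => ?_⟩
  by_cases hv : v = 0
  · simp [hv]
  · have h3 : 0 < ‖v‖ := norm_pos_iff.2 hv
    have h4 := h2 (y, ‖v‖⁻¹ • v) ⟨hy, by simp [norm_smul, h3.ne']⟩
    simp only [map_smul, smul_apply, smul_eq_mul] at h4
    rw [le_inv_mul_iff₀ h3, le_inv_mul_iff₀ h3] at h4
    linarith

/-- `c₀ ‖v‖ ^ 2 ≤ q y v v` on `K'` by compactness; Cauchy-Schwarz (or
`‖g x‖ ≤ (s + ‖g x‖ ^ 2 / s) / 2` with `s = ‖j g‖`). -/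
theorem Emb.l1 [FiniteDimensional ℝ V] (h : Emb c O j) (hK : IsCompact K') (hO : K' ⊆ O) :
    ∃ C, 0 ≤ C ∧ ∀ g, Tst O g → ∫ x in K', ‖g x‖ ≤ C * ‖j g‖ := by
  obtain ⟨a, ha, h1⟩ := jder_low h hK hO
  have hm : 0 ≤ volume.real K' := measureReal_nonneg
  have hC : 0 < (volume.real K' + a⁻¹) / 2 := by positivity
  refine ⟨_, hC.le, fun g hg => le_of_forall_pos_le_add fun ε hε => ?_⟩
  have hc := hg.1.continuous
  have hi := h.integrable hc hg.2.1 hg.2.2 hc.continuousOn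
  have h2 : ∫ x in K', c.q x (g x) (g x) ≤ ‖j g‖ ^ 2 := by
    rw [← real_inner_self_eq_norm_sq, h.inner g g hg hg]
    refine setIntegral_le_integral hi (Eventually.of_forall fun x => ?_)
    by_cases h0 : g x = 0
    · simp [h0]
    · exact (h.pos x (hg.2.2 (subset_tsupport g h0)) _ h0).le
  generalize hC' : (volume.real K' + a⁻¹) / 2 = C at hC
  have h3 : ‖j g‖ < ‖j g‖ + ε / C := lt_add_of_pos_right _ (by positivity)
  rw [show C * ‖j g‖ + ε = C * (‖j g‖ + ε / C) by field_simp]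
  generalize ‖j g‖ + ε / C = δ at h3
  have hδ : 0 < δ := (norm_nonneg _).trans_lt h3
  have h4 : IntegrableOn (fun _ => δ / 2) K' := integrableOn_const hK.measure_lt_top.ne
  have h5 : ∫ x in K', ‖g x‖ ≤ ∫ x in K', (δ / 2 + (2 * δ * a)⁻¹ * c.q x (g x) (g x)) := by
    refine setIntegral_mono_on (hc.norm.continuousOn.integrableOn_compact hK)
      (h4.add (hi.integrableOn.const_mul _)) hK.measurableSet fun x hx => ?_
    have h6 : (2 * δ * a)⁻¹ * (a * ‖g x‖ ^ 2) ≤ (2 * δ * a)⁻¹ * c.q x (g x) (g x) :=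
      mul_le_mul_of_nonneg_left (h1 x hx _) (by positivity)
    refine le_trans ?_ (add_le_add_right h6 _)
    rw [← sub_nonneg, show δ / 2 + (2 * δ * a)⁻¹ * (a * ‖g x‖ ^ 2) - ‖g x‖ =
      (‖g x‖ - δ) ^ 2 / (2 * δ) by field_simp; ring]
    positivity
  rw [integral_add h4 (hi.integrableOn.const_mul _), setIntegral_const, integral_const_mul,
    smul_eq_mul] at h5
  have h7 : (2 * δ * a)⁻¹ * ∫ x in K', c.q x (g x) (g x) ≤ (2 * δ * a)⁻¹ * δ ^ 2 :=
    mul_le_mul_of_nonneg_left (h2.trans (by gcongr)) (by positivity)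
  refine h5.trans ((add_le_add_right h7 _).trans_eq ?_)
  rw [← hC']
  field_simp

/-- `Emb.bound`, `Emb.sub` and uniform continuity in `x ∈ K'`
(`IsCompact.mem_uniformity_of_prod`, or `ContinuousMap.curry`). -/
theorem Emb.continuousOn (h : Emb c O j) (hK : IsCompact K') (hO : K' ⊆ O) {T : Type}
    [TopologicalSpace T] {S : Set T} {k : T → Eu n → V}
    (hk : ContinuousOn (fun z : T × Eu n => k z.1 z.2) (S ×ˢ univ))
    (hs : ∀ p ∈ S, ContDiff ℝ ∞ (k p) ∧ ∀ x, x ∉ K' → k p x = 0) :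
    ContinuousOn (fun p => j (k p)) S := by
  obtain ⟨C, hC, hb⟩ := h.bound hK hO
  have ht := fun p hp => tst_of_compact (hs p hp).1 hK hO (hs p hp).2
  refine fun p hp => Metric.tendsto_nhds.2 fun ε hε => ?_
  have hη : 0 < ε / (C + 1) := by positivity
  obtain ⟨v, hv, h1⟩ := hK.mem_uniformity_of_prod (f := k) (hk.mono (prod_mono_right (subset_univ _)))
    hp (Metric.dist_mem_uniformity hη)
  filter_upwards [hv, self_mem_nhdsWithin] with p' h2 h3
  have h4 : ∀ x, x ∉ K' → (k p' - k p) x = 0 := fun x hx => by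
    rw [Pi.sub_apply, (hs p hp).2 x hx, (hs p' h3).2 x hx, sub_zero]
  have h5 := tst_of_compact ((hs p' h3).1.sub (hs p hp).1) hK hO h4
  rw [dist_eq_norm, ← h.sub (ht p' h3).1 (ht p hp).1]
  refine (hb _ h5.1 h5.2 (ε / (C + 1)) fun x => ?_).trans_lt ?_
  · by_cases hx : x ∈ K'
    · rw [← dist_eq_norm]
      exact le_of_lt (h1 p' h2 x hx)
    · rw [show k p' x - k p x = 0 from h4 x hx, norm_zero]
      exact hη.le
  · rw [← mul_div_assoc, div_lt_iff₀ (by positivity)]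
    linarith

/-- With `k' s x = deriv (fun s => k s x) s = fderiv (uncurried k) (s, x) (1, 0)`, smooth on the same
set: `‖k s x - k t x - (s - t) • k' t x‖ ≤ |s - t| * sup ‖k' σ x - k' t x‖` by the mean value
inequality, and the supremum is small uniformly in `x ∈ K'`. -/
theorem Emb.hasDerivAt (h : Emb c O j) (hK : IsCompact K') (hO : K' ⊆ O) {k : ℝ → Eu n → V}
    (hk : ContDiffOn ℝ ∞ (fun z : ℝ × Eu n => k z.1 z.2) (Ioi 0 ×ˢ univ))
    (hs : ∀ s x, x ∉ K' → k s x = 0) {t : ℝ} (ht : 0 < t) :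
    Tst O (fun x => deriv (fun s => k s x) t) ∧
      HasDerivAt (fun s => j (k s)) (j fun x => deriv (fun s => k s x) t) t := by
  obtain ⟨C, hC, hb⟩ := h.bound hK hO
  have hU : IsOpen (Ioi (0 : ℝ) ×ˢ (univ : Set (Eu n))) := isOpen_Ioi.prod isOpen_univ
  obtain ⟨D, hD, hd⟩ : ∃ D : ℝ × Eu n → V, ContDiffOn ℝ ∞ D (Ioi 0 ×ˢ univ) ∧
      ∀ s, 0 < s → ∀ x, HasDerivAt (fun s => k s x) (D (s, x)) s :=
    ⟨fun z => fderiv ℝ (fun z : ℝ × Eu n => k z.1 z.2) z (1, 0),
      (hk.fderiv_of_isOpen hU (by simp)).clm_apply contDiffOn_const, fun s hs x => by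
        have h1 := ((hk.differentiableOn (by simp)).differentiableAt
          (hU.mem_nhds (show (s, x) ∈ Ioi (0 : ℝ) ×ˢ univ from ⟨hs, trivial⟩))).hasFDerivAt
        exact HasFDerivAt.comp_hasDerivAt (f := fun s : ℝ => (s, x)) s h1
          ((hasDerivAt_id' s).prodMk (hasDerivAt_const s x))⟩
  have e : (fun x => deriv (fun s => k s x) t) = fun x => D (t, x) :=
    funext fun x => (hd t ht x).deriv
  have h0 : ∀ x, x ∉ K' → D (t, x) = 0 := fun x hx => by
    rw [← (hd t ht x).deriv, show (fun s => k s x) = fun _ => 0 from funext fun s => hs s x hx,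
      deriv_const]
  have sl : ∀ {G : ℝ × Eu n → V}, ContDiffOn ℝ ∞ G (Ioi 0 ×ˢ univ) → ∀ s, 0 < s →
      ContDiff ℝ ∞ fun x => G (s, x) := fun hG s hs =>
    hG.comp_contDiff (contDiff_const.prodMk contDiff_id) fun _ => ⟨hs, trivial⟩
  have t1 := (tst_of_compact (sl hD t ht) hK hO h0).1
  have t2 : ∀ s, 0 < s → Tst O (k s) := fun s h1 => (tst_of_compact (sl hk s h1) hK hO (hs s)).1
  rw [e]
  refine ⟨t1, hasDerivAt_iff_isLittleO.2 (Asymptotics.isLittleO_iff.2 fun ε hε => ?_)⟩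
  have hη : 0 < ε / (C + 1) := by positivity
  obtain ⟨v, hv, h1⟩ := hK.mem_uniformity_of_prod (f := fun s x => D (s, x))
    (hD.continuousOn.mono (prod_mono_right (subset_univ _))) ht (Metric.dist_mem_uniformity hη)
  rw [isOpen_Ioi.nhdsWithin_eq ht] at hv
  obtain ⟨δ, hδ, h2⟩ := Metric.mem_nhds_iff.1 (inter_mem hv (Ioi_mem_nhds ht))
  filter_upwards [Metric.ball_mem_nhds t hδ] with s h3
  have h4 := (h2 h3).2
  have h5 : ∀ x, x ∉ K' → (k s - k t - (s - t) • fun x => D (t, x)) x = 0 := fun x hx => by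
    simp [hs _ x hx, h0 x hx]
  have t3 := ((t2 s h4).sub (t2 t ht)).sub (t1.smul (s - t))
  rw [← h.smul _ t1, ← h.sub (t2 s h4) (t2 t ht), ← h.sub ((t2 s h4).sub (t2 t ht)) (t1.smul _)]
  refine (hb _ t3 (tst_of_compact t3.1 hK hO h5).2 (ε / (C + 1) * ‖s - t‖) fun x => ?_).trans ?_
  · by_cases hx : x ∈ K'
    · have h6 := (convex_ball t δ).norm_image_sub_le_of_norm_hasDerivWithin_le
        (f := fun σ => k σ x - σ • D (t, x)) (f' := fun σ => D (σ, x) - D (t, x))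
        (C := ε / (C + 1))
        (fun σ hσ => (((hd σ (h2 hσ).2 x).sub ((hasDerivAt_id σ).smul_const (D (t, x)))).congr_deriv
          (by rw [one_smul])).hasDerivWithinAt)
        (fun σ hσ => by
          rw [← dist_eq_norm]
          exact le_of_lt (h1 σ (h2 hσ).1 x hx)) (Metric.mem_ball_self hδ) h3
      refine le_trans (le_of_eq (congrArg norm ?_)) h6
      simp only [Pi.sub_apply, Pi.smul_apply, sub_smul]
      abel
    · rw [h5 x hx, norm_zero]
      positivity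
  · rw [← mul_assoc]
    refine mul_le_mul_of_nonneg_right ?_ (norm_nonneg _)
    rw [← mul_div_assoc, div_le_iff₀ (by positivity)]
    linarith

end Pool.Agent.Lib.MP_570070_gt.Ex
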