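import Pool.Agent.Lib.MP_570070_gt.Ex.Exp
import Pool.Agent.Lib.MP_570070_gt.Ex.JDer

/-! The parametrix as a family of vectors. -/

open MeasureTheory Filter Topology Set
open scoped ContDiff InnerProductSpace

namespace Pool.Agent.Lib.MP_570070_gt.Ex

open Pool.Agent.Lib.MP_570070_gt.An

variable {n N M : ℕ} {V H K₀ : Type} [NormedAddCommGroup V] [NormedSpace ℝ V]
  [NormedAddCommGroup H] [InnerProductSpace ℝ H] [NormedAddCommGroup K₀] [InnerProductSpace ℝ K₀]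
  {c : Co n V} {O K : Set (Eu n)} {j : (Eu n → V) → H} {Γ : Submodule ℝ (H × K₀)}
  {u u' : ℝ → E2 n → V} {v : V} {w : ℤ}

theorem ker_zero {K' : Set (Eu n)} (h0 : ∀ t x y, x ∉ K' → u t (x, y) = 0) (t : ℝ) (y : Eu n)
    {x : Eu n} (hx : x ∉ K') : c.ker u t y x = 0 := by
  rw [Co.ker, h0 t x y hx, smul_zero]

theorem tst_ker (hc : c.Sm univ) (hu : Tm w u) (hs : Cut O u) {t : ℝ} (ht : 0 < t) (y : Eu n) :
    Tst O (c.ker u t y) := by
  obtain ⟨K', hK', hO, h0⟩ := hs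
  exact (tst_of_compact (contDiff_ker hc hu ht y) hK' hO fun x hx => ker_zero h0 t y hx).1

/-- `Emb.continuousOn`, `smooth_ker`. -/
theorem ker_cont (hc : c.Sm univ) (h : Emb c O j) (hu : Tm w u) (hs : Cut O u) {t : ℝ}
    (ht : 0 < t) : Continuous fun y => j (c.ker u t y) := by
  obtain ⟨K', hK', hO, h0⟩ := hs
  rw [← continuousOn_univ]
  refine h.continuousOn hK' hO (k := fun y => c.ker u t y) ?_ fun y _ =>
    ⟨contDiff_ker hc hu ht y, fun x hx => ker_zero h0 t y hx⟩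
  exact (smooth_ker hc hu).continuousOn.comp
    (f := fun z : Eu n × Eu n => ((t, (z.2, z.1)) : ℝ × E2 n)) (by fun_prop)
    fun z _ => ⟨ht, mem_univ _⟩

/-- `Dat.lap`, `Emb.hasDerivAt`, `Emb.add`, `conj`, `Emb.bound` (the sum of the two test functions
vanishes outside the compact set of `Cut`). -/
theorem ker_flow (hc : c.Sm univ) (h : Dat c Γ O j) (hu : Good c O K M v u) :
    ∃ C, 0 ≤ C ∧ ∀ t ∈ Ioc (0 : ℝ) 1, ∀ y ∈ K, ∃ ξ g d, Lp Γ (j (c.ker u t y)) ξ g ∧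
      HasDerivAt (fun s => j (c.ker u s y)) d t ∧ ‖d + g‖ ≤ C * √t ^ M := by
  obtain ⟨K', hK', hO, h0⟩ := hu.cut
  obtain ⟨C, hC⟩ := hu.rem
  obtain ⟨B, hB, hb⟩ := h.toEmb.bound hK' hO
  refine ⟨B * |C|, by positivity, fun t ht y hy => ?_⟩
  have hk : ContDiffOn ℝ ∞ (fun z : ℝ × Eu n => c.ker u z.1 y z.2) (Ioi 0 ×ˢ univ) :=
    (smooth_ker hc hu.tm).comp
      (f := fun z : ℝ × Eu n => ((z.1, (z.2, y)) : ℝ × E2 n)) (by fun_prop)
      fun z hz => ⟨hz.1, mem_univ _⟩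
  obtain ⟨h1, h2⟩ := h.toEmb.hasDerivAt hK' hO (k := fun s => c.ker u s y) hk
    (fun s x hx => ker_zero h0 s y hx) ht.1
  obtain ⟨h3, h4⟩ := tst_of_compact (contDiff_ker hc hu.tm ht.1 y) hK' hO
    fun x hx => ker_zero h0 t y hx
  obtain ⟨ξ, hξ⟩ := h.lap _ h3
  obtain ⟨h5, h6⟩ := h3.lam h.isOpen (hc.mono (subset_univ O))
  refine ⟨ξ, _, _, hξ, h2, ?_⟩
  rw [← h.toEmb.add h1 h5, mul_assoc]
  refine hb _ (h1.add h5) (tst_of_compact (h1.add h5).1 hK' hO fun x hx => ?_).2 _ fun x => ?_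
  · have e1 : (fun s => c.ker u s y x) = fun _ => 0 := funext fun s => ker_zero h0 s y hx
    have e2 : c.lam (c.ker u t y) x = 0 :=
      image_eq_zero_of_notMem_tsupport fun hm => hx (h4 (h6 hm))
    simp only [Pi.add_apply, e1, e2, deriv_const, add_zero]
  · rw [Pi.add_apply, conj hc hu.tm ht.1, norm_smul, Real.norm_of_nonneg (gs_pos _ _).le]
    exact (hC t ht y hy x).trans
      (mul_le_mul_of_nonneg_right (le_abs_self C) (by positivity))

/-- `gs_bound`, `Emb.bound`. -/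
theorem ker_norm (hc : c.Sm univ) (h : Emb c O j) (hK : IsCompact K) (hu : Tm 0 u) (hs : Cut O u) :
    ∃ C, 0 ≤ C ∧ ∀ t ∈ Ioc (0 : ℝ) 1, ∀ y ∈ K, ‖j (c.ker u t y)‖ ≤ C * (√t)⁻¹ ^ n := by
  obtain ⟨K', hK', hO, h0⟩ := hs
  obtain ⟨c₀, C, hc₀, hC, hg⟩ := gs_bound hc hu hK hK'
  obtain ⟨B, hB, hb⟩ := h.bound hK' hO
  refine ⟨B * C, by positivity, fun t ht y hy => ?_⟩
  obtain ⟨h3, h4⟩ := tst_of_compact (contDiff_ker hc hu ht.1 y) hK' hO
    fun x hx => ker_zero h0 t y hx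
  rw [mul_assoc]
  refine hb _ h3 h4 _ fun x => ?_
  by_cases hx : x ∈ K'
  · have h5 := hg t ht y hy x hx
    have h6 : Real.exp (-(c₀ * ‖x - y‖ ^ 2 / t)) ≤ 1 :=
      Real.exp_le_one_iff.2 (neg_nonpos.2 (div_nonneg (by positivity) ht.1.le))
    rw [zpow_zero, mul_one] at h5
    rw [Co.ker, norm_smul, Real.norm_of_nonneg (gs_pos _ _).le]
    refine h5.trans (mul_le_mul_of_nonneg_left ?_ hC)
    exact mul_le_of_le_one_right (by positivity) h6
  · rw [ker_zero h0 t y hx, norm_zero]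
    positivity

/-- `Emb.inner`, `gs_eq`: this is `c.gi R f` with `f t p = q p.1 (u t p) (u' t p)` (`Tm.bil`) for `R`
so large that the support lies in the ball of radius `R` about every `y ∈ K`; `peu_tm`. -/
theorem ker_peu (hc : c.Sm univ) (h : Emb c O j) (hK : IsCompact K) (hu : Tm 0 u) (hs : Cut O u)
    (hu' : Tm 0 u') (hs' : Cut O u') :
    PEU K N fun τ y => τ ^ n * ⟪j (c.ker u (τ ^ 2) y), j (c.ker u' (τ ^ 2) y)⟫_ℝ := by
  have hq : ContDiff ℝ ∞ fun p : E2 n => c.q p.1 :=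
    (contDiffOn_univ.1 hc.q).comp contDiff_fst
  have hf : Tm 0 fun t p => c.q p.1 (u t p) (u' t p) := by
    simpa using Tm.bil hq hu hu'
  obtain ⟨K', hK', -, h0⟩ := id hs
  obtain ⟨r, hr⟩ := (hK.union hK').isBounded.subset_closedBall 0
  have hR : 0 < 2 * |r| + 1 := by positivity
  refine (peu_tm hc hK hR hf).of_close (C := 0) fun τ hτ y hy => ?_
  have ht : 0 < τ ^ 2 := pow_pos hτ.1 2
  rw [zero_mul, abs_nonpos_iff, sub_eq_zero,
    h.inner _ _ (tst_ker hc hu hs ht y) (tst_ker hc hu' hs' ht y), Co.gi,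
    setIntegral_eq_integral_of_forall_compl_eq_zero, ← integral_const_mul, ← integral_const_mul]
  · refine integral_congr_ae (Eventually.of_forall fun x => ?_)
    have e : Real.exp (-(c.sq (x, y) / (2 * τ ^ 2))) =
        Real.exp (-(c.sq (x, y) / (4 * τ ^ 2))) * Real.exp (-(c.sq (x, y) / (4 * τ ^ 2))) := by
      rw [← Real.exp_add]
      congr 1
      field_simp
      ring
    have e' : τ ^ n * τ⁻¹ ^ n = 1 := by
      rw [← mul_pow, mul_inv_cancel₀ hτ.1.ne', one_pow]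
    simp only [Co.ker, map_smul, smul_apply, smul_eq_mul, gs_eq ht,
      Real.sqrt_sq hτ.1.le, e]
    linear_combination (τ⁻¹ ^ n * Real.exp (-(c.sq (x, y) / (4 * τ ^ 2))) *
      Real.exp (-(c.sq (x, y) / (4 * τ ^ 2))) *
        c.q x (u (τ ^ 2) (x, y)) (u' (τ ^ 2) (x, y))) * e'
  · intro x hx
    have hx' : x ∉ K' := fun hm => hx (by
      have h1 := mem_closedBall_zero_iff.1 (hr (Or.inl hy))
      have h2 := mem_closedBall_zero_iff.1 (hr (Or.inr hm))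
      rw [mem_closedBall_iff_norm]
      linarith [norm_sub_le x y, le_abs_self r])
    simp only [h0 _ x y hx', map_zero, zero_apply, mul_zero]

end Pool.Agent.Lib.MP_570070_gt.Ex
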