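import Pool.Agent.Lib.MP_570070_gt.Ex.Ini
import Pool.Agent.Lib.MP_570070_gt.Ex.Abs

/-! The heat kernel near a compact set. -/

open MeasureTheory Filter Topology Set
open scoped ContDiff InnerProductSpace

namespace Pool.Agent.Lib.MP_570070_gt.Ex

open Pool.Agent.Lib.MP_570070_gt.An

variable {n N M : ℕ} {V H K₀ : Type} [NormedAddCommGroup V] [NormedSpace ℝ V]
  [NormedAddCommGroup H] [InnerProductSpace ℝ H] [CompleteSpace H] [NormedAddCommGroup K₀]
  [InnerProductSpace ℝ K₀] {c : Co n V} {O K : Set (Eu n)} {j : (Eu n → V) → H}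
  {Γ : Submodule ℝ (H × K₀)} {P : ℝ → H →L[ℝ] H} {u : ℝ → E2 n → V} {v : V}

/-- By `duhamel` and `ker_flow` the vectors `P (t - ε) (j (ker u ε y))` are Cauchy for `ε → 0`,
uniformly in `y ∈ K`; a uniform limit of continuous functions (`ker_cont`) is continuous. -/
theorem exists_lim (hc : c.Sm univ) (h : Dat c Γ O j) (hP : IsHeat₂ Γ P)
    (hu : Good c O K M v u) : ∃ (p : ℝ → Eu n → H) (C : ℝ), 0 ≤ C ∧ ∀ t ∈ Ioc (0 : ℝ) 1,
      ContinuousOn (p t) K ∧ ∀ y ∈ K, ∀ ε ∈ Ioc (0 : ℝ) t,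
        ‖P (t - ε) (j (c.ker u ε y)) - p t y‖ ≤ C * √ε ^ M * ε := by
  obtain ⟨C, hC, hf⟩ := ker_flow hc h hu
  have h1 : ∀ t ∈ Ioc (0 : ℝ) 1, ∀ y ∈ K, ∀ a b, 0 < a → a ≤ b → b ≤ t →
      ‖P (t - b) (j (c.ker u b y)) - P (t - a) (j (c.ker u a y))‖ ≤ C * √b ^ M * b := by
    intro t ht y hy a b ha hab hb
    refine (duhamel hP (z := fun s => j (c.ker u s y)) (M := C * √b ^ M) hab hb
      fun s hs => ?_).trans (mul_le_mul_of_nonneg_left (by linarith) (by positivity))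
    obtain ⟨ξ, g, d, a1, a2, a3⟩ := hf s ⟨ha.trans_le hs.1, hs.2.trans (hb.trans ht.2)⟩ y hy
    exact ⟨ξ, g, d, a1, a2, a3.trans (by gcongr; exact hs.2)⟩
  have h2 : ∀ b ∈ Ioc (0 : ℝ) 1, C * √b ^ M * b ≤ C * b := fun b hb =>
    mul_le_mul_of_nonneg_right (mul_le_of_le_one_right hC
      (pow_le_one₀ (Real.sqrt_nonneg _) (Real.sqrt_le_one.2 hb.2))) hb.1.le
  have h3 : ∀ t, 0 < t → ∀ δ, 0 < δ → ∃ b ∈ Ioc (0 : ℝ) t, C * b < δ := fun t ht δ hδ =>
    ⟨min t (δ / (C + 1)), ⟨lt_min ht (by positivity), min_le_left _ _⟩, by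
      have h4 := mul_le_mul_of_nonneg_left (min_le_right t (δ / (C + 1))) hC
      refine h4.trans_lt ?_
      rw [← mul_div_assoc, div_lt_iff₀ (by positivity)]
      linarith⟩
  have key : ∀ t y, ∃ p : H, t ∈ Ioc (0 : ℝ) 1 → y ∈ K → ∀ ε ∈ Ioc (0 : ℝ) t,
      ‖P (t - ε) (j (c.ker u ε y)) - p‖ ≤ C * √ε ^ M * ε := by
    intro t y
    by_cases hty : t ∈ Ioc (0 : ℝ) 1 ∧ y ∈ K
    · obtain ⟨ht, hy⟩ := hty
      have h4 : Cauchy (map (fun ε => P (t - ε) (j (c.ker u ε y))) (𝓝[>] 0)) := by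
        refine Metric.cauchy_iff.2 ⟨inferInstance, fun δ hδ => ?_⟩
        obtain ⟨b, hb, h5⟩ := h3 t ht.1 δ hδ
        have h6 : ∀ a ∈ Ioc (0 : ℝ) b, ∀ a' ∈ Ioc (0 : ℝ) b, a ≤ a' →
            ‖P (t - a') (j (c.ker u a' y)) - P (t - a) (j (c.ker u a y))‖ < δ :=
          fun a ha a' ha' e => ((h1 t ht y hy a a' ha.1 e (ha'.2.trans hb.2)).trans
            ((h2 a' ⟨ha'.1, ha'.2.trans (hb.2.trans ht.2)⟩).trans
              (mul_le_mul_of_nonneg_left ha'.2 hC))).trans_lt h5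
        refine ⟨_, image_mem_map (Ioc_mem_nhdsGT hb.1), ?_⟩
        rintro _ ⟨a, ha, rfl⟩ _ ⟨a', ha', rfl⟩
        rcases le_total a a' with e | e
        · rw [dist_comm, dist_eq_norm]
          exact h6 a ha a' ha' e
        · rw [dist_eq_norm]
          exact h6 a' ha' a ha e
      obtain ⟨p, hp⟩ := cauchy_map_iff_exists_tendsto.1 h4
      refine ⟨p, fun _ _ ε hε => le_of_tendsto (tendsto_const_nhds.sub hp).norm ?_⟩
      filter_upwards [Ioc_mem_nhdsGT hε.1] with a ha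
      exact h1 t ht y hy a ε ha.1 ha.2 hε.2
    · exact ⟨0, fun a b => absurd ⟨a, b⟩ hty⟩
  choose p hp using key
  refine ⟨p, C, hC, fun t ht => ⟨?_, fun y hy => hp t y ht hy⟩⟩
  refine TendstoUniformlyOn.continuousOn (F := fun ε y => P (t - ε) (j (c.ker u ε y)))
    (p := 𝓝[>] 0) (Metric.tendstoUniformlyOn_iff.2 fun δ hδ => ?_) (Eventually.frequently ?_)
  · obtain ⟨b, hb, h5⟩ := h3 t ht.1 δ hδ
    filter_upwards [Ioc_mem_nhdsGT hb.1] with a ha y hy
    rw [dist_comm, dist_eq_norm]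
    exact ((hp t y ht hy a ⟨ha.1, ha.2.trans hb.2⟩).trans
      ((h2 a ⟨ha.1, ha.2.trans (hb.2.trans ht.2)⟩).trans
        (mul_le_mul_of_nonneg_left ha.2 hC))).trans_lt h5
  · filter_upwards [self_mem_nhdsWithin] with a ha
    exact ((P (t - a)).continuous.comp (ker_cont hc h.toEmb hu.tm hu.cut ha)).continuousOn

theorem loc_coef {ι : Type} [Fintype ι] (b : Module.Basis ι ℝ V) (hc : c.Sm univ) {f : Eu n → V}
    (hf : Continuous f) (a : ι) : Continuous fun y => b.repr (f y) a * (c.gam y)⁻¹ :=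
  have := Module.Finite.of_basis b
  ((b.coord a).continuous_of_finiteDimensional.comp hf).mul
    ((continuous_gam hc).inv₀ fun y => (gam_pos hc y).ne')

/-- Let `z ε = ∫ y in K, ∑ a, (b.repr (f y) a / gam y) • j (ker (u a) ε y)` (Bochner integral of a
continuous function, `integral_inner`), `D` the submodule of the `j g`, `g` a test function.
`weak_lim` with `ker_l1`, and `ker_sup`, `ker_lim`, dominated convergence; the limit is
`∫ y in K, q y (f y) (g y) = ⟪j f, j g⟫`. -/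
theorem ker_init {ι : Type} [Fintype ι] (b : Module.Basis ι ℝ V) (hc : c.Sm univ) (h : Emb c O j)
    (hK : IsCompact K) {u : ι → ℝ → E2 n → V} (hu : ∀ a, Good c O K M (b a) (u a))
    {f : Eu n → V} (hf : Tst O f) (hfK : tsupport f ⊆ K) {w : ℝ → H} {w₀ : H}
    (hw : Tendsto w (𝓝[>] 0) (𝓝 w₀)) :
    Tendsto (fun ε => ∫ y in K, ∑ a, b.repr (f y) a *
      ((c.gam y)⁻¹ * ⟪j (c.ker (u a) ε y), w ε⟫_ℝ)) (𝓝[>] 0) (𝓝 ⟪j f, w₀⟫_ℝ) := by
  have := Module.Finite.of_basis b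
  have hq := loc_coef b hc hf.1.continuous
  have hk : ∀ a ε, 0 < ε → Continuous fun y => j (c.ker (u a) ε y) := fun a ε hε =>
    ker_cont hc h (hu a).tm (hu a).cut hε
  let z : ℝ → H := fun ε => ∫ y in K, ∑ a, (b.repr (f y) a * (c.gam y)⁻¹) • j (c.ker (u a) ε y)
  have hz : ∀ ε, 0 < ε → ∀ v, ⟪z ε, v⟫_ℝ =
      ∫ y in K, ∑ a, b.repr (f y) a * (c.gam y)⁻¹ * ⟪j (c.ker (u a) ε y), v⟫_ℝ := by
    intro ε hε v
    have hi : IntegrableOn
        (fun y => ∑ a, (b.repr (f y) a * (c.gam y)⁻¹) • j (c.ker (u a) ε y)) K :=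
      (continuous_finsetSum _ fun a _ =>
        (hq a).smul (hk a ε hε)).continuousOn.integrableOn_compact hK
    refine (real_inner_comm _ _).trans ((integral_inner hi v).symm.trans ?_)
    simp only [inner_sum, real_inner_smul_right, real_inner_comm]
  let D : Submodule ℝ H :=
    { carrier := {x | ∃ g, Tst O g ∧ x = j g}
      add_mem' := by
        rintro _ _ ⟨g, hg, rfl⟩ ⟨g', hg', rfl⟩
        exact ⟨_, hg.add hg', (h.add hg hg').symm⟩
      zero_mem' := ⟨(0 : ℝ) • 0, tst_zero.smul 0, by rw [h.smul 0 tst_zero, zero_smul]⟩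
      smul_mem' := by
        rintro a _ ⟨g, hg, rfl⟩
        exact ⟨_, hg.smul a, (h.smul a hg).symm⟩ }
  choose B hB using fun a => hK.exists_bound_of_continuousOn (hq a).continuousOn
  choose C C0 hC using fun a => ker_l1 hc h hK (hu a).tm (hu a).cut
  have hI : ∀ᶠ ε in 𝓝[>] (0 : ℝ), ε ∈ Ioc (0 : ℝ) 1 := Ioc_mem_nhdsGT one_pos
  have hb : ∀ (ε : ℝ) (v : H), ∀ y ∈ K,
      ‖∑ a, b.repr (f y) a * (c.gam y)⁻¹ * ⟪j (c.ker (u a) ε y), v⟫_ℝ‖ ≤
        ∑ a, |B a| * |⟪j (c.ker (u a) ε y), v⟫_ℝ| := fun ε v y hy =>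
    (norm_sum_le _ _).trans (Finset.sum_le_sum fun a _ => by
      rw [norm_mul]
      exact mul_le_mul_of_nonneg_right ((hB a y hy).trans (le_abs_self _)) (norm_nonneg _))
  refine (weak_lim (D := D) (z := z) (C := ∑ a, |B a| * C a) ⟨f, hf, rfl⟩ ?_ ?_ ?_ hw).congr' ?_
  · filter_upwards [hI] with ε hε v hv
    rw [hz ε hε.1]
    simp only [fun a y => (Submodule.mem_orthogonal D v).1 hv _
      ⟨_, tst_ker hc (hu a).tm (hu a).cut hε.1 y, rfl⟩, mul_zero, Finset.sum_const_zero,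
      integral_zero]
  · filter_upwards [hI] with ε hε
    rintro _ ⟨g, hg, rfl⟩
    have h1 : ∀ a, IntegrableOn (fun y => |B a| * |⟪j (c.ker (u a) ε y), j g⟫_ℝ|) K := fun a =>
      (continuous_const.mul ((hk a ε hε.1).inner continuous_const).abs).continuousOn
        |>.integrableOn_compact hK
    rw [hz ε hε.1]
    refine (norm_integral_le_of_norm_le (integrable_finsetSum _ fun a _ => h1 a)
      ((ae_restrict_mem hK.measurableSet).mono (hb ε (j g)))).trans ?_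
    rw [integral_finsetSum _ fun a _ => h1 a, Finset.sum_mul]
    refine Finset.sum_le_sum fun a _ => ?_
    rw [integral_const_mul, mul_assoc]
    exact mul_le_mul_of_nonneg_left (hC a ε hε g hg) (abs_nonneg _)
  · rintro _ ⟨g, hg, rfl⟩
    choose C' hC' using fun a => ker_sup hc h hK (hu a).tm (hu a).cut hg
    have e : ⟪j f, j g⟫_ℝ = ∫ y in K, c.q y (f y) (g y) := by
      rw [h.inner f g hf hg, setIntegral_eq_integral_of_forall_compl_eq_zero fun y hy => by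
        rw [image_eq_zero_of_notMem_tsupport fun h' => hy (hfK h'), map_zero]
        rfl]
    rw [e]
    refine Tendsto.congr' (hI.mono fun ε hε => (hz ε hε.1 _).symm)
      (tendsto_integral_filter_of_dominated_convergence (fun _ => ∑ a, |B a| * C' a)
        (hI.mono fun ε hε => Continuous.aestronglyMeasurable (continuous_finsetSum _ fun a _ =>
          (hq a).mul ((hk a ε hε.1).inner continuous_const)))
        (hI.mono fun ε hε => (ae_restrict_mem hK.measurableSet).mono fun y hy =>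
          (hb ε _ y hy).trans (Finset.sum_le_sum fun a _ =>
            mul_le_mul_of_nonneg_left (hC' a ε hε y hy) (abs_nonneg _)))
        (integrableOn_const hK.measure_lt_top.ne)
        ((ae_restrict_mem hK.measurableSet).mono fun y hy => ?_))
    have e2 : c.q y (f y) (g y) =
        ∑ a, b.repr (f y) a * (c.gam y)⁻¹ * (c.gam y * c.q y (b a) (g y)) := by
      conv_lhs => rw [← b.sum_repr (f y)]
      simp only [map_sum, map_smul, sum_apply, smul_apply, smul_eq_mul, mul_assoc,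
        inv_mul_cancel_left₀ (gam_pos hc y).ne']
    rw [e2]
    exact tendsto_finsetSum _ fun a _ => (ker_lim hc h hK (hu a) hg hy).const_mul _
  · filter_upwards [hI] with ε hε
    simp only [hz ε hε.1, mul_assoc]

omit [CompleteSpace H] in
theorem loc_close {k k' p p' : H} {e e' m m' : ℝ} (h1 : ‖k - p‖ ≤ e) (h2 : ‖k' - p'‖ ≤ e')
    (h3 : ‖k‖ ≤ m) (h4 : ‖k'‖ ≤ m') : |⟪p, p'⟫_ℝ - ⟪k, k'⟫_ℝ| ≤ e * e' + e * m' + m * e' := by
  have e1 : ⟪p, p'⟫_ℝ - ⟪k, k'⟫_ℝ = ⟪k - p, k' - p'⟫_ℝ - ⟪k - p, k'⟫_ℝ - ⟪k, k' - p'⟫_ℝ := by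
    simp only [inner_sub_left, inner_sub_right]
    ring
  have a1 := (abs_real_inner_le_norm _ _).trans
    (mul_le_mul h1 h2 (norm_nonneg _) ((norm_nonneg _).trans h1))
  have a2 := (abs_real_inner_le_norm _ _).trans
    (mul_le_mul h1 h4 (norm_nonneg _) ((norm_nonneg _).trans h1))
  have a3 := (abs_real_inner_le_norm _ _).trans
    (mul_le_mul h3 h2 (norm_nonneg _) ((norm_nonneg _).trans h3))
  rw [e1, abs_le]
  constructor <;> linarith [(abs_le.1 a1).1, (abs_le.1 a1).2, (abs_le.1 a2).1, (abs_le.1 a2).2,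
    (abs_le.1 a3).1, (abs_le.1 a3).2]

/-- `exists_good` with `M = N + n`, `p t y a = (gam y)⁻¹ • p' a t y` with `p'` from `exists_lim`.
The formula is `ker_init` with `w ε = P (t - ε) w` (`IsHeat₂.back_zero`, `IsHeat₂.symm`). The
expansion is `ker_peu`, `PEU.mul`, `PEU.of_close` with `ε = t`, `P 0 = id`, `ker_norm`. -/
theorem exists_kernel {ι : Type} [Fintype ι] (b : Module.Basis ι ℝ V) (hc : c.Sm univ)
    (h : Dat c Γ O j) (hP : IsHeat₂ Γ P) (hK : IsCompact K) (hKO : K ⊆ O) (N : ℕ) :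
    ∃ p : ℝ → Eu n → ι → H, (∀ t ∈ Ioc (0 : ℝ) 1, (∀ a, ContinuousOn (fun y => p t y a) K) ∧
      ∀ w, Rep b O K j (P t w) fun y a => ⟪p t y a, w⟫_ℝ) ∧
      ∀ a a', PEU K N fun τ y => τ ^ n * ⟪p (τ ^ 2) y a, p (τ ^ 2) y a'⟫_ℝ := by
  choose u hu using fun a => exists_good hc h.isOpen hK hKO N (b a)
  choose p C C0 hp using fun a => exists_lim hc h hP (hu a)
  have hγ : Continuous fun y => (c.gam y)⁻¹ := (continuous_gam hc).inv₀ fun y => (gam_pos hc y).ne'
  refine ⟨fun t y a => (c.gam y)⁻¹ • p a t y, fun t ht =>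
    ⟨fun a => hγ.continuousOn.smul (hp a t ht).1, fun w f hf hfK => ?_⟩, fun a a' => ?_⟩
  · have hq := loc_coef b hc hf.1.continuous
    have hI : ∀ᶠ ε in 𝓝[>] (0 : ℝ), ε ∈ Ioc (0 : ℝ) t := Ioc_mem_nhdsGT ht.1
    refine tendsto_nhds_unique (ker_init b hc h.toEmb hK hu hf hfK (hP.back_zero w ht.1)) ?_
    have h1 : ∀ a, ∀ y ∈ K, ∀ ε ∈ Ioc (0 : ℝ) t,
        ‖P (t - ε) (j (c.ker (u a) ε y)) - p a t y‖ ≤ C a * ε := fun a y hy ε hε =>
      ((hp a t ht).2 y hy ε hε).trans (mul_le_mul_of_nonneg_right (mul_le_of_le_one_right (C0 a)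
        (pow_le_one₀ (Real.sqrt_nonneg _) (Real.sqrt_le_one.2 (hε.2.trans ht.2)))) hε.1.le)
    simp only [real_inner_smul_left, ← mul_assoc]
    refine tendsto_integral_filter_of_dominated_convergence
      (fun y => ∑ a, ‖b.repr (f y) a * (c.gam y)⁻¹‖ * ((‖p a t y‖ + C a) * ‖w‖))
      (hI.mono fun ε hε => Continuous.aestronglyMeasurable (continuous_finsetSum _ fun a _ =>
        (hq a).mul ((ker_cont hc h.toEmb (hu a).tm (hu a).cut hε.1).inner continuous_const)))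
      (hI.mono fun ε hε => (ae_restrict_mem hK.measurableSet).mono fun y hy =>
        (norm_sum_le _ _).trans (Finset.sum_le_sum fun a _ => ?_))
      (ContinuousOn.integrableOn_compact hK (continuousOn_finsetSum _ fun a _ =>
        (hq a).norm.continuousOn.mul (((hp a t ht).1.norm.add continuousOn_const).mul
          continuousOn_const)))
      ((ae_restrict_mem hK.measurableSet).mono fun y hy =>
        tendsto_finsetSum _ fun a _ => Tendsto.const_mul _ ?_)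
    · rw [norm_mul, ← hP.symm (sub_nonneg.2 hε.2)]
      refine mul_le_mul_of_nonneg_left ((norm_inner_le_norm _ _).trans
        (mul_le_mul_of_nonneg_right ?_ (norm_nonneg _))) (norm_nonneg _)
      have h2 := norm_le_norm_add_norm_sub' (P (t - ε) (j (c.ker (u a) ε y))) (p a t y)
      linarith [h1 a y hy ε hε, mul_le_of_le_one_right (C0 a) (hε.2.trans ht.2)]
    · refine Tendsto.congr' (hI.mono fun ε hε => hP.symm (sub_nonneg.2 hε.2) _ _)
        (Tendsto.inner (tendsto_iff_norm_sub_tendsto_zero.2 (squeeze_zero'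
          (Eventually.of_forall fun _ => norm_nonneg _) (hI.mono (h1 a y hy)) ?_))
          tendsto_const_nhds)
      have h2 : Tendsto (fun ε : ℝ => C a * ε) (𝓝 0) (𝓝 (C a * 0)) :=
        (continuous_const.mul continuous_id).tendsto 0
      rw [mul_zero] at h2
      exact h2.mono_left nhdsWithin_le_nhds
  · choose B B0 hB using fun a => ker_norm hc h.toEmb hK (hu a).tm (hu a).cut
    obtain ⟨G, hG⟩ := hK.exists_bound_of_continuousOn (hγ.mul hγ).continuousOn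
    refine ((ker_peu hc h.toEmb hK (hu a).tm (hu a).cut (hu a').tm (hu a').cut).mul hK
      (hγ.mul hγ).continuousOn).of_close (C := G * (C a * C a' + C a * B a' + B a * C a'))
      fun τ hτ y hy => ?_
    have h0 := hτ.1
    have ht : τ ^ 2 ∈ Ioc (0 : ℝ) 1 := ⟨by positivity, pow_le_one₀ h0.le hτ.2⟩
    have h1 : ∀ a, ‖j (c.ker (u a) (τ ^ 2) y) - p a (τ ^ 2) y‖ ≤ C a * τ ^ N := fun a => by
      have h2 := (hp a _ ht).2 y hy _ ⟨ht.1, le_rfl⟩
      rw [sub_self, (hP _).1, Real.sqrt_sq h0.le] at h2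
      exact h2.trans (mul_le_of_le_one_right (mul_nonneg (C0 a) (by positivity)) ht.2)
    have h2 : ∀ a, ‖j (c.ker (u a) (τ ^ 2) y)‖ ≤ B a * τ⁻¹ ^ n := fun a => by
      have h3 := hB a _ ht y hy
      rwa [Real.sqrt_sq h0.le] at h3
    have h3 := mul_le_mul_of_nonneg_left (loc_close (h1 a) (h1 a') (h2 a) (h2 a'))
      (pow_pos h0 n).le
    have h4 : τ ^ n * τ⁻¹ ^ n = 1 := by rw [← mul_pow, mul_inv_cancel₀ h0.ne', one_pow]
    have h5 : τ ^ n * τ ^ N ≤ 1 := by rw [← pow_add]; exact pow_le_one₀ h0.le hτ.2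
    have h6 : τ ^ n * (C a * τ ^ N * (C a' * τ ^ N) + C a * τ ^ N * (B a' * τ⁻¹ ^ n) +
        B a * τ⁻¹ ^ n * (C a' * τ ^ N)) ≤ (C a * C a' + C a * B a' + B a * C a') * τ ^ N := by
      have h7 := mul_le_mul_of_nonneg_left h5
        (mul_nonneg (mul_nonneg (C0 a) (C0 a')) (pow_pos h0 N).le)
      have h8 : τ ^ n * (C a * τ ^ N * (B a' * τ⁻¹ ^ n) + B a * τ⁻¹ ^ n * (C a' * τ ^ N)) =
          (C a * B a' + B a * C a') * τ ^ N := by
        linear_combination (C a * B a' + B a * C a') * τ ^ N * h4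
      linarith
    have e : τ ^ n * ⟪(c.gam y)⁻¹ • p a (τ ^ 2) y, (c.gam y)⁻¹ • p a' (τ ^ 2) y⟫_ℝ -
        (c.gam y)⁻¹ * (c.gam y)⁻¹ *
          (τ ^ n * ⟪j (c.ker (u a) (τ ^ 2) y), j (c.ker (u a') (τ ^ 2) y)⟫_ℝ) =
        (c.gam y)⁻¹ * (c.gam y)⁻¹ * (τ ^ n * (⟪p a (τ ^ 2) y, p a' (τ ^ 2) y⟫_ℝ -
          ⟪j (c.ker (u a) (τ ^ 2) y), j (c.ker (u a') (τ ^ 2) y)⟫_ℝ)) := by
      rw [real_inner_smul_left, real_inner_smul_right]
      ring
    refine (congrArg abs e).trans_le ?_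
    rw [abs_mul, abs_mul (τ ^ n), abs_of_pos (pow_pos h0 n), mul_assoc G]
    exact mul_le_mul (hG y hy) (h3.trans h6) (by positivity) ((norm_nonneg _).trans (hG y hy))

end Pool.Agent.Lib.MP_570070_gt.Ex
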