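import Pool.Agent.Lib.MP_570070_gt.Ex.Pe
import Pool.Agent.Lib.MP_570070_gt.An.AMel

/-! Meromorphic continuation of the Mellin transform. -/

open MeasureTheory Filter Topology Set
open scoped ContDiff InnerProductSpace

namespace Pool.Agent.Lib.MP_570070_gt.Ex

open Pool.Agent.Lib.MP_570070_gt.An

/-- The Mellin transform over `(0, 1]` of a function that is `O (t ^ a)` is holomorphic for
`-a < re s` (`mellin_differentiableAt_of_isBigO_rpow` for the indicator function, as in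
An/AMel.lean). -/
theorem mel_rem {r : ℝ → ℝ} (hr : AEStronglyMeasurable r (volume.restrict (Ioc 0 1))) {a C : ℝ}
    (hb : ∀ t ∈ Ioc (0 : ℝ) 1, |r t| ≤ C * t ^ a) :
    (∀ s : ℂ, -a < s.re → IntegrableOn (fun t : ℝ => (t : ℂ) ^ (s - 1) * ((r t : ℝ) : ℂ)) (Ioc 0 1)) ∧
      DifferentiableOn ℂ (fun s : ℂ => ∫ t in Ioc (0 : ℝ) 1, (t : ℂ) ^ (s - 1) * ((r t : ℝ) : ℂ))
        {s | -a < s.re} := by
  have hloc : LocallyIntegrableOn (indicator (Ioc (0 : ℝ) 1) fun t => ((r t : ℝ) : ℂ)) (Ioi 0) := by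
    have hc : ContinuousOn (fun t : ℝ => C * t ^ a) (Ioi 0) :=
      continuousOn_const.mul (continuousOn_id.rpow_const fun t ht => Or.inl (ne_of_gt ht))
    refine (hc.locallyIntegrableOn measurableSet_Ioi).mono
      ((aestronglyMeasurable_indicator_iff measurableSet_Ioc).2 (amel_meas hr))
      (Eventually.of_forall fun t => ?_)
    by_cases ht : t ∈ Ioc (0 : ℝ) 1
    · rw [indicator_of_mem ht, Complex.norm_real]
      exact (hb t ht).trans (le_abs_self _)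
    · rw [indicator_of_notMem ht, norm_zero]
      exact norm_nonneg _
  have hbot : (indicator (Ioc (0 : ℝ) 1) fun t => ((r t : ℝ) : ℂ)) =O[𝓝[>] 0]
      fun t : ℝ => t ^ (-(-a)) := by
    refine Asymptotics.IsBigO.of_bound C ?_
    filter_upwards [Ioc_mem_nhdsGT (zero_lt_one' ℝ)] with t ht
    rw [indicator_of_mem ht, neg_neg, Complex.norm_real, Real.norm_eq_abs,
      Real.norm_of_nonneg (Real.rpow_nonneg ht.1.le a)]
    exact hb t ht
  refine ⟨fun s hs => ?_, fun s hs => ?_⟩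
  · have h := mellinConvergent_of_isBigO_rpow hloc (amel_top r (s.re + 1)) (lt_add_one _) hbot hs
    rw [MellinConvergent, amel_ind] at h
    have h2 := (integrableOn_indicator_iff measurableSet_Ioc).1 h
    rwa [inter_eq_self_of_subset_left Ioc_subset_Ioi_self] at h2
  · have h := mellin_differentiableAt_of_isBigO_rpow hloc (amel_top r (s.re + 1))
      (lt_add_one _) hbot hs
    rw [show mellin (indicator (Ioc (0 : ℝ) 1) fun t => ((r t : ℝ) : ℂ)) = _ from
      funext (amel_eq r)] at h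
    exact h.differentiableWithinAt

theorem mel_rpow {a : ℝ} {s : ℂ} (hs : -a < s.re) :
    IntegrableOn (fun t : ℝ => (t : ℂ) ^ (s - 1) * ((t ^ a : ℝ) : ℂ)) (Ioc 0 1) ∧
      ∫ t in Ioc (0 : ℝ) 1, (t : ℂ) ^ (s - 1) * ((t ^ a : ℝ) : ℂ) = (s + a)⁻¹ := by
  have h0 : 0 < (s + a).re := by
    rw [Complex.add_re, Complex.ofReal_re]
    linarith
  obtain ⟨h1, h2⟩ := amel_one h0
  have e : EqOn (fun t : ℝ => (t : ℂ) ^ (s + a - 1))
      (fun t : ℝ => (t : ℂ) ^ (s - 1) * ((t ^ a : ℝ) : ℂ)) (Ioc 0 1) := fun t ht => by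
    simp only
    rw [Complex.ofReal_cpow ht.1.le, ← Complex.cpow_add _ _ (Complex.ofReal_ne_zero.2 ht.1.ne'),
      sub_add_eq_add_sub]
  exact ⟨h1.congr_fun e measurableSet_Ioc,
    (setIntegral_congr_fun measurableSet_Ioc e).symm.trans h2⟩

/-- Let `e j = (j - n) / 2`, `R N t = g t - ∑ j ∈ range N, b j * t ^ e j`, and for `N > n`
`Z N s = b n / Γ (s + 1) + (Γ s)⁻¹ * (∑ j ∈ (range N).erase n, b j / (s + e j) + ∫ t ^ (s - 1) R N t)`.
For `-e N < re s` one has `Z (N + 1) s = Z N s` (`mel_rpow`), and `Z N` is meromorphic there and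
analytic at zero. Define `ζ s = Z (N s) s` with `N s > n` so large that `-e (N s) < re s`; near every
point `ζ` agrees with one `Z N`. For `n / 2 < re s` use `mel_rpow` and
`Complex.one_div_Gamma_eq_self_mul_one_div_Gamma_add_one`. -/
theorem isZeta_of_exp {g : ℝ → ℝ} (hg : AEStronglyMeasurable g (volume.restrict (Ioc 0 1))) {n : ℕ}
    {b : ℕ → ℝ} (h : ∀ N : ℕ, ∃ C : ℝ, ∀ t ∈ Ioc (0 : ℝ) 1,
      |g t - ∑ j ∈ Finset.range N, b j * t ^ (((j : ℝ) - n) / 2)| ≤ C * t ^ (((N : ℝ) - n) / 2)) :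
    ∃ z, IsZeta g z := by
  obtain ⟨e, he⟩ : ∃ e : ℕ → ℝ, ∀ j, e j = ((j : ℝ) - n) / 2 := ⟨_, fun _ => rfl⟩
  simp only [← he] at h
  have hmono : ∀ j k, j ≤ k → -e k ≤ -e j := fun j k hjk => by
    have : (j : ℝ) ≤ k := by exact_mod_cast hjk
    rw [he, he]
    linarith
  obtain ⟨R, hR⟩ : ∃ R : ℕ → ℝ → ℝ, ∀ N t, R N t = g t - ∑ j ∈ Finset.range N, b j * t ^ e j :=
    ⟨_, fun _ _ => rfl⟩
  simp only [← hR] at h
  have hRm : ∀ N, AEStronglyMeasurable (R N) (volume.restrict (Ioc 0 1)) := fun N => by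
    rw [show R N = _ from funext (hR N)]
    exact hg.sub (Finset.measurable_sum _ fun j _ =>
      (measurable_id.pow_const _).const_mul _).aestronglyMeasurable
  have hM := fun N => mel_rem (hRm N) (h N).choose_spec
  obtain ⟨M, hMe⟩ : ∃ M : ℕ → ℂ → ℂ, ∀ N, M N = fun s =>
    ∫ t in Ioc (0 : ℝ) 1, (t : ℂ) ^ (s - 1) * ((R N t : ℝ) : ℂ) := ⟨_, fun _ => rfl⟩
  have step : ∀ N (s : ℂ), -e N < s.re → M N s = b N * (s + e N)⁻¹ + M (N + 1) s := by
    intro N s hs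
    obtain ⟨a1, a2⟩ := mel_rpow hs
    rw [hMe, hMe, ← a2, ← integral_const_mul, ← integral_add (a1.const_mul _)
      ((hM (N + 1)).1 s ((hmono _ _ N.le_succ).trans_lt hs))]
    refine integral_congr_ae (Eventually.of_forall fun t => ?_)
    simp only [hR, Finset.sum_range_succ]
    push_cast
    ring
  have chain : ∀ N (s : ℂ), -e N < s.re → ∀ N', N ≤ N' →
      ∑ j ∈ Finset.range N', b j * (s + e j)⁻¹ + M N' s =
        ∑ j ∈ Finset.range N, b j * (s + e j)⁻¹ + M N s := by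
    intro N s hs N' hN
    induction N', hN using Nat.le_induction with
    | base => rfl
    | succ k hk ih =>
      rw [← ih, step k s ((hmono _ _ hk).trans_lt hs), Finset.sum_range_succ, add_assoc]
  obtain ⟨Z, hZ⟩ : ∃ Z : ℕ → ℂ → ℂ, ∀ N, Z N = fun s => b n * (Complex.Gamma (s + 1))⁻¹ +
    (Complex.Gamma s)⁻¹ * (∑ j ∈ (Finset.range N).erase n, b j * (s + e j)⁻¹ + M N s) :=
    ⟨_, fun _ => rfl⟩
  have hen : e n = 0 := by rw [he, sub_self, zero_div]
  have hZW : ∀ N, n < N → ∀ s, Z N s = b n * (Complex.Gamma (s + 1))⁻¹ + (Complex.Gamma s)⁻¹ *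
      (∑ j ∈ Finset.range N, b j * (s + e j)⁻¹ + M N s - b n * s⁻¹) := fun N hN s => by
    rw [hZ, ← Finset.add_sum_erase _ _ (Finset.mem_range.2 hN), hen, Complex.ofReal_zero, add_zero]
    ring
  have hex : ∀ s : ℂ, ∃ N, n < N ∧ -e N < s.re := fun s => by
    obtain ⟨k, hk⟩ := exists_nat_gt (-2 * s.re)
    refine ⟨n + k + 1, by omega, ?_⟩
    rw [he]
    push_cast
    linarith
  choose Ns h1 h2 using hex
  have hloc : ∀ N, n < N → ∀ s : ℂ, -e N < s.re → Z (Ns s) s = Z N s := fun N hN s hs => by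
    rw [hZW _ (h1 s), hZW _ hN, ← chain N s hs _ (le_max_left N (Ns s)),
      ← chain _ s (h2 s) _ (le_max_right N (Ns s))]
  have hU : ∀ s : ℂ, {x : ℂ | -e (Ns s) < x.re} ∈ 𝓝 s := fun s =>
    (isOpen_lt continuous_const Complex.continuous_re).mem_nhds (h2 s)
  have hev : ∀ s : ℂ, Z (Ns s) =ᶠ[𝓝 s] fun x => Z (Ns x) x := fun s =>
    Filter.mem_of_superset (hU s) fun x hx => (hloc _ (h1 s) x hx).symm
  have hMa : ∀ s : ℂ, AnalyticAt ℂ (M (Ns s)) s := fun s => by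
    rw [hMe]
    exact (hM _).2.analyticAt (hU s)
  have hG1 : ∀ s : ℂ, AnalyticAt ℂ (fun s => (b n : ℂ) * (Complex.Gamma (s + 1))⁻¹) s := fun s =>
    analyticAt_const.mul (amel_gam1.analyticAt s)
  have hG : ∀ s : ℂ, AnalyticAt ℂ (fun s => (Complex.Gamma s)⁻¹) s := fun s =>
    Complex.differentiable_one_div_Gamma.analyticAt s
  refine ⟨_, -e 0, fun x => Z (Ns x) x, fun s _ => ?_, ?_, fun s hs => ?_, rfl⟩
  · refine MeromorphicAt.congr ?_ ((hev s).filter_mono nhdsWithin_le_nhds)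
    rw [hZ]
    refine (hG1 s).meromorphicAt.add ((hG s).meromorphicAt.mul
      ((MeromorphicAt.fun_sum fun j _ => ?_).add (hMa s).meromorphicAt))
    exact (MeromorphicAt.const _ _).mul ((MeromorphicAt.id s).add (MeromorphicAt.const _ _)).inv
  · refine AnalyticAt.congr ?_ (hev 0)
    rw [hZ]
    refine (hG1 0).add ((hG 0).mul ((Finset.analyticAt_fun_sum _ fun j hj => ?_).add (hMa 0)))
    refine analyticAt_const.mul ((analyticAt_id.add analyticAt_const).inv ?_)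
    have h3 : (j : ℝ) ≠ n := by exact_mod_cast (Finset.mem_erase.1 hj).1
    have h4 : e j ≠ 0 := by
      rw [he]
      exact div_ne_zero (sub_ne_zero.2 h3) two_ne_zero
    simpa using h4
  · have h3 : R 0 = g := funext fun t => by rw [hR, Finset.sum_range_zero, sub_zero]
    have h4 : s ≠ 0 := by
      rintro rfl
      have := hmono 0 n n.zero_le
      rw [hen] at this
      rw [Complex.zero_re] at hs
      linarith
    refine ⟨h3 ▸ (hM 0).1 s hs, ?_⟩
    simp only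
    rw [hZW _ (h1 s), chain 0 s hs _ (Nat.zero_le _), Finset.sum_range_zero, zero_add, hMe, h3,
      Complex.one_div_Gamma_eq_self_mul_one_div_Gamma_add_one s]
    field_simp
    ring

/-- `τ ^ n * (θ (τ ^ 2) - b₀)` has expansions of all orders; `exists_coef`, `τ = √t`. -/
theorem exists_zeta {θ : ℝ → ℝ} (hm : AntitoneOn θ (Ioi 0)) {n : ℕ}
    (h : ∀ N, PEn N fun τ => τ ^ n * θ (τ ^ 2)) (b₀ : ℝ) : ∃ z, IsZeta (fun t => θ t - b₀) z := by
  have h1 : ∀ N, PEn N fun τ => τ ^ n * (θ (τ ^ 2) - b₀) := fun N => by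
    obtain ⟨b, C, hC⟩ := h N
    refine ⟨fun j => b j - if j = n then b₀ else 0, C + |b₀|, fun τ hτ => ?_⟩
    have a1 := hC τ hτ
    have a2 := mul_nonneg (abs_nonneg b₀) (pow_nonneg hτ.1.le N)
    simp only [sub_mul, ite_mul, zero_mul, Finset.sum_sub_distrib, Finset.sum_ite_eq',
      Finset.mem_range] at a1 ⊢
    split_ifs with hn
    · rw [show τ ^ n * (θ (τ ^ 2) - b₀) - (∑ j ∈ Finset.range N, b j * τ ^ j - b₀ * τ ^ n) =
        τ ^ n * θ (τ ^ 2) - ∑ j ∈ Finset.range N, b j * τ ^ j by ring]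
      linarith
    · rw [show τ ^ n * (θ (τ ^ 2) - b₀) - (∑ j ∈ Finset.range N, b j * τ ^ j - 0) =
        τ ^ n * θ (τ ^ 2) - ∑ j ∈ Finset.range N, b j * τ ^ j - b₀ * τ ^ n by ring]
      have a3 : |b₀ * τ ^ n| ≤ |b₀| * τ ^ N := by
        rw [abs_mul, abs_of_nonneg (pow_nonneg hτ.1.le n)]
        exact mul_le_mul_of_nonneg_left (pow_le_pow_of_le_one hτ.1.le hτ.2 (not_lt.1 hn))
          (abs_nonneg _)
      linarith [abs_sub (τ ^ n * θ (τ ^ 2) - ∑ j ∈ Finset.range N, b j * τ ^ j) (b₀ * τ ^ n)]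
  obtain ⟨b, hb⟩ := exists_coef h1
  refine isZeta_of_exp (n := n) (b := b) ((aemeasurable_restrict_of_antitoneOn measurableSet_Ioc
    (hm.mono Ioc_subset_Ioi_self)).aestronglyMeasurable.sub aestronglyMeasurable_const)
    fun N => ?_
  obtain ⟨C, hC⟩ := hb N
  refine ⟨C, fun t ht => ?_⟩
  have a0 : 0 < √t := Real.sqrt_pos.2 ht.1
  have a1 := hC √t ⟨a0, Real.sqrt_le_one.2 ht.2⟩
  have a2 : ∀ j : ℕ, t ^ (((j : ℝ) - n) / 2) = √t ^ j * (√t ^ n)⁻¹ := fun j => by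
    rw [← div_eq_mul_inv, ← Real.rpow_natCast, ← Real.rpow_natCast, ← Real.rpow_sub a0,
      Real.sqrt_eq_rpow, ← Real.rpow_mul ht.1.le]
    congr 1
    ring
  have a3 : 0 < √t ^ n := pow_pos a0 n
  simp only [Real.sq_sqrt ht.1.le] at a1
  simp only [a2, ← mul_assoc, ← Finset.sum_mul]
  rw [show θ t - b₀ - (∑ j ∈ Finset.range N, b j * √t ^ j) * (√t ^ n)⁻¹ =
    (√t ^ n * (θ t - b₀) - ∑ j ∈ Finset.range N, b j * √t ^ j) * (√t ^ n)⁻¹ by field_simp,
    abs_mul, abs_of_pos (inv_pos.2 a3)]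
  exact mul_le_mul_of_nonneg_right a1 (inv_pos.2 a3).le

end Pool.Agent.Lib.MP_570070_gt.Ex
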