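import Pool.Agent.Lib.MP_570070_gt.Ex.Tm
import Pool.Agent.Lib.MP_570070_gt.Ex.Mx

/-! The formal parametrix. -/

open MeasureTheory Filter Topology Set
open scoped ContDiff InnerProductSpace

namespace Pool.Agent.Lib.MP_570070_gt.Ex

open Pool.Agent.Lib.MP_570070_gt.An

variable {n : ℕ} {V : Type} [NormedAddCommGroup V] [NormedSpace ℝ V] {c : Co n V}
  {w w' : ℤ} {u u' f : ℝ → E2 n → V}

theorem van_ell (hc : c.Sm univ) (i : Fin n) : Van 1 (c.ell i) := by
  refine ⟨fun j p => c.A p.2 i j, fun j => (hc.contDiff_A i j).comp contDiff_snd, ?_⟩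
  funext p
  exact Finset.sum_congr rfl fun j _ => mul_comm _ _

theorem van_sq (hc : c.Sm univ) : Van 2 c.sq := by
  exact ⟨c.ell, van_ell hc, rfl⟩

theorem Tm.nab (hc : c.Sm univ) (i : Fin n) (hu : Tm w u) : Tm (w - 1) (c.nab i u) := by
  have h1 := (hu.van_smul (Van.smul (contDiff_const (c := (2 : ℝ)⁻¹)) (van_ell hc i))).inv
  refine ((hu.dx i).sub (h1.of_le (by omega))).congr fun t _ => funext fun p => ?_
  rw [Co.nab, smul_smul, smul_eq_mul, mul_inv, mul_left_comm, mul_assoc]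

/-- `hadamard` for the difference of the principal coefficients. -/
theorem Tm.opR (hc : c.Sm univ) (hu : Tm w u) : Tm (w - 1) (c.opR u) := by
  have h1 : ∀ i j, Van 1 fun p : E2 n => (c.A p.1)⁻¹ i j - (c.A p.2)⁻¹ i j := fun i j =>
    hadamard (((hc.contDiff_inv i j).comp contDiff_fst).sub
      ((hc.contDiff_inv i j).comp contDiff_snd)) fun y => sub_self _
  refine Tm.add (Tm.add (Tm.neg (Tm.sum _ fun i _ => Tm.sum _ fun j _ => ?_))
    (Tm.sum _ fun i _ => ?_)) ?_
  · exact (((hu.nab hc j).nab hc i).van_smul (h1 i j)).of_le (by omega)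
  · exact (hu.nab hc i).clm ((contDiffOn_univ.1 (hc.B i)).comp contDiff_fst)
  · exact (hu.clm ((contDiffOn_univ.1 hc.C).comp contDiff_fst)).of_le (by omega)

theorem Tm.opL (hc : c.Sm univ) (hu : Tm w u) : Tm (w - 2) (c.opL u) := by
  have h1 : Tm w fun t p => eul (u t) p := Tm.sum _ fun i _ =>
    ((hu.dx i).van_smul (hadamard (contDiff_ze i) fun y => sub_self _)).of_le (by omega)
  refine Tm.sub (Tm.add hu.dt h1.inv) (Tm.sum _ fun i _ => Tm.sum _ fun j _ => ?_)
  exact (((hu.dx j).dx i).van_smul (r := 0) ((hc.contDiff_inv i j).comp contDiff_snd)).of_le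
    (by omega)

theorem Tm.opH (hc : c.Sm univ) (hu : Tm w u) : Tm (w - 2) (c.opH u) := by
  exact (hu.opL hc).add ((hu.opR hc).of_le (by omega))

theorem opL_add (hu : Tm w u) (hu' : Tm w' u') {t : ℝ} (ht : 0 < t) :
    c.opL (fun t p => u t p + u' t p) t = fun p => c.opL u t p + c.opL u' t p := by
  have h1 := hu.contDiff ht
  have h2 := hu'.contDiff ht
  funext p
  have h3 : dt (fun t p => u t p + u' t p) t p = dt u t p + dt u' t p :=
    ((hu.hasDerivAt ht p).add (hu'.hasDerivAt ht p)).deriv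
  simp only [Co.opL, eul, h3, dx_add _ h1 h2, dx_add _ (contDiff_dx _ h1) (contDiff_dx _ h2),
    smul_add, Finset.sum_add_distrib]
  abel

theorem par_opL_sub (hu : Tm w u) (hu' : Tm w' u') {t : ℝ} (ht : 0 < t) (p : E2 n) :
    c.opL (fun t p => u t p - u' t p) t p = c.opL u t p - c.opL u' t p := by
  have h1 := hu.contDiff ht
  have h2 := hu'.contDiff ht
  have h3 : dt (fun t p => u t p - u' t p) t p = dt u t p - dt u' t p :=
    ((hu.hasDerivAt ht p).sub (hu'.hasDerivAt ht p)).deriv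
  simp only [Co.opL, eul, h3, dx_sub _ h1 h2, dx_sub _ (contDiff_dx _ h1) (contDiff_dx _ h2),
    smul_sub, Finset.sum_sub_distrib]
  abel

theorem par_nab_sub (i : Fin n) {g : ℝ → E2 n → V} (hu : Tm w u) (hu' : Tm w' u') {t : ℝ}
    (ht : 0 < t) (e : g t = fun p => u t p - u' t p) :
    c.nab i g t = fun p => c.nab i u t p - c.nab i u' t p := by
  funext p
  simp only [Co.nab, e, dx_sub _ (hu.contDiff ht) (hu'.contDiff ht), smul_sub]
  abel

theorem opH_sub (hc : c.Sm univ) (hu : Tm w u) (hu' : Tm w' u') {t : ℝ} (ht : 0 < t) :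
    c.opH (fun t p => u t p - u' t p) t = fun p => c.opH u t p - c.opH u' t p := by
  funext p
  have h1 : ∀ i, c.nab i (fun t p => u t p - u' t p) t = _ := fun i => par_nab_sub i hu hu' ht rfl
  have h2 : ∀ i j, c.nab i (c.nab j fun t p => u t p - u' t p) t = _ := fun i j =>
    par_nab_sub i (hu.nab hc j) (hu'.nab hc j) ht (h1 j)
  simp only [Co.opH, Co.opR, par_opL_sub hu hu' ht, h1, h2, smul_sub, map_sub,
    Finset.sum_sub_distrib]
  abel

theorem par_opL_mono (m : ℤ) {v : E2 n → V} (hv : ContDiff ℝ ∞ v) {t : ℝ} (ht : 0 < t) (p : E2 n) :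
    c.opL (fun t p => t ^ (m + 1) • v p) t p = t ^ m • (((m + 1 : ℤ) : ℝ) • v p + eul v p) -
      t ^ (m + 1) • ∑ i, ∑ j, (c.A p.2)⁻¹ i j • dx i (dx j v) p := by
  have h1 : dt (fun t p => t ^ (m + 1) • v p) t p = (((m + 1 : ℤ) : ℝ) * t ^ (m + 1 - 1)) • v p :=
    ((hasDerivAt_zpow (m + 1) t (Or.inl ht.ne')).smul_const (v p)).deriv
  have h2 : t⁻¹ * t ^ (m + 1) = t ^ m := by
    rw [zpow_add_one₀ ht.ne', mul_comm (t ^ m), inv_mul_cancel_left₀ ht.ne']
  simp only [Co.opL, eul, h1, dx_const_smul _ _ hv, dx_const_smul _ _ (contDiff_dx _ hv),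
    add_sub_cancel_right, smul_comm _ (t ^ (m + 1)), ← Finset.smul_sum]
  rw [smul_smul (t ^ (m + 1)), mul_comm (t ^ (m + 1)), h2, smul_add, smul_smul, mul_comm]

/-- Strong induction on `r` for all `m`, `h`. Let `v` solve `Van.solve` for `m + 1`
(`2 (m + 1 + r) ≥ 1`), `u₀ = t ^ (m + 1) • v`; then
`opL u₀ = t ^ m • ((m + 1) • v + eul v) - t ^ (m + 1) • Δ v` with
`Δ v = ∑ i j, (A p.2)⁻¹ i j • dx i (dx j v)` in `Van (r - 2)`. If `r ≤ 1` the last term has weight
`2 m + 2 ≥ 2 m + r + 1`; otherwise apply the induction hypothesis to it and add. -/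
theorem solve_mono (hc : c.Sm univ) {r : ℕ} {m : ℤ} {h : E2 n → V} (hh : Van r h)
    (hm : -1 ≤ 2 * m + r) : ∃ u, Tm (2 * m + r + 2) u ∧
      Tm (2 * m + r + 1) fun t p => c.opL u t p - t ^ m • h p := by
  induction r using Nat.strong_induction_on generalizing m h with
  | _ r ih =>
    obtain ⟨v, hv, h1⟩ := hh.solve (m := m + 1) (by omega)
    have h2 : Van (r - 1 - 1) fun p : E2 n => ∑ i, ∑ j, (c.A p.2)⁻¹ i j • dx i (dx j v) p :=
      Van.sum _ fun i _ => Van.sum _ fun j _ =>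
        Van.smul ((hc.contDiff_inv i j).comp contDiff_snd) ((hv.dx j).dx i)
    have h3 : Tm (2 * m + r + 2) fun t p => t ^ (m + 1) • v p := Tm.mono _ _ _ (by omega) hv
    have h4 := Tm.mono (w := 2 * m + r + 1) m _ _ (by omega) h1
    by_cases hr : r ≤ 1
    · refine ⟨_, h3, (h4.sub (Tm.mono (m + 1) _ _ (by omega) h2)).congr fun t ht =>
        funext fun p => ?_⟩
      rw [par_opL_mono m hv.contDiff ht, smul_sub]
      abel
    · obtain ⟨u, h5, h6⟩ := @ih (r - 1 - 1) (by omega) (m + 1) _ h2 (by omega)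
      refine ⟨_, h3.add (h5.of_le (by omega)), (h4.add (h6.of_le (by omega))).congr fun t ht =>
        funext fun p => ?_⟩
      rw [opL_add h3 h5 ht]
      dsimp only
      rw [par_opL_mono m hv.contDiff ht, smul_sub]
      abel

theorem solve_model (hc : c.Sm univ) (hw : -1 ≤ w) (hf : Tm w f) :
    ∃ u, Tm (w + 2) u ∧ Tm (w + 1) fun t p => c.opL u t p - f t p := by
  induction hf with
  | mono m r h h1 hh =>
    obtain ⟨u, h2, h3⟩ := solve_mono hc (m := m) hh (by omega)
    exact ⟨u, h2.of_le (by omega), h3.of_le (by omega)⟩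
  | add _ _ i1 i2 =>
    obtain ⟨u, h1, h2⟩ := i1
    obtain ⟨u', h3, h4⟩ := i2
    refine ⟨_, h1.add h3, (h2.add h4).congr fun t ht => funext fun p => ?_⟩
    rw [opL_add h1 h3 ht]
    exact add_sub_add_comm _ _ _ _
  | congr _ e i1 =>
    obtain ⟨u, h1, h2⟩ := i1
    exact ⟨u, h1, h2.congr fun t ht => by rw [e t ht]⟩

/-- Induction on `N`: start with the constant `v` (`opL` kills it); subtract the solution of the
model problem with right side `opH u`. -/
theorem exists_par (hc : c.Sm univ) (N : ℕ) (v : V) :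
    ∃ u, Tm 0 u ∧ Tm 1 (fun t p => u t p - v) ∧ Tm (N - 1) (c.opH u) := by
  induction N with
  | zero =>
    have h1 : Tm 0 fun (_ : ℝ) (_ : E2 n) => v := tm_van (r := 0) contDiff_const
    refine ⟨_, h1, (tm_zero 1).congr fun t _ => funext fun p => sub_self v,
      (h1.opR hc).congr fun t _ => funext fun p => ?_⟩
    have h2 : ∀ (i : Fin n) (a : V), dx i (fun _ : E2 n => a) = fun _ => 0 := fun i a =>
      dx_snd i (a := fun _ => a) contDiff_const
    simp [Co.opH, Co.opL, dt, eul, h2]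
  | succ N ih =>
    obtain ⟨u, h1, h2, h3⟩ := ih
    obtain ⟨u', h4, h5⟩ := solve_model hc (by omega) h3
    refine ⟨_, h1.sub (h4.of_le (by omega)),
      (h2.sub (h4.of_le (by omega))).congr fun t _ => funext fun p => sub_right_comm _ _ _,
      ((h5.neg.of_le (by omega)).sub ((h4.opR hc).of_le (by omega))).congr fun t ht => ?_⟩
    rw [opH_sub hc h1 h4 ht]
    funext p
    rw [Co.opH.eq_1 c u']
    abel

theorem opH_congr {p : E2 n} (e : ∀ s, u s =ᶠ[𝓝 p] u' s) (t : ℝ) :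
    c.opH u t p = c.opH u' t p := by
  have h0 : ∀ (i : Fin n) {g g' : ℝ → E2 n → V}, g t =ᶠ[𝓝 p] g' t →
      c.nab i g t =ᶠ[𝓝 p] c.nab i g' t := fun i g g' e => by
    filter_upwards [e, dx_congr i e] with q h1 h2
    rw [Co.nab, Co.nab, h1, h2]
  have h1 : (fun s => u s p) = fun s => u' s p := funext fun s => (e s).eq_of_nhds
  have h2 : ∀ i, dx i (u t) p = dx i (u' t) p := fun i => (dx_congr i (e t)).eq_of_nhds
  have h3 : ∀ i j, dx i (dx j (u t)) p = dx i (dx j (u' t)) p := fun i j =>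
    (dx_congr i (dx_congr j (e t))).eq_of_nhds
  have h4 : ∀ i, c.nab i u t p = c.nab i u' t p := fun i => (h0 i (e t)).eq_of_nhds
  have h5 : ∀ i j, c.nab i (c.nab j u) t p = c.nab i (c.nab j u') t p := fun i j =>
    (h0 i (h0 j (e t))).eq_of_nhds
  simp only [Co.opH, Co.opL, Co.opR, dt, eul, h1, h2, h3, h4, h5, (e t).eq_of_nhds]

end Pool.Agent.Lib.MP_570070_gt.Ex
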