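import Pool.Agent.Lib.MP_570070_gt.Ex.Apx
import Pool.Agent.Lib.MP_570070_gt.Ex.Abs

/-! The projection to the forms that live on an open set. -/

open MeasureTheory Filter Topology Set
open scoped ContDiff InnerProductSpace

namespace Pool.Agent.Lib.MP_570070_gt.Ex

open Pool.Agent.Lib.MP_570070_gt.An

variable {n : ℕ} {V H ι β : Type} [NormedAddCommGroup V] [NormedSpace ℝ V]
  [NormedAddCommGroup H] [InnerProductSpace ℝ H] [Fintype ι] [DecidableEq ι] [Fintype β]

variable {c : β → Co n V} {O K F : β → Set (Eu n)} {j : β → (Eu n → V) → H} {φ : β → Eu n → ℝ}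
  {𝒟 : Submodule ℝ (H × (β → Eu n → V))}

theorem Cov.proj_tst (h : Cov c O K F j φ 𝒟) (i : β) {g : Eu n → V} (hg : ContDiffOn ℝ ∞ g (O i)) :
    Tst (O i) (fun y => φ i y • g y) ∧ tsupport (fun y => φ i y • g y) ⊆ K i := by
  have h1 := (h.supp i).trans interior_subset
  have h2 := Tst.smul_on (h.emb i).isOpen (φ := φ i)
    ⟨h.sm i, (h.cpt i).of_isClosed_subset (isClosed_tsupport _) h1, h1.trans (h.sub i)⟩ hg
  exact ⟨h2.1, h2.2.trans h1⟩

theorem Cov.proj_zero (h : Cov c O K F j φ 𝒟) (i : β) {y : Eu n} (hy : y ∉ interior (K i)) :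
    φ i y = 0 := image_eq_zero_of_notMem_tsupport fun h' => hy (h.supp i h')

theorem Cov.proj_int (h : Cov c O K F j φ 𝒟) (i : β) {u w : Eu n → V} (hu : ContinuousOn u (K i))
    (hw : ContinuousOn w (K i)) :
    IntegrableOn (fun y => φ i y * (c i).q y (u y) (w y)) (F i ∩ K i) :=
  (((h.sm i).continuous.continuousOn.mul (((((h.emb i).cont.mono (h.sub i))).clm_apply
    hu).clm_apply hw)).integrableOn_compact (h.cpt i)).mono_set inter_subset_right

theorem Cov.proj_meas (h : Cov c O K F j φ 𝒟) (i : β) : MeasurableSet (F i ∩ K i) :=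
  (h.isOpen i).measurableSet.inter (h.cpt i).measurableSet

theorem Cov.proj_inner (h : Cov c O K F j φ 𝒟) {z : H × (β → Eu n → V)} (hz : z ∈ 𝒟) (i : β)
    {g : Eu n → V} (hg : ContDiffOn ℝ ∞ g (O i)) : ⟪j i fun y => φ i y • g y, z.1⟫_ℝ =
      ∫ y in F i ∩ K i, φ i y * (c i).q y (g y) (z.2 i y) := by
  rw [h.inner z hz i _ (h.proj_tst i hg).1, setIntegral_eq_integral_of_forall_compl_eq_zero]
  · simp only [map_smul, smul_apply, smul_eq_mul]
  · intro y hy
    by_cases hK : y ∈ K i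
    · rw [h.zero z hz i y (h.sub i hK) fun hF => hy ⟨hF, hK⟩, map_zero, mul_zero]
    · rw [h.proj_zero i fun h' => hK (interior_subset h'), zero_mul]

theorem Cov.proj_rep (h : Cov c O K F j φ 𝒟) (b : Module.Basis ι ℝ V) {v : H} {i : β}
    {r : Eu n → ι → ℝ} (hr : Rep b (O i) (K i) (j i) v r) {g : Eu n → V}
    (hg : ContDiffOn ℝ ∞ g (O i)) (h0 : ∀ y ∈ O i, y ∉ F i → g y = 0) :
    ⟪j i fun y => φ i y • g y, v⟫_ℝ =
      ∫ y in F i ∩ K i, φ i y * (c i).q y (g y) ((c i).dual b y (r y)) := by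
  rw [hr _ (h.proj_tst i hg).1 (h.proj_tst i hg).2,
    ← setIntegral_eq_of_subset_of_forall_sdiff_eq_zero (h.cpt i).measurableSet inter_subset_right]
  · refine setIntegral_congr_fun (h.cpt i).measurableSet fun y hy => ?_
    rw [← (h.emb i).q_dual b (h.sub i hy), map_smul, smul_apply, smul_eq_mul]
  · intro y hy
    rw [h0 y (h.sub i hy.1) fun hF => hy.2 ⟨hF, hy.1⟩, map_zero, zero_apply, mul_zero]

theorem Cov.proj_sq (h : Cov c O K F j φ 𝒟) (i : β) {y : Eu n} (hy : y ∈ K i) (u w : V) :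
    (c i).q y (u - w) (u - w) = (c i).q y u u + (c i).q y w w - 2 * (c i).q y u w := by
  simp only [map_sub, sub_apply, (h.emb i).sym y (h.sub i hy) w u]
  ring

theorem Cov.proj_two (h : Cov c O K F j φ 𝒟) (i : β) {u w : Eu n → V} (hu : ContinuousOn u (K i))
    (hw : ContinuousOn w (K i)) : 2 * ∫ y in F i ∩ K i, φ i y * (c i).q y (u y) (w y) ≤
      (∫ y in F i ∩ K i, φ i y * (c i).q y (u y) (u y)) +
        ∫ y in F i ∩ K i, φ i y * (c i).q y (w y) (w y) := by
  rw [← integral_const_mul, ← integral_add (h.proj_int i hu hu) (h.proj_int i hw hw)]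
  refine setIntegral_mono_on ((h.proj_int i hu hw).const_mul 2)
    ((h.proj_int i hu hu).add (h.proj_int i hw hw)) (h.proj_meas i) fun y hy => ?_
  have h1 : 0 ≤ (c i).q y (u y - w y) (u y - w y) := by
    by_cases h0 : u y - w y = 0
    · rw [h0, map_zero]
    · exact ((h.emb i).pos y (h.sub i hy.2) _ h0).le
  have h2 := mul_nonneg (h.nonneg i y) h1
  rw [h.proj_sq i hy.2] at h2
  linarith

theorem Cov.proj_apx (h : Cov c O K F j φ 𝒟) (i : β) {f : Eu n → V} (hf : ContinuousOn f (K i))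
    {ε : ℝ} (hε : 0 < ε) : ∃ g, Tst (F i) g ∧
      (∫ y in F i ∩ K i, φ i y * (c i).q y (f y) (f y)) - ε ≤
        2 * (∫ y in F i ∩ K i, φ i y * (c i).q y (g y) (f y)) -
          ∫ y in F i ∩ K i, φ i y * (c i).q y (g y) (g y) := by
  obtain ⟨C, hC⟩ := (h.cpt i).exists_bound_of_continuousOn (f := fun y => φ i y • (c i).q y)
    ((h.sm i).continuous.continuousOn.smul ((h.emb i).cont.mono (h.sub i)))
  have hG : IsOpen (F i ∩ interior (K i)) := (h.isOpen i).inter isOpen_interior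
  have hGK : F i ∩ interior (K i) ⊆ F i ∩ K i := inter_subset_inter_right _ interior_subset
  have hC1 : 0 < |C| + 1 := by positivity
  obtain ⟨g, hg, h1⟩ := exists_approx hG (h.cpt i) (hGK.trans inter_subset_right) hf
    (div_pos hε hC1)
  have hgc : ContinuousOn g (K i) := hg.1.continuous.continuousOn
  have h2 : ∫ y in F i ∩ K i, φ i y * (c i).q y (g y - f y) (g y - f y) ≤ ε := by
    rw [setIntegral_eq_of_subset_of_forall_sdiff_eq_zero (h.proj_meas i) hGK fun y hy => by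
      rw [h.proj_zero i fun h' => hy.2 ⟨hy.1.1, h'⟩, zero_mul]]
    rw [le_div_iff₀' hC1, ← integral_const_mul] at h1
    refine le_trans (setIntegral_mono_on
      ((h.proj_int i (hgc.sub hf) (hgc.sub hf)).mono_set hGK)
      (Integrable.const_mul ((((hgc.sub hf).norm.pow 2).integrableOn_compact (h.cpt i)).mono_set
        (hGK.trans inter_subset_right)) _) hG.measurableSet fun y hy => ?_) h1
    have h3 := (φ i y • (c i).q y).le_opNorm₂ (g y - f y) (g y - f y)
    have h4 := mul_le_mul_of_nonneg_right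
      ((hC y (hGK hy).2).trans ((le_abs_self C).trans (lt_add_one _).le)) (sq_nonneg ‖g y - f y‖)
    rw [mul_assoc, ← sq] at h3
    exact (le_abs_self _).trans (h3.trans h4)
  refine ⟨g, hg.mono (hg.2.2.trans inter_subset_left), ?_⟩
  rw [setIntegral_congr_fun (h.proj_meas i) fun y hy => by
      rw [h.proj_sq i hy.2, mul_sub, mul_add, mul_left_comm],
    integral_sub (Integrable.fun_add (h.proj_int i hgc hgc) (h.proj_int i hf hf))
      ((h.proj_int i hgc hf).const_mul 2), integral_add (h.proj_int i hgc hgc) (h.proj_int i hf hf),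
    integral_const_mul] at h2
  linarith

/-- `Cov.sum`, `Cov.inner`, `Tst.smul_on`; the integrand vanishes outside `F i ∩ K i`. -/
theorem Cov.norm_sq (h : Cov c O K F j φ 𝒟) {z : H × (β → Eu n → V)} (hz : z ∈ 𝒟) :
    ‖z.1‖ ^ 2 = ∑ i, ∫ y in F i ∩ K i, φ i y * (c i).q y (z.2 i y) (z.2 i y) := by
  rw [← real_inner_self_eq_norm_sq]
  nth_rewrite 1 [h.sum z hz]
  rw [sum_inner]
  exact Finset.sum_congr rfl fun i _ => h.proj_inner hz i (h.smooth z hz i)

/-- `Cov.sum`, `Rep`, `Emb.q_dual`. -/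
theorem Cov.inner_rep (h : Cov c O K F j φ 𝒟) (b : Module.Basis ι ℝ V) {v : H}
    {r : β → Eu n → ι → ℝ} (hr : ∀ i, Rep b (O i) (K i) (j i) v (r i))
    {z : H × (β → Eu n → V)} (hz : z ∈ 𝒟) : ⟪z.1, v⟫_ℝ =
      ∑ i, ∫ y in F i ∩ K i, φ i y * (c i).q y (z.2 i y) ((c i).dual b y (r i y)) := by
  rw [h.sum z hz, sum_inner]
  exact Finset.sum_congr rfl fun i _ => h.proj_rep b (hr i) (h.smooth z hz i) (h.zero z hz i)

/-- `norm_proj_eq`; let `f i y = dual b y (r i y)`, `θ` the right side. Upper bound: pointwise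
`2 q z f - q z z ≤ q f f`. Lower bound: `g i` from `exists_approx` on `F i ∩ interior (K i)`,
`a = ∑ i, j i (φ i • g i)` (`Cov.mem`) with chart expressions `z i`. Then
`⟪a, v⟫ = ∑ ∫ φ q g f` (`Rep`) and also `= ∑ ∫ φ q z f` (`inner_rep`), while
`‖a‖ ^ 2 = ∑ ∫ φ q g z` (`Cov.inner`) `= ∑ ∫ φ q z z` (`norm_sq`). From
`2 q g z ≤ q z z + q g g` one gets `‖a‖ ^ 2 ≤ ∑ ∫ φ q g g`, so
`2 ⟪a, v⟫ - ‖a‖ ^ 2 ≥ ∑ ∫ φ (2 q g f - q g g) = θ - ∑ ∫ φ q (g - f) (g - f)`. -/
theorem Cov.norm_proj [CompleteSpace H] (h : Cov c O K F j φ 𝒟) (b : Module.Basis ι ℝ V) {v : H}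
    {r : β → Eu n → ι → ℝ} (hc : ∀ i a, ContinuousOn (fun y => r i y a) (K i))
    (hr : ∀ i, Rep b (O i) (K i) (j i) v (r i)) :
    ‖(𝒟.map (LinearMap.fst ℝ _ _)).topologicalClosure.starProjection v‖ ^ 2 =
      ∑ i, ∫ y in F i ∩ K i, φ i y * ∑ a, ∑ a', ((c i).gm b y)⁻¹ a a' * (r i y a * r i y a') := by
  have hf : ∀ i, ContinuousOn (fun y => (c i).dual b y (r i y)) (K i) := fun i =>
    continuousOn_finsetSum _ fun a _ => (continuousOn_finsetSum _ fun a' _ =>
      (((h.emb i).gm_cont b a a').mono (h.sub i)).mul (hc i a')).smul continuousOn_const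
  have hz : ∀ z ∈ 𝒟, ∀ i, ContinuousOn (z.2 i) (K i) := fun z hz i =>
    (h.smooth z hz i).continuousOn.mono (h.sub i)
  rw [Finset.sum_congr rfl fun i _ => setIntegral_congr_fun (h.proj_meas i) fun y hy => by
    rw [← (h.emb i).q_dual_dual b (h.sub i hy.2)]]
  refine norm_proj_eq ?_ fun ε hε => ?_
  · rintro _ ⟨z, hz', rfl⟩
    rw [LinearMap.fst_apply, real_inner_comm, h.inner_rep b hr hz', h.norm_sq hz', Finset.mul_sum,
      ← Finset.sum_sub_distrib]
    exact Finset.sum_le_sum fun i _ => sub_le_iff_le_add'.2 (h.proj_two i (hz z hz' i) (hf i))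
  · have hβ : (0 : ℝ) < Fintype.card β + 1 := by positivity
    choose g hg h1 using fun i => h.proj_apx i (hf i) (div_pos hε hβ)
    have hs : ∀ i, ContDiffOn ℝ ∞ (g i) (O i) := fun i => (hg i).1.contDiffOn
    choose w hw using fun i => h.mem i _ ((h.proj_tst i (hs i)).1.mono
      (subset_inter (h.proj_tst i (hs i)).1.2.2
        ((tsupport_smul_subset_right _ _).trans (hg i).2.2)))
    have hm := 𝒟.sum_mem (t := Finset.univ) fun i _ => hw i
    refine ⟨_, ⟨_, hm, rfl⟩, ?_⟩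
    set z := ∑ i, ((j i fun y => φ i y • g i y), w i) with hz0
    have h2 : z.1 = ∑ i, j i fun y => φ i y • g i y := Prod.fst_sum
    have h3 : ⟪v, z.1⟫_ℝ =
        ∑ i, ∫ y in F i ∩ K i, φ i y * (c i).q y (g i y) ((c i).dual b y (r i y)) := by
      rw [real_inner_comm, h2, sum_inner]
      exact Finset.sum_congr rfl fun i _ => h.proj_rep b (hr i) (hs i) fun y _ hy =>
        image_eq_zero_of_notMem_tsupport fun h' => hy ((hg i).2.2 h')
    have h4 : ‖z.1‖ ^ 2 = ∑ i, ∫ y in F i ∩ K i, φ i y * (c i).q y (g i y) (z.2 i y) := by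
      rw [← real_inner_self_eq_norm_sq]
      nth_rewrite 1 [h2]
      rw [sum_inner]
      exact Finset.sum_congr rfl fun i _ => h.proj_inner hm i (hs i)
    have h5 := Finset.sum_le_sum fun i (_ : i ∈ Finset.univ) =>
      h.proj_two i (hg i).1.continuous.continuousOn (hz z hm i)
    have h6 := Finset.sum_le_sum fun i (_ : i ∈ Finset.univ) => h1 i
    rw [← Finset.mul_sum, Finset.sum_add_distrib, ← h4, ← h.norm_sq hm] at h5
    rw [Finset.sum_sub_distrib, Finset.sum_sub_distrib, ← Finset.mul_sum, ← h3, Finset.sum_const,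
      Finset.card_univ, nsmul_eq_mul] at h6
    have h7 : Fintype.card β * (ε / (Fintype.card β + 1)) ≤ ε := by
      rw [← mul_div_assoc, div_le_iff₀ hβ]
      linarith
    rw [LinearMap.fst_apply]
    linarith

end Pool.Agent.Lib.MP_570070_gt.Ex
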