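import Pool.Agent.Lib.MP_570070_gt.Ex.Van

/-! Terms of given weight. -/

open MeasureTheory Filter Topology Set
open scoped ContDiff InnerProductSpace

namespace Pool.Agent.Lib.MP_570070_gt.Ex

open Pool.Agent.Lib.MP_570070_gt.An

variable {n : ℕ} {V V' W : Type} [NormedAddCommGroup V] [NormedSpace ℝ V]
  [NormedAddCommGroup V'] [NormedSpace ℝ V'] [NormedAddCommGroup W] [NormedSpace ℝ W]
  {w w' : ℤ} {f f' : ℝ → E2 n → V}

theorem Tm.of_le (hw : w' ≤ w) (hf : Tm w f) : Tm w' f := by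
  induction hf with
  | mono m r h h1 hv => exact Tm.mono m r h (hw.trans h1) hv
  | add _ _ ih1 ih2 => exact ih1.add ih2
  | congr _ he ih => exact ih.congr he

theorem tm_van {r : ℕ} {h : E2 n → V} (hh : Van r h) : Tm r fun _ p => h p := by
  exact (Tm.mono 0 r h (by simp) hh).congr fun t _ => by simp

theorem tm_zero (w : ℤ) : Tm w fun _ (_ : E2 n) => (0 : V) := by
  exact (tm_van (van_zero w.toNat)).of_le (Int.self_le_toNat w)

theorem Tm.clm {B : E2 n → V →L[ℝ] W} (hB : ContDiff ℝ ∞ B) (hf : Tm w f) :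
    Tm w fun t p => B p (f t p) := by
  induction hf with
  | mono m r h h1 hv => exact (Tm.mono m r _ h1 (hv.clm hB)).congr fun t _ => by simp
  | add _ _ ih1 ih2 => exact (ih1.add ih2).congr fun t _ => by simp
  | congr _ he ih => exact ih.congr fun t ht => by simp only [he t ht]

theorem Tm.neg (hf : Tm w f) : Tm w fun t p => -f t p := by
  exact (hf.clm (B := fun _ => -ContinuousLinearMap.id ℝ V) contDiff_const).congr
    fun t _ => by simp

theorem Tm.sub (hf : Tm w f) (hf' : Tm w f') : Tm w fun t p => f t p - f' t p := by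
  exact (hf.add hf'.neg).congr fun t _ => by simp only [sub_eq_add_neg]

theorem Tm.sum {ι : Type} (s : Finset ι) {g : ι → ℝ → E2 n → V} (hg : ∀ j ∈ s, Tm w (g j)) :
    Tm w fun t p => ∑ j ∈ s, g j t p := by
  classical
  induction s using Finset.induction_on with
  | empty => exact (tm_zero w).congr fun t _ => by simp
  | insert a s ha ih =>
    exact ((hg a (Finset.mem_insert_self _ _)).add
      (ih fun j hj => hg j (Finset.mem_insert_of_mem hj))).congr fun t _ => by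
        simp only [Finset.sum_insert ha]

theorem Tm.bil {B : E2 n → V →L[ℝ] V' →L[ℝ] W} (hB : ContDiff ℝ ∞ B) {g : ℝ → E2 n → V'}
    (hf : Tm w f) (hg : Tm w' g) : Tm (w + w') fun t p => B p (f t p) (g t p) := by
  induction hf with
  | mono m r h h1 hv =>
    induction hg with
    | mono m' r' h' h2 hv' =>
      refine (Tm.mono (m + m') (r + r') _ (by push_cast; omega) (hv.bil hB hv')).congr
        fun t ht => funext fun p => ?_
      simp only [map_smul, smul_apply, smul_smul, zpow_add₀ ht.ne', mul_comm]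
    | add _ _ ih1 ih2 => exact (ih1.add ih2).congr fun t _ => by simp only [map_add]
    | congr _ he ih => exact ih.congr fun t ht => by simp only [he t ht]
  | add _ _ ih1 ih2 =>
    exact (ih1.add ih2).congr fun t _ => by simp only [map_add, add_apply]
  | congr _ he ih => exact ih.congr fun t ht => by simp only [he t ht]

theorem Tm.van_smul {r : ℕ} {a : E2 n → ℝ} (ha : Van r a) (hf : Tm w f) :
    Tm (w + r) fun t p => a p • f t p := by
  exact (Tm.bil (B := fun _ => ContinuousLinearMap.lsmul ℝ ℝ) contDiff_const (tm_van ha)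
    hf).of_le (add_comm _ _).le

theorem Tm.zpow (m : ℤ) (hf : Tm w f) : Tm (w + 2 * m) fun t p => t ^ m • f t p := by
  have h1 : Tm (2 * m) fun (t : ℝ) (_ : E2 n) => t ^ m • (1 : ℝ) :=
    Tm.mono m 0 (fun _ => 1) (by simp) contDiff_const
  exact ((Tm.bil (B := fun _ => ContinuousLinearMap.lsmul ℝ ℝ) contDiff_const h1
    hf).of_le (add_comm _ _).le).congr fun t _ => by simp

theorem Tm.inv (hf : Tm w f) : Tm (w - 2) fun t p => t⁻¹ • f t p := by
  exact ((hf.zpow (-1)).of_le (by omega)).congr fun t _ => by simp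

theorem Tm.smooth (hf : Tm w f) :
    ContDiffOn ℝ ∞ (fun z : ℝ × E2 n => f z.1 z.2) (Ioi 0 ×ˢ univ) := by
  induction hf with
  | mono m r h _ hv =>
    refine ContDiffOn.smul (fun z hz => ?_) (hv.contDiff.comp contDiff_snd).contDiffOn
    exact ((analyticAt_fst (𝕜 := ℝ)).zpow (n := m) (ne_of_gt hz.1)).contDiffAt.contDiffWithinAt
  | add _ _ ih1 ih2 => exact ih1.add ih2
  | congr _ he ih => exact ih.congr fun z hz => by rw [he z.1 hz.1]

theorem Tm.contDiff (hf : Tm w f) {t : ℝ} (ht : 0 < t) : ContDiff ℝ ∞ (f t) := by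
  exact hf.smooth.comp_contDiff (f := fun p : E2 n => (t, p)) (contDiff_prodMk_right t)
    fun p => ⟨ht, trivial⟩

theorem Tm.hasDerivAt (hf : Tm w f) {t : ℝ} (ht : 0 < t) (p : E2 n) :
    HasDerivAt (fun s => f s p) (dt f t p) t := by
  have h1 : ContDiffAt ℝ ∞ (fun z : ℝ × E2 n => f z.1 z.2) (t, p) :=
    hf.smooth.contDiffAt ((isOpen_Ioi.prod isOpen_univ).mem_nhds ⟨ht, trivial⟩)
  have h2 : ContDiffAt ℝ ∞ (fun s => f s p) t :=
    h1.comp (f := fun s : ℝ => (s, p)) t (contDiff_prodMk_left p).contDiffAt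
  exact (h2.differentiableAt (by simp)).hasDerivAt

theorem Tm.dx (i : Fin n) (hf : Tm w f) : Tm (w - 1) fun t => dx i (f t) := by
  induction hf with
  | mono m r h h1 hv =>
    exact (Tm.mono m (r - 1) _ (by omega) (hv.dx i)).congr fun t _ =>
      dx_const_smul i _ hv.contDiff
  | add h1 h2 ih1 ih2 =>
    exact (ih1.add ih2).congr fun t ht => dx_add i (h1.contDiff ht) (h2.contDiff ht)
  | congr _ he ih => exact ih.congr fun t ht => by simp only [he t ht]

theorem Tm.dt (hf : Tm w f) : Tm (w - 2) (dt f) := by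
  induction hf with
  | mono m r h h1 hv =>
    refine (Tm.mono (m - 1) r _ (by omega)
      (hv.smul (a := fun _ => (m : ℝ)) contDiff_const)).congr fun t ht => funext fun p => ?_
    rw [smul_smul, mul_comm]
    exact ((hasDerivAt_zpow m t (Or.inl ht.ne')).smul_const (h p)).deriv
  | add h1 h2 ih1 ih2 =>
    exact (ih1.add ih2).congr fun t ht => funext fun p =>
      ((h1.hasDerivAt ht p).add (h2.hasDerivAt ht p)).deriv
  | congr _ he ih =>
    refine ih.congr fun t ht => funext fun p => Filter.EventuallyEq.deriv_eq ?_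
    filter_upwards [Ioi_mem_nhds ht] with s hs
    rw [he s hs]

theorem tm_exp_pow {c₀ : ℝ} (hc : 0 < c₀) (r : ℕ) :
    ∃ C, 0 ≤ C ∧ ∀ s : ℝ, 0 ≤ s → Real.exp (-(c₀ * s ^ 2)) * s ^ r ≤ C := by
  refine ⟨1 + r.factorial / c₀ ^ r, by positivity, fun s hs => ?_⟩
  have h0 : 0 ≤ c₀ * s ^ 2 := by positivity
  have h1 : Real.exp (-(c₀ * s ^ 2)) ≤ 1 := Real.exp_le_one_iff.2 (by linarith)
  have h2 : (0 : ℝ) ≤ r.factorial / c₀ ^ r := by positivity
  rcases le_total s 1 with h | h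
  · have h3 := mul_le_one₀ h1 (pow_nonneg hs r) (pow_le_one₀ hs h (n := r))
    linarith
  · have h3 := Real.pow_div_factorial_le_exp _ h0 r
    have h4 : s ^ r ≤ (s ^ 2) ^ r := pow_le_pow_left₀ hs (by nlinarith) r
    have h5 : Real.exp (-(c₀ * s ^ 2)) * s ^ r ≤ r.factorial / c₀ ^ r := by
      rw [Real.exp_neg, inv_mul_le_iff₀ (Real.exp_pos _), ← mul_div_assoc,
        le_div_iff₀ (by positivity)]
      rw [div_le_iff₀ (by positivity), mul_pow] at h3
      have h6 := mul_le_mul_of_nonneg_right h4 (pow_pos hc r).le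
      linarith
    linarith

theorem tm_exp_sqrt {c₀ : ℝ} (hc : 0 < c₀) (r : ℕ) : ∃ C, 0 ≤ C ∧ ∀ t s : ℝ, 0 < t → 0 ≤ s →
    Real.exp (-(c₀ * s ^ 2 / t)) * s ^ r ≤ C * √t ^ r := by
  obtain ⟨C, hC, h⟩ := tm_exp_pow hc r
  refine ⟨C, hC, fun t s ht hs => ?_⟩
  have h0 : 0 < √t := Real.sqrt_pos.2 ht
  have h1 := h (s / √t) (by positivity)
  rwa [div_pow, div_pow, Real.sq_sqrt ht.le, ← mul_div_assoc, ← mul_div_assoc,
    div_le_iff₀ (by positivity)] at h1

/-- `Van.bound`; with `s = ‖p.1 - p.2‖ / √t` the function `s ^ r * exp (-c₀ s ^ 2)` is bounded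
(`Real.pow_div_factorial_le_exp`), and `√t ^ (2 * m + r) ≤ √t ^ w`. -/
theorem Tm.bound (hf : Tm w f) {S : Set (E2 n)} (hS : IsCompact S) {c₀ : ℝ} (hc : 0 < c₀) :
    ∃ C, 0 ≤ C ∧ ∀ t ∈ Ioc (0 : ℝ) 1, ∀ p ∈ S,
      Real.exp (-(c₀ * ‖p.1 - p.2‖ ^ 2 / t)) * ‖f t p‖ ≤ C * √t ^ w := by
  induction hf with
  | mono m r h h1 hv =>
    obtain ⟨C, hC, hb⟩ := hv.bound hS
    obtain ⟨C', hC', hb'⟩ := tm_exp_sqrt hc r
    refine ⟨C * C', by positivity, fun t ht p hp => ?_⟩
    have h0 : 0 < √t := Real.sqrt_pos.2 ht.1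
    have h2 : √t ^ (2 * m + r) ≤ √t ^ w :=
      zpow_le_zpow_right_of_le_one₀ h0 (Real.sqrt_le_one.2 ht.2) h1
    have h3 : √t ^ (2 * m + r) = t ^ m * √t ^ r := by
      rw [zpow_add₀ h0.ne', zpow_mul, zpow_natCast, zpow_ofNat, Real.sq_sqrt ht.1.le]
    have h4 : 0 < t ^ m := zpow_pos ht.1 m
    calc Real.exp (-(c₀ * ‖p.1 - p.2‖ ^ 2 / t)) * ‖t ^ m • h p‖
        = t ^ m * (Real.exp (-(c₀ * ‖p.1 - p.2‖ ^ 2 / t)) * ‖h p‖) := by
          rw [norm_smul, Real.norm_of_nonneg h4.le]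
          ring
      _ ≤ t ^ m * (Real.exp (-(c₀ * ‖p.1 - p.2‖ ^ 2 / t)) * (C * ‖p.1 - p.2‖ ^ r)) := by
          gcongr
          exact hb p hp
      _ = t ^ m * (C * (Real.exp (-(c₀ * ‖p.1 - p.2‖ ^ 2 / t)) * ‖p.1 - p.2‖ ^ r)) := by ring
      _ ≤ t ^ m * (C * (C' * √t ^ r)) :=
          mul_le_mul_of_nonneg_left
            (mul_le_mul_of_nonneg_left (hb' t _ ht.1 (norm_nonneg _)) hC) h4.le
      _ = C * C' * √t ^ (2 * m + r) := by
          rw [h3]
          ring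
      _ ≤ C * C' * √t ^ w := by gcongr
  | add _ _ ih1 ih2 =>
    obtain ⟨C, hC, h1⟩ := ih1
    obtain ⟨C', hC', h2⟩ := ih2
    refine ⟨C + C', by positivity, fun t ht p hp => ?_⟩
    refine (mul_le_mul_of_nonneg_left (norm_add_le _ _) (Real.exp_pos _).le).trans ?_
    rw [mul_add, add_mul]
    exact add_le_add (h1 t ht p hp) (h2 t ht p hp)
  | congr _ he ih =>
    obtain ⟨C, hC, h1⟩ := ih
    exact ⟨C, hC, fun t ht p hp => by rw [he t ht.1]; exact h1 t ht p hp⟩

theorem exp_far {c₀ δ : ℝ} (hc : 0 < c₀) (hδ : 0 < δ) (M : ℕ) : ∃ C, 0 ≤ C ∧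
    ∀ t ∈ Ioc (0 : ℝ) 1, ∀ s, δ ≤ s → Real.exp (-(c₀ * s ^ 2 / t)) ≤ C * √t ^ M := by
  obtain ⟨C, hC, h⟩ := tm_exp_sqrt hc M
  refine ⟨C / δ ^ M, by positivity, fun t ht s hs => ?_⟩
  rw [div_mul_eq_mul_div, le_div_iff₀ (by positivity)]
  refine le_trans ?_ (h t s ht.1 (hδ.le.trans hs))
  gcongr

/-- Every term of weight `w` is a sum of homogeneous terms of weight `w` and a term of weight
`w + 1` (`Van.homog`). -/
theorem Tm.split {q : (ℝ → E2 n → ℝ) → Prop} (h1 : ∀ g, Tm (w + 1) g → q g)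
    (h2 : ∀ (m : ℤ) (r : ℕ) (h : E2 n → ℝ), w = 2 * m + r → Van r h →
      (∀ (τ : ℝ) (ξ y : Eu n), h (y + τ • ξ, y) = τ ^ r * h (y + ξ, y)) → q fun t p => t ^ m * h p)
    (h3 : ∀ g g', Tm w g → Tm w g' → q g → q g' → q fun t p => g t p + g' t p)
    (h4 : ∀ g g', q g → (∀ t, 0 < t → g' t = g t) → q g') {g : ℝ → E2 n → ℝ} (hg : Tm w g) :
    q g := by
  induction hg with
  | mono m r h hw hv =>
    rcases hw.eq_or_lt with hw | hw
    · obtain ⟨h₀, hv₀, hv₁, hh⟩ := hv.homog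
      have t0 : Tm w fun t p => t ^ m * h₀ p := Tm.mono m r h₀ hw.le hv₀
      have t1 : Tm (w + 1) fun t p => t ^ m • (h p - h₀ p) :=
        Tm.mono m (r + 1) _ (by push_cast; omega) hv₁
      refine h4 _ _ (h3 _ _ t0 (t1.of_le (by omega)) (h2 m r h₀ hw hv₀ hh) (h1 _ t1))
        fun t _ => funext fun p => ?_
      simp only [smul_eq_mul]
      ring
    · exact h1 _ (Tm.mono m r h hw hv)
  | add t1 t2 ih1 ih2 => exact h3 _ _ t1 t2 ih1 ih2
  | congr _ he ih => exact h4 _ _ ih he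

end Pool.Agent.Lib.MP_570070_gt.Ex
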