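import Pool.Agent.Lib.MP_570070_gt.Ex.Proj
import Pool.Agent.Lib.MP_570070_gt.Ex.Loc

/-! The trace formula. -/

open MeasureTheory Filter Topology Set
open scoped ContDiff InnerProductSpace

namespace Pool.Agent.Lib.MP_570070_gt.Ex

open Pool.Agent.Lib.MP_570070_gt.An

variable {n : ℕ} {V H ι β : Type} [NormedAddCommGroup V] [NormedSpace ℝ V]
  [NormedAddCommGroup H] [InnerProductSpace ℝ H] [Fintype ι] [DecidableEq ι] [Fintype β]

variable {c : β → Co n V} {O K F : β → Set (Eu n)} {j : β → (Eu n → V) → H} {φ : β → Eu n → ℝ}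
  {𝒟 : Submodule ℝ (H × (β → Eu n → V))}

theorem tr_int (h : Cov c O K F j φ 𝒟) (i : β) {g : Eu n → ℝ} (hg : ContinuousOn g (K i)) :
    IntegrableOn (fun y => φ i y * g y) (F i ∩ K i) :=
  (((h.sm i).continuous.continuousOn.mul hg).integrableOn_compact (h.cpt i)).mono_set
    inter_subset_right

theorem tr_meas (h : Cov c O K F j φ 𝒟) (i : β) : MeasurableSet (F i ∩ K i) :=
  (h.isOpen i).measurableSet.inter (h.cpt i).measurableSet

theorem tr_form (h : Cov c O K F j φ 𝒟) (b : Module.Basis ι ℝ V) (i : β) {r : ι → ι → Eu n → ℝ}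
    (hr : ∀ a a', ContinuousOn (r a a') (K i)) :
    ContinuousOn (fun y => ∑ a, ∑ a', ((c i).gm b y)⁻¹ a a' * r a a' y) (K i) :=
  continuousOn_finsetSum _ fun a _ => continuousOn_finsetSum _ fun a' _ =>
    (((h.emb i).gm_cont b a a').mono (h.sub i)).mul (hr a a')

theorem tr_sum [CompleteSpace H] (h : Cov c O K F j φ 𝒟) (b : Module.Basis ι ℝ V)
    {T : H →L[ℝ] H} {p : β → Eu n → ι → H} (hc : ∀ i a, ContinuousOn (fun y => p i y a) (K i))
    (hp : ∀ i w, Rep b (O i) (K i) (j i) (T w) fun y a => ⟪p i y a, w⟫_ℝ) {m : ℕ}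
    (u : Fin m → H) :
    ∑ l, ‖(𝒟.map (LinearMap.fst ℝ _ _)).topologicalClosure.starProjection (T (u l))‖ ^ 2 =
      ∑ i, ∫ y in F i ∩ K i, φ i y *
        ∑ l, ∑ a, ∑ a', ((c i).gm b y)⁻¹ a a' * (⟪p i y a, u l⟫_ℝ * ⟪p i y a', u l⟫_ℝ) := by
  have hc' : ∀ w i a, ContinuousOn (fun y => ⟪p i y a, w⟫_ℝ) (K i) := fun w i a =>
    (hc i a).inner continuousOn_const
  rw [Finset.sum_congr rfl fun l _ => h.norm_proj b (hc' (u l)) fun i => hp i (u l),
    Finset.sum_comm]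
  refine Finset.sum_congr rfl fun i _ => ?_
  rw [← integral_finsetSum _ fun l _ =>
    tr_int h i (tr_form h b i fun a a' => (hc' (u l) i a).fun_mul (hc' (u l) i a'))]
  simp only [Finset.mul_sum _ _ (φ i _)]

theorem tr_mono {S : Set H} {T R : H →L[ℝ] H} (h : ∀ z, ⟪T z, z⟫_ℝ ≤ ⟪R z, z⟫_ℝ) :
    trOn S T ≤ trOn S R :=
  iSup_mono fun _ => iSup_mono fun _ => iSup_mono fun _ => iSup_mono fun _ =>
    ENNReal.ofReal_le_ofReal (Finset.sum_le_sum fun _ _ => h _)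

theorem tr_nonneg (h : Cov c O K F j φ 𝒟) (b : Module.Basis ι ℝ V) (p : β → Eu n → ι → H) :
    0 ≤ ∑ i, ∫ y in F i ∩ K i,
      φ i y * ∑ a, ∑ a', ((c i).gm b y)⁻¹ a a' * ⟪p i y a, p i y a'⟫_ℝ := by
  refine Finset.sum_nonneg fun i _ => setIntegral_nonneg (tr_meas h i) fun y hy =>
    mul_nonneg (h.nonneg i y) ?_
  have := quad_le ((h.emb i).gm_pos b (h.sub i hy.2)).inv.posSemidef (p i y)
    (u := (Fin.elim0 : Fin 0 → H)) ⟨fun i => i.elim0, fun i => i.elim0⟩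
  simpa using this

/-- `trOn_eq`, `norm_proj`, `quad_le`, `exists_net` for the union of the images of the `K i`. -/
theorem Cov.trace [CompleteSpace H] (h : Cov c O K F j φ 𝒟) (b : Module.Basis ι ℝ V)
    {T R : H →L[ℝ] H} (hT : ∀ u v, ⟪T u, v⟫_ℝ = ⟪u, T v⟫_ℝ) (hR : ∀ z, ⟪R z, z⟫_ℝ = ‖T z‖ ^ 2)
    {p : β → Eu n → ι → H} (hc : ∀ i a, ContinuousOn (fun y => p i y a) (K i))
    (hp : ∀ i w, Rep b (O i) (K i) (j i) (T w) fun y a => ⟪p i y a, w⟫_ℝ) :
    trOn ((𝒟.map (LinearMap.fst ℝ _ _)).topologicalClosure : Set H) R = ENNReal.ofReal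
      (∑ i, ∫ y in F i ∩ K i, φ i y * ∑ a, ∑ a', ((c i).gm b y)⁻¹ a a' * ⟪p i y a, p i y a'⟫_ℝ) := by
  have hc' : ∀ w i a, ContinuousOn (fun y => ⟪p i y a, w⟫_ℝ) (K i) := fun w i a =>
    (hc i a).inner continuousOn_const
  have i1 : ∀ i, IntegrableOn (fun y => φ i y *
      ∑ a, ∑ a', ((c i).gm b y)⁻¹ a a' * ⟪p i y a, p i y a'⟫_ℝ) (F i ∩ K i) := fun i =>
    tr_int h i (tr_form h b i fun a a' => (hc i a).inner (hc i a'))
  have i2 : ∀ (m : ℕ) (u : Fin m → H) i, IntegrableOn (fun y => φ i y * ∑ l, ∑ a, ∑ a',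
      ((c i).gm b y)⁻¹ a a' * (⟪p i y a, u l⟫_ℝ * ⟪p i y a', u l⟫_ℝ)) (F i ∩ K i) :=
    fun m u i => tr_int h i (continuousOn_finsetSum _ fun l _ =>
      tr_form h b i fun a a' => (hc' (u l) i a).mul (hc' (u l) i a'))
  refine trOn_eq hT hR (fun m u hu => ?_) fun ε hε => ?_
  · rw [tr_sum h b hc hp u]
    refine Finset.sum_le_sum fun i _ => setIntegral_mono_on (i2 m u i) (i1 i) (tr_meas h i)
      fun y hy => mul_le_mul_of_nonneg_left ?_ (h.nonneg i y)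
    exact quad_le ((h.emb i).gm_pos b (h.sub i hy.2)).inv.posSemidef (p i y) hu
  · have i3 : ∀ i, IntegrableOn (fun y => φ i y * ∑ a, ∑ a', |((c i).gm b y)⁻¹ a a'|)
        (F i ∩ K i) := fun i => tr_int h i (continuousOn_finsetSum _ fun a _ =>
          continuousOn_finsetSum _ fun a' _ => (((h.emb i).gm_cont b a a').mono (h.sub i)).abs)
    obtain ⟨C, hC⟩ : ∃ C, C = ∑ i, ∫ y in F i ∩ K i, φ i y * ∑ a, ∑ a', |((c i).gm b y)⁻¹ a a'| :=
      ⟨_, rfl⟩
    have hC0 : 0 ≤ C := hC ▸ Finset.sum_nonneg fun i _ => setIntegral_nonneg (tr_meas h i)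
      fun y _ => mul_nonneg (h.nonneg i y) (Finset.sum_nonneg fun a _ =>
        Finset.sum_nonneg fun a' _ => abs_nonneg _)
    have hZ : IsCompact (⋃ i, ⋃ a, (fun y => p i y a) '' K i) :=
      isCompact_iUnion fun i => isCompact_iUnion fun a => (h.cpt i).image_of_continuousOn (hc i a)
    have hδ : 0 < ε / (C + 1) := by positivity
    obtain ⟨m, u, hu, hn⟩ := exists_net hZ hδ
    refine ⟨m, u, hu, ?_⟩
    rw [tr_sum h b hc hp u]
    have key : ∑ i, ∫ y in F i ∩ K i, φ i y *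
        ∑ a, ∑ a', ((c i).gm b y)⁻¹ a a' * ⟪p i y a, p i y a'⟫_ℝ ≤
        (∑ i, ∫ y in F i ∩ K i, φ i y * ∑ l, ∑ a, ∑ a',
          ((c i).gm b y)⁻¹ a a' * (⟪p i y a, u l⟫_ℝ * ⟪p i y a', u l⟫_ℝ)) + ε / (C + 1) * C := by
      nth_rewrite 2 [hC]
      rw [Finset.mul_sum, ← Finset.sum_add_distrib]
      refine Finset.sum_le_sum fun i _ => ?_
      rw [← integral_const_mul, ← integral_add (i2 m u i) ((i3 i).const_mul _)]
      refine setIntegral_mono_on (i1 i) ((i2 m u i).add ((i3 i).const_mul _)) (tr_meas h i)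
        fun y hy => ?_
      have hm : ∀ a, p i y a ∈ ⋃ i, ⋃ a, (fun y => p i y a) '' K i := fun a =>
        mem_iUnion.2 ⟨i, mem_iUnion.2 ⟨a, y, hy.2, rfl⟩⟩
      rw [mul_left_comm, ← mul_add]
      refine mul_le_mul_of_nonneg_left ?_ (h.nonneg i y)
      rw [Finset.sum_comm (s := (Finset.univ : Finset (Fin m))), Finset.mul_sum,
        ← Finset.sum_add_distrib]
      refine Finset.sum_le_sum fun a _ => ?_
      rw [Finset.sum_comm (s := (Finset.univ : Finset (Fin m))), Finset.mul_sum,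
        ← Finset.sum_add_distrib]
      refine Finset.sum_le_sum fun a' _ => ?_
      rw [← Finset.mul_sum]
      have h1 := hn _ (hm a) _ (hm a')
      have h2 := mul_le_mul_of_nonneg_left h1 (abs_nonneg (((c i).gm b y)⁻¹ a a'))
      rw [← abs_mul] at h2
      have h3 := (le_abs_self _).trans h2
      linarith
    have h4 : ε / (C + 1) * C ≤ ε := by
      rw [div_mul_eq_mul_div, div_le_iff₀ (by positivity)]
      nlinarith
    linarith

/-- `exists_kernel` in every chart (with `Module.finBasis`), `Cov.trace` with `T = P (t / 2)`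
(`IsHeat₂.symm`, `IsHeat₂.inner_self`); `PEU.mul`, `PEU.sum`, `PEU.integral`, `PEn.sum`, and
`PEn.scale` with `s = 1 / √2`. The integrand is non-negative (`quad_le` for the empty family). For
`t > 2` use `IsHeat₂.inner_anti`. -/
theorem Cov.heat [CompleteSpace H] [FiniteDimensional ℝ V] (h : Cov c O K F j φ 𝒟) {K₀ : Type}
    [NormedAddCommGroup K₀] [InnerProductSpace ℝ K₀] {Γ : Submodule ℝ (H × K₀)}
    {P : ℝ → H →L[ℝ] H} (hP : IsHeat₂ Γ P) (hc : ∀ i, (c i).Sm univ)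
    (hd : ∀ i, Dat (c i) Γ (O i) (j i)) {S : Set H}
    (hS : S = (𝒟.map (LinearMap.fst ℝ _ _)).topologicalClosure) :
    (∀ t, 0 < t → trOn S (P t) ≠ ⊤) ∧
      ∀ N, PEn N fun τ => τ ^ n * (trOn S (P (τ ^ 2))).toReal := by
  subst hS
  choose p hp hq using fun N i =>
    exists_kernel (Module.finBasis ℝ V) (hc i) (hd i) hP (h.cpt i) (h.sub i) N
  have key : ∀ N t, t / 2 ∈ Ioc (0 : ℝ) 1 →
      trOn ((𝒟.map (LinearMap.fst ℝ _ _)).topologicalClosure : Set H) (P t) = ENNReal.ofReal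
        (∑ i, ∫ y in F i ∩ K i, φ i y * ∑ a, ∑ a', ((c i).gm (Module.finBasis ℝ V) y)⁻¹ a a' *
          ⟪p N i (t / 2) y a, p N i (t / 2) y a'⟫_ℝ) := fun N t ht =>
    h.trace (Module.finBasis ℝ V) (hP.symm ht.1.le) (hP.inner_self (by linarith [ht.1]))
      (p := fun i => p N i (t / 2)) (fun i => (hp N i _ ht).1) fun i => (hp N i _ ht).2
  refine ⟨fun t ht => ?_, fun N => ?_⟩
  · have h1 : min t 2 / 2 ∈ Ioc (0 : ℝ) 1 :=
      ⟨half_pos (lt_min ht two_pos), by linarith [min_le_right t 2]⟩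
    refine ne_top_of_le_ne_top ?_
      (tr_mono (hP.inner_anti (lt_min ht two_pos).le (min_le_left t 2)))
    rw [key 0 _ h1]
    exact ENNReal.ofReal_ne_top
  · have hs0 : (0 : ℝ) < (√2)⁻¹ := by positivity
    have hs1 : (√2)⁻¹ ≤ (1 : ℝ) := inv_le_one_of_one_le₀ (Real.one_le_sqrt.2 one_le_two)
    have hs2 : ((√2)⁻¹ : ℝ) ^ 2 = 2⁻¹ := by rw [inv_pow, Real.sq_sqrt zero_le_two]
    have h1 : ∀ i, PEn N fun τ => ∫ y in F i ∩ K i, φ i y * ∑ a, ∑ a',
        ((c i).gm (Module.finBasis ℝ V) y)⁻¹ a a' *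
          (τ ^ n * ⟪p N i (τ ^ 2) y a, p N i (τ ^ 2) y a'⟫_ℝ) := fun i => by
      refine PEU.integral (h.cpt i) (tr_meas h i) inter_subset_right
        (PEU.mul (h.cpt i) (h.sm i).continuous.continuousOn (PEU.sum _ fun a _ => PEU.sum _
          fun a' _ => PEU.mul (h.cpt i) (((h.emb i).gm_cont _ a a').mono (h.sub i))
            (hq N i a a'))) fun τ hτ => ?_
      have h2 : τ ^ 2 ∈ Ioc (0 : ℝ) 1 := ⟨pow_pos hτ.1 2, pow_le_one₀ hτ.1.le hτ.2⟩
      exact tr_int h i (tr_form h _ i fun a a' =>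
        continuousOn_const.mul (((hp N i _ h2).1 a).inner ((hp N i _ h2).1 a')))
    refine ((PEn.sum Finset.univ fun i _ => h1 i).scale (√2 ^ n) hs0 hs1).congr fun τ hτ => ?_
    have h3 : ((√2)⁻¹ * τ) ^ 2 = τ ^ 2 / 2 := by rw [mul_pow, hs2]; ring
    have h4 : τ ^ 2 / 2 ∈ Ioc (0 : ℝ) 1 :=
      ⟨half_pos (pow_pos hτ.1 2), by linarith [pow_le_one₀ (n := 2) hτ.1.le hτ.2]⟩
    have h5 : √2 ^ n * ((√2)⁻¹ * τ) ^ n = τ ^ n := by
      rw [← mul_pow, ← mul_assoc, mul_inv_cancel₀ (by positivity), one_mul]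
    rw [key N _ h4, ENNReal.toReal_ofReal (tr_nonneg h _ fun i => p N i (τ ^ 2 / 2)), h3,
      Finset.mul_sum, Finset.mul_sum]
    refine Finset.sum_congr rfl fun i _ => ?_
    rw [← integral_const_mul, ← integral_const_mul]
    refine integral_congr_ae (Eventually.of_forall fun y => ?_)
    simp only [Finset.mul_sum]
    refine Finset.sum_congr rfl fun a _ => Finset.sum_congr rfl fun a' _ => ?_
    rw [← h5]
    ring

end Pool.Agent.Lib.MP_570070_gt.Ex
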