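import Pool.Agent.Lib.MP_570070_gt.Ex.XDefs

/-! Functions that vanish on the diagonal. -/

open MeasureTheory Filter Topology Set
open scoped ContDiff InnerProductSpace

namespace Pool.Agent.Lib.MP_570070_gt.Ex

open Pool.Agent.Lib.MP_570070_gt.An

variable {n : ℕ} {V V' W : Type} [NormedAddCommGroup V] [NormedSpace ℝ V]
  [NormedAddCommGroup V'] [NormedSpace ℝ V'] [NormedAddCommGroup W] [NormedSpace ℝ W]
  {r r' : ℕ} {h h' : E2 n → V}

section

variable {E : Type} [NormedAddCommGroup E] [NormedSpace ℝ E] [FiniteDimensional ℝ E] {K : Set ℝ}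

theorem van_fderiv {G : E × ℝ → ℝ} (hK : IsCompact K) (hG : ContDiff ℝ 1 G) (y : E) :
    DifferentiableAt ℝ (fun y => ∫ p in K, G (y, p)) y ∧
      ∀ v, fderiv ℝ (fun y => ∫ p in K, G (y, p)) y v = ∫ p in K, fderiv ℝ G (y, p) (v, 0) := by
  have hc := hG.continuous
  have hd : Continuous fun q => (fderiv ℝ G q).comp (ContinuousLinearMap.inl ℝ E ℝ) :=
    (hG.continuous_fderiv one_ne_zero).clm_comp continuous_const
  have hd2 : Continuous fun p => (fderiv ℝ G (y, p)).comp (ContinuousLinearMap.inl ℝ E ℝ) :=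
    hd.comp (f := fun p : ℝ => (y, p)) (by fun_prop)
  obtain ⟨C, hC⟩ := ((isCompact_closedBall y 1).prod hK).exists_bound_of_continuousOn
    hd.continuousOn
  have key := hasFDerivAt_integral_of_dominated_of_fderiv_le (𝕜 := ℝ) (μ := volume.restrict K)
    (F := fun x p => G (x, p))
    (F' := fun x p => (fderiv ℝ G (x, p)).comp (ContinuousLinearMap.inl ℝ E ℝ))
    (bound := fun _ => C) (Metric.closedBall_mem_nhds y one_pos)
    (Filter.Eventually.of_forall fun x => Continuous.aestronglyMeasurable (by fun_prop))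
    (ContinuousOn.integrableOn_compact hK (by fun_prop)) hd2.aestronglyMeasurable
    ((ae_restrict_mem hK.measurableSet).mono fun p hp x hx => hC (x, p) ⟨hx, hp⟩)
    (continuousOn_const.integrableOn_compact hK)
    (Filter.Eventually.of_forall fun p x _ =>
      (hG.differentiable one_ne_zero (x, p)).hasFDerivAt.comp x (hasFDerivAt_prodMk_left x p))
  refine ⟨key.differentiableAt, fun v => ?_⟩
  rw [key.fderiv, ContinuousLinearMap.integral_apply (hd2.continuousOn.integrableOn_compact hK)]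
  rfl

theorem van_setInt {k : ℕ} {G : E × ℝ → ℝ} (hK : IsCompact K) (hG : ContDiff ℝ k G) :
    ContDiff ℝ k fun y => ∫ p in K, G (y, p) := by
  induction k generalizing G with
  | zero =>
    exact contDiff_zero.2 (continuous_parametric_integral_of_continuous
      (f := fun y p => G (y, p)) hG.continuous hK)
  | succ k ih =>
    have h1 : ContDiff ℝ 1 G := hG.of_le (by exact_mod_cast Nat.le_add_left 1 k)
    rw [Nat.cast_succ, contDiff_succ_iff_fderiv] at hG ⊢
    refine ⟨fun y => (van_fderiv hK h1 y).1, by simp, contDiff_clm_apply_iff.2 fun v => ?_⟩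
    rw [funext fun y => (van_fderiv hK h1 y).2 v]
    exact ih (G := fun q => fderiv ℝ G q (v, 0)) (hG.2.2.clm_apply contDiff_const)

end

theorem van_diff {E : Type} [NormedAddCommGroup E] [NormedSpace ℝ E] {f : E → V}
    (hf : ContDiff ℝ ∞ f) (p : E) : DifferentiableAt ℝ f p :=
  hf.differentiable (by simp) p

theorem van_dec (L : E2 n →L[ℝ] V) (ξ : Eu n) : L (ξ, 0) = ∑ i, ξ i • L (bas i, 0) := by
  have h1 : ((ξ, 0) : E2 n) = ∑ i, ξ i • ((bas i, 0) : E2 n) := by
    ext j <;> simp [Prod.fst_sum, Prod.snd_sum, bas, Pi.single_apply]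
  rw [h1, map_sum]
  simp only [map_smul]

/-- Copy the proof of `contDiff_integral_param` (and its two lemmas) from An/DivA.lean; do not
import that file. -/
theorem contDiff_param {E : Type} [NormedAddCommGroup E] [NormedSpace ℝ E]
    [FiniteDimensional ℝ E] {G : E × ℝ → ℝ} (hG : ContDiff ℝ ∞ G) (a b : ℝ) :
    ContDiff ℝ ∞ fun y => ∫ t in a..b, G (y, t) := by
  have key : ∀ a b : ℝ, ContDiff ℝ ∞ fun y => ∫ t in Ioc a b, G (y, t) := fun a b => by
    simp only [← integral_Icc_eq_integral_Ioc]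
    exact contDiff_infty.2 fun k => van_setInt isCompact_Icc (contDiff_infty.1 hG k)
  exact (key a b).sub (key b a)

theorem contDiff_ze (i : Fin n) : ContDiff ℝ ∞ (ze i) := by
  unfold ze
  fun_prop

theorem contDiff_dx (i : Fin n) (hh : ContDiff ℝ ∞ h) : ContDiff ℝ ∞ (dx i h) := by
  exact (contDiff_infty_iff_fderiv.1 hh).2.clm_apply contDiff_const

theorem dx_add (i : Fin n) (hh : ContDiff ℝ ∞ h) (hh' : ContDiff ℝ ∞ h') :
    dx i (fun p => h p + h' p) = fun p => dx i h p + dx i h' p := by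
  funext p
  rw [dx, fderiv_fun_add (van_diff hh p) (van_diff hh' p)]
  rfl

theorem dx_sub (i : Fin n) (hh : ContDiff ℝ ∞ h) (hh' : ContDiff ℝ ∞ h') :
    dx i (fun p => h p - h' p) = fun p => dx i h p - dx i h' p := by
  funext p
  rw [dx, fderiv_fun_sub (van_diff hh p) (van_diff hh' p)]
  rfl

theorem dx_smul (i : Fin n) {a : E2 n → ℝ} (ha : ContDiff ℝ ∞ a) (hh : ContDiff ℝ ∞ h) :
    dx i (fun p => a p • h p) = fun p => a p • dx i h p + dx i a p • h p := by
  funext p
  rw [dx, fderiv_fun_smul (van_diff ha p) (van_diff hh p)]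
  rfl

theorem dx_const_smul (i : Fin n) (a : ℝ) (hh : ContDiff ℝ ∞ h) :
    dx i (fun p => a • h p) = fun p => a • dx i h p := by
  funext p
  rw [dx, fderiv_fun_const_smul (van_diff hh p)]
  rfl

theorem dx_sum (i : Fin n) {ι : Type} (s : Finset ι) {g : ι → E2 n → V}
    (hg : ∀ j, ContDiff ℝ ∞ (g j)) :
    dx i (fun p => ∑ j ∈ s, g j p) = fun p => ∑ j ∈ s, dx i (g j) p := by
  funext p
  rw [dx, fderiv_fun_sum fun j _ => van_diff (hg j) p, _root_.sum_apply]
  rfl

theorem dx_ze (i j : Fin n) : dx i (ze j) = fun _ => if i = j then 1 else 0 := by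
  funext p
  have h1 := ((ContinuousLinearMap.proj j).comp (ContinuousLinearMap.fst ℝ (Eu n) (Eu n)) -
    (ContinuousLinearMap.proj j).comp (ContinuousLinearMap.snd ℝ (Eu n) (Eu n))).fderiv (x := p)
  refine (DFunLike.congr_fun h1 (bas i, 0)).trans ?_
  simp [bas, Pi.single_apply, eq_comm]

theorem dx_snd (i : Fin n) {a : Eu n → V} (ha : ContDiff ℝ ∞ a) :
    dx i (fun p => a p.2) = fun _ => 0 := by
  funext p
  have h1 := ((van_diff ha p.2).hasFDerivAt.comp p hasFDerivAt_snd).fderiv
  refine (DFunLike.congr_fun h1 (bas i, 0)).trans ?_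
  simp

theorem dx_congr (i : Fin n) {p : E2 n} (e : h =ᶠ[𝓝 p] h') : dx i h =ᶠ[𝓝 p] dx i h' := by
  exact (e.fderiv (𝕜 := ℝ)).mono fun q hq => DFunLike.congr_fun hq _

/-- Chain rule for `x ↦ (x, y)`. -/
theorem pv_eq_dx (i : Fin n) (hh : ContDiff ℝ ∞ h) (y : Eu n) :
    pv i (fun x => h (x, y)) = fun x => dx i h (x, y) := by
  funext x
  have h1 := (HasFDerivAt.comp x (f := fun x => (x, y)) (van_diff hh (x, y)).hasFDerivAt
    (hasFDerivAt_prodMk_left x y)).fderiv
  exact DFunLike.congr_fun h1 (bas i)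

theorem Van.contDiff (hh : Van r h) : ContDiff ℝ ∞ h := by
  induction r generalizing h with
  | zero => exact hh
  | succ r ih =>
    obtain ⟨g, hg, rfl⟩ := hh
    exact ContDiff.sum fun i _ => (contDiff_ze i).smul (ih (hg i))

theorem van_zero (r : ℕ) : Van r fun _ : E2 n => (0 : V) := by
  induction r with
  | zero => exact contDiff_const
  | succ r ih => exact ⟨fun _ _ => 0, fun _ => ih, by simp⟩

theorem Van.add (hh : Van r h) (hh' : Van r h') : Van r fun p => h p + h' p := by
  induction r generalizing h h' with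
  | zero => exact ContDiff.add hh hh'
  | succ r ih =>
    obtain ⟨g, hg, rfl⟩ := hh
    obtain ⟨g', hg', rfl⟩ := hh'
    exact ⟨_, fun i => ih (hg i) (hg' i), by simp only [smul_add, Finset.sum_add_distrib]⟩

theorem Van.sum {ι : Type} (s : Finset ι) {g : ι → E2 n → V} (hg : ∀ j ∈ s, Van r (g j)) :
    Van r fun p => ∑ j ∈ s, g j p := by
  classical
  induction s using Finset.induction_on with
  | empty => simpa using van_zero r
  | insert a s ha ih =>
    simp only [Finset.sum_insert ha]
    exact (hg a (Finset.mem_insert_self _ _)).add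
      (ih fun j hj => hg j (Finset.mem_insert_of_mem hj))

theorem Van.clm {B : E2 n → V →L[ℝ] W} (hB : ContDiff ℝ ∞ B) (hh : Van r h) :
    Van r fun p => B p (h p) := by
  induction r generalizing h with
  | zero => exact hB.clm_apply hh
  | succ r ih =>
    obtain ⟨g, hg, rfl⟩ := hh
    exact ⟨_, fun i => ih (hg i), by simp only [map_sum, map_smul]⟩

theorem Van.smul {a : E2 n → ℝ} (ha : ContDiff ℝ ∞ a) (hh : Van r h) :
    Van r fun p => a p • h p := by
  exact hh.clm (B := fun p => a p • ContinuousLinearMap.id ℝ V) (ha.smul contDiff_const)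

theorem Van.ze (i : Fin n) (hh : Van r h) : Van (r + 1) fun p => ze i p • h p := by
  refine ⟨fun j => if j = i then h else fun _ => 0, fun j => ?_, funext fun p => ?_⟩
  · dsimp only
    split_ifs
    exacts [hh, van_zero r]
  · rw [Finset.sum_eq_single i (fun j _ hj => by simp [hj]) (by simp)]
    simp

theorem Van.of_le (hr : r' ≤ r) (hh : Van r h) : Van r' h := by
  induction hr generalizing h with
  | refl => exact hh
  | step _ ih =>
    obtain ⟨g, hg, rfl⟩ := hh
    exact ih (Van.sum _ fun i _ => (hg i).smul (contDiff_ze i))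

theorem Van.bil {B : E2 n → V →L[ℝ] V' →L[ℝ] W} (hB : ContDiff ℝ ∞ B) {g : E2 n → V'}
    (hh : Van r h) (hg : Van r' g) : Van (r + r') fun p => B p (h p) (g p) := by
  induction r generalizing h with
  | zero =>
    rw [zero_add]
    exact hg.clm (hB.clm_apply hh)
  | succ r ih =>
    obtain ⟨k, hk, rfl⟩ := hh
    rw [Nat.add_right_comm]
    exact ⟨_, fun i => ih (hk i), by
      simp only [map_sum, map_smul, _root_.sum_apply, _root_.smul_apply]⟩

theorem Van.mul {a : E2 n → ℝ} (ha : Van r a) (hh : Van r' h) :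
    Van (r + r') fun p => a p • h p := by
  exact ha.bil (B := fun _ => ContinuousLinearMap.lsmul ℝ ℝ) contDiff_const hh

theorem Van.dx (i : Fin n) (hh : Van r h) : Van (r - 1) (dx i h) := by
  induction r generalizing h with
  | zero => exact contDiff_dx i hh
  | succ r ih =>
    obtain ⟨g, hg, rfl⟩ := hh
    rw [dx_sum i _ fun j => (contDiff_ze j).fun_smul (hg j).contDiff]
    refine Van.sum _ fun j _ => ?_
    rw [dx_smul i (contDiff_ze j) (hg j).contDiff]
    exact (((ih (hg j)).ze j).of_le (by omega)).add ((hg j).smul (contDiff_dx i (contDiff_ze j)))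

/-- `h (x, y) = ∑ i, (x i - y i) * ∫ s in 0..1, dx i h (y + s • (x - y), y)`. -/
theorem hadamard {h : E2 n → ℝ} (hh : ContDiff ℝ ∞ h) (h0 : ∀ y, h (y, y) = 0) : Van 1 h := by
  have hG : ∀ i, ContDiff ℝ ∞ fun q : E2 n × ℝ =>
      dx i h (q.1.2 + q.2 • (q.1.1 - q.1.2), q.1.2) := fun i =>
    (contDiff_dx i hh).comp (by fun_prop)
  refine ⟨_, fun i => contDiff_param (hG i) 0 1, funext fun ⟨x, y⟩ => ?_⟩
  have h1 : ∀ i, Continuous fun s : ℝ => dx i h (y + s • (x - y), y) := fun i =>
    (contDiff_dx i hh).continuous.comp (by fun_prop)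
  have h2 : ∀ s : ℝ, HasDerivAt (fun s : ℝ => h (y + s • (x - y), y))
      (∑ i, ze i (x, y) • dx i h (y + s • (x - y), y)) s := fun s => by
    have h3 := (van_diff hh (y + s • (x - y), y)).hasFDerivAt.comp_hasDerivAt s
      ((((hasDerivAt_id s).smul_const (x - y)).const_add y).prodMk (hasDerivAt_const s y))
    rwa [one_smul, van_dec] at h3
  have h3 := intervalIntegral.integral_eq_sub_of_hasDerivAt (a := 0) (b := 1) (fun s _ => h2 s)
    ((continuous_finsetSum _ fun i _ => (h1 i).fun_const_smul _).intervalIntegrable _ _)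
  rw [one_smul, zero_smul, add_zero, add_sub_cancel, h0, sub_zero,
    intervalIntegral.integral_finsetSum fun i _ => ((h1 i).fun_const_smul _).intervalIntegrable _ _]
    at h3
  simp only [← h3, intervalIntegral.integral_smul]

theorem Van.bound (hh : Van r h) {S : Set (E2 n)} (hS : IsCompact S) :
    ∃ C, 0 ≤ C ∧ ∀ p ∈ S, ‖h p‖ ≤ C * ‖p.1 - p.2‖ ^ r := by
  induction r generalizing h with
  | zero =>
    obtain ⟨C, hC⟩ := hS.exists_bound_of_continuousOn hh.contDiff.continuous.continuousOn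
    exact ⟨max C 0, le_max_right _ _, fun p hp => by simpa using Or.inl (hC p hp)⟩
  | succ r ih =>
    obtain ⟨g, hg, rfl⟩ := hh
    choose C h0 hC using fun i => ih (hg i)
    refine ⟨∑ i, C i, Finset.sum_nonneg fun i _ => h0 i, fun p hp => ?_⟩
    rw [Finset.sum_mul]
    refine norm_sum_le_of_le _ fun i _ => ?_
    rw [norm_smul, pow_succ', mul_left_comm]
    exact mul_le_mul (norm_le_pi_norm (p.1 - p.2) i) (hC i p hp) (norm_nonneg _) (norm_nonneg _)

/-- Induction on `r` for all `m`. For `r = 0` take `v = m⁻¹ • h`. For `h = ∑ i, ze i • g i` take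
`v = ∑ i, ze i • v i` with `v i` the solution for `g i` and `m + 1`:
`eul (ze i • v) = ze i • (v + eul v)`. -/
theorem Van.solve {m : ℤ} (hh : Van r h) (hm : 0 < m + r) :
    ∃ v, Van r v ∧ Van (r + 1) fun p => (m : ℝ) • v p + eul v p - h p := by
  induction r generalizing m h with
  | zero =>
    have h1 : (m : ℝ) ≠ 0 := Int.cast_ne_zero.2 (by omega)
    have h2 : ContDiff ℝ ∞ fun p => (m : ℝ)⁻¹ • h p := contDiff_const.smul hh
    refine ⟨_, h2, _, fun i => contDiff_dx i h2, funext fun p => ?_⟩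
    rw [smul_inv_smul₀ h1, add_sub_cancel_left, eul]
  | succ r ih =>
    obtain ⟨g, hg, rfl⟩ := hh
    choose v h1 h2 using fun i => ih (m := m + 1) (hg i) (by omega)
    refine ⟨_, ⟨v, h1, rfl⟩, _, h2, funext fun p => ?_⟩
    have h3 : eul (fun p => ∑ i, Ex.ze i p • v i p) p =
        ∑ i, Ex.ze i p • eul (v i) p + ∑ i, Ex.ze i p • v i p := by
      simp only [eul, dx_sum _ _ fun j => (contDiff_ze j).fun_smul (h1 j).contDiff,
        dx_smul _ (contDiff_ze _) (h1 _).contDiff, dx_ze, Finset.sum_add_distrib, smul_add,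
        Finset.smul_sum, ite_smul, one_smul, zero_smul, Finset.sum_ite_eq, Finset.mem_univ, if_true]
      rw [Finset.sum_comm]
      simp only [smul_comm (Ex.ze _ p) (Ex.ze _ p)]
    rw [h3, Finset.smul_sum, ← Finset.sum_add_distrib, ← Finset.sum_add_distrib,
      ← Finset.sum_sub_distrib]
    refine Finset.sum_congr rfl fun i _ => ?_
    push_cast
    module

/-- Induction on `r`; for `r = 0` take `h₀ p = h (p.2, p.2)` and use `hadamard`. -/
theorem Van.homog {h : E2 n → ℝ} (hh : Van r h) : ∃ h₀, Van r h₀ ∧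
    Van (r + 1) (fun p => h p - h₀ p) ∧
      ∀ (τ : ℝ) (ξ y : Eu n), h₀ (y + τ • ξ, y) = τ ^ r * h₀ (y + ξ, y) := by
  induction r generalizing h with
  | zero =>
    have h1 : ContDiff ℝ ∞ fun p : E2 n => h (p.2, p.2) := hh.contDiff.comp (by fun_prop)
    exact ⟨_, h1, hadamard (hh.contDiff.sub h1) fun y => sub_self _, fun τ ξ y => by simp⟩
  | succ r ih =>
    obtain ⟨g, hg, rfl⟩ := hh
    choose k h1 h2 h3 using fun i => ih (hg i)
    refine ⟨_, ⟨k, h1, rfl⟩, ⟨_, h2, by simp only [smul_sub, Finset.sum_sub_distrib]⟩,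
      fun τ ξ y => ?_⟩
    rw [Finset.mul_sum]
    refine Finset.sum_congr rfl fun i _ => ?_
    simp only [h3, Ex.ze, Pi.add_apply, Pi.smul_apply, add_sub_cancel_left, smul_eq_mul]
    ring

end Pool.Agent.Lib.MP_570070_gt.Ex
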