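import Pool.Agent.Lib.MP_570070_gt.An.AHeat

/-! Definitions for the small time expansion of heat traces. -/

open MeasureTheory Filter Topology Set
open scoped ContDiff InnerProductSpace

namespace Pool.Agent.Lib.MP_570070_gt.Ex

open Pool.Agent.Lib.MP_570070_gt.An

noncomputable section

/-- Pairs of points `(x, y)`. -/
abbrev E2 (n : ℕ) : Type := Eu n × Eu n

variable {n : ℕ} {V : Type} [NormedAddCommGroup V] [NormedSpace ℝ V]

/-- Smooth with compact support in `O`. -/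
def Tst (O : Set (Eu n)) (f : Eu n → V) : Prop :=
  ContDiff ℝ ∞ f ∧ HasCompactSupport f ∧ tsupport f ⊆ O

/-- The derivative in the direction `i`. -/
def pv (i : Fin n) (f : Eu n → V) : Eu n → V := fun y => fderiv ℝ f y (bas i)

/-- The coefficients of an operator of Laplace type, and of a scalar product density. -/
structure Co (n : ℕ) (V : Type) [NormedAddCommGroup V] [NormedSpace ℝ V] where
  A : Eu n → Matrix (Fin n) (Fin n) ℝ
  B : Fin n → Eu n → V →L[ℝ] V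
  C : Eu n → V →L[ℝ] V
  q : Eu n → V →L[ℝ] V →L[ℝ] ℝ

/-- The operator. -/
def Co.lam (c : Co n V) (f : Eu n → V) : Eu n → V := fun y =>
  -∑ i, ∑ j, (c.A y)⁻¹ i j • pv i (pv j f) y + ∑ i, c.B i y (pv i f y) + c.C y (f y)

/-- The coefficients are smooth on `U`. -/
structure Co.Sm (c : Co n V) (U : Set (Eu n)) : Prop where
  A : ∀ i j, ContDiffOn ℝ ∞ (fun y => c.A y i j) U
  pos : ∀ y ∈ U, (c.A y).PosDef
  B : ∀ i, ContDiffOn ℝ ∞ (c.B i) U
  C : ContDiffOn ℝ ∞ c.C U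
  q : ContDiffOn ℝ ∞ c.q U

/-- The Gram matrix of the scalar product density. -/
def Co.gm (c : Co n V) {ι : Type} (b : ι → V) (y : Eu n) : Matrix ι ι ℝ :=
  Matrix.of fun a a' => c.q y (b a) (b a')

/-- `j` embeds the test functions on `O` isometrically in `H`. -/
structure Emb {H : Type} [NormedAddCommGroup H] [InnerProductSpace ℝ H] (c : Co n V)
    (O : Set (Eu n)) (j : (Eu n → V) → H) : Prop where
  isOpen : IsOpen O
  cont : ContinuousOn c.q O
  sym : ∀ y ∈ O, ∀ v w, c.q y v w = c.q y w v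
  pos : ∀ y ∈ O, ∀ v, v ≠ 0 → 0 < c.q y v v
  inner : ∀ f g, Tst O f → Tst O g → ⟪j f, j g⟫_ℝ = ∫ y, c.q y (f y) (g y)

/-- On test functions the Laplacian of `Γ` is the operator of `c`. -/
structure Dat {H K : Type} [NormedAddCommGroup H] [InnerProductSpace ℝ H] [NormedAddCommGroup K]
    [InnerProductSpace ℝ K] (c : Co n V) (Γ : Submodule ℝ (H × K)) (O : Set (Eu n))
    (j : (Eu n → V) → H) : Prop extends Emb c O j where
  lap : ∀ f, Tst O f → ∃ ξ, Lp Γ (j f) ξ (j (c.lam f))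

/-- The coordinates of `x - y`. -/
def ze (i : Fin n) (p : E2 n) : ℝ := p.1 i - p.2 i

/-- Smooth functions that vanish to order `r` on the diagonal. -/
def Van : ℕ → (E2 n → V) → Prop
  | 0, h => ContDiff ℝ ∞ h
  | r + 1, h => ∃ g : Fin n → E2 n → V, (∀ i, Van r (g i)) ∧ h = fun p => ∑ i, ze i p • g i p

/-- The derivative with respect to `x i`. -/
def dx (i : Fin n) (h : E2 n → V) : E2 n → V := fun p => fderiv ℝ h p (bas i, 0)

/-- The Euler operator. -/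
def eul (h : E2 n → V) : E2 n → V := fun p => ∑ i, ze i p • dx i h p

/-- Terms of weight at least `w`; the time has weight two. -/
inductive Tm (w : ℤ) : (ℝ → E2 n → V) → Prop
  | mono (m : ℤ) (r : ℕ) (h : E2 n → V) : w ≤ 2 * m + r → Van r h → Tm w fun t p => t ^ m • h p
  | add {f g : ℝ → E2 n → V} : Tm w f → Tm w g → Tm w fun t p => f t p + g t p
  | congr {f g : ℝ → E2 n → V} : Tm w f → (∀ t, 0 < t → g t = f t) → Tm w g

/-- The time derivative. -/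
def dt (u : ℝ → E2 n → V) : ℝ → E2 n → V := fun t p => deriv (fun s => u s p) t

/-- The covector `A y (x - y)`. -/
def Co.ell (c : Co n V) (i : Fin n) (p : E2 n) : ℝ := ∑ j, c.A p.2 i j * ze j p

/-- The square of the length of `x - y` for the metric at `y`. -/
def Co.sq (c : Co n V) (p : E2 n) : ℝ := ∑ i, ze i p * c.ell i p

/-- The Gaussian. -/
def Co.gs (c : Co n V) (t : ℝ) (p : E2 n) : ℝ :=
  Real.exp (-((n : ℝ) / 2 * Real.log t) - c.sq p / (4 * t))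

/-- The integral of the Gaussian. -/
def Co.gam (c : Co n V) (y : Eu n) : ℝ := ∫ ξ, Real.exp (-(c.sq (y + ξ, y) / 4))

/-- The derivative conjugated by the Gaussian. -/
def Co.nab (c : Co n V) (i : Fin n) (u : ℝ → E2 n → V) : ℝ → E2 n → V := fun t p =>
  dx i (u t) p - ((2 * t)⁻¹ * c.ell i p) • u t p

/-- The model operator. -/
def Co.opL (c : Co n V) (u : ℝ → E2 n → V) : ℝ → E2 n → V := fun t p =>
  dt u t p + t⁻¹ • eul (u t) p - ∑ i, ∑ j, (c.A p.2)⁻¹ i j • dx i (dx j (u t)) p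

/-- The perturbation. -/
def Co.opR (c : Co n V) (u : ℝ → E2 n → V) : ℝ → E2 n → V := fun t p =>
  -∑ i, ∑ j, ((c.A p.1)⁻¹ i j - (c.A p.2)⁻¹ i j) • c.nab i (c.nab j u) t p +
    ∑ i, c.B i p.1 (c.nab i u t p) + c.C p.1 (u t p)

/-- The heat operator conjugated by the Gaussian. -/
def Co.opH (c : Co n V) (u : ℝ → E2 n → V) : ℝ → E2 n → V := fun t p =>
  c.opL u t p + c.opR u t p

/-- The kernel with amplitude `u`. -/
def Co.ker (c : Co n V) (u : ℝ → E2 n → V) (t : ℝ) (y : Eu n) : Eu n → V := fun x =>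
  c.gs t (x, y) • u t (x, y)

/-- The amplitude vanishes for `x` outside a compact subset of `O`. -/
def Cut (O : Set (Eu n)) (u : ℝ → E2 n → V) : Prop :=
  ∃ K', IsCompact K' ∧ K' ⊆ O ∧ ∀ t x y, x ∉ K' → u t (x, y) = 0

/-- A parametrix near `K` with initial value `v` and error of order `M`. -/
structure Good (c : Co n V) (O K : Set (Eu n)) (M : ℕ) (v : V) (u : ℝ → E2 n → V) : Prop where
  tm : Tm 0 u
  cut : Cut O u
  lead : ∃ χ : Eu n → ℝ, ContDiff ℝ ∞ χ ∧ HasCompactSupport χ ∧ (∀ y ∈ K, χ y = 1) ∧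
    Tm 1 fun t p => u t p - χ p.1 • v
  rem : ∃ C, ∀ t ∈ Ioc (0 : ℝ) 1, ∀ y ∈ K, ∀ x, c.gs t (x, y) * ‖c.opH u t (x, y)‖ ≤ C * √t ^ M

/-- An expansion of order `N` at zero. -/
def PEn (N : ℕ) (g : ℝ → ℝ) : Prop :=
  ∃ (b : ℕ → ℝ) (C : ℝ), ∀ τ ∈ Ioc (0 : ℝ) 1,
    |g τ - ∑ j ∈ Finset.range N, b j * τ ^ j| ≤ C * τ ^ N

/-- An expansion of order `N` at zero, uniform on `K`. -/
def PEU (K : Set (Eu n)) (N : ℕ) (g : ℝ → Eu n → ℝ) : Prop :=
  ∃ (b : ℕ → Eu n → ℝ) (C : ℝ), (∀ j, IntegrableOn (b j) K) ∧ ∀ τ ∈ Ioc (0 : ℝ) 1, ∀ y ∈ K,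
    |g τ y - ∑ j ∈ Finset.range N, b j y * τ ^ j| ≤ C * τ ^ N

/-- The functional `⟪v, j ·⟫` on test functions with support in `K` has the density `r`. -/
def Rep {H ι : Type} [NormedAddCommGroup H] [InnerProductSpace ℝ H] [Fintype ι]
    (b : Module.Basis ι ℝ V) (O K : Set (Eu n)) (j : (Eu n → V) → H) (v : H)
    (r : Eu n → ι → ℝ) : Prop :=
  ∀ f, Tst O f → tsupport f ⊆ K → ⟪j f, v⟫_ℝ = ∫ y in K, ∑ a, b.repr (f y) a * r y a

/-- Finitely many charts that cover an open set. `𝒟` consists of the test vectors together with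
their expressions in the charts. -/
structure Cov {H β : Type} [NormedAddCommGroup H] [InnerProductSpace ℝ H] [Fintype β]
    (c : β → Co n V) (O K F : β → Set (Eu n)) (j : β → (Eu n → V) → H) (φ : β → Eu n → ℝ)
    (𝒟 : Submodule ℝ (H × (β → Eu n → V))) : Prop where
  emb : ∀ i, Emb (c i) (O i) (j i)
  cpt : ∀ i, IsCompact (K i)
  sub : ∀ i, K i ⊆ O i
  isOpen : ∀ i, IsOpen (F i)
  sm : ∀ i, ContDiff ℝ ∞ (φ i)
  nonneg : ∀ i y, 0 ≤ φ i y
  supp : ∀ i, tsupport (φ i) ⊆ interior (K i)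
  smooth : ∀ z ∈ 𝒟, ∀ i, ContDiffOn ℝ ∞ (z.2 i) (O i)
  zero : ∀ z ∈ 𝒟, ∀ i, ∀ y ∈ O i, y ∉ F i → z.2 i y = 0
  sum : ∀ z ∈ 𝒟, z.1 = ∑ i, j i fun y => φ i y • z.2 i y
  inner : ∀ z ∈ 𝒟, ∀ i g, Tst (O i) g → ⟪j i g, z.1⟫_ℝ = ∫ y, (c i).q y (g y) (z.2 i y)
  mem : ∀ i g, Tst (O i ∩ F i) g → ∃ f, (j i g, f) ∈ 𝒟

end

end Pool.Agent.Lib.MP_570070_gt.Ex
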