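import Pool.Agent.Lib.MP_570070_gt.Ex.Eig
import Pool.Agent.Lib.MP_570070_gt.An.AZeta

/-! The zeta function of the eigenvalues. -/

open MeasureTheory Filter Topology Set
open scoped ContDiff InnerProductSpace

namespace Pool.Agent.Lib.MP_570070_gt.Ex

open Pool.Agent.Lib.MP_570070_gt.An

theorem zeta_tail {g : ℝ → ℝ} (ha : AntitoneOn g (Ioi 0)) {δ C : ℝ} (hδ : 0 < δ)
    (hb : ∀ t, 1 < t → |g t| ≤ C * Real.exp (-δ * t)) : ∃ E : ℂ → ℂ, Differentiable ℂ E ∧ ∀ s,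
      IntegrableOn (fun t : ℝ => (t : ℂ) ^ (s - 1) * (g t : ℂ)) (Ioi 1) ∧
      E s = ∫ t in Ioi (1 : ℝ), (t : ℂ) ^ (s - 1) * (g t : ℂ) := by
  obtain ⟨f, hf⟩ : ∃ f : ℝ → ℂ, f = (Ioi 1).indicator fun t => (g t : ℂ) := ⟨_, rfl⟩
  have h1 : ∀ t, t ∉ Ioi (1 : ℝ) → f t = 0 := fun t ht => by rw [hf, indicator_of_notMem ht]
  have h2 : ∀ (s : ℂ), ∀ t ∈ Ioi (1 : ℝ),
      (t : ℂ) ^ (s - 1) • f t = (t : ℂ) ^ (s - 1) * (g t : ℂ) := fun s t ht => by
    rw [hf, indicator_of_mem ht, smul_eq_mul]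
  have h3 : LocallyIntegrableOn f (Ioi 0) :=
    (locallyIntegrableOn_iff isOpen_Ioi.isLocallyClosed).2 fun k hk hk' => by
      rw [hf]
      exact ((ha.mono hk).integrableOn_isCompact hk').ofReal.indicator measurableSet_Ioi
  have h4 : f =O[atTop] fun t => Real.exp (-δ * t) :=
    .of_bound C ((eventually_gt_atTop 1).mono fun t ht => by
      rw [hf, indicator_of_mem (mem_Ioi.2 ht), Complex.norm_real, Real.norm_eq_abs,
        Real.norm_eq_abs, abs_of_pos (Real.exp_pos _)]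
      exact hb t ht)
  have h5 : ∀ b : ℝ, f =O[𝓝[>] 0] (· ^ (-b)) := fun b =>
    (Asymptotics.isBigO_zero _ _).congr' (Filter.Eventually.mono (Ioo_mem_nhdsGT one_pos)
      fun t ht => (h1 t ht.2.le.not_gt).symm) EventuallyEq.rfl
  refine ⟨mellin f, fun s => mellin_differentiableAt_of_isBigO_rpow_exp hδ h3 h4 (h5 _)
    (sub_one_lt _), fun s => ⟨?_, ?_⟩⟩
  · exact (IntegrableOn.mono_set (mellinConvergent_of_isBigO_rpow_exp hδ h3 h4 (h5 _)
      (sub_one_lt _)) (Ioi_subset_Ioi zero_le_one)).congr_fun (h2 s) measurableSet_Ioi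
  · rw [mellin, setIntegral_eq_of_subset_of_forall_sdiff_eq_zero measurableSet_Ioi
      (Ioi_subset_Ioi zero_le_one) fun t ht => by rw [h1 t ht.2, smul_zero]]
    exact setIntegral_congr_fun measurableSet_Ioi (h2 s)

theorem zeta_sum {ι : Type} {l : ι → ℝ} (h0 : ∀ j, 0 < l j) {g : ℝ → ℝ}
    (hg : ∀ t, 0 < t → HasSum (fun j => Real.exp (-(l j * t))) (g t)) {s : ℂ} (hs : 0 < s.re)
    (hI : IntegrableOn (fun t : ℝ => (t : ℂ) ^ (s - 1) * (g t : ℂ)) (Ioi 0)) :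
    HasSum (fun j => ((l j : ℝ) : ℂ) ^ (-s))
      ((Complex.Gamma s)⁻¹ * ∫ t in Ioi (0 : ℝ), (t : ℂ) ^ (s - 1) * (g t : ℂ)) := by
  have : Countable ι := countable_univ_iff.1
    ((hg 1 one_pos).summable.countable_support.mono fun j _ => (Real.exp_pos _).ne')
  have hΓ := Real.Gamma_pos_of_pos hs
  have h1 := fun j => Real.integral_rpow_mul_exp_neg_mul_Ioi hs (h0 j)
  have h2 : ∀ j, 0 < (1 / l j) ^ s.re * Real.Gamma s.re := fun j => by
    have := h0 j
    positivity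
  have h3 : Summable fun j => (1 / l j) ^ s.re * Real.Gamma s.re := by
    refine summable_of_sum_le (c := ∫ t in Ioi (0 : ℝ), ‖(t : ℂ) ^ (s - 1) * (g t : ℂ)‖)
      (fun j => (h2 j).le) fun u => ?_
    have h4 := fun j (_ : j ∈ u) => Integrable.of_integral_ne_zero ((h1 j).trans_ne (h2 j).ne')
    simp only [← h1]
    rw [← integral_finsetSum u h4]
    refine setIntegral_mono_on (integrable_finsetSum u h4) hI.norm measurableSet_Ioi fun t ht => ?_
    rw [← Finset.mul_sum, norm_mul, Complex.norm_cpow_eq_rpow_re_of_pos ht, Complex.norm_real]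
    exact mul_le_mul_of_nonneg_left ((sum_le_hasSum u (fun _ _ => (Real.exp_pos _).le)
      (hg t ht)).trans (le_abs_self _)) (Real.rpow_nonneg (le_of_lt ht) _)
  have h4 := (hasSum_mellin (a := fun _ => 1) (p := l) (F := fun t => (g t : ℂ))
    (fun j => Or.inr (h0 j)) hs (fun t ht => by
      simpa only [one_mul, neg_mul] using Complex.hasSum_ofReal.2 (hg t ht))
    ((h3.mul_right (Real.Gamma s.re)⁻¹).congr fun j => by
      rw [mul_inv_cancel_right₀ hΓ.ne', norm_one, Real.div_rpow zero_le_one (h0 j).le,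
        Real.one_rpow])).mul_left (Complex.Gamma s)⁻¹
  simpa only [mul_one, div_eq_mul_inv, inv_mul_cancel_left₀ (Complex.Gamma_ne_zero_of_re_pos hs),
    Complex.cpow_neg, mellin, smul_eq_mul] using h4

/-- Let `b` be the number of zero eigenvalues (`gap_of_summable`), `g t = θ t - b` the sum over the
others, `0 ≤ g t ≤ exp (-δ (t - 1)) * g 1` for `t ≥ 1`. The Mellin transform `E` of the indicator of
`(1, ∞)` times `g` is entire (`mellin_differentiableAt_of_isBigO_rpow_exp`). Take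
`ζ = ζ₀ + (Γ s)⁻¹ * E s`. For real `σ > max s₀ 0` the finite sums of `l j ^ (-σ) * Γ σ` are bounded by
`∫ t ^ (σ - 1) * g t` (`Real.integral_rpow_mul_exp_neg_mul_Ioi`), so `hasSum_mellin` applies
(`Summable.countable_support`). -/
theorem zeta_of_heat {ι : Type} {l : ι → ℝ} (h0 : ∀ j, 0 ≤ l j) {θ : ℝ → ℝ}
    (hs : ∀ t, 0 < t → HasSum (fun j => Real.exp (-(l j * t))) (θ t))
    (hz : ∀ b, ∃ z, IsZeta (fun t => θ t - b) z) :
    ∃ (s₀ : ℝ) (ζ : ℂ → ℂ), MeromorphicOn ζ univ ∧ AnalyticAt ℂ ζ 0 ∧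
      ∀ s : ℂ, s₀ < s.re → HasSum (fun j : {j // l j ≠ 0} => ((l j : ℝ) : ℂ) ^ (-s)) (ζ s) := by
  obtain ⟨hfin, δ, hδ, hgap⟩ := gap_of_summable h0 (hs 1 one_pos).summable
  obtain ⟨b, hg⟩ : ∃ b, ∀ t, 0 < t →
      HasSum (fun j : {j // l j ≠ 0} => Real.exp (-(l j * t))) (θ t - b) := by
    have := hfin.to_subtype
    refine ⟨∑' _ : {j | l j = 0}, 1, fun t ht => ?_⟩
    have h1 : HasSum ((fun j => Real.exp (-(l j * t))) ∘ (↑) : {j | l j = 0} → ℝ)
        (∑' _ : {j | l j = 0}, 1) := Summable.of_finite.hasSum.congr_fun fun j => by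
      rw [Function.comp_apply, show l j = 0 from j.2, zero_mul, neg_zero, Real.exp_zero]
    exact h1.hasSum_compl_iff.2 (by simpa only [add_sub_cancel] using hs t ht)
  obtain ⟨z, s₀, ζ, m, an, hζ, -⟩ := hz b
  have ha : AntitoneOn (fun t => θ t - b) (Ioi 0) := fun s h1 t h2 h3 => by
    refine hasSum_le (fun j => ?_) (hg t h2) (hg s h1)
    exact Real.exp_le_exp.2 (neg_le_neg (mul_le_mul_of_nonneg_left h3 (h0 _)))
  obtain ⟨E, hE, hE'⟩ := zeta_tail ha hδ (C := Real.exp δ * (θ 1 - b)) fun t ht => by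
    have h1 := hg t (one_pos.trans ht)
    rw [abs_of_nonneg (h1.nonneg fun _ => (Real.exp_pos _).le), mul_right_comm]
    refine hasSum_le (fun j => ?_) h1 ((hg 1 one_pos).mul_left _)
    rw [← Real.exp_add, ← Real.exp_add]
    exact Real.exp_le_exp.2 (by nlinarith [hgap j j.2])
  have h1 : ∀ s, AnalyticAt ℂ (fun s => (Complex.Gamma s)⁻¹ * E s) s :=
    (Complex.differentiable_one_div_Gamma.mul hE).analyticAt
  refine ⟨max s₀ 0, fun s => ζ s + (Complex.Gamma s)⁻¹ * E s,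
    fun s h => (m s h).add (h1 s).meromorphicAt, an.add (h1 0), fun s h => ?_⟩
  obtain ⟨h2, h3⟩ := hζ s ((le_max_left _ _).trans_lt h)
  have h5 := h2.union (hE' s).1
  rw [Ioc_union_Ioi_eq_Ioi zero_le_one] at h5
  have h4 := zeta_sum (l := fun j : {j // l j ≠ 0} => l j) (fun j => (h0 _).lt_of_ne' j.2) hg
    ((le_max_right _ _).trans_lt h) h5
  rwa [← Ioc_union_Ioi_eq_Ioi zero_le_one, setIntegral_union Ioc_disjoint_Ioi_same
    measurableSet_Ioi h2 (hE' s).1, mul_add, ← h3, ← (hE' s).2] at h4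

end Pool.Agent.Lib.MP_570070_gt.Ex
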