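import Pool.Agent.Lib.MP_570070_gt.Ex.GCov
import Pool.Agent.Lib.MP_570070_gt.Ex.Tr
import Pool.Agent.Lib.MP_570070_gt.Ex.Mel
import Pool.Agent.Lib.MP_570070_gt.Ex.Zeta
import Pool.Agent.Lib.MP_75c153_gt.Ft.ZDefs

/-! Existence of the analytic torsion. -/

open MeasureTheory Filter Topology Set
open scoped Manifold ContDiff InnerProductSpace

set_option maxSynthPendingDepth 3

namespace Pool.Agent.Lib.MP_570070_gt.Ex

open Pool.Agent.Lib.MP_570070_gt.An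

open Pool.Agent.Lib.MP_75c153_gt.Ft

variable {n : ℕ} {X : RMfd n}

theorem heat_pe (L : L2 X) {k : ℕ} {P : ℝ → L.H k →L[ℝ] L.H k} (hP : IsHeat (dom L.D k) P)
    {F K₀ : Set X.M} (hF : IsOpen F) (hK : IsCompact K₀) (hFK : F ⊆ K₀) :
    (∀ t, 0 < t → trOn (L.on k F) (P t) ≠ ⊤) ∧
      ∀ N, PEn N fun τ => τ ^ n * (trOn (L.on k F) (P (τ ^ 2))).toReal := by
  obtain ⟨β, _, c, O, K, F', j, φ, 𝒟, h, hc, hd, hS⟩ := exists_cov L k hF hK hFK
  exact h.heat (isHeat₂_of_isHeat hP) hc hd hS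

theorem heat_zeta (L : L2 X) {k : ℕ} {P : ℝ → L.H k →L[ℝ] L.H k} (hP : IsHeat (dom L.D k) P)
    {F K₀ : Set X.M} (hF : IsOpen F) (hK : IsCompact K₀) (hFK : F ⊆ K₀) :
    (∀ t, 0 < t → trOn (L.on k F) (P t) ≠ ⊤) ∧
      ∀ b, ∃ z, IsZeta (fun t => (trOn (L.on k F) (P t)).toReal - b) z := by
  obtain ⟨h1, h2⟩ := heat_pe L hP hF hK hFK
  exact ⟨h1, exists_zeta (heat_tr_antitone (isHeat₂_of_isHeat hP) _ h1) h2⟩

theorem heat_bound (L : L2 X) {k : ℕ} {P : ℝ → L.H k →L[ℝ] L.H k} (hP : IsHeat (dom L.D k) P)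
    {F K₀ : Set X.M} (hF : IsOpen F) (hK : IsCompact K₀) (hFK : F ⊆ K₀) :
    ∃ C, ∀ t ∈ Ioc (0 : ℝ) 1, (trOn (L.on k F) (P t)).toReal ≤ C / t ^ n := by
  obtain ⟨b, C, h⟩ := (heat_pe L hP hF hK hFK).2 0
  refine ⟨C, fun t ht => ?_⟩
  have h0 : 0 < √t := Real.sqrt_pos.2 ht.1
  have h1 : √t ≤ 1 := Real.sqrt_le_one.2 ht.2
  have h2 := h (√t) ⟨h0, h1⟩
  simp only [Real.sq_sqrt ht.1.le, Finset.sum_range_zero, sub_zero, pow_zero, mul_one] at h2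
  have h3 : t ^ n ≤ √t ^ n := pow_le_pow_left₀ ht.1.le (by
    nlinarith [Real.mul_self_sqrt ht.1.le]) n
  rw [le_div_iff₀ (pow_pos ht.1 n), mul_comm]
  exact (mul_le_mul_of_nonneg_right h3 ENNReal.toReal_nonneg).trans ((le_abs_self _).trans h2)

theorem isRegInt_of {θ : ℝ → ℝ} {b : ℝ} (hb : Tendsto θ atTop (𝓝 b))
    (hi : IntegrableOn (fun t => t⁻¹ * (θ t - b)) (Ioi 1))
    (hz : ∀ b, ∃ z, IsZeta (fun t => θ t - b) z) : ∃ I, IsRegInt θ I := by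
  obtain ⟨z, s₀, ζ, h1, h2, h3, -⟩ := hz b
  exact ⟨_, b, hb, hi, s₀, ζ, h1, h2, h3, rfl⟩

theorem isTorsion_of (L : L2 X) {P : ∀ k, ℝ → L.H k →L[ℝ] L.H k}
    (hP : ∀ k, IsHeat (dom L.D k) (P k)) {F K₀ : Set X.M} (hF : IsOpen F) (hK : IsCompact K₀)
    (hFK : F ⊆ K₀) (h : ∀ k ≤ n, ∀ b, Tendsto (fun t => (trOn (L.on k F) (P k t)).toReal) atTop
      (𝓝 b) → IntegrableOn (fun t => t⁻¹ * ((trOn (L.on k F) (P k t)).toReal - b)) (Ioi 1)) :
    ∃ ρ, IsTorsion X F ρ := by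
  have key : ∀ k, ∃ I, k ≤ n → (∀ t, 0 < t → trOn (L.on k F) (P k t) ≠ ⊤) ∧
      IsRegInt (fun t => (trOn (L.on k F) (P k t)).toReal) I := fun k => by
    by_cases hk : k ≤ n
    · obtain ⟨h1, h2⟩ := heat_zeta L (hP k) hF hK hFK
      obtain ⟨b, hb⟩ := exists_limit (isHeat₂_of_isHeat (hP k)) h1
      obtain ⟨I, hI⟩ := isRegInt_of hb (h k hk b hb) h2
      exact ⟨I, fun _ => ⟨h1, hI⟩⟩
    · exact ⟨0, fun h => absurd h hk⟩
  choose I hI using key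
  exact ⟨_, L, P, I, hP, hI, rfl⟩

theorem on_univ (L : L2 X) (k : ℕ) : L.on k univ = univ := by
  simpa [L2.on] using (L.dense k).closure_eq

/-- The analytic torsion of a closed manifold exists, for every open set. -/
theorem exists_isTorsion [CompactSpace X.M] (h : HasHeat X) {F : Set X.M} (hF : IsOpen F) :
    ∃ ρ, IsTorsion X F ρ := by
  obtain ⟨L, P, hP⟩ := h
  refine isTorsion_of L hP hF isCompact_univ (subset_univ _) fun k _ b hb => ?_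
  refine tail_of_tr (isHeat₂_of_isHeat (hP k)) ?_ _ hb
  simpa only [on_univ] using (heat_zeta L (hP k) isOpen_univ isCompact_univ subset_rfl).1

/-- The Ray-Singer torsion of a closed manifold exists. -/
theorem exists_isRS [CompactSpace X.M] (h : HasHeat X) : ∃ r, IsRS X r := by
  obtain ⟨L, P, hP⟩ := h
  have key : ∀ k, ∃ d, IsLogDet (dom L.D k) d := fun k => by
    obtain ⟨h1, h2⟩ := heat_zeta L (hP k) isOpen_univ isCompact_univ subset_rfl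
    rw [on_univ] at h1 h2
    obtain ⟨ι, e, l, h3, h4, h5⟩ := exists_basis (isHeat₂_of_isHeat (hP k)) h1
    obtain ⟨s₀, ζ, h6, h7, h8⟩ := zeta_of_heat h4 h5 h2
    refine ⟨_, ι, e, l, fun j => ?_, (gap_of_summable h4 (h5 1 one_pos).summable).1, s₀, ζ, h6, h7,
      h8, rfl⟩
    obtain ⟨ξ, a, b⟩ := h3 j
    exact ⟨ξ.fst, ξ.snd, a, fun w η ψ hw => b w (WithLp.toLp 2 (η, ψ)) hw⟩
  choose d hd using key
  exact ⟨_, L, d, fun k _ => hd k, rfl⟩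

/-- The heat flows exist and have finite traces, and for some degree the integral in the
definition of the determinant class diverges. -/
def NotDetClass (X : RMfd n) (F : Set X.M) : Prop :=
  ∃ (L : L2 X) (k : ℕ) (P : ℝ → L.H k →L[ℝ] L.H k) (b : ℝ), k ≤ n ∧ IsHeat (dom L.D k) P ∧
    (∀ t, 0 < t → trOn (L.on k F) (P t) ≠ ⊤) ∧
    Tendsto (fun t => (trOn (L.on k F) (P t)).toReal) atTop (𝓝 b) ∧
    ¬ IntegrableOn (fun t => t⁻¹ * ((trOn (L.on k F) (P t)).toReal - b)) (Ioi 1)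

theorem notDetClass_or (h : HasHeat X) {F K₀ : Set X.M} (hF : IsOpen F) (hK : IsCompact K₀)
    (hFK : F ⊆ K₀) : NotDetClass X F ∨ ∃ ρ, IsTorsion X F ρ := by
  obtain ⟨L, P, hP⟩ := h
  refine or_iff_not_imp_left.2 fun hn => isTorsion_of L hP hF hK hFK fun k hk b hb => ?_
  by_contra hi
  exact hn ⟨L, k, P k, b, hk, hP k, (heat_zeta L (hP k) hF hK hFK).1, hb, hi⟩

end Pool.Agent.Lib.MP_570070_gt.Ex
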